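import Mathlib
import Pool.Agent.H135R2.VS.Der
import Pool.Agent.H327R2.SC.Der

/-!
# Extending derivations
-/

set_option autoImplicit false

open Polynomial

noncomputable section

namespace Pool.Agent.K1H83.BD

/-- the derivative of the value of a polynomial -/
theorem der_eval {R M : Type*} [CommRing R] [Algebra ℚ R] [AddCommGroup M] [Module R M] [Module ℚ M]
    (d : Derivation ℚ R M) (P : R[X]) (s : R) :
    d (P.eval s) = P.sum (fun i a => s ^ i • d a) + (P.derivative.eval s) • d s := by
  induction P using Polynomial.induction_on' with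
  | add p q hp hq =>
    rw [eval_add, map_add, hp, hq, derivative_add, eval_add, add_smul,
      Polynomial.sum_add_index _ _ _ (fun i => by rw [map_zero, smul_zero])
        (fun i a b => by rw [map_add, smul_add])]
    abel
  | monomial n a =>
    rw [eval_monomial, Polynomial.sum_monomial_index _ _ (by rw [map_zero, smul_zero]),
      derivative_monomial, eval_monomial, Derivation.leibniz, Derivation.leibniz_pow, add_comm]
    congr 1
    rw [← Nat.cast_smul_eq_nsmul R, smul_smul, smul_smul]

/-- a derivation which kills a field kills its algebraic extensions -/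
theorem kill_alg {S M : Type*} [Field S] [Algebra ℚ S] [AddCommGroup M] [Module S M] [Module ℚ M]
    (E : Derivation ℚ S M) (F : IntermediateField ℚ S) (hF : ∀ x ∈ F, E x = 0) {s : S}
    (hs : IsAlgebraic F s) : E s = 0 := by
  have hc : CharZero F := charZero_of_injective_algebraMap (algebraMap ℚ F).injective
  have h1 := der_eval E ((minpoly F s).map (algebraMap F S)) s
  rw [← Polynomial.eval₂_eq_eval_map, ← Polynomial.aeval_def, minpoly.aeval, map_zero,
    Polynomial.derivative_map, ← Polynomial.eval₂_eq_eval_map, ← Polynomial.aeval_def] at h1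
  have h2 : ((minpoly F s).map (algebraMap F S)).sum (fun i a => s ^ i • E a) = 0 := by
    rw [Polynomial.sum_def]
    refine Finset.sum_eq_zero fun i _ => ?_
    rw [Polynomial.coeff_map]
    have h4 : E (algebraMap F S ((minpoly F s).coeff i)) = 0 := hF _ ((minpoly F s).coeff i).2
    rw [h4, smul_zero]
  rw [h2, zero_add] at h1
  have h3 : aeval s (derivative (minpoly F s)) ≠ 0 :=
    (minpoly.irreducible hs.isIntegral).separable.aeval_derivative_ne_zero (minpoly.aeval F s)
  exact (smul_eq_zero.1 h1.symm).resolve_left h3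

/-- extension of derivations -/
theorem ext_der (S : IntermediateField ℚ ℂ) (d : Derivation ℚ S ℂ) :
    ∃ D : Derivation ℚ ℂ ℂ, ∀ x : S, D x = d x := by
  obtain ⟨t, ht⟩ := exists_isTranscendenceBasis ℚ S
  have h1 : AlgebraicIndependent ℚ (fun i : t => ((i : S) : ℂ)) :=
    ht.1.map' (f := S.val) S.val.injective
  obtain ⟨D, hD⟩ := Pool.Agent.H135R2.VS.exists_der h1 (fun i => d i)
  refine ⟨D, fun x => ?_⟩
  have h2 : Algebra.IsAlgebraic (IntermediateField.adjoin ℚ (Set.range (Subtype.val : t → S))) S :=
    ht.isAlgebraic_field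
  have h3 := kill_alg (D.compAlgebraMap S - d)
    (IntermediateField.adjoin ℚ (Set.range (Subtype.val : t → S))) (fun x hx => by
      induction hx using IntermediateField.adjoin_induction with
      | mem x hx =>
        obtain ⟨i, rfl⟩ := hx
        rw [Derivation.sub_apply, sub_eq_zero]
        exact hD i
      | algebraMap q => exact Derivation.map_algebraMap _ _
      | add x y _ _ hx hy => rw [map_add, hx, hy, add_zero]
      | inv x _ hx => rw [Derivation.leibniz_inv, hx, smul_zero]
      | mul x y _ _ hx hy => rw [Derivation.leibniz, hx, hy, smul_zero, smul_zero, add_zero])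
    (h2.isAlgebraic x)
  rw [Derivation.sub_apply, sub_eq_zero] at h3
  exact h3

/-- `S` is relatively algebraically closed in `ℂ` -/
def Clo (S : IntermediateField ℚ ℂ) : Prop := ∀ z : ℂ, IsAlgebraic S z → z ∈ S

/-- the elements with derivative in `S` -/
def der_sub (D : Derivation ℚ ℂ ℂ) (S : IntermediateField ℚ ℂ) : IntermediateField ℚ ℂ where
  carrier := {z | z ∈ S ∧ D z ∈ S}
  mul_mem' := by
    rintro a b ⟨ha, ha'⟩ ⟨hb, hb'⟩
    refine ⟨mul_mem ha hb, ?_⟩
    rw [Derivation.leibniz]
    exact add_mem (mul_mem ha hb') (mul_mem hb ha')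
  add_mem' := by
    rintro a b ⟨ha, ha'⟩ ⟨hb, hb'⟩
    refine ⟨add_mem ha hb, ?_⟩
    rw [map_add]
    exact add_mem ha' hb'
  algebraMap_mem' := fun q => ⟨S.algebraMap_mem q, by rw [D.map_algebraMap]; exact zero_mem _⟩
  inv_mem' := by
    rintro a ⟨ha, ha'⟩
    refine ⟨inv_mem ha, ?_⟩
    rw [Derivation.leibniz_inv]
    exact mul_mem (neg_mem (pow_mem (inv_mem ha) 2)) ha'

theorem der_sub_alg {D : Derivation ℚ ℂ ℂ} {S : IntermediateField ℚ ℂ} (hS : Clo S) {z : ℂ}
    (hz : IsAlgebraic (der_sub D S) z) : z ∈ der_sub D S := by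
  have hle : der_sub D S ≤ S := fun x hx => hx.1
  have hzS : z ∈ S := by
    refine hS z ?_
    obtain ⟨p, hp, hp0⟩ := hz
    refine ⟨p.map (IntermediateField.inclusion hle).toRingHom, ?_, ?_⟩
    · exact (Polynomial.map_ne_zero_iff (IntermediateField.inclusion hle).injective).2 hp
    · rw [Polynomial.aeval_def, Polynomial.eval₂_map]
      exact hp0
  refine ⟨hzS, ?_⟩
  set F := der_sub D S
  have h1 := der_eval D ((minpoly F z).map (algebraMap F ℂ)) z
  rw [← Polynomial.eval₂_eq_eval_map, ← Polynomial.aeval_def, minpoly.aeval, map_zero,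
    Polynomial.derivative_map, ← Polynomial.eval₂_eq_eval_map, ← Polynomial.aeval_def] at h1
  have h2 : ((minpoly F z).map (algebraMap F ℂ)).sum (fun i a => z ^ i • D a) ∈ S := by
    rw [Polynomial.sum_def]
    refine sum_mem fun i _ => ?_
    rw [Polynomial.coeff_map]
    exact mul_mem (pow_mem hzS _) ((minpoly F z).coeff i).2.2
  have h3 : aeval z (derivative (minpoly F z)) ≠ 0 :=
    (minpoly.irreducible hz.isIntegral).separable.aeval_derivative_ne_zero (minpoly.aeval F z)
  have h4 : aeval z (derivative (minpoly F z)) ∈ S := by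
    rw [Polynomial.aeval_eq_sum_range]
    refine sum_mem fun i _ => ?_
    rw [Algebra.smul_def]
    exact mul_mem (((derivative (minpoly F z)).coeff i).2.1) (pow_mem hzS _)
  have h5 : D z = -(((minpoly F z).map (algebraMap F ℂ)).sum (fun i a => z ^ i • D a)) /
      aeval z (derivative (minpoly F z)) := by
    rw [eq_div_iff h3]
    rw [smul_eq_mul] at h1
    linear_combination -h1
  rw [h5]
  exact div_mem (neg_mem h2) h4

/-- closure of a set: the numbers algebraic over the field generated by it -/
def cl (A : Set ℂ) : IntermediateField ℚ ℂ :=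
  (algebraicClosure (IntermediateField.adjoin ℚ A) ℂ).restrictScalars ℚ

theorem mem_cl {A : Set ℂ} {z : ℂ} : z ∈ cl A ↔ IsAlgebraic (IntermediateField.adjoin ℚ A) z := by
  unfold cl
  rw [IntermediateField.mem_restrictScalars, mem_algebraicClosure_iff]

theorem subset_cl (A : Set ℂ) : A ⊆ cl A := fun x hx =>
  mem_cl.2 (isAlgebraic_algebraMap (⟨x, IntermediateField.subset_adjoin ℚ A hx⟩ :
    IntermediateField.adjoin ℚ A))

theorem alg_of_subset {R : Type} [CommRing R] [Algebra R ℂ] (S : IntermediateField ℚ ℂ)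
    (h : ∀ r : R, algebraMap R ℂ r ∈ S) (hi : Function.Injective (algebraMap R ℂ)) {z : ℂ}
    (hz : IsAlgebraic R z) : IsAlgebraic S z := by
  let φ : R →+* S :=
    { toFun := fun r => ⟨algebraMap R ℂ r, h r⟩
      map_one' := Subtype.ext (map_one _)
      map_mul' := fun a b => Subtype.ext (map_mul _ _ _)
      map_zero' := Subtype.ext (map_zero _)
      map_add' := fun a b => Subtype.ext (map_add _ _ _) }
  have hφ : Function.Injective φ := fun a b hab => hi (congrArg Subtype.val hab)
  obtain ⟨p, hp, hp0⟩ := hz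
  refine ⟨p.map φ, (Polynomial.map_ne_zero_iff hφ).2 hp, ?_⟩
  rw [Polynomial.aeval_def, Polynomial.eval₂_map]
  exact hp0

theorem cl_closed (A : Set ℂ) : Clo (cl A) := by
  intro z hz
  have h1 : IsAlgebraic (algebraicClosure (IntermediateField.adjoin ℚ A) ℂ) z :=
    hz
  rw [mem_cl]
  exact (isIntegral_trans z h1.isIntegral).isAlgebraic

theorem cl_le {A : Set ℂ} {S : IntermediateField ℚ ℂ} (hS : Clo S) (hA : A ⊆ S) : cl A ≤ S := by
  intro z hz
  have h1 : IntermediateField.adjoin ℚ A ≤ S := IntermediateField.adjoin_le_iff.2 hA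
  exact hS z (alg_of_subset S (fun r => h1 r.2) (algebraMap (IntermediateField.adjoin ℚ A) ℂ).injective
    (mem_cl.1 hz))

/-- derivatives of the elements of the closure -/
theorem der_mem_cl {A : Set ℂ} {D : Derivation ℚ ℂ ℂ} {S : IntermediateField ℚ ℂ} (hS : Clo S)
    (hA : ∀ a ∈ A, a ∈ S ∧ D a ∈ S) {z : ℂ} (hz : z ∈ cl A) : D z ∈ S := by
  have h1 : IntermediateField.adjoin ℚ A ≤ der_sub D S := IntermediateField.adjoin_le_iff.2 hA
  exact (der_sub_alg hS (alg_of_subset _ (fun r => h1 r.2)
    (algebraMap (IntermediateField.adjoin ℚ A) ℂ).injective (mem_cl.1 hz))).2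

/-- derivations which kill the generators -/
theorem kill_cl {A : Set ℂ} {D : Derivation ℚ ℂ ℂ} (hA : ∀ a ∈ A, D a = 0) {z : ℂ}
    (hz : z ∈ cl A) : D z = 0 := by
  refine Pool.Agent.H327R2.SC.der_alg (IntermediateField.adjoin ℚ A) D (fun x hx => ?_)
    (mem_cl.1 hz)
  induction hx using IntermediateField.adjoin_induction with
  | mem x hx => exact hA x hx
  | algebraMap q => exact D.map_algebraMap q
  | add x y _ _ hx hy => rw [map_add, hx, hy, add_zero]
  | inv x _ hx => rw [Derivation.leibniz_inv, hx, smul_zero]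
  | mul x y _ _ hx hy => rw [Derivation.leibniz, hx, hy, smul_zero, smul_zero, add_zero]

/-- an element killed by all derivations over a closed field is in this field -/
theorem mem_of_killed {S : IntermediateField ℚ ℂ} (hS : Clo S) {z : ℂ}
    (h : ∀ D : Derivation ℚ ℂ ℂ, (∀ x ∈ S, D x = 0) → D z = 0) : z ∈ S := by
  by_contra hz
  have h1 : Transcendental S z := fun h2 => hz (hS z h2)
  have h2 : AlgebraicIndependent S (fun _ : Unit => z) :=
    (algebraicIndependent_unique_type_iff (R := S) (x := fun _ : Unit => z)).2 h1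
  obtain ⟨D, hD⟩ := Pool.Agent.H135R2.VS.exists_der h2 (fun _ => 1)
  have h3 := h (D.restrictScalars ℚ) (fun x hx => D.map_algebraMap ⟨x, hx⟩)
  have h4 : D z = 1 := hD ()
  have h5 : D z = 0 := h3
  rw [h5] at h4
  exact zero_ne_one h4

end Pool.Agent.K1H83.BD
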