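import Mathlib

/-!
# Ultrapowers of countable algebraically closed fields inside the complex numbers
-/

set_option autoImplicit false

open Filter Cardinal

namespace Pool.Agent.K1H83.BD

/-- a field of cardinality at most that of the continuum over a countable subfield of `ℂ` embeds
into `ℂ` over this subfield -/
theorem exists_hom (N : IntermediateField ℚ ℂ) (hN : (N : Set ℂ).Countable) (G : Type) [Field G]
    [Algebra N G] (hG : #G ≤ #ℂ) : ∃ f : G →+* ℂ, ∀ x : N, f (algebraMap N G x) = x := by
  obtain ⟨s, hs⟩ := exists_isTranscendenceBasis N G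
  obtain ⟨t, ht⟩ := exists_isTranscendenceBasis N ℂ
  have hN' : #N ≤ ℵ₀ := Cardinal.mk_le_aleph0_iff.2 hN.to_subtype
  have hC : ℵ₀ < #ℂ := by
    rw [Cardinal.mk_complex]
    exact Cardinal.aleph0_lt_continuum
  have h1 : #ℂ = #t := IsAlgClosed.cardinal_eq_cardinal_transcendence_basis_of_aleph0_lt' _ ht hN' hC
  have h2 : #s ≤ #t := (Cardinal.mk_set_le s).trans (hG.trans h1.le)
  obtain ⟨g⟩ := Cardinal.le_def _ _ |>.1 h2
  let w : s → ℂ := fun i => (g i : ℂ)
  have hw : AlgebraicIndependent N w := ht.1.comp g g.injective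
  let φ : Algebra.adjoin N (Set.range (Subtype.val : s → G)) →ₐ[N] ℂ :=
    (MvPolynomial.aeval w).comp hs.1.aevalEquiv.symm.toAlgHom
  have hφ : Function.Injective φ := by
    have h3 : Function.Injective (MvPolynomial.aeval w : MvPolynomial s N →ₐ[N] ℂ) := hw
    exact h3.comp hs.1.aevalEquiv.symm.injective
  letI : Algebra (Algebra.adjoin N (Set.range (Subtype.val : s → G))) ℂ := φ.toRingHom.toAlgebra
  have hfs : FaithfulSMul (Algebra.adjoin N (Set.range (Subtype.val : s → G))) ℂ :=
    (faithfulSMul_iff_algebraMap_injective _ _).2 hφ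
  have halg : Algebra.IsAlgebraic (Algebra.adjoin N (Set.range (Subtype.val : s → G))) G :=
    hs.isAlgebraic
  let F : G →ₐ[Algebra.adjoin N (Set.range (Subtype.val : s → G))] ℂ := IsAlgClosed.lift
  refine ⟨F.toRingHom, fun x => ?_⟩
  have h4 : algebraMap N G x = algebraMap (Algebra.adjoin N (Set.range (Subtype.val : s → G))) G
      (algebraMap N _ x) := rfl
  change F (algebraMap N G x) = x
  rw [h4, F.commutes]
  change φ (algebraMap N _ x) = x
  rw [φ.commutes]
  rfl

end Pool.Agent.K1H83.BD
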