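import Mathlib
import Pool.Agent.K1H83.BD.Emb

/-!
# Ultrapowers of countable algebraically closed fields inside the complex numbers, II
-/

set_option autoImplicit false

open Filter Cardinal Polynomial

noncomputable section

namespace Pool.Agent.K1H83.BD

variable {N : IntermediateField ℚ ℂ}

/-- the ultrapower -/
abbrev Gm (N : IntermediateField ℚ ℂ) : Type := Filter.Germ (hyperfilter ℕ : Filter ℕ) N

/-- the quotient map -/
def qm (N : IntermediateField ℚ ℂ) : (ℕ → N) →+* Gm N where
  toFun f := (f : Filter.Germ (hyperfilter ℕ : Filter ℕ) N)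
  map_one' := rfl
  map_mul' _ _ := rfl
  map_zero' := rfl
  map_add' _ _ := rfl

theorem qm_zero {f : ℕ → N} : qm N f = 0 ↔ ∀ᶠ k in (hyperfilter ℕ : Filter ℕ), f k = 0 := by
  change (f : Filter.Germ (hyperfilter ℕ : Filter ℕ) N) = ((0 : ℕ → N) : Filter.Germ _ N) ↔ _
  rw [Filter.Germ.coe_eq]
  rfl

theorem qm_surj : Function.Surjective (qm N) := fun g => by
  induction g using Filter.Germ.inductionOn with
  | _ f => exact ⟨f, rfl⟩

theorem gm_closed (hN : IsAlgClosed N) : IsAlgClosed (Gm N) := by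
  refine IsAlgClosed.of_exists_root _ fun p hp hirr => ?_
  have h1 : p ∈ Polynomial.lifts (qm N) := by
    rw [Polynomial.lifts_iff_coeff_lifts]
    exact fun n => qm_surj _
  obtain ⟨P, hP, hdeg, hmon⟩ := Polynomial.lifts_and_natDegree_eq_and_monic h1 hp
  have h2 : ∀ k, ∃ r : N, (P.map (Pi.evalRingHom (fun _ : ℕ => (N : Type)) k)).eval r = 0 := by
    intro k
    obtain ⟨r, hr⟩ := IsAlgClosed.exists_root (P.map (Pi.evalRingHom (fun _ : ℕ => (N : Type)) k)) (by
      intro h3
      have h4 : P.natDegree = 0 := by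
        rw [← hmon.natDegree_map (Pi.evalRingHom (fun _ : ℕ => (N : Type)) k)]
        exact Polynomial.natDegree_eq_of_degree_eq_some h3
      rw [hdeg] at h4
      exact hirr.natDegree_pos.ne' h4)
    exact ⟨r, hr⟩
  choose r hr using h2
  refine ⟨qm N r, ?_⟩
  have h3 : P.eval r = 0 := by
    funext k
    have h4 := hr k
    rw [Polynomial.eval_map] at h4
    have h5 := Polynomial.eval₂_at_apply (p := P) (Pi.evalRingHom (fun _ : ℕ => (N : Type)) k) r
    exact h5.symm.trans h4
  rw [← hP, Polynomial.eval_map, Polynomial.eval₂_at_apply, h3, map_zero]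

/-- an ultrapower of `N` inside `ℂ`, over `N` -/
structure Up (N : IntermediateField ℚ ℂ) where
  /-- the map -/
  c : (ℕ → N) →+* ℂ
  const : ∀ x : N, c (fun _ => x) = x
  zero_iff : ∀ f, c f = 0 ↔ ∀ᶠ k in (hyperfilter ℕ : Filter ℕ), f k = 0
  alg : ∀ (S : IntermediateField ℚ ℂ), (∀ x ∈ S, ∃ f, c f = x) → ∀ z : ℂ, IsAlgebraic S z →
    ∃ f, c f = z

theorem exists_up (N : IntermediateField ℚ ℂ) (hN : (N : Set ℂ).Countable) (hc : IsAlgClosed N) :
    Nonempty (Up N) := by
  have hG : #(Gm N) ≤ #ℂ := by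
    rw [Cardinal.mk_complex]
    refine (Cardinal.mk_le_of_surjective (qm_surj (N := N))).trans ?_
    have : #N ≤ ℵ₀ := Cardinal.mk_le_aleph0_iff.2 hN.to_subtype
    rw [Cardinal.mk_pi, Cardinal.prod_const, Cardinal.mk_nat, Cardinal.lift_aleph0,
      Cardinal.lift_id]
    exact (Cardinal.power_le_power_right this).trans (by rw [Cardinal.aleph0_power_aleph0])
  letI : Algebra N (Gm N) := ((qm N).comp (Pi.constRingHom ℕ N)).toAlgebra
  obtain ⟨f, hf⟩ := exists_hom N hN (Gm N) hG
  have hcl := gm_closed hc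
  refine ⟨⟨f.comp (qm N), fun x => hf x, fun g => ?_, fun S hS z hz => ?_⟩⟩
  · rw [← qm_zero]
    exact map_eq_zero f
  · letI : Algebra (Gm N) ℂ := f.toAlgebra
    have h1 : IsAlgebraic (Gm N) z := by
      obtain ⟨p, hp, hp0⟩ := hz
      have h2 : ∀ x : S, ∃ g : Gm N, f g = x := fun x => by
        obtain ⟨g, hg⟩ := hS x x.2
        exact ⟨qm N g, hg⟩
      have h3 : p.map (algebraMap S ℂ) ∈ Polynomial.lifts f := by
        rw [Polynomial.lifts_iff_coeff_lifts]
        intro n
        rw [Polynomial.coeff_map]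
        exact h2 _
      obtain ⟨P, hP⟩ := h3
      have hP' : P.map f = p.map (algebraMap S ℂ) := hP
      refine ⟨P, ?_, ?_⟩
      · rintro rfl
        rw [Polynomial.map_zero] at hP'
        exact hp ((Polynomial.map_eq_zero _).1 hP'.symm)
      · rw [Polynomial.aeval_def, Polynomial.eval₂_eq_eval_map]
        change (P.map f).eval z = 0
        rw [hP', ← Polynomial.eval₂_eq_eval_map, ← Polynomial.aeval_def, hp0]
    have h4 : (minpoly (Gm N) z).degree = 1 :=
      IsAlgClosed.degree_eq_one_of_irreducible _ (minpoly.irreducible h1.isIntegral)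
    obtain ⟨g, hg⟩ := minpoly.mem_range_of_degree_eq_one _ _ h4
    obtain ⟨g', rfl⟩ := qm_surj g
    exact ⟨g', hg⟩

end Pool.Agent.K1H83.BD
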