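import Mathlib
import Pool.Agent.K1H83.BD.Emb2
import Pool.Agent.K1H83.BD.Der

/-!
# Derivations of the ultrapower
-/

set_option autoImplicit false

open Filter

noncomputable section

namespace Pool.Agent.K1H83.BD

namespace Up

variable {N : IntermediateField ℚ ℂ} (u : Up N)

theorem eq_iff {f g : ℕ → N} : u.c f = u.c g ↔ ∀ᶠ k in (hyperfilter ℕ : Filter ℕ), f k = g k := by
  rw [← sub_eq_zero, ← map_sub, u.zero_iff]
  simp only [Pi.sub_apply, sub_eq_zero]

theorem inv_eq (f : ℕ → N) : u.c (fun k => (f k)⁻¹) = (u.c f)⁻¹ := by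
  by_cases h : u.c f = 0
  · rw [h, inv_zero, u.zero_iff]
    filter_upwards [(u.zero_iff f).1 h] with k hk
    rw [hk, inv_zero]
  · refine eq_inv_of_mul_eq_one_left ?_
    rw [← map_mul, ← map_one u.c, u.eq_iff]
    have h1 : ¬ ∀ᶠ k in (hyperfilter ℕ : Filter ℕ), f k = 0 := fun h2 => h ((u.zero_iff f).2 h2)
    rw [← Ultrafilter.eventually_not] at h1
    filter_upwards [h1] with k hk
    simp only [Pi.mul_apply, Pi.one_apply]
    exact inv_mul_cancel₀ hk

/-- the elements of the ultrapower of a subfield -/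
def ult (K : IntermediateField ℚ ℂ) : IntermediateField ℚ ℂ where
  carrier := {z | ∃ f : ℕ → N, (∀ k, (f k : ℂ) ∈ K) ∧ u.c f = z}
  mul_mem' := by
    rintro _ _ ⟨f, hf, rfl⟩ ⟨g, hg, rfl⟩
    exact ⟨f * g, fun k => mul_mem (hf k) (hg k), map_mul _ _ _⟩
  add_mem' := by
    rintro _ _ ⟨f, hf, rfl⟩ ⟨g, hg, rfl⟩
    exact ⟨f + g, fun k => add_mem (hf k) (hg k), map_add _ _ _⟩
  algebraMap_mem' := by
    intro q
    exact ⟨fun _ => algebraMap ℚ N q, fun k => K.algebraMap_mem q, u.const _⟩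
  inv_mem' := by
    rintro _ ⟨f, hf, rfl⟩
    exact ⟨fun k => (f k)⁻¹, fun k => inv_mem (hf k), u.inv_eq f⟩

theorem mem_ult {K : IntermediateField ℚ ℂ} {z : ℂ} :
    z ∈ u.ult K ↔ ∃ f : ℕ → N, (∀ k, (f k : ℂ) ∈ K) ∧ u.c f = z := Iff.rfl

/-- the ultrapower -/
def rg : IntermediateField ℚ ℂ := u.ult N

theorem c_mem (f : ℕ → N) : u.c f ∈ u.rg := ⟨f, fun k => (f k).2, rfl⟩

theorem rg_closed : Clo u.rg := by
  intro z hz
  obtain ⟨f, hf⟩ := u.alg u.rg (by rintro x ⟨f, -, hf⟩; exact ⟨f, hf⟩) z hz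
  rw [← hf]
  exact u.c_mem f

theorem le_ult {K : IntermediateField ℚ ℂ} (hK : K ≤ N) : K ≤ u.ult K := fun x hx =>
  ⟨fun _ => ⟨x, hK hx⟩, fun _ => hx, u.const _⟩

theorem ult_le_rg (K : IntermediateField ℚ ℂ) : u.ult K ≤ u.rg := by
  rintro x ⟨f, -, rfl⟩
  exact u.c_mem f

/-- a derivation of `N`, applied to a sequence -/
def dn {d : Derivation ℚ ℂ ℂ} (hd : ∀ x ∈ N, d x ∈ N) (f : ℕ → N) : ℕ → N :=
  fun k => ⟨d (f k), hd _ (f k).2⟩

theorem exists_lift {d : Derivation ℚ ℂ ℂ} (hd : ∀ x ∈ N, d x ∈ N) :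
    ∃ D : Derivation ℚ ℂ ℂ, ∀ f : ℕ → N, D (u.c f) = u.c (dn hd f) := by
  classical
  have hch : ∀ x : u.rg, ∃ f : ℕ → N, u.c f = x := fun x => by
    obtain ⟨f, -, hf⟩ := x.2
    exact ⟨f, hf⟩
  choose F hF using hch
  have key : ∀ (x : u.rg) (f : ℕ → N), u.c f = x → u.c (dn hd (F x)) = u.c (dn hd f) := by
    intro x f hf
    rw [u.eq_iff]
    have h1 : u.c (F x) = u.c f := by rw [hF, hf]
    rw [u.eq_iff] at h1
    filter_upwards [h1] with k hk
    refine Subtype.ext ?_
    change d (F x k : ℂ) = d (f k : ℂ)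
    rw [hk]
  let T : u.rg →ₗ[ℚ] ℂ :=
    { toFun := fun x => u.c (dn hd (F x))
      map_add' := fun x y => by
        rw [key (x + y) (F x + F y) (by rw [map_add, hF, hF]; rfl), ← map_add]
        congr 1
        funext k
        exact Subtype.ext (map_add d _ _)
      map_smul' := fun q x => by
        rw [key (q • x) (q • F x) (by
          have : u.c (q • F x) = q • u.c (F x) := by
            have h1 : q • F x = (fun _ => algebraMap ℚ N q) * F x := by
              funext k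
              rw [Pi.smul_apply, Pi.mul_apply, Algebra.smul_def]
            rw [h1, map_mul, u.const, Algebra.smul_def]
            rfl
          rw [this, hF]
          rfl)]
        have h2 : dn hd (q • F x) = (fun _ => algebraMap ℚ N q) * dn hd (F x) := by
          funext k
          refine Subtype.ext ?_
          change d (q • (F x k : ℂ)) = (q : ℂ) * d (F x k)
          rw [d.map_smul, Rat.smul_def]
        rw [h2, map_mul, u.const, RingHom.id_apply, Algebra.smul_def]
        rfl }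
  let dd : Derivation ℚ u.rg ℂ := Derivation.mk' T (fun x y => by
    change u.c (dn hd (F (x * y))) = x • u.c (dn hd (F y)) + y • u.c (dn hd (F x))
    rw [key (x * y) (F x * F y) (by rw [map_mul, hF, hF]; rfl)]
    have h2 : dn hd (F x * F y) = F x * dn hd (F y) + F y * dn hd (F x) := by
      funext k
      refine Subtype.ext ?_
      change d ((F x k : ℂ) * (F y k : ℂ)) = F x k * d (F y k) + F y k * d (F x k)
      rw [Derivation.leibniz]
      rfl
    rw [h2, map_add, map_mul, map_mul, hF, hF]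
    rfl)
  obtain ⟨D, hD⟩ := ext_der u.rg dd
  refine ⟨D, fun f => ?_⟩
  have h1 := hD ⟨u.c f, u.c_mem f⟩
  refine h1.trans ?_
  exact key ⟨u.c f, u.c_mem f⟩ f rfl

end Up

end Pool.Agent.K1H83.BD
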