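import Mathlib
import Pool.Agent.K1H83.BD.Lift

/-!
# Derivations of the ultrapower, II
-/

set_option autoImplicit false

open Filter

noncomputable section

namespace Pool.Agent.K1H83.BD

namespace Up

variable {N : IntermediateField ℚ ℂ} (u : Up N)

/-- numbers of the ultrapower of `K` which are algebraically independent over `K` are
algebraically independent over `N` -/
theorem algInd_ult {K : IntermediateField ℚ ℂ} (hK : K ≤ N) {κ : Type} (x : κ → ℂ)
    (hx : ∀ i, x i ∈ u.ult K) (h : AlgebraicIndependent K x) : AlgebraicIndependent N x := by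
  classical
  rw [algebraicIndependent_iff] at h ⊢
  intro p hp
  choose g hg hgx using hx
  have h1 : ∀ᶠ k in (hyperfilter ℕ : Filter ℕ),
      (MvPolynomial.eval (fun i => g i k) p : N) = 0 := by
    have h2 : u.c (fun k => MvPolynomial.eval (fun i => g i k) p) = 0 := by
      rw [← hp]
      let f1 : MvPolynomial κ N →+* ℂ :=
        u.c.comp (RingHom.pi (fun k => MvPolynomial.eval (fun i => g i k)))
      have h3 : f1 = (MvPolynomial.aeval x : MvPolynomial κ N →ₐ[N] ℂ).toRingHom := by
        refine MvPolynomial.ringHom_ext (fun a => ?_) (fun i => ?_)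
        · change u.c (fun k => MvPolynomial.eval (fun i => g i k) (MvPolynomial.C a)) =
            MvPolynomial.aeval x (MvPolynomial.C a)
          simp only [MvPolynomial.eval_C]
          rw [u.const, MvPolynomial.aeval_C]
          rfl
        · change u.c (fun k => MvPolynomial.eval (fun i => g i k) (MvPolynomial.X i)) =
            MvPolynomial.aeval x (MvPolynomial.X i)
          simp only [MvPolynomial.eval_X]
          rw [MvPolynomial.aeval_X, ← hgx i]
      exact congrArg (fun f : MvPolynomial κ N →+* ℂ => f p) h3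
    exact (u.zero_iff _).1 h2
  by_contra hne
  obtain ⟨m, hm⟩ := MvPolynomial.ne_zero_iff.1 hne
  have hm' : ((p.coeff m : N) : ℂ) ≠ 0 := fun h2 => hm (Subtype.ext h2)
  obtain ⟨φ, hφ⟩ : ∃ φ : Module.Dual K ℂ, φ ((p.coeff m : N) : ℂ) ≠ 0 := by
    by_contra hcon
    push Not at hcon
    exact hm' ((Module.forall_dual_apply_eq_zero_iff K _).1 hcon)
  let q : MvPolynomial κ K :=
    ∑ m ∈ p.support, MvPolynomial.monomial m (φ ((p.coeff m : N) : ℂ))
  have hq : MvPolynomial.aeval x q = 0 := by
    have h2 : MvPolynomial.aeval x q = u.c (fun k => ∑ m ∈ p.support,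
        (⟨φ ((p.coeff m : N) : ℂ), hK (φ ((p.coeff m : N) : ℂ)).2⟩ : N) *
          ∏ i ∈ m.support, (g i k) ^ (m i)) := by
      have h3 : (fun k => ∑ m ∈ p.support,
          (⟨φ ((p.coeff m : N) : ℂ), hK (φ ((p.coeff m : N) : ℂ)).2⟩ : N) *
          ∏ i ∈ m.support, (g i k) ^ (m i)) = ∑ m ∈ p.support,
          (fun _ => (⟨φ ((p.coeff m : N) : ℂ), hK (φ ((p.coeff m : N) : ℂ)).2⟩ : N)) *
          ∏ i ∈ m.support, (g i) ^ (m i) := by
        funext k
        rw [Finset.sum_apply]
        refine Finset.sum_congr rfl fun m _ => ?_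
        rw [Pi.mul_apply, Finset.prod_apply]
        rfl
      rw [h3, map_sum, map_sum]
      refine Finset.sum_congr rfl fun m _ => ?_
      rw [map_mul, u.const, map_prod, MvPolynomial.aeval_monomial]
      congr 1
      rw [Finsupp.prod]
      refine Finset.prod_congr rfl fun i _ => ?_
      rw [map_pow, hgx]
    rw [h2, u.zero_iff]
    filter_upwards [h1] with k hk
    refine Subtype.ext ?_
    have h4 : (∑ m ∈ p.support, ((p.coeff m : N) : ℂ) * ∏ i ∈ m.support, (g i k : ℂ) ^ (m i)) = 0 := by
      rw [MvPolynomial.eval_eq] at hk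
      have := congrArg (fun z : N => (z : ℂ)) hk
      simpa using this
    have h5 := congrArg φ h4
    rw [map_sum, map_zero] at h5
    have h6 := congrArg (fun z : K => (z : ℂ)) h5
    have h7 : ∀ m ∈ p.support, (φ (((p.coeff m : N) : ℂ) * ∏ i ∈ m.support, (g i k : ℂ) ^ (m i)) : ℂ) =
        (φ ((p.coeff m : N) : ℂ) : ℂ) * ∏ i ∈ m.support, (g i k : ℂ) ^ (m i) := by
      intro m _
      have h8 : ((p.coeff m : N) : ℂ) * ∏ i ∈ m.support, (g i k : ℂ) ^ (m i) =
          (⟨∏ i ∈ m.support, (g i k : ℂ) ^ (m i), prod_mem fun i _ => pow_mem (hg i k) _⟩ : K) •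
            ((p.coeff m : N) : ℂ) := by
        rw [Algebra.smul_def, mul_comm]
        rfl
      rw [h8, map_smul, smul_eq_mul, mul_comm]
      rfl
    have h9 : (∑ m ∈ p.support, (φ ((p.coeff m : N) : ℂ) : ℂ) *
        ∏ i ∈ m.support, (g i k : ℂ) ^ (m i)) = 0 := by
      rw [← Finset.sum_congr rfl h7]
      simpa using h6
    simpa using h9
  have hq0 := h q hq
  have h10 : q.coeff m = φ ((p.coeff m : N) : ℂ) := by
    simp only [q, MvPolynomial.coeff_sum, MvPolynomial.coeff_monomial]
    rw [Finset.sum_ite_eq' p.support m, if_pos (MvPolynomial.mem_support_iff.2 hm)]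
  rw [hq0, MvPolynomial.coeff_zero] at h10
  exact hφ h10.symm

end Up

end Pool.Agent.K1H83.BD
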