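import Mathlib
import Pool.Agent.K1H83.BD.Lift2
import Pool.Agent.TH813.Core

/-!
# Derivations of the ultrapower, III
-/

set_option autoImplicit false

open Filter

noncomputable section

namespace Pool.Agent.K1H83.BD

namespace Up

variable {N : IntermediateField ℚ ℂ} (u : Up N)

/-- for a nonconstant element of the ultrapower of `K` there is a derivation over `N` which
does not kill it and maps the ultrapower of `K` to itself -/
theorem exists_delta {K : IntermediateField ℚ ℂ} (hK : K ≤ N) (hKc : Clo K) {s : ℂ}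
    (hs : s ∈ u.ult K) (hsK : s ∉ K) : ∃ δ : Derivation ℚ ℂ ℂ, (∀ x ∈ N, δ x = 0) ∧
      (∀ x ∈ u.ult K, δ x ∈ u.ult K) ∧ δ s ≠ 0 := by
  classical
  let iK : K →ₐ[ℚ] u.ult K := IntermediateField.inclusion (u.le_ult hK)
  let _ : Algebra K (u.ult K) := iK.toRingHom.toAlgebra
  have : IsScalarTower K (u.ult K) ℂ := IsScalarTower.of_algebraMap_eq (fun x => rfl)
  have : IsScalarTower ℚ K (u.ult K) := IsScalarTower.of_algebraMap_eq (fun x => rfl)
  have h1 : Transcendental K (⟨s, hs⟩ : u.ult K) := by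
    intro h2
    refine hsK (hKc s ?_)
    obtain ⟨p, hp, hp0⟩ := h2
    refine ⟨p, hp, ?_⟩
    have h3 := congrArg (algebraMap (u.ult K) ℂ) hp0
    rw [← Polynomial.aeval_algebraMap_apply, map_zero] at h3
    exact h3
  have h2 : AlgebraicIndependent K (fun _ : Unit => (⟨s, hs⟩ : u.ult K)) :=
    (algebraicIndependent_unique_type_iff (R := K) (x := fun _ : Unit => (⟨s, hs⟩ : u.ult K))).2 h1
  obtain ⟨d₁, hd₁⟩ := Pool.Agent.H135R2.VS.exists_der h2 (fun _ => 1)
  obtain ⟨t, ht⟩ := exists_isTranscendenceBasis K (u.ult K)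
  have h3 : AlgebraicIndependent K (fun i : t => ((i : u.ult K) : ℂ)) :=
    ht.1.map' (f := IsScalarTower.toAlgHom K (u.ult K) ℂ)
      (algebraMap (u.ult K) ℂ).injective
  have h4 := u.algInd_ult hK _ (fun i : t => ((i : u.ult K)).2) h3
  obtain ⟨δ₀, hδ₀⟩ := Pool.Agent.H135R2.VS.exists_der h4 (fun i => ((d₁ (i : u.ult K) : u.ult K) : ℂ))
  let δ : Derivation ℚ ℂ ℂ := δ₀.restrictScalars ℚ
  have hδN : ∀ x ∈ N, δ x = 0 := fun x hx => δ₀.map_algebraMap ⟨x, hx⟩
  let E : Derivation ℚ (u.ult K) ℂ := δ.compAlgebraMap (u.ult K) -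
    (Algebra.linearMap (u.ult K) ℂ).compDer (d₁.restrictScalars ℚ)
  have hE : ∀ x : u.ult K, E x = δ x - (d₁ x : u.ult K) := fun x => rfl
  have halg : Algebra.IsAlgebraic (IntermediateField.adjoin K (Set.range (Subtype.val : t → u.ult K)))
      (u.ult K) := ht.isAlgebraic_field
  have key : ∀ x : u.ult K, δ x = (d₁ x : u.ult K) := by
    intro x
    have h5 := kill_alg E ((IntermediateField.adjoin K
      (Set.range (Subtype.val : t → u.ult K))).restrictScalars ℚ) (fun x hx => by
        rw [IntermediateField.mem_restrictScalars] at hx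
        induction hx using IntermediateField.adjoin_induction with
        | mem x hx =>
          obtain ⟨i, rfl⟩ := hx
          rw [hE, sub_eq_zero]
          exact hδ₀ i
        | algebraMap q =>
          have h6 : d₁ (algebraMap K (u.ult K) q) = 0 := d₁.map_algebraMap q
          rw [hE, h6, sub_eq_zero]
          exact hδN _ (hK q.2)
        | add x y _ _ hx hy => rw [map_add, hx, hy, add_zero]
        | inv x _ hx => rw [Derivation.leibniz_inv, hx, smul_zero]
        | mul x y _ _ hx hy => rw [Derivation.leibniz, hx, hy, smul_zero, smul_zero, add_zero])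
      (s := x) (halg.isAlgebraic x)
    rw [hE, sub_eq_zero] at h5
    exact h5
  refine ⟨δ, hδN, fun x hx => ?_, ?_⟩
  · have := key ⟨x, hx⟩
    rw [this]
    exact (d₁ ⟨x, hx⟩).2
  · have h6 := key ⟨s, hs⟩
    have h7 : d₁ (⟨s, hs⟩ : u.ult K) = 1 := hd₁ ()
    rw [h7] at h6
    intro h8
    have h9 : δ s = 1 := h6
    rw [h8] at h9
    exact zero_ne_one h9

end Up

/-- a basis of the derivations of a field of finite transcendence degree -/
theorem exists_bd {K : IntermediateField ℚ ℂ} {A : Set ℂ} (hA : A.Finite) :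
    ∃ (e : ℕ) (t : Fin e → ℂ) (d : Fin e → Derivation ℚ ℂ ℂ),
      (∀ l, ∀ x ∈ K, d l x = 0) ∧ (∀ l, ∀ x ∈ cl ((K : Set ℂ) ∪ A), d l x ∈ cl ((K : Set ℂ) ∪ A)) ∧
      ∀ D : Derivation ℚ ℂ ℂ, (∀ x ∈ K, D x = 0) → ∀ z ∈ cl ((K : Set ℂ) ∪ A),
        D z = ∑ l, D (t l) * d l z := by
  classical
  obtain ⟨I, hI⟩ := (AlgebraicIndependent.matroid K ℂ).exists_isBasis A (Set.subset_univ _)
  obtain ⟨h1, h2, h3⟩ := AlgebraicIndependent.matroid_isBasis_iff.1 hI
  have hIf : I.Finite := hA.subset h2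
  let _ := hIf.fintype
  let e := Fintype.card I
  let ee : Fin e ≃ I := (Fintype.equivFin I).symm
  let t : Fin e → ℂ := fun l => (ee l : ℂ)
  have ht : AlgebraicIndependent K t := by
    have h4 : AlgebraicIndependent K (fun i : I => (i : ℂ)) := h1
    exact h4.comp ee ee.injective
  have hch : ∀ l : Fin e, ∃ D : Derivation K ℂ ℂ, ∀ j, D (t j) = if j = l then 1 else 0 :=
    fun l => Pool.Agent.H135R2.VS.exists_der ht (fun j => if j = l then 1 else 0)
  choose D₀ hD₀ using hch
  have hNt : cl ((K : Set ℂ) ∪ A) ≤ cl ((K : Set ℂ) ∪ Set.range t) := by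
    refine cl_le (cl_closed _) ?_
    rintro a (ha | ha)
    · exact subset_cl _ (Or.inl ha)
    · refine cl_closed _ a (alg_of_subset _ (fun r => ?_) (Subtype.val_injective) (h3 a ha))
      obtain ⟨r, hr⟩ := r
      change r ∈ cl ((K : Set ℂ) ∪ Set.range t)
      induction hr using Algebra.adjoin_induction with
      | mem x hx => exact subset_cl _ (Or.inr ⟨ee.symm ⟨x, hx⟩, by simp [t]⟩)
      | algebraMap r => exact subset_cl _ (Or.inl r.2)
      | add x y _ _ hx hy => exact add_mem hx hy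
      | mul x y _ _ hx hy => exact mul_mem hx hy
  have hdK : ∀ l, ∀ x ∈ K, (D₀ l).restrictScalars ℚ x = 0 := fun l x hx =>
    (D₀ l).map_algebraMap ⟨x, hx⟩
  refine ⟨e, t, fun l => (D₀ l).restrictScalars ℚ, hdK, fun l x hx => ?_, fun D hD z hz => ?_⟩
  · refine der_mem_cl (cl_closed _) (A := (K : Set ℂ) ∪ Set.range t) ?_ (hNt hx)
    rintro a (ha | ⟨j, rfl⟩)
    · exact ⟨subset_cl _ (Or.inl ha), by rw [hdK l a ha]; exact zero_mem _⟩
    · refine ⟨subset_cl _ (Or.inr (h2 (ee j).2)), ?_⟩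
      have h4 : (D₀ l).restrictScalars ℚ (t j) = if j = l then 1 else 0 := hD₀ l j
      rw [h4]
      split_ifs
      · exact one_mem _
      · exact zero_mem _
  · have h5 := kill_cl (D := D - ∑ l, D (t l) • (D₀ l).restrictScalars ℚ)
      (A := (K : Set ℂ) ∪ Set.range t) (by
        have h6 : ∀ a, (D - ∑ l, D (t l) • (D₀ l).restrictScalars ℚ) a =
            D a - ∑ l, D (t l) * (D₀ l).restrictScalars ℚ a := by
          intro a
          rw [Derivation.sub_apply, Pool.Agent.TH813.Core.der_sum]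
        rintro a (ha | ⟨j, rfl⟩)
        · rw [h6, hD a ha, Finset.sum_eq_zero (fun l _ => by rw [hdK l a ha, mul_zero]), sub_zero]
        · rw [h6, Finset.sum_congr rfl (fun l _ => by
            have h4 : (D₀ l).restrictScalars ℚ (t j) = if j = l then 1 else 0 := hD₀ l j
            rw [h4, mul_ite, mul_one, mul_zero]), Finset.sum_ite_eq, if_pos (Finset.mem_univ _),
            sub_self]) (hNt hz)
    rw [Derivation.sub_apply, sub_eq_zero] at h5
    rw [h5, Pool.Agent.TH813.Core.der_sum]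

end Pool.Agent.K1H83.BD
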