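import Mathlib
import Pool.Agent.K1H83.BD.Lift3

/-!
# Points of an ultrapower whose logarithmic forms are rational combinations
-/

set_option autoImplicit false

open Filter Finset

noncomputable section

namespace Pool.Agent.K1H83.BD

/-- a kind of logarithmic forms: the multiplicative group or an elliptic curve -/
structure Kd (K : IntermediateField ℚ ℂ) where
  /-- the field of multiplications -/
  k : IntermediateField ℚ ℂ
  hk : k ≤ K
  /-- the logarithmic derivative of the point with logarithm `z` -/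
  lam : Derivation ℚ ℂ ℂ → ℂ → ℂ
  add_der : ∀ D D' z, lam (D + D') z = lam D z + lam D' z
  smul_der : ∀ (c : ℂ) D z, lam (c • D) z = c * lam D z
  add : ∀ D : Derivation ℚ ℂ ℂ, (∀ x ∈ K, D x = 0) → ∀ z w, lam D (z + w) = lam D z + lam D w
  mul : ∀ D : Derivation ℚ ℂ ℂ, (∀ x ∈ K, D x = 0) → ∀ a ∈ k, ∀ z, lam D (a * z) = a * lam D z
  bracket : ∀ D D' : Derivation ℚ ℂ ℂ, (∀ x ∈ K, D x = 0) → (∀ x ∈ K, D' x = 0) → ∀ z,
    lam ⁅D, D'⁆ z = D (lam D' z) - D' (lam D z)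
  ros : ∀ (K' : IntermediateField ℚ ℂ), K ≤ K' → ∀ {r : ℕ} (τ e : Fin r → ℂ), (∀ j, τ j ∈ K') →
    ∀ x, (∀ D : Derivation ℚ ℂ ℂ, (∀ w ∈ K', D w = 0) → D x = ∑ j, τ j * lam D (e j)) →
    ∀ (ψ : ℂ →ₗ[k] k) (D : Derivation ℚ ℂ ℂ), (∀ w ∈ K', D w = 0) →
      ∑ j, (ψ (τ j) : ℂ) * lam D (e j) = 0
  /-- the coordinates of the point with logarithm `z` -/
  W : ℂ → Set ℂ
  W_iff : ∀ D : Derivation ℚ ℂ ℂ, (∀ x ∈ K, D x = 0) → ∀ z, lam D z = 0 ↔ ∀ x ∈ W z, D x = 0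

namespace Kd

variable {K : IntermediateField ℚ ℂ} (T : Kd K)

theorem sub_der (D D' : Derivation ℚ ℂ ℂ) (z : ℂ) : T.lam (D - D') z = T.lam D z - T.lam D' z := by
  have h1 : D - D' = D + (-1 : ℂ) • D' := by
    ext x
    simp [sub_eq_add_neg]
  rw [h1, T.add_der, T.smul_der]
  ring

theorem sum_der {ι : Type} (s : Finset ι) (c : ι → ℂ) (D : ι → Derivation ℚ ℂ ℂ) (z : ℂ) :
    T.lam (∑ l ∈ s, c l • D l) z = ∑ l ∈ s, c l * T.lam (D l) z := by
  classical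
  induction s using Finset.induction_on with
  | empty =>
    rw [sum_empty, sum_empty]
    have := T.smul_der 0 0 z
    rwa [zero_smul, zero_mul] at this
  | insert a s ha ih => rw [sum_insert ha, sum_insert ha, T.add_der, T.smul_der, ih]

theorem zero {D : Derivation ℚ ℂ ℂ} (hD : ∀ x ∈ K, D x = 0) : T.lam D 0 = 0 := by
  have := T.add D hD 0 0
  rw [add_zero] at this
  exact left_eq_add.1 this

theorem sum {D : Derivation ℚ ℂ ℂ} (hD : ∀ x ∈ K, D x = 0) {ι : Type} (s : Finset ι) (a : ι → ℂ)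
    (ha : ∀ i, a i ∈ T.k) (z : ι → ℂ) :
    T.lam D (∑ i ∈ s, a i * z i) = ∑ i ∈ s, a i * T.lam D (z i) := by
  classical
  induction s using Finset.induction_on with
  | empty => rw [sum_empty, sum_empty, T.zero hD]
  | insert i s hi ih => rw [sum_insert hi, sum_insert hi, T.add D hD, T.mul D hD _ (ha i), ih]

theorem psi_mul (ψ : ℂ →ₗ[T.k] T.k) {c : ℂ} (hc : c ∈ T.k) (z : ℂ) : (ψ (c * z) : ℂ) = c * ψ z := by
  have h1 : c * z = (⟨c, hc⟩ : T.k) • z := rfl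
  rw [h1, map_smul]
  rfl

theorem psi_sum (ψ : ℂ →ₗ[T.k] T.k) {ι : Type} (s : Finset ι) (c : ι → ℂ) (hc : ∀ i, c i ∈ T.k)
    (z : ι → ℂ) : (ψ (∑ i ∈ s, c i * z i) : ℂ) = ∑ i ∈ s, c i * (ψ (z i) : ℂ) := by
  rw [map_sum]
  push_cast
  exact sum_congr rfl (fun i _ => T.psi_mul ψ (hc i) _)

theorem psi_ext {z : ℂ} (h : ∀ ψ : ℂ →ₗ[T.k] T.k, (ψ z : ℂ) = 0) : z = 0 :=
  (Module.forall_dual_apply_eq_zero_iff T.k z).1 (fun ψ => Subtype.ext (h ψ))

end Kd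

end Pool.Agent.K1H83.BD
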