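import Mathlib
import Pool.Agent.K1H83.BD.Kd

/-!
# Points of an ultrapower whose logarithmic forms are rational combinations, II
-/

set_option autoImplicit false

open Filter Finset

noncomputable section

namespace Pool.Agent.K1H83.BD

variable {K N : IntermediateField ℚ ℂ}

/-- rational numbers as constants -/
def qc (N : IntermediateField ℚ ℂ) (q : ℕ → ℚ) : ℕ → N := fun k => algebraMap ℚ N (q k)

theorem qc_coe (q : ℕ → ℚ) (k : ℕ) : ((qc N q k : N) : ℂ) = (q k : ℂ) := by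
  change algebraMap ℚ ℂ (q k) = _
  rw [eq_ratCast]

/-- the closed field generated by the ultrapower of `K` and by `N` -/
def Up.mb (u : Up N) (K : IntermediateField ℚ ℂ) : IntermediateField ℚ ℂ :=
  cl ((u.ult K : Set ℂ) ∪ (N : Set ℂ))

/-- `D` is a lift of the derivation `d` of `N` to the ultrapower -/
def Up.IsLift (u : Up N) (d D : Derivation ℚ ℂ ℂ) : Prop :=
  ∃ hd : ∀ x ∈ N, d x ∈ N, ∀ f : ℕ → N, D (u.c f) = u.c (dn hd f)

namespace Up

variable (u : Up N)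

theorem IsLift.on_N {d D : Derivation ℚ ℂ ℂ} (h : u.IsLift d D) {x : ℂ} (hx : x ∈ N) :
    D x = d x := by
  obtain ⟨hd, h⟩ := h
  have h1 := h (fun _ => ⟨x, hx⟩)
  rw [u.const] at h1
  refine h1.trans ?_
  exact u.const ⟨d x, hd x hx⟩

theorem IsLift.on_ult {d D : Derivation ℚ ℂ ℂ} (h : u.IsLift d D) (hdK : ∀ x ∈ K, d x = 0) {x : ℂ}
    (hx : x ∈ u.ult K) : D x = 0 := by
  obtain ⟨hd, h⟩ := h
  obtain ⟨f, hf, rfl⟩ := hx
  rw [h f]
  have : dn hd f = 0 := by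
    funext k
    exact Subtype.ext (hdK _ (hf k))
  rw [this, map_zero]

theorem IsLift.on_mb {d D : Derivation ℚ ℂ ℂ} (h : u.IsLift d D) (hdK : ∀ x ∈ K, d x = 0) {x : ℂ}
    (hx : x ∈ u.mb K) : D x ∈ u.mb K := by
  refine der_mem_cl (cl_closed _) ?_ hx
  rintro a (ha | ha)
  · refine ⟨subset_cl _ (Or.inl ha), ?_⟩
    rw [h.on_ult u hdK ha]
    exact zero_mem _
  · refine ⟨subset_cl _ (Or.inr ha), ?_⟩
    rw [h.on_N u ha]
    obtain ⟨hd, -⟩ := h
    exact subset_cl _ (Or.inr (hd a ha))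

end Up

/-- **Step 2.** -/
theorem step2 (hKc : Clo K) (T : Kd K) (hKN : K ≤ N) (u : Up N)
    {e : ℕ} (t : Fin e → ℂ) (d : Fin e → Derivation ℚ ℂ ℂ) (hdK : ∀ l, ∀ x ∈ K, d l x = 0)
    (hdN : ∀ l, ∀ x ∈ N, d l x ∈ N)
    (hexp : ∀ D : Derivation ℚ ℂ ℂ, (∀ x ∈ K, D x = 0) → ∀ z ∈ N, D z = ∑ l, D (t l) * d l z)
    {r : ℕ} (b : Fin r → ℂ) (hbW : ∀ j, ∀ x ∈ T.W (b j), x ∈ N)
    (hbl : ∀ l j, T.lam (d l) (b j) ∈ N)
    {ι : Type} [Fintype ι] (q : ℕ → ι → Fin r → ℚ) (w : ι → ℂ)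
    (hw : ∀ i, ∀ d' D' : Derivation ℚ ℂ ℂ, (∀ x ∈ K, d' x = 0) → u.IsLift d' D' →
      T.lam D' (w i) = ∑ j, u.c (qc N (fun k => q k i j)) * T.lam d' (b j))
    (a : ι → ℂ) (ha : ∀ i, a i ∈ T.k)
    (hrel : ∀ D : Derivation ℚ ℂ ℂ, (∀ x ∈ u.mb K, D x = 0) → ∑ i, a i * T.lam D (w i) = 0)
    (χ : ℂ →ₗ[T.k] T.k)
    (hχ : ∀ v, (∀ D : Derivation ℚ ℂ ℂ, (∀ x ∈ K, D x = 0) → T.lam D v = 0) → χ v = 0) :
    ∃ s₀ : ℂ, ∀ᶠ k in (hyperfilter ℕ : Filter ℕ),
      (χ (∑ i, a i * ∑ j, (q k i j : ℂ) * b j) : ℂ) = s₀ := by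
  classical
  have haK : ∀ i, a i ∈ K := fun i => T.hk (ha i)
  -- the element `s`
  set S : ℕ → N := fun k =>
    ⟨(χ (∑ i, a i * ∑ j, (q k i j : ℂ) * b j) : ℂ), hKN (T.hk (χ _).2)⟩ with hS
  have hs : u.c S ∈ u.ult K := ⟨S, fun k => T.hk (χ _).2, rfl⟩
  by_contra hno
  have hsK : u.c S ∉ K := by
    intro h
    refine hno ⟨u.c S, ?_⟩
    have h1 : u.c S = u.c (fun _ => ⟨u.c S, hKN h⟩) := (u.const ⟨u.c S, hKN h⟩).symm
    filter_upwards [u.eq_iff.1 h1] with k hk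
    exact congrArg Subtype.val hk
  obtain ⟨δ, hδN, hδK, hδs⟩ := u.exists_delta hKN hKc hs hsK
  have hδK0 : ∀ x ∈ K, δ x = 0 := fun x hx => hδN x (hKN hx)
  -- the lifts
  have hch : ∀ l, ∃ D : Derivation ℚ ℂ ℂ, u.IsLift (d l) D := fun l => by
    obtain ⟨D, hD⟩ := u.exists_lift (hdN l)
    exact ⟨D, hdN l, hD⟩
  choose Dl hDl using hch
  have hDlN : ∀ l, ∀ x ∈ N, Dl l x = d l x := fun l x hx => (hDl l).on_N u hx
  have hDlU : ∀ l, ∀ x ∈ u.ult K, Dl l x = 0 := fun l x hx => (hDl l).on_ult u (hdK l) hx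
  have hDlK : ∀ l, ∀ x ∈ K, Dl l x = 0 := fun l x hx => hDlU l x (u.le_ult hKN hx)
  have hUm : ∀ x ∈ u.ult K, x ∈ u.mb K := fun x hx => subset_cl _ (Or.inl hx)
  have hNm : ∀ x ∈ N, x ∈ u.mb K := fun x hx => subset_cl _ (Or.inr hx)
  have hKm : ∀ x ∈ K, x ∈ u.mb K := fun x hx => hNm x (hKN hx)
  have hδm : ∀ x ∈ u.mb K, δ x ∈ u.mb K := by
    intro x hx
    refine der_mem_cl (cl_closed _) ?_ hx
    rintro y (hy | hy)
    · exact ⟨hUm y hy, hUm _ (hδK y hy)⟩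
    · exact ⟨hNm y hy, by rw [hδN y hy]; exact zero_mem _⟩
  -- the point
  set w₀ : ℂ := ∑ i, a i * w i with hw₀
  have hlw : ∀ D : Derivation ℚ ℂ ℂ, (∀ x ∈ K, D x = 0) →
      T.lam D w₀ = ∑ i, a i * T.lam D (w i) := fun D hD => T.sum hD univ a ha w
  have hlw0 : ∀ D : Derivation ℚ ℂ ℂ, (∀ x ∈ u.mb K, D x = 0) → T.lam D w₀ = 0 := fun D hD => by
    rw [hlw D (fun x hx => hD x (hKm x hx)), hrel D hD]
  -- the coefficients
  set τ : Fin r → ℂ := fun j => ∑ i, a i * δ (u.c (qc N (fun k => q k i j))) with hτ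
  have hqK : ∀ i j, u.c (qc N (fun k => q k i j)) ∈ u.ult K := fun i j =>
    ⟨_, fun k => K.algebraMap_mem _, rfl⟩
  have hτK : ∀ j, τ j ∈ u.ult K := fun j =>
    sum_mem fun i _ => mul_mem (u.le_ult hKN (haK i)) (hδK _ (hqK i j))
  have h1 : ∀ l, Dl l (T.lam δ w₀) = ∑ j, τ j * T.lam (d l) (b j) := by
    intro l
    have h2 : T.lam ⁅Dl l, δ⁆ w₀ = 0 := by
      refine hlw0 _ fun x hx => ?_
      refine kill_cl (A := (u.ult K : Set ℂ) ∪ (N : Set ℂ)) ?_ hx
      rintro y (hy | hy)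
      · rw [Derivation.commutator_apply, hDlU l _ (hδK y hy), hDlU l y hy, map_zero, sub_zero]
      · rw [Derivation.commutator_apply, hδN y hy, map_zero, hDlN l y hy, hδN _ (hdN l y hy),
          sub_zero]
    rw [T.bracket _ _ (hDlK l) hδK0, sub_eq_zero] at h2
    rw [h2, hlw _ (hDlK l), map_sum]
    have h3 : ∀ i, δ (a i * T.lam (Dl l) (w i)) =
        ∑ j, a i * δ (u.c (qc N (fun k => q k i j))) * T.lam (d l) (b j) := by
      intro i
      rw [hw i (d l) (Dl l) (hdK l) (hDl l), Derivation.leibniz, hδK0 _ (haK i), smul_zero,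
        add_zero, map_sum, smul_eq_mul, mul_sum]
      refine sum_congr rfl fun j _ => ?_
      rw [Derivation.leibniz, hδN _ (hbl l j), smul_zero, zero_add, smul_eq_mul]
      ring
    rw [sum_congr rfl (fun i _ => h3 i), sum_comm]
    refine sum_congr rfl fun j _ => ?_
    rw [← sum_mul]
  have h2 : ∀ D' : Derivation ℚ ℂ ℂ, (∀ x ∈ K, D' x = 0) → ∀ j,
      T.lam D' (b j) = ∑ l, D' (t l) * T.lam (d l) (b j) := by
    intro D' hD' j
    have h3 : T.lam (D' - ∑ l, D' (t l) • d l) (b j) = 0 := by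
      rw [T.W_iff]
      · intro x hx
        rw [Derivation.sub_apply, Pool.Agent.TH813.Core.der_sum, hexp D' hD' x (hbW j x hx),
          sub_self]
      · intro x hx
        rw [Derivation.sub_apply, Pool.Agent.TH813.Core.der_sum, hexp D' hD' x (hKN hx),
          sub_self]
    rwa [T.sub_der, T.sum_der, sub_eq_zero] at h3
  have h3 : ∀ D' : Derivation ℚ ℂ ℂ, (∀ x ∈ u.ult K, D' x = 0) →
      D' (T.lam δ w₀) = ∑ j, τ j * T.lam D' (b j) := by
    intro D' hD'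
    have hD'K : ∀ x ∈ K, D' x = 0 := fun x hx => hD' x (u.le_ult hKN hx)
    set E : Derivation ℚ ℂ ℂ := D' - ∑ l, D' (t l) • Dl l with hE
    have hEx : ∀ x, E x = D' x - ∑ l, D' (t l) * Dl l x := fun x => by
      rw [hE, Derivation.sub_apply, Pool.Agent.TH813.Core.der_sum]
    have hEm : ∀ x ∈ u.mb K, E x = 0 := by
      intro x hx
      refine kill_cl (A := (u.ult K : Set ℂ) ∪ (N : Set ℂ)) ?_ hx
      rintro y (hy | hy)
      · rw [hEx, hD' y hy, sum_eq_zero (fun l _ => by rw [hDlU l y hy, mul_zero]), sub_zero]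
      · have h5 : ∑ l, D' (t l) * Dl l y = ∑ l, D' (t l) * d l y :=
          sum_congr rfl (fun l _ => by rw [hDlN l y hy])
        rw [hEx, hexp D' hD'K y hy, h5, sub_self]
    have h4 : T.lam ⁅E, δ⁆ w₀ = 0 := by
      refine hlw0 _ fun x hx => ?_
      rw [Derivation.commutator_apply, hEm _ (hδm x hx), hEm x hx, map_zero, sub_zero]
    rw [T.bracket _ _ (fun x hx => hEm x (hKm x hx)) hδK0, hlw0 E hEm, map_zero, sub_zero, hEx,
      sub_eq_zero] at h4
    rw [h4, sum_congr rfl (fun l _ => by rw [h1 l, mul_sum]), sum_comm]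
    refine sum_congr rfl fun j _ => ?_
    rw [h2 D' hD'K j, mul_sum]
    exact sum_congr rfl fun l _ => by ring
  have h4 := T.ros (u.ult K) (u.le_ult hKN) τ b hτK (T.lam δ w₀) h3
  -- the combinations are trivial
  have h5 : ∑ j, τ j * (χ (b j) : ℂ) = 0 := by
    refine T.psi_ext fun ψ => ?_
    have h6 : χ (∑ j, (ψ (τ j) : ℂ) * b j) = 0 := by
      refine hχ _ fun D hD => ?_
      rw [T.sum hD univ (fun j => (ψ (τ j) : ℂ)) (fun j => (ψ (τ j)).2),
        sum_congr rfl (fun j _ => by rw [h2 D hD j, mul_sum]), sum_comm]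
      refine sum_eq_zero fun l _ => ?_
      have h7 := h4 ψ (Dl l) (hDlU l)
      have h8 : ∀ j, T.lam (Dl l) (b j) = T.lam (d l) (b j) := by
        intro j
        have h9 : T.lam (Dl l - d l) (b j) = 0 := by
          rw [T.W_iff]
          · intro x hx
            rw [Derivation.sub_apply, hDlN l x (hbW j x hx), sub_self]
          · intro x hx
            rw [Derivation.sub_apply, hDlN l x (hKN hx), sub_self]
        rwa [T.sub_der, sub_eq_zero] at h9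
      have h10 : ∑ j, (ψ (τ j) : ℂ) * (D (t l) * T.lam (d l) (b j)) =
          D (t l) * ∑ j, (ψ (τ j) : ℂ) * T.lam (Dl l) (b j) := by
        rw [mul_sum]
        refine sum_congr rfl fun j _ => ?_
        rw [h8 j]
        ring
      rw [h10, h7, mul_zero]
    have h7 := T.psi_sum χ univ (fun j => (ψ (τ j) : ℂ)) (fun j => (ψ (τ j)).2) b
    rw [h6] at h7
    have h8 := T.psi_sum ψ univ (fun j => (χ (b j) : ℂ)) (fun j => (χ (b j)).2) τ
    rw [sum_congr rfl (fun j _ => mul_comm (τ j) ((χ (b j) : ℂ))), h8,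
      sum_congr rfl (fun j _ => mul_comm ((χ (b j) : ℂ)) _), ← h7]
    rfl
  -- the derivative of `s`
  refine hδs ?_
  have hcN : ∀ i j, a i * (χ (b j) : ℂ) ∈ K := fun i j => mul_mem (haK i) (T.hk (χ (b j)).2)
  let cc : ι → Fin r → N := fun i j => ⟨a i * (χ (b j) : ℂ), hKN (hcN i j)⟩
  have h6 : S = ∑ i, ∑ j, (fun _ => cc i j) * qc N (fun k => q k i j) := by
    funext k
    have h7 : (∑ i, ∑ j, (fun _ => cc i j) * qc N (fun k => q k i j) : ℕ → N) k =
        ∑ i, ∑ j, cc i j * qc N (fun k => q k i j) k := by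
      rw [Finset.sum_apply]
      refine sum_congr rfl fun i _ => ?_
      rw [Finset.sum_apply]
      rfl
    rw [h7]
    refine Subtype.ext ?_
    change (χ (∑ i, a i * ∑ j, (q k i j : ℂ) * b j) : ℂ) = _
    rw [T.psi_sum χ univ a ha]
    push_cast
    refine sum_congr rfl fun i _ => ?_
    rw [T.psi_sum χ univ (fun j => (q k i j : ℂ)) (fun j => by
      have := T.k.algebraMap_mem (q k i j)
      rwa [eq_ratCast] at this), mul_sum]
    refine sum_congr rfl fun j _ => ?_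
    rw [qc_coe]
    change _ = a i * (χ (b j) : ℂ) * _
    ring
  rw [h6, map_sum, map_sum]
  have h7 : ∀ i, δ (u.c (∑ j, (fun _ => cc i j) * qc N (fun k => q k i j))) =
      ∑ j, (χ (b j) : ℂ) * (a i * δ (u.c (qc N (fun k => q k i j)))) := by
    intro i
    rw [map_sum, map_sum]
    refine sum_congr rfl fun j _ => ?_
    rw [map_mul, u.const, Derivation.leibniz, smul_eq_mul, smul_eq_mul]
    change (a i * (χ (b j) : ℂ)) * _ + _ * δ (a i * (χ (b j) : ℂ)) = _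
    rw [hδK0 _ (hcN i j), mul_zero, add_zero]
    ring
  rw [sum_congr rfl (fun i _ => h7 i), sum_comm, ← h5]
  refine sum_congr rfl fun j _ => ?_
  rw [← mul_sum, mul_comm]

end Pool.Agent.K1H83.BD
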