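import Mathlib
import Pool.Agent.K1H83.BD.Step2
import Pool.Agent.TH813.GConc

/-!
# The multiplicative group and elliptic curves as kinds of forms
-/

set_option autoImplicit false

open Filter Finset Module
open scoped PeriodPair ComplexConjugate

noncomputable section

namespace Pool.Agent.K1H83.BD

open H667R3 Pool.Agent.W245.EB
open Pool.Agent.W252
open Pool.Agent.TH813.Core Pool.Agent.TH813.Ell Pool.Agent.TH813.Core2 Pool.Agent.TH813.G

variable {K : IntermediateField ℚ ℂ}

/-- closedness of the logarithmic form -/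
theorem dlog_br (D D' : Derivation ℚ ℂ ℂ) (y : ℂ) :
    dlog ⁅D, D'⁆ y = D (dlog D' y) - D' (dlog D y) := by
  unfold dlog
  have h := Complex.exp_ne_zero y
  rw [Derivation.commutator_apply, Derivation.leibniz_div, Derivation.leibniz_div]
  simp only [smul_eq_mul]
  field_simp
  ring

/-- closedness of the form of the first kind -/
theorem om_br {L : PeriodPair} {D D' : Derivation ℚ ℂ ℂ} (h2 : D L.g₂ = 0) (h3 : D L.g₃ = 0)
    (h2' : D' L.g₂ = 0) (h3' : D' L.g₃ = 0) (z : ℂ) :
    om L ⁅D, D'⁆ z = D (om L D' z) - D' (om L D z) := by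
  by_cases hz : z ∈ L.lattice
  · rw [om_of_mem L _ hz, om_of_mem L _ hz, om_of_mem L _ hz, map_zero, map_zero, sub_zero]
  by_cases hy : ℘'[L] z = 0
  · unfold om
    rw [hy, div_zero, div_zero, div_zero, map_zero, map_zero, sub_zero]
  · have hc := L.derivWeierstrassP_sq z hz
    have h4 := D_curve D h2 h3 hc
    have h5 := D_curve D' h2' h3' hc
    unfold om
    rw [Derivation.commutator_apply, Derivation.leibniz_div, Derivation.leibniz_div]
    simp only [smul_eq_mul]
    have h6 : D' (℘[L] z) * D (℘'[L] z) = D (℘[L] z) * D' (℘'[L] z) := by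
      have h7 : 2 * ℘'[L] z * (D' (℘[L] z) * D (℘'[L] z) - D (℘[L] z) * D' (℘'[L] z)) = 0 := by
        linear_combination D' (℘[L] z) * h4 - D (℘[L] z) * h5
      have h8 := (mul_eq_zero.1 h7).resolve_left (mul_ne_zero two_ne_zero hy)
      linear_combination h8
    field_simp
    linear_combination h6

/-- closedness of the form of the second kind -/
theorem ez_br {L : PeriodPair} {D D' : Derivation ℚ ℂ ℂ} (h2 : D L.g₂ = 0) (h3 : D L.g₃ = 0)
    (h2' : D' L.g₂ = 0) (h3' : D' L.g₃ = 0) (v z : ℂ) :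
    ⁅D, D'⁆ z + ℘[L] v * om L ⁅D, D'⁆ v =
      D (D' z + ℘[L] v * om L D' v) - D' (D z + ℘[L] v * om L D v) := by
  rw [om_br h2 h3 h2' h3', Derivation.commutator_apply, map_add, map_add, Derivation.leibniz,
    Derivation.leibniz]
  simp only [smul_eq_mul]
  have h4 : D (℘[L] v) * om L D' v = D' (℘[L] v) * om L D v := by
    unfold om
    ring
  linear_combination -h4

/-- linear functionals over the prime field -/
theorem psi_bot (ψ : ℂ →ₗ[(⊥ : IntermediateField ℚ ℂ)] (⊥ : IntermediateField ℚ ℂ)) :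
    ∃ ψ' : ℂ →ₗ[ℚ] ℚ, ∀ z, ((ψ' z : ℚ) : ℂ) = (ψ z : ℂ) := by
  let e := (IntermediateField.botEquiv ℚ ℂ)
  let ψ₀ : ℂ →ₗ[ℚ] (⊥ : IntermediateField ℚ ℂ) :=
    { toFun := ψ
      map_add' := map_add ψ
      map_smul' := fun q z => by
        have h1 : q • z = (algebraMap ℚ (⊥ : IntermediateField ℚ ℂ) q) • z := by
          rw [Algebra.smul_def, Algebra.smul_def]
          rfl
        rw [h1, map_smul, RingHom.id_apply, Algebra.smul_def (A := (⊥ : IntermediateField ℚ ℂ)) q,
          smul_eq_mul] }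
  refine ⟨e.toLinearMap ∘ₗ ψ₀, fun z => ?_⟩
  obtain ⟨q, hq⟩ := IntermediateField.mem_bot.1 (ψ z).2
  have h2 : ψ z = algebraMap ℚ (⊥ : IntermediateField ℚ ℂ) q := Subtype.ext hq.symm
  have h3 : e (ψ z) = q := by
    rw [h2]
    exact IntermediateField.botEquiv_def q
  change ((e (ψ z) : ℚ) : ℂ) = _
  rw [h3, ← hq, eq_ratCast]

/-- the multiplicative group -/
def KM (K : IntermediateField ℚ ℂ) : Kd K where
  k := ⊥
  hk := bot_le
  lam := fun D z => dlog D z
  add_der := dlog_add_der
  smul_der := dlog_smul_der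
  add := fun D _ z w => Pool.Agent.W669.Gel.dlog_add D z w
  mul := fun D _ a ha z => by
    obtain ⟨q, rfl⟩ := IntermediateField.mem_bot.1 ha
    rw [eq_ratCast]
    exact Pool.Agent.W669.Gel.dlog_rat D q z
  bracket := fun D D' _ _ z => dlog_br D D' z
  ros := by
    intro K' _ r τ e hτ x h ψ D hD
    obtain ⟨ψ', hψ'⟩ := psi_bot ψ
    have h1 := (rosM (q := 0) (Λ := fun c => c.elim0) (κ := fun c => c.elim0) (fun c => c.elim0)
      (fun c => c.elim0) K' (fun c => c.elim0) (fun c => c.elim0) (fun c => c.elim0)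
      (fun c => c.elim0) τ (fun j => Complex.exp (e j)) hτ (fun j => Complex.exp_ne_zero _)
      (n := 0) (fun j => j.elim0) (fun j => j.elim0) (fun j => j.elim0) (fun j => j.elim0)
      (fun j => j.elim0) (fun j => j.elim0) x (fun D hD => by
        rw [h D hD]
        simp [dlog])).1 ψ' D hD
    rw [← h1]
    refine sum_congr rfl fun j _ => ?_
    rw [hψ']
    rfl
  W := fun z => {Complex.exp z}
  W_iff := fun D _ z => by
    rw [dlog_eq_zero]
    simp

/-- an elliptic curve -/
def KE (L : PeriodPair) {K : IntermediateField ℚ ℂ} (hK : Clo K) (h2 : L.g₂ ∈ K) (h3 : L.g₃ ∈ K) :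
    Kd K where
  k := kL L
  hk := fun c hc => mem_of_killed hK fun D _ => der_kL D hc
  lam := fun D z => om L D z
  add_der := om_add_der
  smul_der := om_smul_der
  add := fun D hD z w => om_add L D (hD _ h2) (hD _ h3) z w
  mul := fun D hD a ha z => by
    obtain ⟨κ, hE⟩ := exists_eig L
    exact hE.om_mul D (hD _ h2) (hD _ h3) a ha z
  bracket := fun D D' hD hD' z => om_br (hD _ h2) (hD _ h3) (hD' _ h2) (hD' _ h3) z
  ros := by
    intro K' hKK' r τ e hτ x h ψ D hD
    obtain ⟨κ, hE⟩ := exists_eig L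
    have hκ : κ ∈ K' := hKK' (mem_of_killed hK fun D hD => hE.kill D (hD _ h2) (hD _ h3))
    have h1 := ((rosK hE K' (hKK' h2) (hKK' h3)
      (fun c hc => hKK' (mem_of_killed hK fun D _ => der_kL D hc)) hκ
      (m := 0) (fun j => j.elim0) (fun j => j.elim0) (fun j => j.elim0) (fun j => j.elim0)
      τ (fun _ => 0) e hτ (fun _ => zero_mem _) x (fun D hD => by
        rw [h D hD]
        simp)).2 ψ D hD).1
    exact h1
  W := fun z => Wp L z
  W_iff := fun D hD z => (Wp_iff (hD _ h2) (hD _ h3) z).symm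

end Pool.Agent.K1H83.BD
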