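import Mathlib
import Pool.Agent.K1H83.BD.Conc

/-!
# Relations between forms with constant coefficients
-/

set_option autoImplicit false

open Filter Finset Module

noncomputable section

namespace Pool.Agent.K1H83.BD

/-- a nonzero space stable under derivations contains a nonzero vector of constants -/
theorem min_rel {I : Type} [Fintype I] (R : Submodule ℂ (I → ℂ)) (hR : R ≠ ⊥)
    (S : Set (Derivation ℚ ℂ ℂ)) (hS : ∀ D ∈ S, ∀ r ∈ R, (fun κ => D (r κ)) ∈ R) :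
    ∃ r ∈ R, r ≠ 0 ∧ ∀ D ∈ S, ∀ κ, D (r κ) = 0 := by
  classical
  have h1 : ∃ n : ℕ, ∃ r ∈ R, r ≠ 0 ∧ (univ.filter fun κ => r κ ≠ 0).card = n := by
    obtain ⟨r, hr, hr0⟩ := Submodule.exists_mem_ne_zero_of_ne_bot hR
    exact ⟨_, r, hr, hr0, rfl⟩
  obtain ⟨r, hr, hr0, hc⟩ := Nat.find_spec h1
  obtain ⟨κ₀, hκ₀⟩ := Function.ne_iff.1 hr0
  have hκ₀' : r κ₀ ≠ 0 := hκ₀
  set r' : I → ℂ := (r κ₀)⁻¹ • r with hr'
  have hr'R : r' ∈ R := R.smul_mem _ hr
  have hr'1 : r' κ₀ = 1 := by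
    rw [hr', Pi.smul_apply, smul_eq_mul, inv_mul_cancel₀ hκ₀']
  refine ⟨r', hr'R, fun h => ?_, fun D hD => ?_⟩
  · rw [h] at hr'1
    exact zero_ne_one hr'1
  · by_contra hne
    have h2 : (fun κ => D (r' κ)) ≠ 0 := fun h => hne (fun κ => congrFun h κ)
    have h3 : (univ.filter fun κ => (fun κ => D (r' κ)) κ ≠ 0).card <
        (univ.filter fun κ => r κ ≠ 0).card := by
      refine Finset.card_lt_card ?_
      rw [Finset.ssubset_iff_of_subset]
      · refine ⟨κ₀, by simp [hκ₀'], ?_⟩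
        simp [hr'1]
      · intro κ hκ
        rw [mem_filter] at hκ ⊢
        refine ⟨mem_univ _, fun h => hκ.2 ?_⟩
        simp [hr', h]
    have h4 := Nat.find_min h1 (m := (univ.filter fun κ => (fun κ => D (r' κ)) κ ≠ 0).card)
      (by rw [← hc]; exact h3)
    exact h4 ⟨_, hS D hD r' hr'R, h2, rfl⟩

variable {K N : IntermediateField ℚ ℂ}

/-- **Step 1**, the abstract part -/
theorem step1 (hKc : Clo K) (hKN : K ≤ N) (u : Up N)
    {e : ℕ} (t : Fin e → ℂ) (d : Fin e → Derivation ℚ ℂ ℂ) (hdK : ∀ l, ∀ x ∈ K, d l x = 0)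
    (hdN : ∀ l, ∀ x ∈ N, d l x ∈ N)
    (hexp : ∀ D : Derivation ℚ ℂ ℂ, (∀ x ∈ K, D x = 0) → ∀ z ∈ N, D z = ∑ l, D (t l) * d l z)
    {I : Type} [Fintype I] (F : I → Derivation ℚ ℂ ℂ → ℂ)
    (hbr : ∀ κ, ∀ D D' : Derivation ℚ ℂ ℂ, (∀ x ∈ K, D x = 0) → (∀ x ∈ K, D' x = 0) →
      F κ ⁅D, D'⁆ = D (F κ D') - D' (F κ D))
    (hlift : ∀ κ l D, u.IsLift (d l) D → F κ D ∈ u.mb K)
    (R₀ : IntermediateField ℚ ℂ) (hR₀ : Clo R₀) (hMR : u.mb K ≤ R₀) (hR₀r : R₀ ≤ u.rg)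
    (hvan : ∀ κ D, (∀ x ∈ R₀, D x = 0) → F κ D = 0)
    (r₀ : I → ℂ) (hr₀ : r₀ ≠ 0)
    (hrel : ∀ D : Derivation ℚ ℂ ℂ, (∀ x ∈ u.mb K, D x = 0) → ∑ κ, r₀ κ * F κ D = 0) :
    ∃ r : I → ℂ, r ≠ 0 ∧ (∀ κ, r κ ∈ u.mb K) ∧
      ∀ D : Derivation ℚ ℂ ℂ, (∀ x ∈ u.mb K, D x = 0) → ∑ κ, r κ * F κ D = 0 := by
  classical
  have hUm : ∀ x ∈ u.ult K, x ∈ u.mb K := fun x hx => subset_cl _ (Or.inl hx)
  have hNm : ∀ x ∈ N, x ∈ u.mb K := fun x hx => subset_cl _ (Or.inr hx)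
  have hKm : ∀ x ∈ K, x ∈ u.mb K := fun x hx => hNm x (hKN hx)
  let R : Submodule ℂ (I → ℂ) :=
    { carrier := {r | ∀ D : Derivation ℚ ℂ ℂ, (∀ x ∈ u.mb K, D x = 0) → ∑ κ, r κ * F κ D = 0}
      add_mem' := by
        intro a b ha hb D hD
        simp only [Pi.add_apply, add_mul, sum_add_distrib]
        rw [ha D hD, hb D hD, add_zero]
      zero_mem' := by
        intro D _
        simp
      smul_mem' := by
        intro c a ha D hD
        simp only [Pi.smul_apply, smul_eq_mul, mul_assoc]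
        rw [← mul_sum, ha D hD, mul_zero] }
  have hmem : ∀ r, r ∈ R ↔ ∀ D : Derivation ℚ ℂ ℂ, (∀ x ∈ u.mb K, D x = 0) →
      ∑ κ, r κ * F κ D = 0 := fun r => Iff.rfl
  have hRb : R ≠ ⊥ := by
    intro h
    have : r₀ ∈ R := hrel
    rw [h, Submodule.mem_bot] at this
    exact hr₀ this
  let S : Set (Derivation ℚ ℂ ℂ) := {E | (∀ x ∈ K, E x = 0) ∧ (∀ x ∈ u.mb K, E x ∈ u.mb K) ∧
    ∀ κ, F κ E ∈ u.mb K}
  have hstab : ∀ E ∈ S, ∀ r ∈ R, (fun κ => E (r κ)) ∈ R := by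
    rintro E ⟨hEK, hEm, hEF⟩ r hr
    rw [hmem] at hr ⊢
    intro D hD
    have h1 : E (∑ κ, r κ * F κ D) = 0 := by rw [hr D hD, map_zero]
    have h2 : ∑ κ, r κ * F κ ⁅E, D⁆ = 0 := by
      refine hr _ fun x hx => ?_
      rw [Derivation.commutator_apply, hD x hx, hD _ (hEm x hx), map_zero, sub_zero]
    have h3 : ∀ κ, F κ ⁅E, D⁆ = E (F κ D) := by
      intro κ
      rw [hbr κ E D hEK (fun x hx => hD x (hKm x hx)), hD _ (hEF κ), sub_zero]
    rw [map_sum] at h1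
    have h4 : ∀ κ, E (r κ * F κ D) = E (r κ) * F κ D + r κ * F κ ⁅E, D⁆ := by
      intro κ
      rw [Derivation.leibniz, h3 κ, smul_eq_mul, smul_eq_mul]
      ring
    rw [sum_congr rfl (fun κ _ => h4 κ), sum_add_distrib, h2, add_zero] at h1
    exact h1
  obtain ⟨r, hr, hr0, hrS⟩ := min_rel R hRb S hstab
  refine ⟨r, hr0, fun κ => ?_, hr⟩
  -- the coordinates are in the ultrapower
  have h1 : r κ ∈ R₀ := by
    refine mem_of_killed hR₀ fun D hD => ?_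
    refine hrS D ⟨fun x hx => hD x (hMR (hKm x hx)), fun x hx => ?_, fun κ' => ?_⟩ κ
    · rw [hD x (hMR hx)]
      exact zero_mem _
    · rw [hvan κ' D hD]
      exact zero_mem _
  obtain ⟨f, -, hf⟩ := hR₀r h1
  have hch : ∀ l, ∃ D : Derivation ℚ ℂ ℂ, u.IsLift (d l) D := fun l => by
    obtain ⟨D, hD⟩ := u.exists_lift (hdN l)
    exact ⟨D, hdN l, hD⟩
  choose Dl hDl using hch
  have h2 : ∀ l, ∀ᶠ k in (hyperfilter ℕ : Filter ℕ), d l (f k : ℂ) = 0 := by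
    intro l
    have h3 : Dl l (r κ) = 0 := by
      refine hrS (Dl l) ⟨fun x hx => (hDl l).on_ult u (hdK l) (u.le_ult hKN hx), fun x hx =>
        (hDl l).on_mb u (hdK l) hx, fun κ' => hlift κ' l _ (hDl l)⟩ κ
    obtain ⟨hd, h⟩ := hDl l
    rw [← hf, h f, u.zero_iff] at h3
    filter_upwards [h3] with k hk
    exact congrArg Subtype.val hk
  have h3 : ∀ᶠ k in (hyperfilter ℕ : Filter ℕ), (f k : ℂ) ∈ K := by
    filter_upwards [eventually_all.2 h2] with k hk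
    refine mem_of_killed hKc fun D hD => ?_
    rw [hexp D hD _ (f k).2]
    exact sum_eq_zero fun l _ => by rw [hk l, mul_zero]
  refine hUm _ ⟨fun k => if (f k : ℂ) ∈ K then f k else 0, fun k => ?_, ?_⟩
  · dsimp only
    by_cases h : (f k : ℂ) ∈ K
    · rw [if_pos h]
      exact h
    · rw [if_neg h]
      exact zero_mem _
  · rw [← hf, u.eq_iff]
    filter_upwards [h3] with k hk
    rw [if_pos hk]

/-- a derivation which kills a field is linear over it -/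
def upg (M : IntermediateField ℚ ℂ) (D : Derivation ℚ ℂ ℂ) (h : ∀ x ∈ M, D x = 0) :
    Derivation M ℂ ℂ :=
  Derivation.mk'
    { toFun := D
      map_add' := map_add D
      map_smul' := fun c x => by
        rw [Algebra.smul_def, Derivation.leibniz]
        have : D (algebraMap M ℂ c) = 0 := h _ c.2
        rw [this, smul_zero, add_zero, RingHom.id_apply]
        rfl }
    (fun a b => D.leibniz a b)

/-- algebraically dependent numbers give a relation between the forms -/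
theorem exists_rel (M : IntermediateField ℚ ℂ) {I : Type} [Fintype I]
    (F : I → Derivation ℚ ℂ ℂ → ℂ) (hadd : ∀ κ D D', F κ (D + D') = F κ D + F κ D')
    (hsmul : ∀ κ (c : ℂ) D, F κ (c • D) = c * F κ D)
    {J : Type} (x : J → ℂ) (hx : ¬ AlgebraicIndependent M x)
    (hval : ∀ v : J → ℂ, ∃ y : I → ℂ, ∀ D : Derivation ℚ ℂ ℂ, (∀ κ, F κ D = y κ) →
      ∀ j, D (x j) = v j) :
    ∃ r : I → ℂ, r ≠ 0 ∧ ∀ D : Derivation ℚ ℂ ℂ, (∀ x ∈ M, D x = 0) → ∑ κ, r κ * F κ D = 0 := by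
  classical
  let R : Submodule ℂ (I → ℂ) :=
    { carrier := {v | ∃ D : Derivation ℚ ℂ ℂ, (∀ x ∈ M, D x = 0) ∧ ∀ κ, F κ D = v κ}
      add_mem' := by
        rintro a b ⟨D, hD, hDa⟩ ⟨D', hD', hDb⟩
        refine ⟨D + D', fun x hx => ?_, fun κ => ?_⟩
        · rw [Derivation.add_apply, hD x hx, hD' x hx, add_zero]
        · rw [hadd, hDa, hDb, Pi.add_apply]
      zero_mem' := by
        refine ⟨0, fun x _ => rfl, fun κ => ?_⟩
        have := hsmul κ 0 0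
        rwa [zero_smul, zero_mul] at this
      smul_mem' := by
        rintro c a ⟨D, hD, hDa⟩
        refine ⟨c • D, fun x hx => ?_, fun κ => ?_⟩
        · rw [Derivation.smul_apply, hD x hx, smul_zero]
        · rw [hsmul, hDa, Pi.smul_apply, smul_eq_mul] }
  have hR : R ≠ ⊤ := by
    intro h
    refine hx ?_
    refine Pool.Agent.H135R2.VS.algInd_of_der fun v => ?_
    obtain ⟨y, hy⟩ := hval v
    have h1 : y ∈ R := by rw [h]; exact Submodule.mem_top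
    obtain ⟨D, hD, hDy⟩ := h1
    exact ⟨upg M D hD, fun j => hy D hDy j⟩
  obtain ⟨f, hf, hfR⟩ := Submodule.exists_le_ker_of_lt_top R (lt_top_iff_ne_top.2 hR)
  refine ⟨fun κ => f (Pi.single κ 1), ?_, fun D hD => ?_⟩
  · intro h0
    refine hf (LinearMap.pi_ext fun κ c => ?_)
    have h1 : (Pi.single κ c : I → ℂ) = c • Pi.single κ 1 := by
      rw [← Pi.single_smul, smul_eq_mul, mul_one]
    rw [h1, map_smul, congrFun h0 κ]
    simp
  · have h1 : (fun κ => F κ D) ∈ R := ⟨D, hD, fun κ => rfl⟩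
    have h2 := hfR h1
    rw [LinearMap.mem_ker] at h2
    have h3 : (fun κ => F κ D) = ∑ κ, F κ D • (Pi.single κ 1 : I → ℂ) := by
      funext κ'
      rw [Finset.sum_apply]
      simp [Pi.single_apply]
    rw [h3, map_sum] at h2
    rw [← h2]
    refine sum_congr rfl fun κ _ => ?_
    rw [map_smul, smul_eq_mul, mul_comm]

end Pool.Agent.K1H83.BD
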