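import Mathlib
import Pool.Agent.K1H83.BD.Step1

/-!
# Relations between points of the multiplicative group and of elliptic curves over an ultrapower
-/

set_option autoImplicit false

open Filter Finset Module
open scoped PeriodPair ComplexConjugate

noncomputable section

namespace Pool.Agent.K1H83.BD

open H667R3 Pool.Agent.W245.EB
open Pool.Agent.W252
open Pool.Agent.TH813.Core Pool.Agent.TH813.Ell Pool.Agent.TH813.Core2 Pool.Agent.TH813.G

variable {K N : IntermediateField ℚ ℂ}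

/-- the numbers attached to the points -/
def xs {m n q : ℕ} (Λ : Fin q → PeriodPair) (ty : Fin n → Fin q) (w : Fin m → ℂ) (v z : Fin n → ℂ) :
    Fin m ⊕ (Fin n ⊕ Fin n) → ℂ :=
  Sum.elim (fun i => Complex.exp (w i)) (Sum.elim (fun j => ℘[Λ (ty j)] (v j)) z)

/-- the forms attached to the points -/
def fs {m n q : ℕ} (Λ : Fin q → PeriodPair) (ty : Fin n → Fin q) (w : Fin m → ℂ) (v z : Fin n → ℂ)
    (κ : Fin m ⊕ (Fin n ⊕ Fin n)) (D : Derivation ℚ ℂ ℂ) : ℂ :=
  Sum.elim (fun i => dlog D (w i)) (Sum.elim (fun j => om (Λ (ty j)) D (v j))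
    (fun j => D (z j) + ℘[Λ (ty j)] (v j) * om (Λ (ty j)) D (v j))) κ

/-- **Step 1** -/
theorem step1c (hKc : Clo K) (hKN : K ≤ N) (u : Up N)
    {e : ℕ} (t : Fin e → ℂ) (d : Fin e → Derivation ℚ ℂ ℂ) (hdK : ∀ l, ∀ x ∈ K, d l x = 0)
    (hdN : ∀ l, ∀ x ∈ N, d l x ∈ N)
    (hexp : ∀ D : Derivation ℚ ℂ ℂ, (∀ x ∈ K, D x = 0) → ∀ z ∈ N, D z = ∑ l, D (t l) * d l z)
    {q : ℕ} {Λ : Fin q → PeriodPair} (h2 : ∀ c, (Λ c).g₂ ∈ K) (h3 : ∀ c, (Λ c).g₃ ∈ K)
    (hni : ∀ c c', c ≠ c' → NoHom (Λ c) (Λ c'))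
    {m n : ℕ} (ty : Fin n → Fin q) (w : Fin m → ℂ) (v z : Fin n → ℂ)
    (hv : ∀ j, ℘'[Λ (ty j)] (v j) ≠ 0)
    (hlift : ∀ κ l D, u.IsLift (d l) D → fs Λ ty w v z κ D ∈ u.mb K)
    (hrg : ∀ κ, xs Λ ty w v z κ ∈ u.rg)
    (hdep : ¬ AlgebraicIndependent (u.mb K) (xs Λ ty w v z)) :
    (∃ a : Fin m → ℚ, a ≠ 0 ∧ ∀ D : Derivation ℚ ℂ ℂ, (∀ x ∈ u.mb K, D x = 0) →
      ∑ i, (a i : ℂ) * dlog D (w i) = 0) ∨
    ∃ (c₀ : Fin q) (a : Fin n → ℂ), (∀ j, a j ∈ kL (Λ c₀)) ∧ (∀ j, ty j ≠ c₀ → a j = 0) ∧ a ≠ 0 ∧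
      ∀ D : Derivation ℚ ℂ ℂ, (∀ x ∈ u.mb K, D x = 0) → ∑ j, a j * om (Λ (ty j)) D (v j) = 0 := by
  classical
  have hUm : ∀ x ∈ u.ult K, x ∈ u.mb K := fun x hx => subset_cl _ (Or.inl hx)
  have hNm : ∀ x ∈ N, x ∈ u.mb K := fun x hx => subset_cl _ (Or.inr hx)
  have hKm : ∀ x ∈ K, x ∈ u.mb K := fun x hx => hNm x (hKN hx)
  have hmr : u.mb K ≤ u.rg := cl_le u.rg_closed (by
    rintro x (hx | hx)
    · exact u.ult_le_rg K hx
    · exact u.le_ult le_rfl hx)
  obtain ⟨r₀, hr₀, hr₀'⟩ := exists_rel (u.mb K) (fs Λ ty w v z)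
    (by
      rintro (i | j | j) D D'
      · exact dlog_add_der D D' _
      · exact om_add_der D D' _
      · change (D + D') (z j) + _ * om _ (D + D') _ = (D (z j) + _) + (D' (z j) + _)
        rw [om_add_der, Derivation.add_apply]
        ring)
    (by
      rintro (i | j | j) c D
      · exact dlog_smul_der c D _
      · exact om_smul_der c D _
      · change (c • D) (z j) + _ * om _ (c • D) _ = c * (D (z j) + _)
        rw [om_smul_der, Derivation.smul_apply, smul_eq_mul]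
        ring)
    (xs Λ ty w v z) hdep
    (by
      intro val
      refine ⟨Sum.elim (fun i => val (Sum.inl i) / Complex.exp (w i))
        (Sum.elim (fun j => val (Sum.inr (Sum.inl j)) / ℘'[Λ (ty j)] (v j))
          (fun j => val (Sum.inr (Sum.inr j)) +
            ℘[Λ (ty j)] (v j) * (val (Sum.inr (Sum.inl j)) / ℘'[Λ (ty j)] (v j)))), fun D hD => ?_⟩
      rintro (i | j | j)
      · have h1 : D (Complex.exp (w i)) / Complex.exp (w i) =
            val (Sum.inl i) / Complex.exp (w i) := hD (Sum.inl i)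
        exact (div_left_inj' (Complex.exp_ne_zero _)).1 h1
      · have h1 : D (℘[Λ (ty j)] (v j)) / ℘'[Λ (ty j)] (v j) =
            val (Sum.inr (Sum.inl j)) / ℘'[Λ (ty j)] (v j) := hD (Sum.inr (Sum.inl j))
        exact (div_left_inj' (hv j)).1 h1
      · have h1 : om (Λ (ty j)) D (v j) =
            val (Sum.inr (Sum.inl j)) / ℘'[Λ (ty j)] (v j) := hD (Sum.inr (Sum.inl j))
        have h4 : D (z j) + ℘[Λ (ty j)] (v j) * om (Λ (ty j)) D (v j) = val (Sum.inr (Sum.inr j)) +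
            ℘[Λ (ty j)] (v j) * (val (Sum.inr (Sum.inl j)) / ℘'[Λ (ty j)] (v j)) :=
          hD (Sum.inr (Sum.inr j))
        rw [h1] at h4
        exact add_right_cancel h4)
  have hS : (u.mb K : Set ℂ) ⊆ cl ((u.mb K : Set ℂ) ∪ Set.range (xs Λ ty w v z)) := fun x hx =>
    subset_cl _ (Or.inl hx)
  obtain ⟨r, hr, hrm, hrel⟩ := step1 hKc hKN u t d hdK hdN hexp (fs Λ ty w v z)
    (by
      rintro (i | j | j) D D' hD hD'
      · exact dlog_br D D' _
      · exact om_br (hD _ (h2 _)) (hD _ (h3 _)) (hD' _ (h2 _)) (hD' _ (h3 _)) _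
      · exact ez_br (hD _ (h2 _)) (hD _ (h3 _)) (hD' _ (h2 _)) (hD' _ (h3 _)) _ _)
    hlift (cl ((u.mb K : Set ℂ) ∪ Set.range (xs Λ ty w v z))) (cl_closed _) hS
    (cl_le u.rg_closed (by
      rintro x (hx | ⟨κ, rfl⟩)
      · exact hmr hx
      · exact hrg κ))
    (by
      intro κ D hD
      have hx : ∀ κ, D (xs Λ ty w v z κ) = 0 := fun κ => hD _ (subset_cl _ (Or.inr ⟨κ, rfl⟩))
      rcases κ with i | j | j
      · exact dlog_eq_zero.2 (hx (Sum.inl i))
      · have h1 : D (℘[Λ (ty j)] (v j)) = 0 := hx (Sum.inr (Sum.inl j))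
        change D (℘[Λ (ty j)] (v j)) / ℘'[Λ (ty j)] (v j) = 0
        rw [h1, zero_div]
      · have h1 : D (℘[Λ (ty j)] (v j)) = 0 := hx (Sum.inr (Sum.inl j))
        have h4 : D (z j) = 0 := hx (Sum.inr (Sum.inr j))
        change D (z j) + ℘[Λ (ty j)] (v j) * (D (℘[Λ (ty j)] (v j)) / ℘'[Λ (ty j)] (v j)) = 0
        rw [h1, h4, zero_div, mul_zero, add_zero])
    r₀ hr₀ hr₀'
  obtain ⟨κ, hE⟩ := exists_eigs Λ
  have hκK : ∀ c, κ c ∈ K := fun c =>
    mem_of_killed hKc fun D hD => (hE c).kill D (hD _ (h2 c)) (hD _ (h3 c))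
  have hkLK : ∀ c, ∀ x ∈ kL (Λ c), x ∈ K := fun c x hx =>
    mem_of_killed hKc fun D _ => der_kL D hx
  set β : Fin m → ℂ := fun i => r (Sum.inl i) with hβ
  set α : Fin n → ℂ := fun j => r (Sum.inr (Sum.inl j)) with hα
  set γ : Fin n → ℂ := fun j => r (Sum.inr (Sum.inr j)) with hγ
  obtain ⟨hM, hM'⟩ := rosM hE hni (u.mb K) (fun c => hKm _ (h2 c)) (fun c => hKm _ (h3 c))
    (fun c x hx => hKm _ (hkLK c x hx)) (fun c => hKm _ (hκK c)) β
    (fun i => Complex.exp (w i)) (fun i => hrm _) (fun i => Complex.exp_ne_zero _) ty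
    (fun j => α j - κ (ty j) * γ j) γ v
    (fun j => sub_mem (hrm _) (mul_mem (hKm _ (hκK _)) (hrm _))) (fun j => hrm _)
    (-∑ j, γ j * z j) (by
      intro D hD
      have h1 := hrel D hD
      rw [Fintype.sum_sum_type, Fintype.sum_sum_type] at h1
      have h4 : D (∑ j, γ j * z j) = ∑ j, γ j * D (z j) := by
        rw [map_sum]
        refine sum_congr rfl fun j _ => ?_
        rw [Derivation.leibniz, hD _ (hrm _), smul_zero, add_zero, smul_eq_mul]
      rw [map_neg, h4]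
      have h5 : ∑ j, ((α j - κ (ty j) * γ j) * om (Λ (ty j)) D (v j) +
          γ j * ((℘[Λ (ty j)] (v j) + κ (ty j)) * om (Λ (ty j)) D (v j))) =
          ∑ j, α j * om (Λ (ty j)) D (v j) +
            ∑ j, γ j * (D (z j) + ℘[Λ (ty j)] (v j) * om (Λ (ty j)) D (v j)) -
            ∑ j, γ j * D (z j) := by
        rw [← sum_add_distrib, ← sum_sub_distrib]
        refine sum_congr rfl fun j _ => ?_
        ring
      rw [h5]
      have h6 : ∑ i, β i * (D (Complex.exp (w i)) / Complex.exp (w i)) +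
          (∑ j, α j * om (Λ (ty j)) D (v j) +
            ∑ j, γ j * (D (z j) + ℘[Λ (ty j)] (v j) * om (Λ (ty j)) D (v j))) = 0 := h1
      linear_combination -h6)
  by_cases hβ0 : β = 0
  · right
    have hex : ∃ j, ty j = ty j ∧ (α j - κ (ty j) * γ j ≠ 0 ∨ γ j ≠ 0) := by
      by_contra hcon
      push Not at hcon
      refine hr (funext fun κ' => ?_)
      have hg : ∀ j, γ j = 0 := fun j => (hcon j rfl).2
      have ha : ∀ j, α j = 0 := fun j => by
        have := (hcon j rfl).1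
        rwa [hg j, mul_zero, sub_zero] at this
      rcases κ' with i | j | j
      · exact congrFun hβ0 i
      · exact ha j
      · exact hg j
    obtain ⟨j₀, -, hj₀⟩ := hex
    rcases hj₀ with hj₀ | hj₀
    · obtain ⟨ψ, hψ⟩ : ∃ ψ : ℂ →ₗ[kL (Λ (ty j₀))] kL (Λ (ty j₀)),
          (ψ (α j₀ - κ (ty j₀) * γ j₀) : ℂ) ≠ 0 := by
        by_contra hcon
        push Not at hcon
        exact hj₀ ((Module.forall_dual_apply_eq_zero_iff (kL (Λ (ty j₀))) _).1
          (fun ψ => Subtype.ext (hcon ψ)))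
      refine ⟨ty j₀, fun j => if ty j = ty j₀ then (ψ (α j - κ (ty j) * γ j) : ℂ) else 0,
        fun j => ?_, fun j hj => if_neg hj, fun h => ?_, fun D hD => ?_⟩
      · dsimp only
        split_ifs
        · exact (ψ _).2
        · exact zero_mem _
      · have := congrFun h j₀
        rw [if_pos rfl] at this
        exact hψ this
      · refine Eq.trans ?_ (hM' (ty j₀) ψ D hD).1
        refine sum_congr rfl fun j _ => ?_
        dsimp only
        split_ifs
        · rfl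
        · rw [zero_mul]
    · obtain ⟨ψ, hψ⟩ : ∃ ψ : ℂ →ₗ[kL (Λ (ty j₀))] kL (Λ (ty j₀)), (ψ (γ j₀) : ℂ) ≠ 0 := by
        by_contra hcon
        push Not at hcon
        exact hj₀ ((Module.forall_dual_apply_eq_zero_iff (kL (Λ (ty j₀))) _).1
          (fun ψ => Subtype.ext (hcon ψ)))
      refine ⟨ty j₀, fun j => if ty j = ty j₀ then conj (ψ (γ j) : ℂ) else 0,
        fun j => ?_, fun j hj => if_neg hj, fun h => ?_, fun D hD => ?_⟩
      · dsimp only
        split_ifs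
        · exact conj_mem_kL (ψ _).2
        · exact zero_mem _
      · have := congrFun h j₀
        rw [if_pos rfl] at this
        exact hψ ((map_eq_zero _).1 this)
      · refine Eq.trans ?_ (hM' (ty j₀) ψ D hD).2
        refine sum_congr rfl fun j _ => ?_
        dsimp only
        split_ifs
        · rfl
        · rw [zero_mul]
  · left
    obtain ⟨i₀, hi₀⟩ := Function.ne_iff.1 hβ0
    obtain ⟨ψ, hψ⟩ : ∃ ψ : ℂ →ₗ[ℚ] ℚ, ψ (β i₀) ≠ 0 := by
      by_contra hcon
      push Not at hcon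
      exact hi₀ ((Module.forall_dual_apply_eq_zero_iff ℚ _).1 hcon)
    exact ⟨fun i => ψ (β i), fun h => hψ (congrFun h i₀), fun D hD => hM ψ D hD⟩

end Pool.Agent.K1H83.BD
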