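import Mathlib
import Pool.Agent.K1H83.BD.Step1c

/-!
# Auxiliary results
-/

set_option autoImplicit false

open Filter Finset Module Cardinal
open scoped PeriodPair

noncomputable section

namespace Pool.Agent.K1H83.BD

open H667R3 Pool.Agent.W245.EB
open Pool.Agent.W252
open Pool.Agent.TH813.Core Pool.Agent.TH813.Ell Pool.Agent.TH813.Core2 Pool.Agent.TH813.G

theorem cl_countable {A : Set ℂ} (hA : A.Countable) : (cl A : Set ℂ).Countable := by
  have h1 : #(IntermediateField.adjoin ℚ A) ≤ ℵ₀ := by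
    refine (IntermediateField.cardinalMk_adjoin_le ℚ A).trans ?_
    refine max_le (max_le ?_ ?_) le_rfl
    · exact Cardinal.mk_le_aleph0
    · exact Cardinal.mk_le_aleph0_iff.2 hA.to_subtype
  have h2 : #(algebraicClosure (IntermediateField.adjoin ℚ A) ℂ) ≤ ℵ₀ := by
    refine (Algebra.IsAlgebraic.cardinalMk_le_max (IntermediateField.adjoin ℚ A) _).trans ?_
    exact max_le h1 le_rfl
  exact Cardinal.mk_le_aleph0_iff.1 h2

theorem clo_algClosed {N : IntermediateField ℚ ℂ} (hN : Clo N) : IsAlgClosed N := by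
  refine IsAlgClosed.of_exists_root _ fun p hp hirr => ?_
  obtain ⟨z, hz⟩ := IsAlgClosed.exists_aeval_eq_zero ℂ p (by
    have := hirr.natDegree_pos
    intro h
    rw [Polynomial.natDegree_eq_of_degree_eq_some h] at this
    exact lt_irrefl _ this)
  have h1 : z ∈ N := hN z ⟨p, hp.ne_zero, hz⟩
  refine ⟨⟨z, h1⟩, ?_⟩
  refine Subtype.ext ?_
  rw [Polynomial.aeval_def] at hz
  have h2 := Polynomial.eval₂_at_apply (p := p) (algebraMap N ℂ) ⟨z, h1⟩
  exact h2.symm.trans hz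

/-- a sequence in a space of finite dimension which is constant modulo a subspace for all linear
functionals is constant modulo the subspace -/
theorem const_mod (k : IntermediateField ℚ ℂ) (Lg : Submodule k ℂ) {r : ℕ} (b : Fin r → ℂ)
    (y : ℕ → ℂ) (hy : ∀ j, y j ∈ Submodule.span k (Set.range b))
    (h : ∀ χ : ℂ →ₗ[k] k, (∀ v ∈ Lg, χ v = 0) →
      ∃ s₀ : ℂ, ∀ᶠ j in (hyperfilter ℕ : Filter ℕ), (χ (y j) : ℂ) = s₀) :
    ∃ j₀, ∀ᶠ j in (hyperfilter ℕ : Filter ℕ), y j - y j₀ ∈ Lg := by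
  classical
  set V : Submodule k ℂ := Submodule.span k (Set.range b) with hV
  have hVf : FiniteDimensional k V := FiniteDimensional.span_of_finite k (Set.finite_range b)
  let V' : Submodule k (ℂ ⧸ Lg) := V.map Lg.mkQ
  have hV'f : FiniteDimensional k V' := inferInstance
  let e := finBasis k V'
  have hext : ∀ i, ∃ χ : (ℂ ⧸ Lg) →ₗ[k] k, χ ∘ₗ V'.subtype = e.coord i := fun i =>
    LinearMap.exists_extend (e.coord i)
  choose χ hχ using hext
  have h1 : ∀ i, ∃ s₀ : ℂ, ∀ᶠ j in (hyperfilter ℕ : Filter ℕ), ((χ i (Lg.mkQ (y j)) : k) : ℂ) = s₀ := by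
    intro i
    exact h (χ i ∘ₗ Lg.mkQ) (fun v hv => by
      rw [LinearMap.comp_apply, (Submodule.Quotient.mk_eq_zero Lg).2 hv |> fun h => (by exact h :
        Lg.mkQ v = 0), map_zero])
  choose s₀ hs₀ using h1
  have h2 : ∀ᶠ j in (hyperfilter ℕ : Filter ℕ), ∀ i, ((χ i (Lg.mkQ (y j)) : k) : ℂ) = s₀ i :=
    eventually_all.2 hs₀
  obtain ⟨j₀, hj₀⟩ := h2.exists
  refine ⟨j₀, ?_⟩
  filter_upwards [h2] with j hj
  have hm : ∀ j, Lg.mkQ (y j) ∈ V' := fun j => Submodule.mem_map_of_mem (hy j)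
  have h3 : (⟨Lg.mkQ (y j), hm j⟩ : V') = ⟨Lg.mkQ (y j₀), hm j₀⟩ := by
    refine e.ext_elem fun i => ?_
    have h4 : ∀ j, e.repr ⟨Lg.mkQ (y j), hm j⟩ i = χ i (Lg.mkQ (y j)) := fun j => by
      have h5 := LinearMap.congr_fun (hχ i) ⟨Lg.mkQ (y j), hm j⟩
      exact h5.symm
    rw [h4, h4]
    exact Subtype.ext ((hj i).trans (hj₀ i).symm)
  have h4 := congrArg Subtype.val h3
  have h5 : Lg.mkQ (y j - y j₀) = 0 := by
    rw [map_sub, sub_eq_zero]
    exact h4
  exact (Submodule.Quotient.mk_eq_zero Lg).1 h5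

/-- points of the curve are values of the elliptic functions -/
theorem exists_pt (L : PeriodPair) {x y : ℂ} (h : y ^ 2 = 4 * x ^ 3 - L.g₂ * x - L.g₃) :
    ∃ v, v ∉ L.lattice ∧ ℘[L] v = x ∧ ℘'[L] v = y := by
  obtain ⟨v, hv, hx⟩ := exists_wp_eq L x
  have h1 := L.derivWeierstrassP_sq v hv
  rw [hx, ← h] at h1
  rcases sq_eq_sq_iff_eq_or_eq_neg.1 h1 with h2 | h2
  · exact ⟨v, hv, hx, h2⟩
  · refine ⟨-v, fun h3 => hv (by simpa using neg_mem h3), ?_, ?_⟩
    · rw [L.weierstrassP_neg, hx]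
    · rw [L.derivWeierstrassP_neg, h2, neg_neg]

end Pool.Agent.K1H83.BD
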