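import Mathlib
import Pool.Agent.K1H83.BD.Cm

/-!
# Values of the exponential and of the elliptic functions on rational combinations
-/

set_option autoImplicit false

open Filter Finset Module
open scoped PeriodPair

noncomputable section

namespace Pool.Agent.K1H83.BD

open H667R3 Pool.Agent.W245.EB
open Pool.Agent.W252
open Pool.Agent.TH813.Core Pool.Agent.TH813.Ell Pool.Agent.TH813.Core2 Pool.Agent.TH813.G

variable {N : IntermediateField ℚ ℂ} {r : ℕ} {b : Fin r → ℂ} {L : PeriodPair}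

theorem dlog_lin (D : Derivation ℚ ℂ ℂ) (q : Fin r → ℚ) (b : Fin r → ℂ) :
    dlog D (∑ j, (q j : ℂ) * b j) = ∑ j, (q j : ℂ) * dlog D (b j) :=
  (KM (⊥ : IntermediateField ℚ ℂ)).sum (D := D) (fun x hx => by
      obtain ⟨q, rfl⟩ := IntermediateField.mem_bot.1 hx
      exact D.map_algebraMap q) univ (fun j => (q j : ℂ)) (fun j => by
        have := (⊥ : IntermediateField ℚ ℂ).algebraMap_mem (q j)
        rwa [eq_ratCast] at this) b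

theorem om_linQ {D : Derivation ℚ ℂ ℂ} (h2 : D L.g₂ = 0) (h3 : D L.g₃ = 0) (q : Fin r → ℚ)
    (b : Fin r → ℂ) :
    om L D (∑ j, (q j : ℂ) * b j) = ∑ j, (q j : ℂ) * om L D (b j) := by
  rw [← om_lin D h2 h3]
  congr 1

theorem et_linQ {D : Derivation ℚ ℂ ℂ} (h2 : D L.g₂ = 0) (h3 : D L.g₃ = 0) (q : Fin r → ℚ)
    (b : Fin r → ℂ) :
    et L D (∑ j, (q j : ℂ) * b j) = ∑ j, (q j : ℂ) * et L D (b j) := by
  rw [← et_lin D h2 h3]
  congr 1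

theorem exp_mem (hN : Clo N) (hb : ∀ j, Complex.exp (b j) ∈ N) (q : Fin r → ℚ) :
    Complex.exp (∑ j, (q j : ℂ) * b j) ∈ N := by
  refine mem_of_killed hN fun D hD => ?_
  rw [← dlog_eq_zero, dlog_lin]
  exact sum_eq_zero fun j _ => by rw [dlog_eq_zero.2 (hD _ (hb j)), mul_zero]

theorem om_kill {D : Derivation ℚ ℂ ℂ} {z : ℂ} (h : D (℘[L] z) = 0) : om L D z = 0 := by
  unfold om
  rw [h, zero_div]

theorem om_comb_zero {D : Derivation ℚ ℂ ℂ} (hD : ∀ x ∈ N, D x = 0) (h2 : L.g₂ ∈ N)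
    (h3 : L.g₃ ∈ N) (hb : ∀ j, ℘[L] (b j) ∈ N) (q : Fin r → ℚ) :
    om L D (∑ j, (q j : ℂ) * b j) = 0 := by
  rw [om_linQ (hD _ h2) (hD _ h3)]
  exact sum_eq_zero fun j _ => by rw [om_kill (hD _ (hb j)), mul_zero]

theorem wp_mem (hN : Clo N) (h2 : L.g₂ ∈ N) (h3 : L.g₃ ∈ N) (hb : ∀ j, ℘[L] (b j) ∈ N)
    (q : Fin r → ℚ) (hp : (∑ j, (q j : ℂ) * b j) ∉ L.lattice) :
    ℘[L] (∑ j, (q j : ℂ) * b j) ∈ N ∧ ℘'[L] (∑ j, (q j : ℂ) * b j) ∈ N := by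
  have h1 : ∀ D : Derivation ℚ ℂ ℂ, (∀ x ∈ N, D x = 0) →
      D (℘[L] (∑ j, (q j : ℂ) * b j)) = 0 ∧ D (℘'[L] (∑ j, (q j : ℂ) * b j)) = 0 := fun D hD =>
    wp_killed (hD _ h2) (hD _ h3) (om_comb_zero hD h2 h3 hb q) hp
  exact ⟨mem_of_killed hN fun D hD => (h1 D hD).1, mem_of_killed hN fun D hD => (h1 D hD).2⟩

theorem zt_mem (hN : Clo N) (h2 : L.g₂ ∈ N) (h3 : L.g₃ ∈ N) (hb : ∀ j, ℘[L] (b j) ∈ N)
    (hz : ∀ j, zt L (b j) ∈ N) (q : Fin r → ℚ) : zt L (∑ j, (q j : ℂ) * b j) ∈ N := by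
  refine mem_of_killed hN fun D hD => ?_
  refine zt_killed (om_comb_zero hD h2 h3 hb q) ?_
  rw [et_linQ (hD _ h2) (hD _ h3)]
  refine sum_eq_zero fun j _ => ?_
  unfold et
  rw [om_kill (hD _ (hb j)), hD _ (hz j), mul_zero, add_zero, mul_zero]

theorem dlog_memN {d : Derivation ℚ ℂ ℂ} (hd : ∀ x ∈ N, d x ∈ N) {z : ℂ}
    (hz : Complex.exp z ∈ N) : dlog d z ∈ N := div_mem (hd _ hz) hz

theorem om_memN {d : Derivation ℚ ℂ ℂ} (hN : Clo N) (hd : ∀ x ∈ N, d x ∈ N) (h2 : L.g₂ ∈ N)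
    (h3 : L.g₃ ∈ N) {z : ℂ} (hz : ℘[L] z ∈ N) : om L d z ∈ N := by
  by_cases hl : z ∈ L.lattice
  · rw [om_of_mem L d hl]
    exact zero_mem _
  · refine div_mem (hd _ hz) (mem_of_killed hN fun D hD => ?_)
    exact (wp_killed (hD _ h2) (hD _ h3) (om_kill (hD _ hz)) hl).2

theorem et_memN {d : Derivation ℚ ℂ ℂ} (hN : Clo N) (hd : ∀ x ∈ N, d x ∈ N) (h2 : L.g₂ ∈ N)
    (h3 : L.g₃ ∈ N) {z : ℂ} (hz : ℘[L] z ∈ N) (hz' : zt L z ∈ N) : et L d z ∈ N :=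
  add_mem (hd _ hz') (mul_mem hz (om_memN hN hd h2 h3 hz))

theorem two_mul_notMem {z : ℂ} (h : ℘'[L] z ≠ 0) : z ∉ L.lattice := by
  intro hz
  refine h ?_
  have h1 := wp'_half_eq_zero L (show 2 * z ∈ L.lattice by rw [two_mul]; exact add_mem hz hz)
  rwa [mul_div_cancel_left₀ z (two_ne_zero)] at h1

end Pool.Agent.K1H83.BD
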