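import Mathlib
import Pool.Agent.K1H83.BD.Vals

/-!
# Sequences of tuples with relations of bounded degree
-/

set_option autoImplicit false

open Filter Finset Module
open scoped PeriodPair

noncomputable section

namespace Pool.Agent.K1H83.BD

open H667R3 Pool.Agent.W245.EB
open Pool.Agent.W252
open Pool.Agent.TH813.Core Pool.Agent.TH813.Ell Pool.Agent.TH813.Core2 Pool.Agent.TH813.G

/-- combination with rational coefficients -/
def cb {r : ℕ} (b : Fin r → ℂ) (q : Fin r → ℚ) : ℂ := ∑ j, (q j : ℂ) * b j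

/-- the values of the functions at a tuple -/
def vals {m n q : ℕ} (Λ : Fin q → PeriodPair) (ty : Fin n → Fin q) (p : Fin m → ℂ)
    (v : Fin n → ℂ) : Fin m ⊕ (Fin n ⊕ Fin n) → ℂ :=
  Sum.elim (fun i => Complex.exp (p i))
    (Sum.elim (fun j => ℘[Λ (ty j)] (v j)) (fun j => zt (Λ (ty j)) (v j)))

variable {K N : IntermediateField ℚ ℂ}

/-- sequences of derivatives -/
theorem lift_sum (u : Up N) {d D : Derivation ℚ ℂ ℂ} (hD : u.IsLift d D) {r : ℕ}
    (f g : ℕ → N) (q : ℕ → Fin r → ℚ) (c : Fin r → ℂ) (hc : ∀ j, c j ∈ N)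
    (h : ∀ k, d (f k : ℂ) = (∑ j, (q k j : ℂ) * c j) * (g k : ℂ)) :
    D (u.c f) = (∑ j, u.c (qc N (fun k => q k j)) * c j) * u.c g := by
  obtain ⟨hd, hD⟩ := hD
  rw [hD f]
  have h1 : Up.dn hd f = (∑ j, qc N (fun k => q k j) * (fun _ => (⟨c j, hc j⟩ : N))) * g := by
    funext k
    refine Subtype.ext ?_
    change d (f k : ℂ) = _
    rw [h k, Pi.mul_apply]
    have h2 : (∑ j, qc N (fun k => q k j) * (fun _ => (⟨c j, hc j⟩ : N)) : ℕ → N) k =
        ∑ j, qc N (fun k => q k j) k * (⟨c j, hc j⟩ : N) := by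
      rw [Finset.sum_apply]
      rfl
    rw [h2]
    push_cast
    congr 1
  rw [h1, map_mul, map_sum]
  congr 1
  refine sum_congr rfl fun j _ => ?_
  rw [map_mul, u.const]

/-- the lattice logarithms of the points over `K` -/
def lgE (L : PeriodPair) (K : IntermediateField ℚ ℂ) : Set ℂ := {v | v ∈ L.lattice ∨ ℘[L] v ∈ K}

/-- the logarithms of the elements of `K` -/
def lgM (K : IntermediateField ℚ ℂ) : Set ℂ := {v | Complex.exp v ∈ K}

/-- Submodule of the vectors with trivial form -/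
def Kd.lg (T : Kd K) : Submodule T.k ℂ where
  carrier := {v | ∀ D : Derivation ℚ ℂ ℂ, (∀ x ∈ K, D x = 0) → T.lam D v = 0}
  add_mem' := by
    intro a b ha hb D hD
    rw [T.add D hD, ha D hD, hb D hD, add_zero]
  zero_mem' := fun D hD => T.zero hD
  smul_mem' := by
    intro c a ha D hD
    have h1 : c • a = (c : ℂ) * a := rfl
    rw [h1, T.mul D hD _ c.2, ha D hD, mul_zero]

theorem mem_lgM (hK : Clo K) {v : ℂ} (hv : v ∈ (KM K).lg) : v ∈ lgM K :=
  mem_of_killed hK fun D hD => dlog_eq_zero.1 (hv D hD)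

theorem mem_lgE {L : PeriodPair} (hK : Clo K) (h2 : L.g₂ ∈ K) (h3 : L.g₃ ∈ K) {v : ℂ}
    (hv : v ∈ (KE L hK h2 h3).lg) : v ∈ lgE L K := by
  by_cases hl : v ∈ L.lattice
  · exact Or.inl hl
  · exact Or.inr (mem_of_killed hK fun D hD => (wp_killed (hD _ h2) (hD _ h3) (hv D hD) hl).1)

end Pool.Agent.K1H83.BD
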