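import Mathlib
import Pool.Agent.K1H83.BD.Seq

/-!
# Sequences of tuples with relations of bounded degree, II
-/

set_option autoImplicit false

open Filter Finset Module
open scoped PeriodPair

noncomputable section

namespace Pool.Agent.K1H83.BD

open H667R3 Pool.Agent.W245.EB
open Pool.Agent.W252
open Pool.Agent.TH813.Core Pool.Agent.TH813.Ell Pool.Agent.TH813.Core2 Pool.Agent.TH813.G

variable {K : IntermediateField ℚ ℂ}

/-- **The theorem for sequences**, the algebraic part -/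
theorem main_up (hKc : Clo K) {N : IntermediateField ℚ ℂ} (hNc : Clo N) (hKN : K ≤ N) (u : Up N)
    {e : ℕ} (t : Fin e → ℂ) (d : Fin e → Derivation ℚ ℂ ℂ) (hdK : ∀ l, ∀ x ∈ K, d l x = 0)
    (hdN : ∀ l, ∀ x ∈ N, d l x ∈ N)
    (hexp : ∀ D : Derivation ℚ ℂ ℂ, (∀ x ∈ K, D x = 0) → ∀ z ∈ N, D z = ∑ l, D (t l) * d l z)
    {q : ℕ} {Λ : Fin q → PeriodPair}
    (h2 : ∀ c, (Λ c).g₂ ∈ K) (h3 : ∀ c, (Λ c).g₃ ∈ K)
    (hni : ∀ c c', c ≠ c' → NoHom (Λ c) (Λ c')) {r : ℕ} (b : Fin r → ℂ)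
    (heN : ∀ j, Complex.exp (b j) ∈ N) (hpN : ∀ c j, ℘[Λ c] (b j) ∈ N)
    (hzN : ∀ c j, zt (Λ c) (b j) ∈ N) {m n : ℕ}
    (ty : Fin n → Fin q) (Q1 : ℕ → Fin m → Fin r → ℚ) (Q2 : ℕ → Fin n → Fin r → ℚ)
    (hns : ∀ k j, ℘'[Λ (ty j)] (cb b (Q2 k j)) ≠ 0)
    (fX : Fin m ⊕ (Fin n ⊕ Fin n) → ℕ → N)
    (hfX : ∀ κ k, (fX κ k : ℂ) =
      vals Λ ty (fun i => cb b (Q1 k i)) (fun j => cb b (Q2 k j)) κ)
    (hdep' : ¬ AlgebraicIndependent (u.mb K) (fun κ => u.c (fX κ))) :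
    (∃ a : Fin m → ℚ, a ≠ 0 ∧ ∃ k₀, ∀ᶠ k in (hyperfilter ℕ : Filter ℕ),
      ∑ i, (a i : ℂ) * (cb b (Q1 k i) - cb b (Q1 k₀ i)) ∈ lgM K) ∨
    ∃ (c₀ : Fin q) (a : Fin n → ℂ), (∀ j, a j ∈ kL (Λ c₀)) ∧ (∀ j, ty j ≠ c₀ → a j = 0) ∧ a ≠ 0 ∧
      ∃ k₀, ∀ᶠ k in (hyperfilter ℕ : Filter ℕ),
        ∑ j, a j * (cb b (Q2 k j) - cb b (Q2 k₀ j)) ∈ lgE (Λ c₀) K := by
  classical
  have h2N : ∀ c, (Λ c).g₂ ∈ N := fun c => hKN (h2 c)
  have h3N : ∀ c, (Λ c).g₃ ∈ N := fun c => hKN (h3 c)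
  have hmb : ∀ x ∈ N, x ∈ u.mb K := fun x hx => subset_cl _ (Or.inr hx)
  have hub : ∀ x ∈ u.ult K, x ∈ u.mb K := fun x hx => subset_cl _ (Or.inl hx)
  have hqb : ∀ f : ℕ → ℚ, u.c (qc N f) ∈ u.mb K := fun f =>
    hub _ ⟨_, fun k => K.algebraMap_mem _, rfl⟩
  -- the sequences
  have hl : ∀ k j, cb b (Q2 k j) ∉ (Λ (ty j)).lattice := fun k j => two_mul_notMem (hns k j)
  let fw : Fin m → ℕ → N := fun i k => ⟨Complex.exp (cb b (Q1 k i)), exp_mem hNc heN (Q1 k i)⟩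
  let fx : Fin n → ℕ → N := fun j k => ⟨℘[Λ (ty j)] (cb b (Q2 k j)),
    (wp_mem hNc (h2N _) (h3N _) (hpN _) (Q2 k j) (hl k j)).1⟩
  let fy : Fin n → ℕ → N := fun j k => ⟨℘'[Λ (ty j)] (cb b (Q2 k j)),
    (wp_mem hNc (h2N _) (h3N _) (hpN _) (Q2 k j) (hl k j)).2⟩
  let fz : Fin n → ℕ → N := fun j k => ⟨zt (Λ (ty j)) (cb b (Q2 k j)),
    zt_mem hNc (h2N _) (h3N _) (hpN _) (hzN _) (Q2 k j)⟩
  have hw0 : ∀ i, u.c (fw i) ≠ 0 := by
    intro i h
    obtain ⟨k, hk⟩ := ((u.zero_iff _).1 h).exists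
    exact Complex.exp_ne_zero _ (congrArg Subtype.val hk)
  let w : Fin m → ℂ := fun i => Complex.log (u.c (fw i))
  have hw : ∀ i, Complex.exp (w i) = u.c (fw i) := fun i => Complex.exp_log (hw0 i)
  have hcurve : ∀ j, (u.c (fy j)) ^ 2 = 4 * (u.c (fx j)) ^ 3 - (Λ (ty j)).g₂ * u.c (fx j) -
      (Λ (ty j)).g₃ := by
    intro j
    have h1 : (fy j) ^ 2 = 4 * (fx j) ^ 3 - (fun _ => (⟨(Λ (ty j)).g₂, h2N _⟩ : N)) * fx j -
        (fun _ => (⟨(Λ (ty j)).g₃, h3N _⟩ : N)) := by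
      funext k
      refine Subtype.ext ?_
      exact (Λ (ty j)).derivWeierstrassP_sq _ (hl k j)
    rw [← map_pow, h1, map_sub, map_sub, map_mul, map_mul, map_pow, map_ofNat, u.const, u.const]
  choose v hvl hvx hvy using fun j => exists_pt (Λ (ty j)) (hcurve j)
  have hvy0 : ∀ j, ℘'[Λ (ty j)] (v j) ≠ 0 := by
    intro j h
    rw [hvy, u.zero_iff] at h
    obtain ⟨k, hk⟩ := h.exists
    exact hns k j (congrArg Subtype.val hk)
  let z : Fin n → ℂ := fun j => u.c (fz j)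
  -- the lifts
  have hlw : ∀ i, ∀ d' D' : Derivation ℚ ℂ ℂ, (∀ x ∈ K, d' x = 0) → u.IsLift d' D' →
      dlog D' (w i) = ∑ j, u.c (qc N (fun k => Q1 k i j)) * dlog d' (b j) := by
    intro i d' D' hd' hD'
    have hdN' := hD'.1
    have h1 := lift_sum u hD' (fw i) (fw i) (fun k => Q1 k i) (fun j => dlog d' (b j))
      (fun j => dlog_memN hdN' (heN j)) (fun k => by
        change d' (Complex.exp (cb b (Q1 k i))) = _ * Complex.exp (cb b (Q1 k i))
        rw [← dlog_lin]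
        unfold dlog
        exact (div_mul_cancel₀ _ (Complex.exp_ne_zero _)).symm)
    unfold dlog at h1 ⊢
    rw [hw, h1, mul_div_cancel_right₀ _ (hw0 i)]
  have hlv : ∀ j, ∀ d' D' : Derivation ℚ ℂ ℂ, (∀ x ∈ K, d' x = 0) → u.IsLift d' D' →
      om (Λ (ty j)) D' (v j) = ∑ l, u.c (qc N (fun k => Q2 k j l)) * om (Λ (ty j)) d' (b l) := by
    intro j d' D' hd' hD'
    have hdN' := hD'.1
    have h1 := lift_sum u hD' (fx j) (fy j) (fun k => Q2 k j) (fun l => om (Λ (ty j)) d' (b l))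
      (fun l => om_memN hNc hdN' (h2N _) (h3N _) (hpN _ l)) (fun k => by
        change d' (℘[Λ (ty j)] (cb b (Q2 k j))) = _ * ℘'[Λ (ty j)] (cb b (Q2 k j))
        rw [← om_linQ (hd' _ (h2 _)) (hd' _ (h3 _))]
        exact (div_mul_cancel₀ _ (hns k j)).symm)
    unfold om at h1 ⊢
    rw [hvx, h1, hvy, mul_div_cancel_right₀ _ (by rw [← hvy]; exact hvy0 j)]
  have hlz : ∀ j, ∀ d' D' : Derivation ℚ ℂ ℂ, (∀ x ∈ K, d' x = 0) → u.IsLift d' D' →
      D' (z j) + ℘[Λ (ty j)] (v j) * om (Λ (ty j)) D' (v j) =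
        ∑ l, u.c (qc N (fun k => Q2 k j l)) * et (Λ (ty j)) d' (b l) := by
    intro j d' D' hd' hD'
    have hdN' := hD'.1
    obtain ⟨hd0, hD0⟩ := hD'
    have hD' : u.IsLift d' D' := ⟨hd0, hD0⟩
    rw [hlv j d' D' hd' hD', hvx]
    change D' (u.c (fz j)) + _ = _
    rw [hD0]
    let cE : Fin r → N := fun l => ⟨et (Λ (ty j)) d' (b l),
      et_memN hNc hdN' (h2N _) (h3N _) (hpN _ l) (hzN _ l)⟩
    let cO : Fin r → N := fun l => ⟨om (Λ (ty j)) d' (b l),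
      om_memN hNc hdN' (h2N _) (h3N _) (hpN _ l)⟩
    have h1 : Up.dn hd0 (fz j) + fx j * ∑ l, qc N (fun k => Q2 k j l) * (fun _ => cO l) =
        ∑ l, qc N (fun k => Q2 k j l) * (fun _ => cE l) := by
      funext k
      refine Subtype.ext ?_
      have e1 : (∑ l, qc N (fun k => Q2 k j l) * (fun _ => cO l) : ℕ → N) k =
          ∑ l, qc N (fun k => Q2 k j l) k * cO l := by
        rw [Finset.sum_apply]
        rfl
      have e2 : (∑ l, qc N (fun k => Q2 k j l) * (fun _ => cE l) : ℕ → N) k =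
          ∑ l, qc N (fun k => Q2 k j l) k * cE l := by
        rw [Finset.sum_apply]
        rfl
      rw [Pi.add_apply, Pi.mul_apply, e1, e2]
      push_cast
      have e3 : ∀ l, ((qc N (fun k => Q2 k j l) k : N) : ℂ) = (Q2 k j l : ℂ) := fun l =>
        qc_coe _ _
      simp only [e3]
      change d' (zt (Λ (ty j)) (cb b (Q2 k j))) + ℘[Λ (ty j)] (cb b (Q2 k j)) *
        ∑ l, (Q2 k j l : ℂ) * om (Λ (ty j)) d' (b l) =
        ∑ l, (Q2 k j l : ℂ) * et (Λ (ty j)) d' (b l)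
      rw [← om_linQ (hd' _ (h2 _)) (hd' _ (h3 _)), ← et_linQ (hd' _ (h2 _)) (hd' _ (h3 _))]
      rfl
    have h4 := congrArg u.c h1
    rw [map_add, map_mul, map_sum, map_sum] at h4
    have e5 : ∀ l, u.c (qc N (fun k => Q2 k j l) * (fun _ => cO l)) =
        u.c (qc N (fun k => Q2 k j l)) * om (Λ (ty j)) d' (b l) := fun l => by
      rw [map_mul, u.const]
    have e6 : ∀ l, u.c (qc N (fun k => Q2 k j l) * (fun _ => cE l)) =
        u.c (qc N (fun k => Q2 k j l)) * et (Λ (ty j)) d' (b l) := fun l => by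
      rw [map_mul, u.const]
    rw [sum_congr rfl (fun l _ => e5 l), sum_congr rfl (fun l _ => e6 l)] at h4
    exact h4
  have hfw : ∀ i, fX (Sum.inl i) = fw i := fun i => funext fun k => Subtype.ext (hfX _ k)
  have hfx : ∀ j, fX (Sum.inr (Sum.inl j)) = fx j := fun j =>
    funext fun k => Subtype.ext (hfX _ k)
  have hfz : ∀ j, fX (Sum.inr (Sum.inr j)) = fz j := fun j =>
    funext fun k => Subtype.ext (hfX _ k)
  have hxs : ∀ κ, xs Λ ty w v z κ = u.c (fX κ) := by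
    rintro (i | j | j)
    · rw [hfw]
      exact hw i
    · rw [hfx]
      exact hvx j
    · rw [hfz]
      rfl
  have hdep : ¬ AlgebraicIndependent (u.mb K) (xs Λ ty w v z) := by
    rw [funext hxs]
    exact hdep'
  have hst := step1c hKc hKN u t d hdK hdN hexp h2 h3 hni ty w v z hvy0
    (by
      intro κ l D hD
      rcases κ with i | j | j
      · change dlog D (w i) ∈ _
        rw [hlw i (d l) D (hdK l) hD]
        exact sum_mem fun j _ => mul_mem (hqb _) (hmb _ (dlog_memN (hdN l) (heN j)))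
      · change om (Λ (ty j)) D (v j) ∈ _
        rw [hlv j (d l) D (hdK l) hD]
        exact sum_mem fun i _ => mul_mem (hqb _)
          (hmb _ (om_memN hNc (hdN l) (h2N _) (h3N _) (hpN _ i)))
      · change D (z j) + ℘[Λ (ty j)] (v j) * om (Λ (ty j)) D (v j) ∈ _
        rw [hlz j (d l) D (hdK l) hD]
        exact sum_mem fun i _ => mul_mem (hqb _)
          (hmb _ (et_memN hNc (hdN l) (h2N _) (h3N _) (hpN _ i) (hzN _ i))))
    (fun κ => by rw [hxs]; exact u.c_mem _) hdep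
  rcases hst with ⟨a, ha0, har⟩ | ⟨c₀, a, hak, hat, ha0, har⟩
  · left
    refine ⟨a, ha0, ?_⟩
    have hst2 := step2 hKc (KM K) hKN u t d hdK hdN hexp b
      (by
        rintro j x rfl
        exact heN j) (fun l j => dlog_memN (hdN l) (heN j)) Q1 w hlw (fun i => (a i : ℂ))
      (fun i => by
        have := (⊥ : IntermediateField ℚ ℂ).algebraMap_mem (a i)
        rwa [eq_ratCast] at this) har
    obtain ⟨k₀, hk₀⟩ := const_mod (KM K).k (KM K).lg b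
      (fun k => ∑ i, (a i : ℂ) * cb b (Q1 k i)) (fun k => by
        refine sum_mem fun i _ => ?_
        have h1 : (a i : ℂ) * cb b (Q1 k i) = (a i : ℚ) • cb b (Q1 k i) := by rw [Rat.smul_def]
        rw [h1]
        have h4 : cb b (Q1 k i) ∈ Submodule.span (KM K).k (Set.range b) := by
          refine sum_mem fun j _ => ?_
          have h5 : (Q1 k i j : ℂ) * b j = (algebraMap ℚ (KM K).k (Q1 k i j)) • b j := by
            rw [Algebra.smul_def]
            rfl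
          rw [h5]
          exact Submodule.smul_mem _ _ (Submodule.subset_span ⟨j, rfl⟩)
        have h6 : (a i : ℚ) • cb b (Q1 k i) = (algebraMap ℚ (KM K).k (a i)) • cb b (Q1 k i) := by
          rw [Algebra.smul_def, Algebra.smul_def]
          rfl
        rw [h6]
        exact Submodule.smul_mem _ _ h4) (fun χ hχ => by
          exact hst2 χ hχ)
    refine ⟨k₀, ?_⟩
    filter_upwards [hk₀] with k hk
    refine mem_lgM hKc ?_
    rw [← sum_sub_distrib] at hk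
    simpa only [mul_sub] using hk
  · right
    refine ⟨c₀, a, hak, hat, ha0, ?_⟩
    let ι := {j : Fin n // ty j = c₀}
    have hsum : ∀ f : Fin n → ℂ, (∀ j, ty j ≠ c₀ → f j = 0) → ∑ j, f j = ∑ j : ι, f j.1 := by
      intro f hf
      rw [← Finset.sum_subtype (univ.filter fun j => ty j = c₀) (fun j => by simp) f]
      rw [Finset.sum_filter]
      refine sum_congr rfl fun j _ => ?_
      by_cases hj : ty j = c₀
      · rw [if_pos hj]
      · rw [if_neg hj, hf j hj]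
    have hst2 := step2 hKc (KE (Λ c₀) hKc (h2 c₀) (h3 c₀)) hKN u t d hdK hdN hexp b
      (by
        rintro j x ⟨y, ⟨rfl, hy⟩, rfl⟩
        exact hpN c₀ j) (fun l j => om_memN hNc (hdN l) (h2N _) (h3N _) (hpN _ j))
      (ι := ι) (fun k j => Q2 k j.1) (fun j => v j.1) (fun j d' D' hd' hD' => by
        obtain ⟨j, hj⟩ := j
        subst hj
        exact hlv j d' D' hd' hD') (fun j => a j.1)
      (fun j => hak j.1) (fun D hD => by
        have h1 := har D hD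
        rw [hsum _ (fun j hj => by rw [hat j hj, zero_mul])] at h1
        refine Eq.trans (sum_congr rfl fun j _ => ?_) h1
        obtain ⟨j, hj⟩ := j
        subst hj
        rfl)
    obtain ⟨k₀, hk₀⟩ := const_mod (KE (Λ c₀) hKc (h2 c₀) (h3 c₀)).k
      (KE (Λ c₀) hKc (h2 c₀) (h3 c₀)).lg b
      (fun k => ∑ j : ι, a j.1 * cb b (Q2 k j.1)) (fun k => by
        refine sum_mem fun i _ => ?_
        have h4 : cb b (Q2 k i.1) ∈ Submodule.span (KE (Λ c₀) hKc (h2 c₀) (h3 c₀)).k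
            (Set.range b) := by
          refine sum_mem fun j _ => ?_
          have h5 : (Q2 k i.1 j : ℂ) * b j =
              (algebraMap ℚ (KE (Λ c₀) hKc (h2 c₀) (h3 c₀)).k (Q2 k i.1 j)) • b j := by
            rw [Algebra.smul_def]
            rfl
          rw [h5]
          exact Submodule.smul_mem _ _ (Submodule.subset_span ⟨j, rfl⟩)
        have h6 : a i.1 * cb b (Q2 k i.1) =
            (⟨a i.1, hak i.1⟩ : (KE (Λ c₀) hKc (h2 c₀) (h3 c₀)).k) • cb b (Q2 k i.1) := rfl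
        rw [h6]
        exact Submodule.smul_mem _ _ h4) (fun χ hχ => by
          exact hst2 χ hχ)
    refine ⟨k₀, ?_⟩
    filter_upwards [hk₀] with k hk
    refine mem_lgE hKc (h2 c₀) (h3 c₀) ?_
    rw [hsum _ (fun j hj => by rw [hat j hj, zero_mul])]
    rw [← sum_sub_distrib] at hk
    simpa only [mul_sub] using hk

/-- **The theorem for sequences.** -/
theorem main_seq (hKc : Clo K) (hKcount : (K : Set ℂ).Countable) {q : ℕ} {Λ : Fin q → PeriodPair}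
    (h2 : ∀ c, (Λ c).g₂ ∈ K) (h3 : ∀ c, (Λ c).g₃ ∈ K)
    (hni : ∀ c c', c ≠ c' → NoHom (Λ c) (Λ c')) {r : ℕ} (b : Fin r → ℂ) {m n : ℕ}
    (ty : Fin n → Fin q) (Q1 : ℕ → Fin m → Fin r → ℚ) (Q2 : ℕ → Fin n → Fin r → ℚ)
    (hns : ∀ k j, ℘'[Λ (ty j)] (cb b (Q2 k j)) ≠ 0)
    {g : ℕ} (s : Fin g → ℂ) (E : Finset (Fin m ⊕ (Fin n ⊕ Fin n) →₀ ℕ))
    (A : ℕ → (Fin m ⊕ (Fin n ⊕ Fin n) →₀ ℕ) → Fin g → ℂ) (hAK : ∀ k μ l, A k μ l ∈ K)
    (hA0 : ∀ k, ∃ μ ∈ E, ∑ l, A k μ l * s l ≠ 0)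
    (hrel : ∀ k, ∑ μ ∈ E, (∑ l, A k μ l * s l) *
      ∏ κ, (vals Λ ty (fun i => cb b (Q1 k i)) (fun j => cb b (Q2 k j)) κ) ^ (μ κ) = 0) :
    (∃ a : Fin m → ℚ, a ≠ 0 ∧ ∃ k₀, ∀ᶠ k in (hyperfilter ℕ : Filter ℕ),
      ∑ i, (a i : ℂ) * (cb b (Q1 k i) - cb b (Q1 k₀ i)) ∈ lgM K) ∨
    ∃ (c₀ : Fin q) (a : Fin n → ℂ), (∀ j, a j ∈ kL (Λ c₀)) ∧ (∀ j, ty j ≠ c₀ → a j = 0) ∧ a ≠ 0 ∧
      ∃ k₀, ∀ᶠ k in (hyperfilter ℕ : Filter ℕ),
        ∑ j, a j * (cb b (Q2 k j) - cb b (Q2 k₀ j)) ∈ lgE (Λ c₀) K := by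
  classical
  -- the field `N`
  set X : Set ℂ := (Set.range s ∪ Set.range fun j => Complex.exp (b j)) ∪
    ((Set.range fun x : Fin q × Fin r => ℘[Λ x.1] (b x.2)) ∪
      Set.range fun x : Fin q × Fin r => zt (Λ x.1) (b x.2)) with hX
  have hXf : X.Finite := ((Set.finite_range _).union (Set.finite_range _)).union
    ((Set.finite_range _).union (Set.finite_range _))
  set N : IntermediateField ℚ ℂ := cl ((K : Set ℂ) ∪ X) with hN
  have hNc : Clo N := cl_closed _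
  have hNcount : (N : Set ℂ).Countable := cl_countable (hKcount.union hXf.countable)
  have hKN : K ≤ N := fun x hx => subset_cl _ (Or.inl hx)
  have hsN : ∀ l, s l ∈ N := fun l => subset_cl _ (Or.inr (Or.inl (Or.inl ⟨l, rfl⟩)))
  have heN : ∀ j, Complex.exp (b j) ∈ N := fun j =>
    subset_cl _ (Or.inr (Or.inl (Or.inr ⟨j, rfl⟩)))
  have hpN : ∀ c j, ℘[Λ c] (b j) ∈ N := fun c j =>
    subset_cl _ (Or.inr (Or.inr (Or.inl ⟨(c, j), rfl⟩)))
  have hzN : ∀ c j, zt (Λ c) (b j) ∈ N := fun c j =>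
    subset_cl _ (Or.inr (Or.inr (Or.inr ⟨(c, j), rfl⟩)))
  have h2N : ∀ c, (Λ c).g₂ ∈ N := fun c => hKN (h2 c)
  have h3N : ∀ c, (Λ c).g₃ ∈ N := fun c => hKN (h3 c)
  obtain ⟨u⟩ := exists_up N hNcount (clo_algClosed hNc)
  obtain ⟨e, t, d, hdK, hdN, hexp⟩ := exists_bd (K := K) hXf
  have hmb : ∀ x ∈ N, x ∈ u.mb K := fun x hx => subset_cl _ (Or.inr hx)
  have hub : ∀ x ∈ u.ult K, x ∈ u.mb K := fun x hx => subset_cl _ (Or.inl hx)
  have hqb : ∀ f : ℕ → ℚ, u.c (qc N f) ∈ u.mb K := fun f =>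
    hub _ ⟨_, fun k => K.algebraMap_mem _, rfl⟩
  have hl : ∀ k j, cb b (Q2 k j) ∉ (Λ (ty j)).lattice := fun k j => two_mul_notMem (hns k j)
  let fw : Fin m → ℕ → N := fun i k => ⟨Complex.exp (cb b (Q1 k i)), exp_mem hNc heN (Q1 k i)⟩
  let fx : Fin n → ℕ → N := fun j k => ⟨℘[Λ (ty j)] (cb b (Q2 k j)),
    (wp_mem hNc (h2N _) (h3N _) (hpN _) (Q2 k j) (hl k j)).1⟩
  let fz : Fin n → ℕ → N := fun j k => ⟨zt (Λ (ty j)) (cb b (Q2 k j)),
    zt_mem hNc (h2N _) (h3N _) (hpN _) (hzN _) (Q2 k j)⟩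
  -- the relation
  let C : (Fin m ⊕ (Fin n ⊕ Fin n) →₀ ℕ) → ℕ → N := fun μ k =>
    ∑ l, (⟨A k μ l, hKN (hAK k μ l)⟩ : N) * ⟨s l, hsN l⟩
  have hCm : ∀ μ, u.c (C μ) ∈ u.mb K := by
    intro μ
    have h1 : C μ = ∑ l, (fun k => (⟨A k μ l, hKN (hAK k μ l)⟩ : N)) * (fun _ => ⟨s l, hsN l⟩) := by
      funext k
      rw [Finset.sum_apply]
      rfl
    rw [h1, map_sum]
    refine sum_mem fun l _ => ?_
    rw [map_mul, u.const]
    exact mul_mem (hub _ ⟨_, fun k => hAK k μ l, rfl⟩) (hmb _ (hsN l))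
  have hC0 : ∃ μ ∈ E, u.c (C μ) ≠ 0 := by
    by_contra hcon
    push Not at hcon
    have h1 : ∀ᶠ k in (hyperfilter ℕ : Filter ℕ), ∀ μ ∈ E, C μ k = 0 := by
      rw [Filter.eventually_all_finset]
      exact fun μ hμ => (u.zero_iff _).1 (hcon μ hμ)
    obtain ⟨k, hk⟩ := h1.exists
    obtain ⟨μ, hμ, h4⟩ := hA0 k
    refine h4 ?_
    have h5 := congrArg (fun x : N => (x : ℂ)) (hk μ hμ)
    simpa [C] using h5
  let fX : Fin m ⊕ (Fin n ⊕ Fin n) → ℕ → N := Sum.elim fw (Sum.elim fx fz)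
  have hfX : ∀ κ k, (fX κ k : ℂ) =
      vals Λ ty (fun i => cb b (Q1 k i)) (fun j => cb b (Q2 k j)) κ := by
    rintro (i | j | j) k <;> rfl
  have hdep : ¬ AlgebraicIndependent (u.mb K) ((fun κ => u.c (fX κ))) := by
    intro hind
    rw [algebraicIndependent_iff] at hind
    let P : MvPolynomial (Fin m ⊕ (Fin n ⊕ Fin n)) (u.mb K) :=
      ∑ μ ∈ E, MvPolynomial.monomial μ ⟨u.c (C μ), hCm μ⟩
    have hP : MvPolynomial.aeval ((fun κ => u.c (fX κ))) P = 0 := by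
      have h1 : MvPolynomial.aeval ((fun κ => u.c (fX κ))) P =
          u.c (∑ μ ∈ E, C μ * ∏ κ, (fX κ) ^ (μ κ)) := by
        rw [map_sum, map_sum]
        refine sum_congr rfl fun μ _ => ?_
        rw [MvPolynomial.aeval_monomial, map_mul, map_prod]
        congr 1
        rw [Finsupp.prod_fintype _ _ (fun _ => pow_zero _)]
        refine prod_congr rfl fun κ _ => ?_
        rw [map_pow]
      rw [h1]
      have h4 : (∑ μ ∈ E, C μ * ∏ κ, (fX κ) ^ (μ κ)) = 0 := by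
        funext k
        refine Subtype.ext ?_
        have h5 : (∑ μ ∈ E, C μ * ∏ κ, (fX κ) ^ (μ κ)) k =
            ∑ μ ∈ E, C μ k * ∏ κ, (fX κ k) ^ (μ κ) := by
          rw [Finset.sum_apply]
          refine sum_congr rfl fun μ _ => ?_
          rw [Pi.mul_apply, Finset.prod_apply]
          rfl
        rw [h5]
        push_cast
        have h6 := hrel k
        simp only [← hfX] at h6
        have h7 : ∀ μ, (C μ k : ℂ) = ∑ l, A k μ l * s l := fun μ => by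
          simp [C]
        simp only [h7]
        exact h6
      rw [h4, map_zero]
    have hP0 := hind P hP
    obtain ⟨μ, hμ, hμ0⟩ := hC0
    have h4 : P.coeff μ = ⟨u.c (C μ), hCm μ⟩ := by
      simp only [P, MvPolynomial.coeff_sum, MvPolynomial.coeff_monomial]
      rw [Finset.sum_ite_eq' E μ, if_pos hμ]
    rw [hP0, MvPolynomial.coeff_zero] at h4
    exact hμ0 (congrArg Subtype.val h4).symm
  exact main_up hKc hNc hKN u t d hdK hdN hexp h2 h3 hni b heN hpN hzN ty Q1 Q2 hns fX hfX hdep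

end Pool.Agent.K1H83.BD
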