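import Mathlib
import Pool.Agent.K1H83.BD.Seq2

/-!
# Relations of bounded degree between the values of exponential and elliptic functions
-/

set_option autoImplicit false

open Filter Finset Module
open scoped PeriodPair

noncomputable section

namespace Pool.Agent.K1H83.BD

open H667R3 Pool.Agent.W245.EB
open Pool.Agent.W252
open Pool.Agent.TH813.Core Pool.Agent.TH813.Ell Pool.Agent.TH813.Core2 Pool.Agent.TH813.G

/-- `v` is a logarithm of a number which is algebraic over `K` -/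
def LgM (K : IntermediateField ℚ ℂ) (v : ℂ) : Prop := IsAlgebraic K (Complex.exp v)

/-- `v` is an elliptic logarithm of a point which is algebraic over `K` -/
def LgE (L : PeriodPair) (K : IntermediateField ℚ ℂ) (v : ℂ) : Prop :=
  v ∈ L.lattice ∨ IsAlgebraic K (℘[L] v)

/-- a nontrivial relation of degree at most `δ` with coefficients in `W` -/
def Rel {J : Type} (W : Set ℂ) (δ : ℕ) (x : J → ℂ) : Prop :=
  ∃ P : MvPolynomial J ℂ, P ≠ 0 ∧ P.totalDegree ≤ δ ∧ (∀ μ, P.coeff μ ∈ W) ∧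
    MvPolynomial.eval x P = 0

theorem alg_of_cl {K : IntermediateField ℚ ℂ} {S : Set ℂ} (hS : ∀ x ∈ S, IsAlgebraic K x) {z : ℂ}
    (hz : z ∈ cl S) : IsAlgebraic K z := by
  have h1 : cl S ≤ cl (K : Set ℂ) := by
    refine cl_le (cl_closed _) fun x hx => ?_
    exact cl_closed _ x (alg_of_subset _ (fun r => subset_cl _ r.2)
      (algebraMap K ℂ).injective (hS x hx))
  have h2 := mem_cl.1 (h1 hz)
  exact alg_of_subset K (fun r => by
    have : IntermediateField.adjoin ℚ (K : Set ℂ) ≤ K :=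
      IntermediateField.adjoin_le_iff.2 (fun x hx => hx)
    exact this r.2) (Subtype.val_injective) h2

/-- the finite set of exponents with all entries at most `δ` -/
def expo (J : Type) [Fintype J] [DecidableEq J] (δ : ℕ) : Finset (J →₀ ℕ) :=
  (univ : Finset J).finsupp (fun _ => Finset.range (δ + 1))

theorem mem_expo {J : Type} [Fintype J] [DecidableEq J] {δ : ℕ} {P : MvPolynomial J ℂ}
    (hP : P.totalDegree ≤ δ) {μ : J →₀ ℕ} (hμ : μ ∈ P.support) : μ ∈ expo J δ := by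
  unfold expo
  rw [Finset.mem_finsupp_iff]
  refine ⟨subset_univ _, fun i _ => ?_⟩
  rw [Finset.mem_range]
  have h1 := MvPolynomial.le_totalDegree hμ
  have h2 : μ i ≤ μ.sum fun _ e => e := by
    by_cases hi : i ∈ μ.support
    · exact Finset.single_le_sum (f := fun i => μ i) (fun _ _ => Nat.zero_le _) hi
    · rw [Finsupp.notMem_support_iff.1 hi]
      exact Nat.zero_le _
  omega

/-- **The theorem.** -/
theorem main (K : IntermediateField ℚ ℂ) {q : ℕ} (Λ : Fin q → PeriodPair)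
    (h2 : ∀ c, IsAlgebraic K (Λ c).g₂) (h3 : ∀ c, IsAlgebraic K (Λ c).g₃)
    (hni : ∀ c c', c ≠ c' → NoHom (Λ c) (Λ c')) (V : Submodule ℚ ℂ) [FiniteDimensional ℚ V]
    (W : Submodule K ℂ) [FiniteDimensional K W] (δ : ℕ) {m n : ℕ} (ty : Fin n → Fin q) :
    ∃ (S : Finset ((Fin m → ℚ) × (Fin m → ℂ)))
      (S' : Fin q → Finset ((Fin n → ℂ) × (Fin n → ℂ))),
      (∀ s ∈ S, s.1 ≠ 0 ∧ ∀ i, s.2 i ∈ V) ∧
      (∀ c, ∀ s ∈ S' c, s.1 ≠ 0 ∧ (∀ j, s.1 j ∈ kL (Λ c)) ∧ (∀ j, ty j ≠ c → s.1 j = 0) ∧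
        ∀ j, s.2 j ∈ V) ∧
      ∀ (p : Fin m → ℂ) (v : Fin n → ℂ), (∀ i, p i ∈ V) → (∀ j, v j ∈ V) →
        (∀ j, v j ∉ (Λ (ty j)).lattice) → Rel (W : Set ℂ) δ (vals Λ ty p v) →
        (∃ s ∈ S, LgM K (∑ i, (s.1 i : ℂ) * (p i - s.2 i))) ∨
        ∃ c, ∃ s ∈ S' c, LgE (Λ c) K (∑ j, s.1 j * (v j - s.2 j)) := by
  classical
  let J := Fin m ⊕ (Fin n ⊕ Fin n)
  -- bases
  let r := finrank ℚ V
  let bV := finBasis ℚ V
  let b : Fin r → ℂ := fun j => (bV j : ℂ)
  have hbV : ∀ Q : Fin r → ℚ, cb b Q ∈ V := fun Q => by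
    refine sum_mem fun j _ => ?_
    rw [← Rat.smul_def]
    exact V.smul_mem _ (bV j).2
  have hVb : ∀ x ∈ V, ∃ Q : Fin r → ℚ, cb b Q = x := fun x hx => by
    refine ⟨fun j => bV.repr ⟨x, hx⟩ j, ?_⟩
    have h4 := congrArg (fun t : V => (t : ℂ)) (bV.sum_repr ⟨x, hx⟩)
    simp only [Submodule.coe_sum, Submodule.coe_smul] at h4
    refine Eq.trans (sum_congr rfl fun j _ => ?_) h4
    rw [Rat.smul_def]
  let g := finrank K W
  let bW := finBasis K W
  let s : Fin g → ℂ := fun l => (bW l : ℂ)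
  have hWs : ∀ x ∈ W, ∃ a : Fin g → ℂ, (∀ l, a l ∈ K) ∧ ∑ l, a l * s l = x := fun x hx => by
    refine ⟨fun l => (bW.repr ⟨x, hx⟩ l : K), fun l => (bW.repr ⟨x, hx⟩ l).2, ?_⟩
    have h4 := congrArg (fun t : W => (t : ℂ)) (bW.sum_repr ⟨x, hx⟩)
    simp only [Submodule.coe_sum, Submodule.coe_smul] at h4
    refine Eq.trans (sum_congr rfl fun j _ => ?_) h4
    rfl
  -- the conditions
  let kk : Fin q → Type := fun c => kL (Λ c)
  have hkc : ∀ c, Countable (kk c) := fun c => by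
    have h4 : (kL (Λ c) : Set ℂ) ⊆ cl (∅ : Set ℂ) := fun x hx =>
      mem_of_killed (cl_closed _) fun D _ => der_kL D hx
    exact ((cl_countable Set.countable_empty).mono h4).to_subtype
  let 𝒞₁ := (Fin m → ℚ) × (Fin m → Fin r → ℚ)
  let 𝒞₂ := Σ c : Fin q, (Fin n → kk c) × (Fin n → Fin r → ℚ)
  let 𝒞 := 𝒞₁ ⊕ 𝒞₂
  have hC : Countable 𝒞 := inferInstance
  let Ok : 𝒞 → Prop := fun C => match C with
    | Sum.inl (a, _) => a ≠ 0
    | Sum.inr ⟨c, (a, _)⟩ => (fun j => (a j : ℂ)) ≠ 0 ∧ ∀ j, ty j ≠ c → (a j : ℂ) = 0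
  let Good : 𝒞 → (Fin m → ℂ) → (Fin n → ℂ) → Prop := fun C p v => match C with
    | Sum.inl (a, Q) => LgM K (∑ i, (a i : ℂ) * (p i - cb b (Q i)))
    | Sum.inr ⟨c, (a, Q)⟩ => LgE (Λ c) K (∑ j, (a j : ℂ) * (v j - cb b (Q j)))
  suffices hmain : ∃ F : Finset 𝒞, (∀ C ∈ F, Ok C) ∧
      ∀ (p : Fin m → ℂ) (v : Fin n → ℂ), (∀ i, p i ∈ V) → (∀ j, v j ∈ V) →
        (∀ j, v j ∉ (Λ (ty j)).lattice) → Rel (W : Set ℂ) δ (vals Λ ty p v) →
        ∃ C ∈ F, Good C p v by
    obtain ⟨F, hF, hFm⟩ := hmain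
    let f₁ : 𝒞 → Option ((Fin m → ℚ) × (Fin m → ℂ)) := fun C => match C with
      | Sum.inl (a, Q) => some (a, fun i => cb b (Q i))
      | Sum.inr _ => none
    let f₂ : (c : Fin q) → 𝒞 → Option ((Fin n → ℂ) × (Fin n → ℂ)) := fun c C => match C with
      | Sum.inl _ => none
      | Sum.inr ⟨c', (a, Q)⟩ => if c' = c then some (fun j => (a j : ℂ), fun j => cb b (Q j)) else none
    refine ⟨(F.image f₁).eraseNone, fun c => (F.image (f₂ c)).eraseNone, ?_, ?_, ?_⟩
    · intro s hs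
      rw [Finset.mem_eraseNone, Finset.mem_image] at hs
      obtain ⟨C, hC, hCs⟩ := hs
      rcases C with ⟨a, Q⟩ | ⟨c, a, Q⟩
      · have h4 : (a, fun i => cb b (Q i)) = s := Option.some.inj hCs
        subst h4
        exact ⟨hF _ hC, fun i => hbV _⟩
      · exact absurd hCs (by simp [f₁])
    · intro c s hs
      rw [Finset.mem_eraseNone, Finset.mem_image] at hs
      obtain ⟨C, hC, hCs⟩ := hs
      rcases C with ⟨a, Q⟩ | ⟨c', a, Q⟩
      · exact absurd hCs (by simp [f₂])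
      · by_cases hc : c' = c
        · subst hc
          have h4 : ((fun j => (a j : ℂ)), fun j => cb b (Q j)) = s := by
            have : f₂ c' (Sum.inr ⟨c', (a, Q)⟩) = some ((fun j => (a j : ℂ)), fun j => cb b (Q j)) :=
              if_pos rfl
            rw [this] at hCs
            exact Option.some.inj hCs
          subst h4
          exact ⟨(hF _ hC).1, fun j => (a j).2, (hF _ hC).2, fun j => hbV _⟩
        · have : f₂ c (Sum.inr ⟨c', (a, Q)⟩) = none := if_neg hc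
          rw [this] at hCs
          exact absurd hCs (by simp)
    · intro p v hp hv hvl hrel
      obtain ⟨C, hC, hCg⟩ := hFm p v hp hv hvl hrel
      rcases C with ⟨a, Q⟩ | ⟨c, a, Q⟩
      · left
        refine ⟨(a, fun i => cb b (Q i)), ?_, hCg⟩
        rw [Finset.mem_eraseNone, Finset.mem_image]
        exact ⟨_, hC, rfl⟩
      · right
        refine ⟨c, ((fun j => (a j : ℂ)), fun j => cb b (Q j)), ?_, hCg⟩
        rw [Finset.mem_eraseNone, Finset.mem_image]
        exact ⟨_, hC, if_pos rfl⟩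
  by_contra hno
  push Not at hno
  -- the basic conditions
  let B₀ : Finset 𝒞 := (univ : Finset (Fin n)).image fun j =>
    Sum.inr ⟨ty j, (Pi.single j 1, 0)⟩
  obtain ⟨enc⟩ : Nonempty (Encodable 𝒞) := ⟨Encodable.ofCountable 𝒞⟩
  let FF : ℕ → Finset 𝒞 := fun k =>
    (((Finset.range (k + 1)).image fun i => (Encodable.decode i : Option 𝒞)).eraseNone ∪ B₀).filter Ok
  have hFF : ∀ k, ∀ C ∈ FF k, Ok C := fun k C hC => (Finset.mem_filter.1 hC).2
  choose P V' hP hV' hlat hrel hgood using fun k => hno (FF k) (hFF k)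
  have hmem : ∀ C : 𝒞, Ok C → ∀ k, Encodable.encode C ≤ k → C ∈ FF k := by
    intro C hC k hk
    rw [Finset.mem_filter, Finset.mem_union]
    refine ⟨Or.inl ?_, hC⟩
    rw [Finset.mem_eraseNone, Finset.mem_image]
    exact ⟨Encodable.encode C, by rw [Finset.mem_range]; omega, Encodable.encodek C⟩
  have hB : ∀ k j, ¬ LgE (Λ (ty j)) K (V' k j) := by
    intro k j h
    have h4 := hgood k (Sum.inr ⟨ty j, (Pi.single j 1, 0)⟩) (by
      rw [Finset.mem_filter, Finset.mem_union]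
      refine ⟨Or.inr (Finset.mem_image.2 ⟨j, mem_univ _, rfl⟩), ?_, ?_⟩
      · intro h5
        have h6 := congrFun h5 j
        simp at h6
      · intro j' hj'
        have : j' ≠ j := fun h => hj' (by rw [h])
        rw [Pi.single_eq_of_ne this]
        rfl)
    refine h4 ?_
    change LgE (Λ (ty j)) K (∑ j', (((Pi.single j 1 : Fin n → kk (ty j)) j' : kk (ty j)) : ℂ) *
      (V' k j' - cb b 0))
    have h5 : ∑ j', (((Pi.single j 1 : Fin n → kk (ty j)) j' : kk (ty j)) : ℂ) *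
      (V' k j' - cb b 0) = V' k j := by
      rw [Finset.sum_eq_single j]
      · rw [Pi.single_eq_same]
        simp [cb]
      · intro j' _ hj'
        rw [Pi.single_eq_of_ne hj']
        simp
      · simp
    rw [h5]
    exact h
  choose Q1 hQ1 using fun k i => hVb _ (hP k i)
  choose Q2 hQ2 using fun k j => hVb _ (hV' k j)
  choose PP hPP0 hPPd hPPW hPPe using hrel
  choose A hAK hAs using fun k μ => hWs _ (hPPW k μ)
  -- the countable field
  let S₀ : Set ℂ := (Set.range fun c => (Λ c).g₂) ∪ ((Set.range fun c => (Λ c).g₃) ∪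
    ⋃ k : ℕ, ⋃ μ ∈ (expo J δ : Finset (J →₀ ℕ)), Set.range (A k μ))
  have hS₀c : S₀.Countable := by
    refine (Set.countable_range _).union ((Set.countable_range _).union ?_)
    refine Set.countable_iUnion fun k => ?_
    refine (Finset.countable_toSet _).biUnion fun μ _ => Set.countable_range _
  have hS₀a : ∀ x ∈ S₀, IsAlgebraic K x := by
    rintro x (⟨c, rfl⟩ | ⟨c, rfl⟩ | hx)
    · exact h2 c
    · exact h3 c
    · rw [Set.mem_iUnion] at hx
      obtain ⟨k, hx⟩ := hx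
      rw [Set.mem_iUnion₂] at hx
      obtain ⟨μ, -, l, rfl⟩ := hx
      exact isAlgebraic_algebraMap (⟨A k μ l, hAK k μ l⟩ : K)
  set K' := cl S₀ with hK'
  have hns : ∀ k j, ℘'[Λ (ty j)] (cb b (Q2 k j)) ≠ 0 := by
    intro k j h
    rw [hQ2] at h
    refine hB k j (Or.inr ?_)
    have h4 := (Λ (ty j)).derivWeierstrassP_sq _ (hlat k j)
    rw [h] at h4
    have h5 : ℘[Λ (ty j)] (V' k j) ∈ cl S₀ := by
      refine mem_of_killed (cl_closed _) fun D hD => ?_
      have hD2 : D (Λ (ty j)).g₂ = 0 := hD _ (subset_cl _ (Or.inl ⟨_, rfl⟩))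
      have hD3 : D (Λ (ty j)).g₃ = 0 := hD _ (subset_cl _ (Or.inr (Or.inl ⟨_, rfl⟩)))
      have h6 : om (Λ (ty j)) D (V' k j) = 0 := by
        unfold om
        rw [h, div_zero]
      exact (wp_killed hD2 hD3 h6 (hlat k j)).1
    exact alg_of_cl hS₀a h5
  have hvals : ∀ k, vals Λ ty (fun i => cb b (Q1 k i)) (fun j => cb b (Q2 k j)) =
      vals Λ ty (P k) (V' k) := by
    intro k
    have e1 : (fun i => cb b (Q1 k i)) = P k := funext fun i => hQ1 k i
    have e2 : (fun j => cb b (Q2 k j)) = V' k := funext fun j => hQ2 k j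
    rw [e1, e2]
  have hseq := main_seq (K := K') (cl_closed _) (cl_countable hS₀c)
    (fun c => subset_cl _ (Or.inl ⟨c, rfl⟩)) (fun c => subset_cl _ (Or.inr (Or.inl ⟨c, rfl⟩)))
    hni b ty Q1 Q2 hns s (expo J δ) (fun k μ l => if μ ∈ expo J δ then A k μ l else 0)
    (by
      intro k μ l
      split_ifs with hμ
      · refine subset_cl _ (Or.inr (Or.inr ?_))
        rw [Set.mem_iUnion]
        refine ⟨k, ?_⟩
        rw [Set.mem_iUnion₂]
        exact ⟨μ, hμ, l, rfl⟩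
      · exact zero_mem _)
    (by
      intro k
      obtain ⟨μ, hμ⟩ := MvPolynomial.ne_zero_iff.1 (hPP0 k)
      have hμE : μ ∈ expo J δ := mem_expo (hPPd k) (MvPolynomial.mem_support_iff.2 hμ)
      refine ⟨μ, hμE, ?_⟩
      simp only [if_pos hμE]
      rw [hAs]
      exact hμ)
    (by
      intro k
      have h4 := hPPe k
      rw [MvPolynomial.eval_eq'] at h4
      rw [hvals k]
      refine Eq.trans ?_ h4
      have h5 : ∑ μ ∈ expo J δ, (∑ l, (if μ ∈ expo J δ then A k μ l else 0) * s l) *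
          ∏ κ, (vals Λ ty (P k) (V' k) κ) ^ (μ κ) =
          ∑ μ ∈ expo J δ, (PP k).coeff μ * ∏ κ, (vals Λ ty (P k) (V' k) κ) ^ (μ κ) := by
        refine sum_congr rfl fun μ hμ => ?_
        simp only [if_pos hμ]
        rw [hAs]
      rw [h5]
      refine (Finset.sum_subset (fun μ hμ => mem_expo (hPPd k) hμ) fun μ _ hμ => ?_).symm
      rw [MvPolynomial.notMem_support_iff.1 hμ, zero_mul])
  have hfin : ∀ C : 𝒞, Ok C → ¬ ∀ᶠ k in (hyperfilter ℕ : Filter ℕ), Good C (P k) (V' k) := by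
    intro C hC hev
    have h4 : ∀ᶠ k in (hyperfilter ℕ : Filter ℕ), Encodable.encode C ≤ k :=
      Filter.Tendsto.eventually (f := id) (Filter.tendsto_id.mono_left
        (by rw [← Nat.cofinite_eq_atTop]; exact Filter.hyperfilter_le_cofinite) :
        Filter.Tendsto id (hyperfilter ℕ : Filter ℕ) Filter.atTop)
        (Filter.eventually_ge_atTop _)
    obtain ⟨k, hk1, hk2⟩ := (hev.and h4).exists
    exact hgood k C (hmem C hC k hk2) hk1
  rcases hseq with ⟨a, ha0, k₀, hk₀⟩ | ⟨c₀, a, hak, hat, ha0, k₀, hk₀⟩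
  · refine hfin (Sum.inl (a, Q1 k₀)) ha0 ?_
    filter_upwards [hk₀] with k hk
    change LgM K (∑ i, (a i : ℂ) * (P k i - cb b (Q1 k₀ i)))
    have h4 : ∑ i, (a i : ℂ) * (cb b (Q1 k i) - cb b (Q1 k₀ i)) =
        ∑ i, (a i : ℂ) * (P k i - cb b (Q1 k₀ i)) :=
      sum_congr rfl fun i _ => by rw [hQ1 k i]
    rw [h4] at hk
    exact alg_of_cl hS₀a hk
  · refine hfin (Sum.inr ⟨c₀, (fun j => ⟨a j, hak j⟩, Q2 k₀)⟩) ⟨ha0, hat⟩ ?_
    filter_upwards [hk₀] with k hk
    change LgE (Λ c₀) K (∑ j, a j * (V' k j - cb b (Q2 k₀ j)))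
    have h4 : ∑ j, a j * (cb b (Q2 k j) - cb b (Q2 k₀ j)) =
        ∑ j, a j * (V' k j - cb b (Q2 k₀ j)) :=
      sum_congr rfl fun j _ => by rw [hQ2 k j]
    rw [h4] at hk
    rcases hk with hk | hk
    · exact Or.inl hk
    · exact Or.inr (alg_of_cl hS₀a hk)

end Pool.Agent.K1H83.BD
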