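import Mathlib
import Pool.Agent.K1H83.BD.Main
import Pool.Agent.TH822.Ell.Cj

/-!
# Sequences whose class belongs to a field; elliptic functions
-/

set_option autoImplicit false

open Filter Finset Module
open scoped PeriodPair

noncomputable section

namespace Pool.Agent.K1H83.BD

open H667R3 Pool.Agent.W245.EB
open Pool.Agent.W252
open Pool.Agent.TH813.Core Pool.Agent.TH813.Ell Pool.Agent.TH813.Core2 Pool.Agent.TH813.G

variable {N : IntermediateField ℚ ℂ}

/-- the sequence `f` is almost everywhere in `N`, and its class is in `F` -/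
def Cls (u : Up N) (F : IntermediateField ℚ ℂ) (f : ℕ → ℂ) : Prop :=
  ∃ g : ℕ → N, (∀ᶠ k in (hyperfilter ℕ : Filter ℕ), (g k : ℂ) = f k) ∧ u.c g ∈ F

namespace Cls

variable {u : Up N} {F : IntermediateField ℚ ℂ} {f f' : ℕ → ℂ}

theorem congr (h : Cls u F f) (hf : ∀ᶠ k in (hyperfilter ℕ : Filter ℕ), f' k = f k) :
    Cls u F f' := by
  obtain ⟨g, hg, hgF⟩ := h
  exact ⟨g, by filter_upwards [hg, hf] with k h1 h2; rw [h1, h2], hgF⟩

theorem mem {g : ℕ → N} (h : Cls u F f) (hg : ∀ᶠ k in (hyperfilter ℕ : Filter ℕ), (g k : ℂ) = f k) :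
    u.c g ∈ F := by
  obtain ⟨g', hg', hgF⟩ := h
  have h1 : u.c g = u.c g' := by
    rw [u.eq_iff]
    filter_upwards [hg, hg'] with k h1 h2
    exact Subtype.ext (h1.trans h2.symm)
  rw [h1]
  exact hgF

theorem add (h : Cls u F f) (h' : Cls u F f') : Cls u F (f + f') := by
  obtain ⟨g, hg, hgF⟩ := h
  obtain ⟨g', hg', hgF'⟩ := h'
  refine ⟨g + g', ?_, ?_⟩
  · filter_upwards [hg, hg'] with k h1 h2
    rw [Pi.add_apply, Pi.add_apply, ← h1, ← h2]
    rfl
  · rw [map_add]
    exact add_mem hgF hgF'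

theorem mul (h : Cls u F f) (h' : Cls u F f') : Cls u F (f * f') := by
  obtain ⟨g, hg, hgF⟩ := h
  obtain ⟨g', hg', hgF'⟩ := h'
  refine ⟨g * g', ?_, ?_⟩
  · filter_upwards [hg, hg'] with k h1 h2
    rw [Pi.mul_apply, Pi.mul_apply, ← h1, ← h2]
    rfl
  · rw [map_mul]
    exact mul_mem hgF hgF'

theorem neg (h : Cls u F f) : Cls u F (-f) := by
  obtain ⟨g, hg, hgF⟩ := h
  refine ⟨-g, ?_, ?_⟩
  · filter_upwards [hg] with k h1
    rw [Pi.neg_apply, Pi.neg_apply, ← h1]
    rfl
  · rw [map_neg]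
    exact neg_mem hgF

theorem sub (h : Cls u F f) (h' : Cls u F f') : Cls u F (f - f') := by
  rw [sub_eq_add_neg]
  exact h.add h'.neg

theorem inv (h : Cls u F f) : Cls u F f⁻¹ := by
  obtain ⟨g, hg, hgF⟩ := h
  refine ⟨fun k => (g k)⁻¹, ?_, ?_⟩
  · filter_upwards [hg] with k h1
    rw [Pi.inv_apply, ← h1]
    rfl
  · rw [u.inv_eq]
    exact inv_mem hgF

theorem div (h : Cls u F f) (h' : Cls u F f') : Cls u F (f / f') := by
  rw [div_eq_mul_inv]
  exact h.mul h'.inv

theorem pow (h : Cls u F f) (n : ℕ) : Cls u F (f ^ n) := by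
  obtain ⟨g, hg, hgF⟩ := h
  refine ⟨g ^ n, ?_, ?_⟩
  · filter_upwards [hg] with k h1
    rw [Pi.pow_apply, Pi.pow_apply, ← h1]
    rfl
  · rw [map_pow]
    exact pow_mem hgF n

theorem const {x : ℂ} (hxN : x ∈ N) (hxF : x ∈ F) : Cls u F (fun _ => x) :=
  ⟨fun _ => ⟨x, hxN⟩, Filter.Eventually.of_forall fun _ => rfl, by rw [u.const]; exact hxF⟩

theorem ofNat (n : ℕ) [n.AtLeastTwo] : Cls u F (OfNat.ofNat n) := by
  have h := const (u := u) (F := F) (ofNat_mem N n) (ofNat_mem F n)
  exact h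

theorem zero : Cls u F 0 := const (zero_mem N) (zero_mem F)

theorem mono {F' : IntermediateField ℚ ℂ} (hF : F ≤ F') (h : Cls u F f) : Cls u F' f := by
  obtain ⟨g, hg, hgF⟩ := h
  exact ⟨g, hg, hF hgF⟩

/-- algebraic elements -/
theorem of_pow (hN : Clo N) (hF : Clo F) {n : ℕ} (hn : 0 < n) (h : Cls u F (f ^ n)) : Cls u F f := by
  obtain ⟨g, hg, hgF⟩ := h
  have h1 : ∀ᶠ k in (hyperfilter ℕ : Filter ℕ), f k ∈ N := by
    filter_upwards [hg] with k hk
    refine hN _ (IsAlgebraic.of_pow hn ?_)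
    rw [Pi.pow_apply] at hk
    rw [← hk]
    exact isAlgebraic_algebraMap (g k)
  classical
  refine ⟨fun k => if h : f k ∈ N then ⟨f k, h⟩ else 0, ?_, ?_⟩
  · filter_upwards [h1] with k hk
    rw [dif_pos hk]
  · refine hF _ (IsAlgebraic.of_pow hn ?_)
    rw [← map_pow]
    have h2 : u.c ((fun k => if h : f k ∈ N then (⟨f k, h⟩ : N) else 0) ^ n) = u.c g := by
      rw [u.eq_iff]
      filter_upwards [h1, hg] with k hk hk2
      refine Subtype.ext ?_
      rw [hk2, Pi.pow_apply, Pi.pow_apply, dif_pos hk]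
      rfl
    rw [h2]
    exact isAlgebraic_algebraMap (⟨u.c g, hgF⟩ : F)

end Cls

/-- the sequence is almost everywhere in the lattice, or its values belong to the field -/
def InE (u : Up N) (F : IntermediateField ℚ ℂ) (L : PeriodPair) (z : ℕ → ℂ) : Prop :=
  (∀ᶠ k in (hyperfilter ℕ : Filter ℕ), z k ∈ L.lattice) ∨
    (Cls u F (fun k => ℘[L] (z k)) ∧ Cls u F (fun k => ℘'[L] (z k)))

variable {u : Up N} {F : IntermediateField ℚ ℂ} {L : PeriodPair}

theorem InE.congr {z w : ℕ → ℂ} (h : InE u F L z)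
    (hf : ∀ᶠ k in (hyperfilter ℕ : Filter ℕ), w k = z k) : InE u F L w := by
  rcases h with h | ⟨h1, h2⟩
  · left
    filter_upwards [h, hf] with k h3 h4
    rw [h4]
    exact h3
  · right
    exact ⟨h1.congr (by filter_upwards [hf] with k h4; rw [h4]),
      h2.congr (by filter_upwards [hf] with k h4; rw [h4])⟩

/-- closure under addition -/
theorem InE.add (h2N : L.g₂ ∈ N) (h2F : L.g₂ ∈ F) {z w : ℕ → ℂ} (hz : InE u F L z)
    (hw : InE u F L w) : InE u F L (z + w) := by
  by_cases hz0 : ∀ᶠ k in (hyperfilter ℕ : Filter ℕ), z k ∈ L.lattice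
  · rcases hw with hw | ⟨hw1, hw2⟩
    · left
      filter_upwards [hz0, hw] with k h1 h2
      exact add_mem h1 h2
    · right
      refine ⟨hw1.congr ?_, hw2.congr ?_⟩
      · filter_upwards [hz0] with k h1
        rw [Pi.add_apply, add_comm, wp_add_lattice L h1]
      · filter_upwards [hz0] with k h1
        rw [Pi.add_apply, add_comm, wp'_add_lattice L h1]
  by_cases hw0 : ∀ᶠ k in (hyperfilter ℕ : Filter ℕ), w k ∈ L.lattice
  · rcases hz with hz | ⟨hw1, hw2⟩
    · exact absurd hz hz0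
    · right
      refine ⟨hw1.congr ?_, hw2.congr ?_⟩
      · filter_upwards [hw0] with k h1
        rw [Pi.add_apply, wp_add_lattice L h1]
      · filter_upwards [hw0] with k h1
        rw [Pi.add_apply, wp'_add_lattice L h1]
  by_cases hs : ∀ᶠ k in (hyperfilter ℕ : Filter ℕ), z k + w k ∈ L.lattice
  · exact Or.inl hs
  right
  obtain ⟨X1, Y1⟩ := hz.resolve_left hz0
  obtain ⟨X2, Y2⟩ := hw.resolve_left hw0
  rw [← Ultrafilter.eventually_not] at hz0 hw0 hs
  have hg : Cls u F (fun _ => L.g₂) := Cls.const h2N h2F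
  set x1 : ℕ → ℂ := fun k => ℘[L] (z k) with hx1
  set y1 : ℕ → ℂ := fun k => ℘'[L] (z k) with hy1
  set x2 : ℕ → ℂ := fun k => ℘[L] (w k) with hx2
  set y2 : ℕ → ℂ := fun k => ℘'[L] (w k) with hy2
  set g : ℕ → ℂ := fun _ => L.g₂ with hgdef
  by_cases hd : ∀ᶠ k in (hyperfilter ℕ : Filter ℕ), z k - w k ∈ L.lattice
  · have e : ∀ k, z k + w k = 2 * w k + (z k - w k) := fun k => by ring
    have h2 : ∀ᶠ k in (hyperfilter ℕ : Filter ℕ), 2 * w k ∉ L.lattice := by
      filter_upwards [hs, hd] with k h1 h2 h3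
      exact h1 (by rw [e]; exact add_mem h3 h2)
    refine ⟨?_, ?_⟩
    · have h3 : Cls u F (-2 * x2 + (6 * x2 ^ 2 - g / 2) ^ 2 / (4 * y2 ^ 2)) := by
        (repeat' (first | assumption | exact Cls.ofNat _ | apply Cls.div | apply Cls.mul | apply Cls.sub | apply Cls.add | apply Cls.neg | apply Cls.pow))
      refine h3.congr ?_
      filter_upwards [h2, hd] with k h4 h5
      rw [Pi.add_apply, e, wp_add_lattice L h5, wp_two L h4]
      rfl
    · have h3 : Cls u F ((-2 * y2 +
          ((2 * (6 * x2 ^ 2 - g / 2) * (12 * x2 * y2)) * (4 * y2 ^ 2)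
            - (6 * x2 ^ 2 - g / 2) ^ 2 * (4 * (2 * y2 * (6 * x2 ^ 2 - g / 2))))
          / (4 * y2 ^ 2) ^ 2) / 2) := by
        have h1 : Cls u F (6 * x2 ^ 2 - g / 2) := by
          (repeat' (first | assumption | exact Cls.ofNat _ | apply Cls.div | apply Cls.mul | apply Cls.sub | apply Cls.add | apply Cls.neg | apply Cls.pow))
        generalize 6 * x2 ^ 2 - g / 2 = t at h1 ⊢
        (repeat' (first | assumption | exact Cls.ofNat _ | apply Cls.div | apply Cls.mul | apply Cls.sub | apply Cls.add | apply Cls.neg | apply Cls.pow))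
      refine h3.congr ?_
      filter_upwards [h2, hd] with k h4 h5
      rw [Pi.add_apply, e, wp'_add_lattice L h5, wp'_two L h4]
      rfl
  rw [← Ultrafilter.eventually_not] at hd
  have hd' : ∀ᶠ k in (hyperfilter ℕ : Filter ℕ), w k - z k ∉ L.lattice := by
    filter_upwards [hd] with k h h'
    exact h (by simpa using neg_mem h')
  have key : ∀ (z w : ℕ → ℂ), Cls u F (fun k => ℘[L] (z k)) → Cls u F (fun k => ℘'[L] (z k)) →
      Cls u F (fun k => ℘[L] (w k)) → Cls u F (fun k => ℘'[L] (w k)) →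
      (∀ᶠ k in (hyperfilter ℕ : Filter ℕ), w k ∉ L.lattice) →
      (∀ᶠ k in (hyperfilter ℕ : Filter ℕ), z k + w k ∉ L.lattice) →
      (∀ᶠ k in (hyperfilter ℕ : Filter ℕ), z k - w k ∉ L.lattice) →
      (∀ᶠ k in (hyperfilter ℕ : Filter ℕ), 2 * z k ∉ L.lattice) →
      Cls u F (fun k => ℘[L] (z k + w k)) ∧ Cls u F (fun k => ℘'[L] (z k + w k)) := by
    intro z w X1 Y1 X2 Y2 hw0 hs hd h2u
    set x : ℕ → ℂ := fun k => ℘[L] (z k) with hx
    set y : ℕ → ℂ := fun k => ℘'[L] (z k) with hy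
    set x₀ : ℕ → ℂ := fun k => ℘[L] (w k) with hx₀
    set y₀ : ℕ → ℂ := fun k => ℘'[L] (w k) with hy₀
    refine ⟨?_, ?_⟩
    · have h3 : Cls u F (x - ((6 * x ^ 2 - g / 2) * (x - x₀)
          - (y - y₀) * y) / (2 * (x - x₀) ^ 2)) := by
            (repeat' (first | assumption | exact Cls.ofNat _ | apply Cls.div | apply Cls.mul | apply Cls.sub | apply Cls.add | apply Cls.neg | apply Cls.pow))
      refine h3.congr ?_
      filter_upwards [hw0, hs, hd, h2u] with k a1 a2 a3 a4
      rw [wp_add L a4 a1 a2 a3]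
      rfl
    · have h3 : Cls u F (y -
          (((12 * x * y) * (x - x₀) + (6 * x ^ 2 - g / 2) * y
          - ((6 * x ^ 2 - g / 2) * y
              + (y - y₀) * (6 * x ^ 2 - g / 2))) * (2 * (x - x₀) ^ 2)
          - ((6 * x ^ 2 - g / 2) * (x - x₀)
            - (y - y₀) * y) * (2 * (2 * (x - x₀) * y)))
          / (2 * (x - x₀) ^ 2) ^ 2) := by
        have h1 : Cls u F (6 * x ^ 2 - g / 2) := by
          (repeat' (first | assumption | exact Cls.ofNat _ | apply Cls.div | apply Cls.mul | apply Cls.sub | apply Cls.add | apply Cls.neg | apply Cls.pow))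
        have h2 : Cls u F (x - x₀) := by
          (repeat' (first | assumption | exact Cls.ofNat _ | apply Cls.div | apply Cls.mul | apply Cls.sub | apply Cls.add | apply Cls.neg | apply Cls.pow))
        have h3 : Cls u F (y - y₀) := by
          (repeat' (first | assumption | exact Cls.ofNat _ | apply Cls.div | apply Cls.mul | apply Cls.sub | apply Cls.add | apply Cls.neg | apply Cls.pow))
        generalize 6 * x ^ 2 - g / 2 = t at h1 ⊢
        generalize x - x₀ = v at h2 ⊢
        generalize y - y₀ = w at h3 ⊢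
        (repeat' (first | assumption | exact Cls.ofNat _ | apply Cls.div | apply Cls.mul | apply Cls.sub | apply Cls.add | apply Cls.neg | apply Cls.pow))
      refine h3.congr ?_
      filter_upwards [hw0, hs, hd, h2u] with k a1 a2 a3 a4
      rw [wp'_add L a4 a1 a2 a3]
      rfl
  by_cases h2u : ∀ᶠ k in (hyperfilter ℕ : Filter ℕ), 2 * z k ∈ L.lattice
  · by_cases h2v : ∀ᶠ k in (hyperfilter ℕ : Filter ℕ), 2 * w k ∈ L.lattice
    · refine ⟨?_, ?_⟩
      · have h3 : Cls u F (-x1 - x2) := by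
          (repeat' (first | assumption | exact Cls.ofNat _ | apply Cls.div | apply Cls.mul | apply Cls.sub | apply Cls.add | apply Cls.neg | apply Cls.pow))
        refine h3.congr ?_
        filter_upwards [hz0, hw0, hs, hd, h2u, h2v] with k a1 a2 a3 a4 a5 a6
        exact (half_sum a1 a2 a3 a4 a5 a6).1
      · refine (Cls.zero (u := u) (F := F)).congr ?_
        filter_upwards [hz0, hw0, hs, hd, h2u, h2v] with k a1 a2 a3 a4 a5 a6
        exact (half_sum a1 a2 a3 a4 a5 a6).2
    · rw [← Ultrafilter.eventually_not] at h2v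
      have h3 := key w z X2 Y2 X1 Y1 hz0 (by
        filter_upwards [hs] with k h
        rwa [add_comm]) hd' h2v
      refine ⟨h3.1.congr ?_, h3.2.congr ?_⟩
      · exact Filter.Eventually.of_forall fun k => by rw [Pi.add_apply, add_comm]
      · exact Filter.Eventually.of_forall fun k => by rw [Pi.add_apply, add_comm]
  · rw [← Ultrafilter.eventually_not] at h2u
    exact key z w X1 Y1 X2 Y2 hw0 hs hd h2u

end Pool.Agent.K1H83.BD
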