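import Mathlib
import Pool.Agent.K1H83.BD.Cls
import Pool.Agent.W245.EB.CMz2

/-!
# Sequences whose class belongs to a field; elliptic functions, II
-/

set_option autoImplicit false

open Filter Finset Module
open scoped PeriodPair

noncomputable section

namespace Pool.Agent.K1H83.BD

open H667R3 Pool.Agent.W245.EB
open Pool.Agent.W252
open Pool.Agent.TH813.Core Pool.Agent.TH813.Ell Pool.Agent.TH813.Core2 Pool.Agent.TH813.G

variable {N : IntermediateField ℚ ℂ} {u : Up N} {F : IntermediateField ℚ ℂ} {L : PeriodPair}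

theorem Cls.sum {ι : Type*} (s : Finset ι) (f : ι → ℕ → ℂ) (h : ∀ i ∈ s, Cls u F (f i)) :
    Cls u F (∑ i ∈ s, f i) := by
  classical
  induction s using Finset.induction_on with
  | empty => exact Cls.zero
  | insert a s ha ih =>
    rw [Finset.sum_insert ha]
    exact (h a (Finset.mem_insert_self _ _)).add (ih fun i hi => h i (Finset.mem_insert_of_mem hi))

theorem alg_mem {E : IntermediateField ℚ ℂ} (hE : Clo E) {x : ℂ} (hx : IsAlgebraic ℚ x) : x ∈ E :=
  hE x (hx.extendScalars (algebraMap ℚ E).injective)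

/-- points which become points over `E` after a multiplication -/
theorem lg_of_mul {E : IntermediateField ℚ ℂ} (hE : Clo E) (h2 : L.g₂ ∈ E) (h3 : L.g₃ ∈ E) {c : ℂ}
    (hc0 : c ≠ 0) (hc : c ∈ kL L) {x : ℂ} (hx : c * x ∈ lgE L E) :
    x ∈ L.lattice ∨ (℘[L] x ∈ E ∧ ℘'[L] x ∈ E) := by
  by_cases hxl : x ∈ L.lattice
  · exact Or.inl hxl
  right
  have h1 : ∀ D : Derivation ℚ ℂ ℂ, (∀ y ∈ E, D y = 0) → om L D x = 0 := by
    intro D hD
    have h4 := (KE L hE h2 h3).mul D hD c hc x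
    change om L D (c * x) = c * om L D x at h4
    have h5 : om L D (c * x) = 0 := by
      rcases hx with hx | hx
      · unfold om
        have : ℘[L] (c * x) = 0 := L.weierstrassP_coe ⟨c * x, hx⟩
        rw [this, map_zero, zero_div]
      · exact om_kill (hD _ hx)
    rw [h5] at h4
    exact (mul_eq_zero.1 h4.symm).resolve_left hc0
  exact ⟨mem_of_killed hE fun D hD => (wp_killed (hD _ h2) (hD _ h3) (h1 D hD) hxl).1,
    mem_of_killed hE fun D hD => (wp_killed (hD _ h2) (hD _ h3) (h1 D hD) hxl).2⟩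

theorem lgE_pt {E : IntermediateField ℚ ℂ} (hE : Clo E) (h2 : L.g₂ ∈ E) (h3 : L.g₃ ∈ E) {x : ℂ}
    (hx : x ∈ lgE L E) : x ∈ L.lattice ∨ (℘[L] x ∈ E ∧ ℘'[L] x ∈ E) :=
  lg_of_mul hE h2 h3 one_ne_zero (one_mem _) (by rwa [one_mul])

/-- constant sequences -/
theorem InE.const {x : ℂ} (h : x ∈ L.lattice ∨ (℘[L] x ∈ N ∧ ℘'[L] x ∈ N))
    (h' : x ∈ L.lattice ∨ (℘[L] x ∈ F ∧ ℘'[L] x ∈ F)) : InE u F L (fun _ => x) := by
  by_cases hx : x ∈ L.lattice
  · exact Or.inl (Filter.Eventually.of_forall fun _ => hx)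
  · have h1 := h.resolve_left hx
    have h2 := h'.resolve_left hx
    exact Or.inr ⟨Cls.const h1.1 h2.1, Cls.const h1.2 h2.2⟩

theorem InE.neg {z : ℕ → ℂ} (h : InE u F L z) : InE u F L (-z) := by
  rcases h with h | ⟨h1, h2⟩
  · left
    filter_upwards [h] with k hk
    exact neg_mem hk
  · right
    refine ⟨h1.congr ?_, h2.neg.congr ?_⟩
    · exact Filter.Eventually.of_forall fun k => by rw [Pi.neg_apply, L.weierstrassP_neg]
    · exact Filter.Eventually.of_forall fun k => by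
        rw [Pi.neg_apply, L.derivWeierstrassP_neg]
        rfl

/-- the data of a curve over both fields -/
structure Bas (N F : IntermediateField ℚ ℂ) (L : PeriodPair) : Prop where
  hN : Clo N
  hF : Clo F
  h2N : L.g₂ ∈ N
  h3N : L.g₃ ∈ N
  h2F : L.g₂ ∈ F
  h3F : L.g₃ ∈ F

theorem Bas.tors (B : Bas N F L) {c : ℂ} (hc0 : c ≠ 0) (hc : c ∈ kL L) {x : ℂ}
    (hx : c * x ∈ L.lattice) : InE u F L (fun _ => x) :=
  InE.const (lg_of_mul B.hN B.h2N B.h3N hc0 hc (Or.inl hx))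
    (lg_of_mul B.hF B.h2F B.h3F hc0 hc (Or.inl hx))

theorem Bas.alg (B : Bas N F L) {x : ℂ} (hx : IsAlgebraic ℚ x) : Cls u F (fun _ => x) :=
  Cls.const (alg_mem B.hN hx) (alg_mem B.hF hx)

theorem Bas.zero (_B : Bas N F L) : InE u F L 0 :=
  Or.inl (Filter.Eventually.of_forall fun _ => zero_mem _)

theorem Bas.sum (B : Bas N F L) {ι : Type*} (s : Finset ι) (z : ι → ℕ → ℂ)
    (h : ∀ i ∈ s, InE u F L (z i)) : InE u F L (∑ i ∈ s, z i) := by
  classical
  induction s using Finset.induction_on with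
  | empty => exact B.zero
  | insert a s ha ih =>
    rw [Finset.sum_insert ha]
    exact (h a (Finset.mem_insert_self _ _)).add B.h2N B.h2F
      (ih fun i hi => h i (Finset.mem_insert_of_mem hi))

/-- a generic torsion point -/
theorem exists_gen {α : ℂ} (hα : α ≠ 0) :
    ∃ (e : ℕ) (z : ℂ), (2 : ℂ) ^ e * z ∈ L.lattice ∧ α * z ∉ L.lattice ∧
      α * (2 * z) ∉ L.lattice ∧ z = L.ω₁ / 2 ^ e := by
  set G : Submodule ℤ ℂ := Submodule.span ℤ {α⁻¹ * L.ω₁ / 2, α⁻¹ * L.ω₂ / 2} with hG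
  have hfg : G.FG := Submodule.fg_span (Set.toFinite _)
  obtain ⟨e, he⟩ := exists_notMem G hfg (ω₁_ne_zero L)
  have g1 : α⁻¹ * L.ω₁ / 2 ∈ G := Submodule.subset_span (by simp)
  have g2 : α⁻¹ * L.ω₂ / 2 ∈ G := Submodule.subset_span (by simp)
  have hz2 : α * (2 * (L.ω₁ / 2 ^ e)) ∉ L.lattice := by
    intro h
    apply he
    obtain ⟨a, a', e1⟩ := PeriodPair.mem_lattice.1 h
    have : L.ω₁ / 2 ^ e = a • (α⁻¹ * L.ω₁ / 2) + a' • (α⁻¹ * L.ω₂ / 2) := by
      rw [zsmul_eq_mul, zsmul_eq_mul]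
      have h5 : L.ω₁ / 2 ^ e = α⁻¹ / 2 * (α * (2 * (L.ω₁ / 2 ^ e))) := by field_simp
      rw [h5, ← e1]
      ring
    rw [this]
    exact G.add_mem (G.smul_mem _ g1) (G.smul_mem _ g2)
  refine ⟨e, L.ω₁ / 2 ^ e, ?_, ?_, hz2, rfl⟩
  · rw [mul_div_cancel₀ _ (pow_ne_zero _ two_ne_zero)]
    exact L.ω₁_mem_lattice
  · intro h
    apply hz2
    have := add_mem h h
    convert this using 1
    ring

variable {α : ℂ}

theorem Bas.out (B : Bas N F L) {hα : α ≠ 0} {hm : ∀ w ∈ L.lattice, α * w ∈ L.lattice} {x : Qt L}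
    (hx : x ∈ ker hα hm) : InE u F L (fun _ => x.out) :=
  B.tors hα (mult_mem_kL hm) (mem_ker.1 hx)

theorem Bas.cls_wp {z : ℕ → ℂ} (h : InE u F L z)
    (hz : ∀ᶠ k in (hyperfilter ℕ : Filter ℕ), z k ∉ L.lattice) :
    Cls u F (fun k => ℘[L] (z k)) ∧ Cls u F (fun k => ℘'[L] (z k)) := by
  refine h.resolve_left fun h1 => ?_
  obtain ⟨k, hk1, hk2⟩ := (h1.and hz).exists
  exact hk2 hk1

/-- the constant of the multiplication formula -/
theorem Bas.mul_const (B : Bas N F L) (u : Up N) (hα : α ≠ 0)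
    (hm : ∀ w ∈ L.lattice, α * w ∈ L.lattice) :
    ∃ c : ℂ, Cls u F (fun _ => c) ∧ ∀ z, α * z ∉ L.lattice →
      α ^ 2 * ℘[L] (α * z) = ∑ x ∈ ker hα hm, ℘[L] (z - x.out) + c := by
  obtain ⟨e, z₀, hz₀, h1, -, -⟩ := exists_gen (L := L) hα
  have hαQ : Cls u F (fun _ => α) := B.alg (alg_of_mul hm)
  have h2e : ((2 : ℂ) ^ e) ∈ kL L := by
    have := natCast_mem (kL L) (2 ^ e)
    push_cast at this
    exact this
  have hz : InE u F L (fun _ => z₀) := B.tors (pow_ne_zero _ two_ne_zero) h2e hz₀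
  refine ⟨α ^ 2 * ℘[L] (α * z₀) - ∑ x ∈ ker hα hm, ℘[L] (z₀ - x.out), ?_, ?_⟩
  · have hαz : InE u F L (fun _ => α * z₀) := B.tors (pow_ne_zero e two_ne_zero) h2e (by
      have h4 := hm _ hz₀
      have h5 : α * ((2 : ℂ) ^ e * z₀) = 2 ^ e * (α * z₀) := by ring
      rwa [h5] at h4)
    have h4 := (Bas.cls_wp hαz (Filter.Eventually.of_forall fun _ => h1)).1
    have h5 : Cls u F (∑ x ∈ ker hα hm, fun _ => ℘[L] (z₀ - x.out)) := by
      refine Cls.sum _ _ fun x hx => ?_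
      have h6 : InE u F L ((fun _ => z₀) + -(fun _ => x.out)) :=
        hz.add B.h2N B.h2F (B.out hx).neg
      have h7 := (Bas.cls_wp h6 (Filter.Eventually.of_forall fun _ => by
        change z₀ + -x.out ∉ L.lattice
        rw [← sub_eq_add_neg]
        exact sub_out_notMem h1 hx)).1
      exact h7.congr (Filter.Eventually.of_forall fun k => by
        change ℘[L] (z₀ - x.out) = ℘[L] (z₀ + -x.out)
        rw [← sub_eq_add_neg])
    have h8 := ((hαQ.pow 2).mul h4).sub h5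
    refine h8.congr (Filter.Eventually.of_forall fun k => ?_)
    rw [Pi.sub_apply, Finset.sum_apply]
    rfl
  · intro z hz
    have := wp_mul_const hα hm z z₀ hz h1
    linear_combination this

/-- closure under multiplications -/
theorem Bas.mul (B : Bas N F L) (hm : ∀ w ∈ L.lattice, α * w ∈ L.lattice) {z : ℕ → ℂ}
    (hz : InE u F L z) : InE u F L (fun k => α * z k) := by
  by_cases hα : α = 0
  · subst hα
    exact Or.inl (Filter.Eventually.of_forall fun k => by
      change 0 * z k ∈ L.lattice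
      rw [zero_mul]
      exact zero_mem _)
  by_cases h : ∀ᶠ k in (hyperfilter ℕ : Filter ℕ), α * z k ∈ L.lattice
  · exact Or.inl h
  right
  rw [← Ultrafilter.eventually_not] at h
  obtain ⟨c, hc, hf⟩ := B.mul_const u hα hm
  have hαQ : Cls u F (fun _ => α) := B.alg (alg_of_mul hm)
  have h5 : Cls u F (∑ x ∈ ker hα hm, fun k => ℘[L] (z k - x.out)) := by
    refine Cls.sum _ _ fun x hx => ?_
    have h6 : InE u F L (z + -(fun _ => x.out)) := hz.add B.h2N B.h2F (B.out hx).neg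
    have h7 := (Bas.cls_wp h6 (by
      filter_upwards [h] with k hk
      change z k + -x.out ∉ L.lattice
      rw [← sub_eq_add_neg]
      exact sub_out_notMem hk hx)).1
    exact h7.congr (Filter.Eventually.of_forall fun k => by
      change ℘[L] (z k - x.out) = ℘[L] (z k + -x.out)
      rw [← sub_eq_add_neg])
  have h8 : Cls u F (fun k => ℘[L] (α * z k)) := by
    refine ((h5.add hc).div (hαQ.pow 2)).congr ?_
    filter_upwards [h] with k hk
    have h9 := hf (z k) hk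
    rw [Pi.div_apply, Pi.add_apply, Finset.sum_apply, Pi.pow_apply, ← h9]
    have : α ^ 2 ≠ 0 := pow_ne_zero _ hα
    field_simp
  refine ⟨h8, Cls.of_pow B.hN B.hF (n := 2) two_pos ?_⟩
  have hg2 : Cls u F (fun _ => L.g₂) := Cls.const B.h2N B.h2F
  have hg3 : Cls u F (fun _ => L.g₃) := Cls.const B.h3N B.h3F
  have h9 := (((Cls.ofNat 4).mul (h8.pow 3)).sub (hg2.mul h8)).sub hg3
  refine h9.congr ?_
  filter_upwards [h] with k hk
  exact L.derivWeierstrassP_sq _ hk

/-- combinations -/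
theorem Bas.comb (B : Bas N F L) {ι : Type*} (s : Finset ι) (a : ι → ℂ)
    (ha : ∀ i ∈ s, ∀ w ∈ L.lattice, a i * w ∈ L.lattice) (z : ι → ℕ → ℂ)
    (h : ∀ i ∈ s, InE u F L (z i)) : InE u F L (fun k => ∑ i ∈ s, a i * z i k) := by
  refine (B.sum s (fun i k => a i * z i k) fun i hi => B.mul (ha i hi) (h i hi)).congr
    (Filter.Eventually.of_forall fun k => ?_)
  rw [Finset.sum_apply]

end Pool.Agent.K1H83.BD
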