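import Mathlib
import Pool.Agent.K1H83.BD.Cls2

/-!
# Sequences whose class belongs to a field; the zeta function
-/

set_option autoImplicit false

open Filter Finset Module
open scoped PeriodPair

noncomputable section

namespace Pool.Agent.K1H83.BD

open H667R3 Pool.Agent.W245.EB
open Pool.Agent.W252
open Pool.Agent.TH813.Core Pool.Agent.TH813.Ell Pool.Agent.TH813.Core2 Pool.Agent.TH813.G

variable {N : IntermediateField ℚ ℂ} {u : Up N} {F : IntermediateField ℚ ℂ} {L : PeriodPair}

/-- the sequence of the values of `ζ` -/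
def ztS (L : PeriodPair) (z : ℕ → ℂ) : ℕ → ℂ := fun k => zt L (z k)

/-- `ζ` is additive modulo the field -/
theorem Bas.zt_add (B : Bas N F L) {z w : ℕ → ℂ} (hz : InE u F L z) (hw : InE u F L w) :
    Cls u F (ztS L (z + w) - ztS L z - ztS L w) := by
  by_cases hw0 : ∀ᶠ k in (hyperfilter ℕ : Filter ℕ), w k ∈ L.lattice
  · refine (Cls.zero (u := u) (F := F)).congr ?_
    filter_upwards [hw0] with k hk
    change zt L (z k + w k) - zt L (z k) - zt L (w k) = 0
    rw [zt_add_lattice hk, zt_of_mem hk]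
    ring
  by_cases hz0 : ∀ᶠ k in (hyperfilter ℕ : Filter ℕ), z k ∈ L.lattice
  · refine (Cls.zero (u := u) (F := F)).congr ?_
    filter_upwards [hz0] with k hk
    change zt L (z k + w k) - zt L (z k) - zt L (w k) = 0
    rw [add_comm (z k), zt_add_lattice hk, zt_of_mem hk]
    ring
  by_cases hs : ∀ᶠ k in (hyperfilter ℕ : Filter ℕ), z k + w k ∈ L.lattice
  · refine (Cls.zero (u := u) (F := F)).congr ?_
    filter_upwards [hs] with k hk
    change zt L (z k + w k) - zt L (z k) - zt L (w k) = 0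
    have e1 : zt L (w k) = - zt L (z k) + zt L (z k + w k) := by
      have h1 : w k = -z k + (z k + w k) := by ring
      conv_lhs => rw [h1]
      rw [zt_add_lattice hk, zt_neg, zt_of_mem hk]
    rw [e1]
    ring
  rw [← Ultrafilter.eventually_not] at hz0 hw0 hs
  obtain ⟨X1, Y1⟩ := Bas.cls_wp hz hz0
  obtain ⟨X2, Y2⟩ := Bas.cls_wp hw hw0
  have hg : Cls u F (fun _ => L.g₂) := Cls.const B.h2N B.h2F
  set x1 : ℕ → ℂ := fun k => ℘[L] (z k) with hx1
  set y1 : ℕ → ℂ := fun k => ℘'[L] (z k) with hy1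
  set x2 : ℕ → ℂ := fun k => ℘[L] (w k) with hx2
  set y2 : ℕ → ℂ := fun k => ℘'[L] (w k) with hy2
  set g : ℕ → ℂ := fun _ => L.g₂ with hgdef
  by_cases hd : ∀ᶠ k in (hyperfilter ℕ : Filter ℕ), z k - w k ∈ L.lattice
  · have h3 : Cls u F ((6 * x2 ^ 2 - g / 2) / (2 * y2)) := by
      (repeat' (first | assumption | exact Cls.ofNat _ | apply Cls.div | apply Cls.mul | apply Cls.sub | apply Cls.add | apply Cls.neg | apply Cls.pow))
    refine h3.congr ?_
    filter_upwards [hs, hd, hw0] with k h1 h2 h0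
    have e : z k + w k = 2 * w k + (z k - w k) := by ring
    have h4 : 2 * w k ∉ L.lattice := fun h3 => h1 (by rw [e]; exact add_mem h3 h2)
    have e1 : zt L (z k) = zt L (w k) + eta L (z k - w k) := by
      have h1 : z k = w k + (z k - w k) := by ring
      conv_lhs => rw [h1]
      rw [zt_add_lattice h2]
    have e2 : zt L (z k + w k) = 2 * zt L (w k) +
        (6 * ℘[L] (w k) ^ 2 - L.g₂ / 2) / (2 * ℘'[L] (w k)) + eta L (z k - w k) := by
      rw [e, zt_add_lattice h2, zt_of_notMem h4, zeta_two L h4, zt_of_notMem h0]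
    change zt L (z k + w k) - zt L (z k) - zt L (w k) =
      (6 * ℘[L] (w k) ^ 2 - L.g₂ / 2) / (2 * ℘'[L] (w k))
    rw [e2, e1]
    ring
  · rw [← Ultrafilter.eventually_not] at hd
    have h3 : Cls u F ((y1 - y2) / (2 * (x1 - x2))) := by
      (repeat' (first | assumption | exact Cls.ofNat _ | apply Cls.div | apply Cls.mul | apply Cls.sub | apply Cls.add | apply Cls.neg | apply Cls.pow))
    refine h3.congr ?_
    filter_upwards [hs, hd, hw0, hz0] with k h1 h2 h0 h0'
    change zt L (z k + w k) - zt L (z k) - zt L (w k) =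
      (℘'[L] (z k) - ℘'[L] (w k)) / (2 * (℘[L] (z k) - ℘[L] (w k)))
    rw [zt_of_notMem h1, zt_of_notMem h0', zt_of_notMem h0, zeta_add L h0' h0 h1 h2]
    ring

theorem Bas.zt_neg (z : ℕ → ℂ) : ztS L (-z) = -ztS L z := by
  funext k
  change zt L (-z k) = -zt L (z k)
  exact Pool.Agent.W245.EB.zt_neg _

variable {α : ℂ}

theorem Cls.of_const {x : ℂ} (h : Cls u F (fun _ => x)) : x ∈ N ∧ x ∈ F := by
  obtain ⟨g, hg, hgF⟩ := h
  obtain ⟨k, hk⟩ := hg.exists
  have hx : x ∈ N := by
    have h2 := (g k).2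
    rw [hk] at h2
    exact h2
  refine ⟨hx, ?_⟩
  have h1 : u.c g = u.c (fun _ => ⟨x, hx⟩) := by
    rw [u.eq_iff]
    filter_upwards [hg] with k hk
    exact Subtype.ext hk
  rw [h1, u.const] at hgF
  exact hgF

/-- the action of the multiplications on `ζ` modulo the field -/
theorem Bas.zt_mul (B : Bas N F L) (u : Up N) (hα : α ≠ 0)
    (hm : ∀ w ∈ L.lattice, α * w ∈ L.lattice) :
    ∃ (m : ℕ) (κ : ℂ), Cls u F (fun _ => κ) ∧
      ∀ z, InE u F L z → Cls u F (fun k => zt L (α * z k) - (m / α * zt L (z k) + κ * z k)) := by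
  obtain ⟨c, hcQ, hc⟩ := B.mul_const u hα hm
  obtain ⟨c₂, hc₂⟩ := zeta_mul hα hm hc
  have hαQ : Cls u F (fun _ => α) := B.alg (alg_of_mul hm)
  set m := (ker hα hm).card with hmdef
  set S := ∑ x ∈ ker hα hm, zt L x.out with hS
  -- away from the kernel
  have hgen : ∀ z, InE u F L z → (∀ᶠ k in (hyperfilter ℕ : Filter ℕ), α * z k ∉ L.lattice) →
      Cls u F (fun k => α * zt L (α * z k) - (m * zt L (z k) - c * z k) - (c₂ - S)) := by
    intro z hz h
    have h6 : Cls u F (∑ x ∈ ker hα hm, -(ztS L (z + -(fun _ => x.out) + (fun _ => x.out)) -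
        ztS L (z + -(fun _ => x.out)) - ztS L (fun _ => x.out))) := by
      refine Cls.sum _ _ fun x hx => Cls.neg ?_
      exact B.zt_add (hz.add B.h2N B.h2F (B.out hx).neg) (B.out hx)
    refine h6.congr ?_
    filter_upwards [h] with k hk
    have h4 := hc₂ (z k) hk
    rw [← zt_of_notMem hk] at h4
    have h5 : ∑ x ∈ ker hα hm, zeta L (z k - x.out) = ∑ x ∈ ker hα hm, zt L (z k - x.out) := by
      apply Finset.sum_congr rfl
      intro x hx
      rw [zt_of_notMem (sub_out_notMem hk hx)]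
    rw [h5] at h4
    have h7 : ∑ x ∈ ker hα hm, (zt L (z k - x.out) - zt L (z k) + zt L x.out) =
        ∑ x ∈ ker hα hm, zt L (z k - x.out) - m * zt L (z k) + S := by
      rw [Finset.sum_add_distrib, Finset.sum_sub_distrib, Finset.sum_const, nsmul_eq_mul]
    rw [Finset.sum_apply]
    have h8 : ∑ x ∈ ker hα hm, (-(ztS L (z + -(fun _ => x.out) + (fun _ => x.out)) -
        ztS L (z + -(fun _ => x.out)) - ztS L (fun _ => x.out))) k =
        ∑ x ∈ ker hα hm, (zt L (z k - x.out) - zt L (z k) + zt L x.out) := by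
      refine Finset.sum_congr rfl fun x _ => ?_
      change -(zt L (z k + -x.out + x.out) - zt L (z k + -x.out) - zt L x.out) = _
      rw [neg_add_cancel_right, ← sub_eq_add_neg]
      ring
    rw [h8, h7, h4]
    ring
  obtain ⟨e, z₀, hz₀, hz1, hz2, -⟩ := exists_gen (L := L) hα
  have h2e : ((2 : ℂ) ^ e) ∈ kL L := by
    have := natCast_mem (kL L) (2 ^ e)
    push_cast at this
    exact this
  have hz : InE u F L (fun _ => z₀) := B.tors (pow_ne_zero _ two_ne_zero) h2e hz₀
  have hαz : InE u F L (fun _ => α * z₀) := B.tors (pow_ne_zero e two_ne_zero) h2e (by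
    have h4 := hm _ hz₀
    have h5 : α * ((2 : ℂ) ^ e * z₀) = 2 ^ e * (α * z₀) := by ring
    rwa [h5] at h4)
  have hmQ : Cls u F (fun _ => (m : ℂ)) :=
    Cls.const (natCast_mem N m) (natCast_mem F m)
  have h2Q : Cls u F (fun _ => (2 : ℂ)) := Cls.ofNat 2
  -- the constant
  have hconst : Cls u F (fun _ => c₂ - S) := by
    have h2z : InE u F L (fun _ => 2 * z₀) := (hz.add B.h2N B.h2F hz).congr
      (Filter.Eventually.of_forall fun k => by
        change 2 * z₀ = z₀ + z₀
        ring)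
    have a1 := hgen _ hz (Filter.Eventually.of_forall fun _ => hz1)
    have a2 := hgen _ h2z (Filter.Eventually.of_forall fun _ => hz2)
    have a3 := B.zt_add hz hz
    have a4 := B.zt_add hαz hαz
    have h4 := ((a2.sub (h2Q.mul a1)).sub (hαQ.mul a4)).add (hmQ.mul a3)
    refine h4.congr (Filter.Eventually.of_forall fun k => ?_)
    change c₂ - S = (α * zt L (α * (2 * z₀)) - (m * zt L (2 * z₀) - c * (2 * z₀)) - (c₂ - S)) -
      2 * (α * zt L (α * z₀) - (m * zt L z₀ - c * z₀) - (c₂ - S)) -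
      α * (zt L (α * z₀ + α * z₀) - zt L (α * z₀) - zt L (α * z₀)) +
      m * (zt L (z₀ + z₀) - zt L z₀ - zt L z₀)
    have e1 : α * z₀ + α * z₀ = α * (2 * z₀) := by ring
    have e2 : z₀ + z₀ = 2 * z₀ := by ring
    rw [e1, e2]
    ring
  have hgen' : ∀ z, InE u F L z → (∀ᶠ k in (hyperfilter ℕ : Filter ℕ), α * z k ∉ L.lattice) →
      Cls u F (fun k => zt L (α * z k) - (m / α * zt L (z k) + -(c / α) * z k)) := by
    intro z hz h
    refine (((hgen z hz h).add hconst).div hαQ).congr (Filter.Eventually.of_forall fun k => ?_)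
    change _ = (α * zt L (α * z k) - (m * zt L (z k) - c * z k) - (c₂ - S) + (c₂ - S)) / α
    field_simp
    ring
  refine ⟨m, -(c / α), (hcQ.div hαQ).neg, fun z hzz => ?_⟩
  by_cases h : ∀ᶠ k in (hyperfilter ℕ : Filter ℕ), α * z k ∈ L.lattice
  · have hmuz : ∀ᶠ k in (hyperfilter ℕ : Filter ℕ), α * (z + (fun _ => z₀) : ℕ → ℂ) k ∉ L.lattice := by
      filter_upwards [h] with k hk h'
      apply hz1
      have := sub_mem h' hk
      have e1 : α * (z + (fun _ => z₀) : ℕ → ℂ) k - α * z k = α * z₀ := by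
        change α * (z k + z₀) - α * z k = α * z₀
        ring
      rwa [e1] at this
    have a1 := hgen' _ (hzz.add B.h2N B.h2F hz) hmuz
    have a2 := hgen' _ hz (Filter.Eventually.of_forall fun _ => hz1)
    have a3 := B.zt_add hzz hz
    have a4 := B.zt_add (B.mul hm hzz) hαz
    have h4 := ((a1.sub a2).sub a4).add ((hmQ.div hαQ).mul a3)
    refine h4.congr (Filter.Eventually.of_forall fun k => ?_)
    change zt L (α * z k) - (m / α * zt L (z k) + -(c / α) * z k) =
      (zt L (α * (z k + z₀)) - (m / α * zt L (z k + z₀) + -(c / α) * (z k + z₀))) -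
      (zt L (α * z₀) - (m / α * zt L z₀ + -(c / α) * z₀)) -
      (zt L (α * z k + α * z₀) - zt L (α * z k) - zt L (α * z₀)) +
      m / α * (zt L (z k + z₀) - zt L (z k) - zt L z₀)
    rw [mul_add α]
    ring
  · rw [← Ultrafilter.eventually_not] at h
    exact hgen' z hzz h

end Pool.Agent.K1H83.BD
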