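import Mathlib
import Pool.Agent.K1H83.BD.Seq2
import Pool.Agent.TH813.Rel2

/-!
# Algebraic dependence of families
-/

set_option autoImplicit false

open Filter Finset Module

noncomputable section

namespace Pool.Agent.K1H83.BD

open Pool.Agent.TH813.Rel (MK)

/-- two families, independent over a field and over a bigger field which contains the first one -/
theorem algInd_sum {F M : IntermediateField ℚ ℂ} (hFM : F ≤ M) {ι κ : Type} {x : ι → ℂ} {y : κ → ℂ}
    (hxM : ∀ i, x i ∈ M) (hx : AlgebraicIndependent F x) (hy : AlgebraicIndependent M y) :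
    AlgebraicIndependent F (Sum.elim x y) := by
  refine Pool.Agent.H135R2.VS.algInd_of_der fun v => ?_
  obtain ⟨D₁, hD₁⟩ := Pool.Agent.H135R2.VS.exists_der hx (fun i => v (Sum.inl i))
  obtain ⟨D₂, hD₂⟩ := Pool.Agent.H135R2.VS.exists_der hy (fun j => v (Sum.inr j) - D₁ (y j))
  have h2 : ∀ x ∈ M, D₂.restrictScalars ℚ x = 0 := fun x hx => D₂.map_algebraMap ⟨x, hx⟩
  refine ⟨D₁ + upg F (D₂.restrictScalars ℚ) (fun x hx => h2 x (hFM hx)), ?_⟩
  rintro (i | j)
  · rw [Derivation.add_apply]
    change D₁ (x i) + D₂.restrictScalars ℚ (x i) = _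
    rw [hD₁, h2 _ (hxM i), add_zero]
  · rw [Derivation.add_apply]
    change D₁ (y j) + D₂ (y j) = _
    rw [hD₂]
    ring

/-- if some `n` elements of the closure are independent then some `n` members of the family are -/
theorem exists_ind {F : IntermediateField ℚ ℂ} {J : Type} [Fintype J] [DecidableEq J] (Z : J → ℂ)
    {κ : Type} [Fintype κ] (y : κ → ℂ) (hy : AlgebraicIndependent F y)
    (hyZ : ∀ i, IsAlgebraic (Algebra.adjoin F (Set.range Z)) (y i)) :
    ∃ T : Finset J, T.card = Fintype.card κ ∧ AlgebraicIndependent F (fun j : T => Z j) := by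
  classical
  have h1 : (MK F).Indep (Set.range y) := by
    rw [AlgebraicIndependent.matroid_indep_iff]
    exact hy.coe_range
  have h2 : Set.range y ⊆ (MK F).closure (Set.range Z) := by
    rintro _ ⟨i, rfl⟩
    exact Pool.Agent.TH813.Rel.mem_cl.2 (hyZ i)
  have h3 : ((Fintype.card κ : ℕ) : ℕ∞) ≤ (MK F).eRk (Set.range Z) := by
    rw [← (MK F).eRk_closure_eq]
    refine le_trans ?_ ((MK F).eRk_mono h2)
    rw [h1.eRk_eq_encard]
    rw [← Set.image_univ, hy.injective.encard_image, Set.encard_univ, ENat.card_eq_coe_fintype_card]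
  obtain ⟨I, hIZ, hI, hIc⟩ := Matroid.le_eRk_iff.1 h3
  choose g hg using fun x : I => hIZ x.2
  have hIf : I.Finite := (Set.finite_range Z).subset hIZ
  let _ := hIf.fintype
  have hgi : Function.Injective g := fun x y h => by
    refine Subtype.ext ?_
    rw [← hg x, ← hg y, h]
  refine ⟨univ.image g, ?_, ?_⟩
  · rw [Finset.card_image_of_injective _ hgi, Finset.card_univ]
    have h4 : I.encard = (Fintype.card I : ℕ∞) := by
      rw [← ENat.card_eq_coe_fintype_card]
      rfl
    rw [h4] at hIc
    exact_mod_cast hIc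
  · rw [AlgebraicIndependent.matroid_indep_iff] at hI
    have h5 : AlgebraicIndependent F (fun x : I => (x : ℂ)) := hI
    -- reindex
    have h6 : ∀ j : (univ.image g : Finset J), ∃ x : I, g x = j := fun j => by
      obtain ⟨x, -, hx⟩ := Finset.mem_image.1 j.2
      exact ⟨x, hx⟩
    choose f hf using h6
    have hfi : Function.Injective f := fun i j h => Subtype.ext (by rw [← hf i, ← hf j, h])
    have h7 := h5.comp f hfi
    have h8 : (fun j : (univ.image g : Finset J) => Z j) =
        (fun x : I => (x : ℂ)) ∘ f := by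
      funext j
      change Z j = ((f j : I) : ℂ)
      rw [← hf j, hg]
    rw [h8]
    exact h7

end Pool.Agent.K1H83.BD
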