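import Mathlib
import Pool.Agent.K1H83.BD.Min0

/-!
# Transfer of algebraic dependence and independence to the ultrapower
-/

set_option autoImplicit false

open Filter Finset Module

noncomputable section

namespace Pool.Agent.K1H83.BD

open Pool.Agent.TH813.Rel (MK)

variable {N : IntermediateField ℚ ℂ}

/-- relations at all `k` give a relation at infinity -/
theorem dep_of_rel (u : Up N) {F : IntermediateField ℚ ℂ} {J : Type} [Fintype J] [DecidableEq J]
    (f : J → ℕ → N) (E : Finset (J →₀ ℕ)) (C : (J →₀ ℕ) → ℕ → N) (hC : ∀ μ, u.c (C μ) ∈ F)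
    (h0 : ∀ k, ∃ μ ∈ E, C μ k ≠ 0)
    (hrel : ∀ k, ∑ μ ∈ E, C μ k * ∏ κ, (f κ k) ^ (μ κ) = 0) :
    ¬ AlgebraicIndependent F (fun κ => u.c (f κ)) := by
  intro hind
  have hC0 : ∃ μ ∈ E, u.c (C μ) ≠ 0 := by
    by_contra hcon
    push Not at hcon
    have h1 : ∀ᶠ k in (hyperfilter ℕ : Filter ℕ), ∀ μ ∈ E, C μ k = 0 := by
      rw [Filter.eventually_all_finset]
      exact fun μ hμ => (u.zero_iff _).1 (hcon μ hμ)
    obtain ⟨k, hk⟩ := h1.exists
    obtain ⟨μ, hμ, h4⟩ := h0 k
    exact h4 (hk μ hμ)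
  rw [algebraicIndependent_iff] at hind
  let P : MvPolynomial J F := ∑ μ ∈ E, MvPolynomial.monomial μ ⟨u.c (C μ), hC μ⟩
  have hP : MvPolynomial.aeval (fun κ => u.c (f κ)) P = 0 := by
    have h1 : MvPolynomial.aeval (fun κ => u.c (f κ)) P =
        u.c (∑ μ ∈ E, C μ * ∏ κ, (f κ) ^ (μ κ)) := by
      rw [map_sum, map_sum]
      refine sum_congr rfl fun μ _ => ?_
      rw [MvPolynomial.aeval_monomial, map_mul, map_prod]
      congr 1
      rw [Finsupp.prod_fintype _ _ (fun _ => pow_zero _)]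
      refine prod_congr rfl fun κ _ => ?_
      rw [map_pow]
    rw [h1]
    have h4 : (∑ μ ∈ E, C μ * ∏ κ, (f κ) ^ (μ κ)) = 0 := by
      funext k
      have h5 : (∑ μ ∈ E, C μ * ∏ κ, (f κ) ^ (μ κ)) k =
          ∑ μ ∈ E, C μ k * ∏ κ, (f κ k) ^ (μ κ) := by
        rw [Finset.sum_apply]
        refine sum_congr rfl fun μ _ => ?_
        rw [Pi.mul_apply, Finset.prod_apply]
        rfl
      rw [h5]
      exact hrel k
    rw [h4, map_zero]
  have hP0 := hind P hP
  obtain ⟨μ, hμ, hμ0⟩ := hC0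
  have h4 : P.coeff μ = ⟨u.c (C μ), hC μ⟩ := by
    simp only [P, MvPolynomial.coeff_sum, MvPolynomial.coeff_monomial]
    rw [Finset.sum_ite_eq' E μ, if_pos hμ]
  rw [hP0, MvPolynomial.coeff_zero] at h4
  exact hμ0 (congrArg Subtype.val h4).symm

/-- independence at almost all `k` gives independence at infinity -/
theorem indep_ult (u : Up N) {F : IntermediateField ℚ ℂ} {J : Type} [Fintype J]
    [DecidableEq J] (f : J → ℕ → N)
    (h : ∀ᶠ k in (hyperfilter ℕ : Filter ℕ), AlgebraicIndependent F (fun κ => (f κ k : ℂ))) :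
    AlgebraicIndependent (u.ult F) (fun κ => u.c (f κ)) := by
  rw [algebraicIndependent_iff]
  intro P hP
  by_contra hne
  obtain ⟨μ₀, hμ₀⟩ := MvPolynomial.ne_zero_iff.1 hne
  choose g hg hgc using fun μ : J →₀ ℕ => (P.coeff μ).2
  have h1 : u.c (∑ μ ∈ P.support, g μ * ∏ κ, (f κ) ^ (μ κ)) = 0 := by
    rw [MvPolynomial.aeval_def, MvPolynomial.eval₂_eq'] at hP
    rw [← hP, map_sum]
    refine sum_congr rfl fun μ _ => ?_
    rw [map_mul, map_prod, hgc]
    congr 1
    refine prod_congr rfl fun κ _ => ?_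
    rw [map_pow]
  rw [u.zero_iff] at h1
  refine hμ₀ (Subtype.ext ?_)
  rw [← hgc]
  change u.c (g μ₀) = 0
  rw [u.zero_iff]
  filter_upwards [h1, h] with k hk1 hk2
  rw [algebraicIndependent_iff] at hk2
  let Pk : MvPolynomial J F := ∑ μ ∈ P.support, MvPolynomial.monomial μ ⟨g μ k, hg μ k⟩
  have hPk := hk2 Pk (by
    rw [map_sum]
    have h3 := congrArg (fun x : N => (x : ℂ)) hk1
    have h5 : (∑ μ ∈ P.support, g μ * ∏ κ, (f κ) ^ (μ κ)) k =
        ∑ μ ∈ P.support, g μ k * ∏ κ, (f κ k) ^ (μ κ) := by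
      rw [Finset.sum_apply]
      refine sum_congr rfl fun μ _ => ?_
      rw [Pi.mul_apply, Finset.prod_apply]
      rfl
    rw [h5] at h3
    push_cast at h3
    refine Eq.trans (sum_congr rfl fun μ _ => ?_) h3
    rw [MvPolynomial.aeval_monomial, Finsupp.prod_fintype _ _ (fun _ => pow_zero _)]
    rfl)
  have h4 : Pk.coeff μ₀ = ⟨g μ₀ k, hg μ₀ k⟩ := by
    simp only [Pk, MvPolynomial.coeff_sum, MvPolynomial.coeff_monomial]
    rw [Finset.sum_ite_eq' P.support μ₀, if_pos (MvPolynomial.mem_support_iff.2 hμ₀)]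
  rw [hPk, MvPolynomial.coeff_zero] at h4
  exact Subtype.ext (congrArg Subtype.val h4).symm

/-- independence over a field implies independence over the subfields of its algebraic closure -/
theorem algInd_cl {F F' : IntermediateField ℚ ℂ} (hF : F' ≤ cl (F : Set ℂ)) {ι : Type} {x : ι → ℂ}
    (hx : AlgebraicIndependent F x) : AlgebraicIndependent F' x := by
  refine Pool.Agent.H135R2.VS.algInd_of_der fun v => ?_
  obtain ⟨D, hD⟩ := Pool.Agent.H135R2.VS.exists_der hx v
  have h1 : ∀ y ∈ F, D.restrictScalars ℚ y = 0 := fun y hy => D.map_algebraMap ⟨y, hy⟩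
  refine ⟨upg F' (D.restrictScalars ℚ) (fun y hy => kill_cl (A := (F : Set ℂ)) h1 (hF hy)), ?_⟩
  exact hD

/-- a subfamily from the rank -/
theorem exists_of_le {F : IntermediateField ℚ ℂ} {J : Type} [Fintype J] [DecidableEq J] (Z : J → ℂ)
    {e : ℕ} (h : (e : ℕ∞) ≤ (MK F).eRk (Set.range Z)) :
    ∃ g : Fin e → J, Function.Injective g ∧ AlgebraicIndependent F (fun i => Z (g i)) := by
  classical
  obtain ⟨I, hIZ, hI, hIc⟩ := Matroid.le_eRk_iff.1 h
  choose g hg using fun x : I => hIZ x.2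
  have hIf : I.Finite := (Set.finite_range Z).subset hIZ
  let _ := hIf.fintype
  have h4 : I.encard = (Fintype.card I : ℕ∞) := by
    rw [← ENat.card_eq_coe_fintype_card]
    rfl
  rw [h4] at hIc
  have h5 : Fintype.card I = e := by exact_mod_cast hIc
  let ee : Fin e ≃ I := (Fintype.equivFinOfCardEq h5).symm
  refine ⟨fun i => g (ee i), fun i j hij => ee.injective ?_, ?_⟩
  · refine Subtype.ext ?_
    rw [← hg (ee i), ← hg (ee j)]
    exact congrArg Z hij
  · rw [AlgebraicIndependent.matroid_indep_iff] at hI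
    have h6 : AlgebraicIndependent F (fun x : I => (x : ℂ)) := hI
    have h7 := h6.comp ee ee.injective
    have h8 : (fun i => Z (g (ee i))) = (fun x : I => (x : ℂ)) ∘ ee := by
      funext i
      exact hg (ee i)
    rw [h8]
    exact h7

/-- the rank over a bigger field (up to algebraic elements) -/
theorem rk_mono {F F' : IntermediateField ℚ ℂ} (hF : F' ≤ cl (F : Set ℂ)) {J : Type} [Fintype J]
    [DecidableEq J] (Z : J → ℂ) {e : ℕ} (h : (e : ℕ∞) ≤ (MK F).eRk (Set.range Z)) :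
    (e : ℕ∞) ≤ (MK F').eRk (Set.range Z) := by
  obtain ⟨g, hg, hi⟩ := exists_of_le Z h
  have h1 := algInd_cl hF hi
  refine Matroid.le_eRk_iff.2 ⟨Set.range fun i => Z (g i), ?_, ?_, ?_⟩
  · rintro _ ⟨i, rfl⟩
    exact ⟨_, rfl⟩
  · rw [AlgebraicIndependent.matroid_indep_iff]
    exact h1.coe_range
  · rw [← Set.image_univ, h1.injective.encard_image, Set.encard_univ, ENat.card_eq_coe_fintype_card,
      Fintype.card_fin]

end Pool.Agent.K1H83.BD
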