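import Mathlib
import Pool.Agent.K1H83.BD.Tr

/-!
# Tuples with relations of bounded degree between the arguments and the exponentials
-/

set_option autoImplicit false

open Filter Finset Module
open scoped PeriodPair

noncomputable section

namespace Pool.Agent.K1H83.BD

open H667R3 Pool.Agent.W245.EB
open Pool.Agent.W252
open Pool.Agent.TH813.Core Pool.Agent.TH813.Ell Pool.Agent.TH813.Core2 Pool.Agent.TH813.G
open Pool.Agent.TH813.Rel (MK)

/-- the numbers `p`, `e^p` -/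
def zz {n : ℕ} (p : Fin n → ℂ) : Fin n ⊕ Fin n → ℂ := Sum.elim p (fun i => Complex.exp (p i))

/-- the numbers `∑ a_ij p_j` -/
def ap {e n : ℕ} (a : Fin e → Fin n → ℚ) (p : Fin n → ℂ) : Fin e → ℂ :=
  fun i => ∑ j, (a i j : ℂ) * p j

/-- the numbers `p`, `e^(a p)` -/
def zy {e n : ℕ} (a : Fin e → Fin n → ℚ) (p : Fin n → ℂ) : Fin n ⊕ Fin e → ℂ :=
  Sum.elim p (fun i => Complex.exp (ap a p i))

/-- coordinates of a combination -/
def qa {n r : ℕ} (a : Fin n → ℚ) (Q : Fin n → Fin r → ℚ) : Fin r → ℚ := fun l => ∑ j, a j * Q j l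

theorem cb_qa {n r : ℕ} (b : Fin r → ℂ) (a : Fin n → ℚ) (Q : Fin n → Fin r → ℚ) :
    cb b (qa a Q) = ∑ j, (a j : ℂ) * cb b (Q j) := by
  unfold cb qa
  simp only [Rat.cast_sum, Rat.cast_mul, Finset.sum_mul, Finset.mul_sum]
  rw [Finset.sum_comm]
  exact sum_congr rfl fun j _ => sum_congr rfl fun l _ => by ring

theorem lgM_add {K : IntermediateField ℚ ℂ} {v w : ℂ} (hv : v ∈ lgM K) (hw : w ∈ lgM K) :
    v + w ∈ lgM K := by
  change Complex.exp (v + w) ∈ K
  rw [Complex.exp_add]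
  exact mul_mem hv hw

theorem lgM_smul {K : IntermediateField ℚ ℂ} (hK : Clo K) {v : ℂ} (hv : v ∈ lgM K) (q : ℚ) :
    (q : ℂ) * v ∈ lgM K := by
  have hv' : v ∈ (KM K).lg := fun D hD => dlog_eq_zero.2 (hD _ hv)
  have h1 : (algebraMap ℚ (KM K).k q) • v ∈ (KM K).lg := Submodule.smul_mem _ _ hv'
  refine mem_lgM hK ?_
  have h2 : (q : ℂ) * v = (algebraMap ℚ (KM K).k q) • v := by
    rw [Algebra.smul_def]
    rfl
  rw [h2]
  exact h1

/-- the vectors `a` such that `∑ a_j p_j` is almost constant modulo logarithms -/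
def GG {K : IntermediateField ℚ ℂ} (hK : Clo K) {n : ℕ} (p : ℕ → Fin n → ℂ) :
    Submodule ℚ (Fin n → ℚ) where
  carrier := {a | ∃ l : ℂ, ∀ᶠ k in (hyperfilter ℕ : Filter ℕ), ∑ j, (a j : ℂ) * p k j - l ∈ lgM K}
  zero_mem' := ⟨0, Filter.Eventually.of_forall fun k => by
    change Complex.exp _ ∈ K
    simp⟩
  add_mem' := by
    rintro a a' ⟨l, hl⟩ ⟨l', hl'⟩
    refine ⟨l + l', ?_⟩
    filter_upwards [hl, hl'] with k h h'
    have h1 : ∑ j, (((a + a') j : ℚ) : ℂ) * p k j - (l + l') =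
        (∑ j, (a j : ℂ) * p k j - l) + (∑ j, (a' j : ℂ) * p k j - l') := by
      simp only [Pi.add_apply, Rat.cast_add, add_mul, sum_add_distrib]
      ring
    rw [h1]
    exact lgM_add h h'
  smul_mem' := by
    rintro q a ⟨l, hl⟩
    refine ⟨q * l, ?_⟩
    filter_upwards [hl] with k h
    have h1 : ∑ j, (((q • a) j : ℚ) : ℂ) * p k j - q * l = (q : ℂ) * (∑ j, (a j : ℂ) * p k j - l) := by
      rw [mul_sub, Finset.mul_sum]
      congr 1
      refine sum_congr rfl fun j _ => ?_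
      rw [Pi.smul_apply, smul_eq_mul, Rat.cast_mul]
      ring
    rw [h1]
    exact lgM_smul hK h q

/-- powers: exponentials of combinations are algebraic over the exponentials -/
theorem pow_rel {n : ℕ} (a : Fin n → ℚ) : ∃ (D : ℕ) (x y : Fin n → ℕ), 0 < D ∧
    ∀ p : Fin n → ℂ, Complex.exp (∑ j, (a j : ℂ) * p j) ^ D * ∏ j, Complex.exp (p j) ^ (y j) =
      ∏ j, Complex.exp (p j) ^ (x j) := by
  classical
  let D : ℕ := ∏ j, (a j).den
  have hD : 0 < D := Finset.prod_pos fun j _ => (a j).pos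
  have h1 : ∀ j, ∃ z : ℤ, (D : ℚ) * a j = z := by
    intro j
    obtain ⟨c, hc⟩ := Finset.dvd_prod_of_mem (fun j => (a j).den) (mem_univ j)
    refine ⟨(a j).num * c, ?_⟩
    have h2 : (D : ℚ) = ((a j).den : ℚ) * c := by exact_mod_cast hc
    have h3 : a j * (a j).den = (a j).num := Rat.mul_den_eq_num (a j)
    rw [h2]
    push_cast
    rw [← h3]
    ring
  choose z hz using h1
  refine ⟨D, fun j => (z j).toNat, fun j => (-z j).toNat, hD, fun p => ?_⟩
  rw [← Complex.exp_nat_mul, ← Finset.prod_congr rfl fun j _ => Complex.exp_nat_mul _ _,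
    ← Finset.prod_congr rfl fun j _ => Complex.exp_nat_mul _ _, ← Complex.exp_sum,
    ← Complex.exp_sum, ← Complex.exp_add]
  congr 1
  rw [Finset.mul_sum, ← sum_add_distrib]
  refine sum_congr rfl fun j _ => ?_
  have h4 : (D : ℂ) * (a j : ℂ) = (z j : ℂ) := by exact_mod_cast congrArg (fun q : ℚ => (q : ℂ)) (hz j)
  have h5 : ((z j).toNat : ℂ) - ((-z j).toNat : ℂ) = (z j : ℂ) := by
    have := Int.toNat_sub_toNat_neg (z j)
    exact_mod_cast congrArg (fun q : ℤ => (q : ℂ)) this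
  rw [← mul_assoc, h4, ← h5]
  ring

end Pool.Agent.K1H83.BD
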