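import Mathlib
import Pool.Agent.K1H83.BD.Fail

/-!
# Tuples with relations of bounded degree between the arguments and the exponentials, II
-/

set_option autoImplicit false

open Filter Finset Module
open scoped PeriodPair

noncomputable section

namespace Pool.Agent.K1H83.BD

open H667R3 Pool.Agent.W245.EB
open Pool.Agent.W252
open Pool.Agent.TH813.Core Pool.Agent.TH813.Ell Pool.Agent.TH813.Core2 Pool.Agent.TH813.G
open Pool.Agent.TH813.Rel (MK)

/-- **Failures in bounded degree**, for sequences -/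
theorem fail_seq {K : IntermediateField ℚ ℂ} (hKc : Clo K) (hKcount : (K : Set ℂ).Countable)
    {r : ℕ} (b : Fin r → ℂ) {n : ℕ} (Q : ℕ → Fin n → Fin r → ℚ) {g : ℕ} (s : Fin g → ℂ)
    (E : Finset (Fin n →₀ ℕ))
    (A : ℕ → (Fin n → Fin n ⊕ Fin n) → (Fin n →₀ ℕ) → Fin g → ℂ)
    (hAK : ∀ k f μ l, A k f μ l ∈ K)
    (hA0 : ∀ k f, Function.Injective f → ∃ μ ∈ E, ∑ l, A k f μ l * s l ≠ 0)
    (hrel : ∀ k f, Function.Injective f → ∑ μ ∈ E, (∑ l, A k f μ l * s l) *
      ∏ i, (zz (fun i => cb b (Q k i)) (f i)) ^ (μ i) = 0) :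
    ∃ (e : ℕ) (a : Fin e → Fin n → ℚ), e ≤ n ∧ LinearIndependent ℚ a ∧
      ∃ k₀, (∀ᶠ k in (hyperfilter ℕ : Filter ℕ),
        (∀ i, ap a (fun j => cb b (Q k j)) i - ap a (fun j => cb b (Q k₀ j)) i ∈ lgM K) ∧
        (MK (cl ((K : Set ℂ) ∪ Set.range s))).eRk (Set.range (zy a (fun j => cb b (Q k j)))) < e) ∧
        (MK (cl ((K : Set ℂ) ∪ Set.range s))).eRk (Set.range (zy a (fun j => cb b (Q k₀ j)))) < e := by
  classical
  -- the field `N`
  set X : Set ℂ := (Set.range s ∪ Set.range fun j => Complex.exp (b j)) ∪ Set.range b with hX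
  have hXf : X.Finite := ((Set.finite_range _).union (Set.finite_range _)).union
    (Set.finite_range _)
  set N : IntermediateField ℚ ℂ := cl ((K : Set ℂ) ∪ X) with hN
  have hNc : Clo N := cl_closed _
  have hNcount : (N : Set ℂ).Countable := cl_countable (hKcount.union hXf.countable)
  have hKN : K ≤ N := fun x hx => subset_cl _ (Or.inl hx)
  have hsN : ∀ l, s l ∈ N := fun l => subset_cl _ (Or.inr (Or.inl (Or.inl ⟨l, rfl⟩)))
  have heN : ∀ j, Complex.exp (b j) ∈ N := fun j =>
    subset_cl _ (Or.inr (Or.inl (Or.inr ⟨j, rfl⟩)))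
  have hbN : ∀ j, b j ∈ N := fun j => subset_cl _ (Or.inr (Or.inr ⟨j, rfl⟩))
  obtain ⟨u⟩ := exists_up N hNcount (clo_algClosed hNc)
  obtain ⟨ee, t, d, hdK, hdN, hexp⟩ := exists_bd (K := K) hXf
  have hmb : ∀ x ∈ N, x ∈ u.mb K := fun x hx => subset_cl _ (Or.inr hx)
  have hub : ∀ x ∈ u.ult K, x ∈ u.mb K := fun x hx => subset_cl _ (Or.inl hx)
  have hqb : ∀ f : ℕ → ℚ, u.c (qc N f) ∈ u.ult K := fun f => ⟨_, fun k => K.algebraMap_mem _, rfl⟩
  -- the fields
  set F' : IntermediateField ℚ ℂ := cl ((K : Set ℂ) ∪ Set.range s) with hF'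
  set F₁ : IntermediateField ℚ ℂ := cl ((u.ult K : Set ℂ) ∪ Set.range s) with hF₁
  have hF₁c : Clo F₁ := cl_closed _
  have hF₁mb : F₁ ≤ u.mb K := by
    refine cl_le (cl_closed _) ?_
    rintro x (hx | ⟨l, rfl⟩)
    · exact hub x hx
    · exact hmb _ (hsN l)
  have hF'N : F' ≤ N := by
    refine cl_le hNc ?_
    rintro x (hx | ⟨l, rfl⟩)
    · exact hKN hx
    · exact hsN l
  have hF₁F' : F₁ ≤ cl (u.ult F' : Set ℂ) := by
    refine cl_le (cl_closed _) ?_
    rintro x (⟨f, hf, rfl⟩ | ⟨l, rfl⟩)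
    · exact subset_cl _ ⟨f, fun k => subset_cl _ (Or.inl (hf k)), rfl⟩
    · exact subset_cl _ (u.le_ult hF'N (subset_cl _ (Or.inr ⟨l, rfl⟩)))
  -- the sequences
  have hcbN : ∀ q : Fin r → ℚ, cb b q ∈ N := fun q => by
    refine sum_mem fun j _ => mul_mem ?_ (hbN j)
    have := N.algebraMap_mem (q j)
    rwa [eq_ratCast] at this
  let p : ℕ → Fin n → ℂ := fun k j => cb b (Q k j)
  let fp : (Fin n → ℚ) → ℕ → N := fun a k => ⟨cb b (qa a (Q k)), hcbN _⟩
  let fe : (Fin n → ℚ) → ℕ → N := fun a k => ⟨Complex.exp (cb b (qa a (Q k))), exp_mem hNc heN _⟩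
  have hfp : ∀ a k, (fp a k : ℂ) = ∑ j, (a j : ℂ) * p k j := fun a k => cb_qa _ _ _
  have hfe : ∀ a k, (fe a k : ℂ) = Complex.exp (∑ j, (a j : ℂ) * p k j) := fun a k =>
    congrArg Complex.exp (cb_qa _ _ _)
  have hsing : ∀ (j : Fin n) k, ∑ i, ((Pi.single j 1 : Fin n → ℚ) i : ℂ) * p k i = p k j := by
    intro j k
    rw [Finset.sum_eq_single j]
    · rw [Pi.single_eq_same]
      simp
    · intro i _ hi
      rw [Pi.single_eq_of_ne hi]
      simp
    · simp
  -- the subspace
  let G := GG hKc p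
  obtain ⟨C, hGC⟩ := Submodule.exists_isCompl G
  set e := finrank ℚ G with he
  set m := finrank ℚ C with hm
  have hem : e + m = n := by
    have h1 := Submodule.finrank_add_eq_of_isCompl hGC
    rwa [finrank_fintype_fun_eq_card, Fintype.card_fin] at h1
  let bG := finBasis ℚ G
  let bC := finBasis ℚ C
  -- the independent part
  have hW : AlgebraicIndependent (u.mb K) (fun i : Fin m => u.c (fe (bC i))) := by
    let fX : Fin m ⊕ (Fin 0 ⊕ Fin 0) → ℕ → N :=
      Sum.elim (fun i => fe (bC i)) (Sum.elim (fun i => i.elim0) (fun i => i.elim0))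
    have hX1 : AlgebraicIndependent (u.mb K) (fun κ => u.c (fX κ)) := by
      by_contra hdep
      rcases main_up hKc hNc hKN u t d hdK hdN hexp (q := 0) (Λ := fun c => c.elim0)
        (fun c => c.elim0) (fun c => c.elim0) (fun c => c.elim0) b heN (fun c => c.elim0)
        (fun c => c.elim0) (m := m) (n := 0) (fun j => j.elim0) (fun k i => qa (bC i) (Q k))
        (fun k j => j.elim0) (fun k j => j.elim0) fX (by
          rintro (i | j | j) k
          · rfl
          · exact j.elim0
          · exact j.elim0) hdep with ⟨a, ha0, k₀, hk₀⟩ | ⟨c, -⟩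
      · let w : C := ∑ i, a i • bC i
        have hw0 : w ≠ 0 := by
          intro hw
          refine ha0 ?_
          funext i
          exact (Fintype.linearIndependent_iff.1 bC.linearIndependent) a hw i
        have hwG : (w : Fin n → ℚ) ∈ G := by
          refine ⟨∑ i, (a i : ℂ) * cb b (qa (bC i) (Q k₀)), ?_⟩
          filter_upwards [hk₀] with k hk
          have h1 : ∑ j, (((w : Fin n → ℚ) j : ℚ) : ℂ) * p k j - ∑ i, (a i : ℂ) *
              cb b (qa (bC i) (Q k₀)) = ∑ i, (a i : ℂ) * (cb b (qa (bC i) (Q k)) -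
              cb b (qa (bC i) (Q k₀))) := by
            simp only [mul_sub, sum_sub_distrib]
            congr 1
            have h2 : ∀ j, (w : Fin n → ℚ) j = ∑ i, a i * (bC i : Fin n → ℚ) j := by
              intro j
              simp only [w, Submodule.coe_sum, Submodule.coe_smul, Finset.sum_apply,
                Pi.smul_apply, smul_eq_mul]
            simp only [h2, Rat.cast_sum, Rat.cast_mul, Finset.sum_mul, cb_qa, Finset.mul_sum]
            rw [Finset.sum_comm]
            exact sum_congr rfl fun i _ => sum_congr rfl fun j _ => by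
              change _ = (a i : ℂ) * (((bC i : Fin n → ℚ) j : ℂ) * p k j)
              ring
          rw [h1]
          exact hk
        have h3 : (w : Fin n → ℚ) ∈ (⊥ : Submodule ℚ (Fin n → ℚ)) := by
          rw [← hGC.inf_eq_bot]
          exact ⟨hwG, w.2⟩
        exact hw0 (Subtype.ext ((Submodule.mem_bot ℚ).1 h3))
      · exact c.elim0
    exact hX1.comp Sum.inl Sum.inl_injective
  -- elements of the middle field
  have hfpmb : ∀ a, u.c (fp a) ∈ u.mb K := by
    intro a
    have h1 : fp a = ∑ l, qc N (fun k => qa a (Q k) l) * (fun _ => ⟨b l, hbN l⟩) := by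
      funext k
      refine Subtype.ext ?_
      have h2 : (∑ l, qc N (fun k => qa a (Q k) l) * (fun _ => (⟨b l, hbN l⟩ : N)) : ℕ → N) k =
          ∑ l, qc N (fun k => qa a (Q k) l) k * (⟨b l, hbN l⟩ : N) := by
        rw [Finset.sum_apply]
        rfl
      rw [h2]
      push_cast
      change cb b (qa a (Q k)) = _
      refine sum_congr rfl fun l _ => ?_
      rw [qc_coe]
    rw [h1, map_sum]
    refine sum_mem fun l _ => ?_
    rw [map_mul, u.const]
    exact mul_mem (hub _ (hqb _)) (hmb _ (hbN l))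
  have hfemb : ∀ a ∈ G, u.c (fe a) ∈ u.mb K := by
    rintro a ⟨l, hl⟩
    obtain ⟨k₁, hk₁⟩ := hl.exists
    have h1 : ∀ᶠ k in (hyperfilter ℕ : Filter ℕ), (fe a k : ℂ) / (fe a k₁ : ℂ) ∈ K := by
      filter_upwards [hl] with k hk
      rw [hfe, hfe, ← Complex.exp_sub]
      have h2 : ∑ j, (a j : ℂ) * p k j - ∑ j, (a j : ℂ) * p k₁ j =
          (∑ j, (a j : ℂ) * p k j - l) + ((-1 : ℚ) : ℂ) * (∑ j, (a j : ℂ) * p k₁ j - l) := by
        push_cast
        ring
      rw [h2]
      exact lgM_add hk (lgM_smul hKc hk₁ _)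
    have h3 : u.c (fun k => fe a k / fe a k₁) ∈ u.ult K := by
      let f' : ℕ → N := fun k => if (fe a k : ℂ) / (fe a k₁ : ℂ) ∈ K then fe a k / fe a k₁ else 0
      refine ⟨f', fun k => ?_, ?_⟩
      · simp only [f']
        split_ifs with h
        · exact h
        · exact zero_mem _
      · rw [u.eq_iff]
        filter_upwards [h1] with k hk
        simp only [f']
        rw [if_pos hk]
    have h4 : fe a = (fun k => fe a k / fe a k₁) * (fun _ => fe a k₁) := by
      funext k
      rw [Pi.mul_apply]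
      refine (div_mul_cancel₀ _ ?_).symm
      intro h
      exact Complex.exp_ne_zero _ (congrArg Subtype.val h)
    rw [h4, map_mul, u.const]
    exact mul_mem (hub _ h3) (hmb _ (fe a k₁).2)
  -- the closure
  let Z : Fin n ⊕ Fin n → ℂ := Sum.elim (fun j => u.c (fp (Pi.single j 1)))
    (fun j => u.c (fe (Pi.single j 1)))
  have hclp : ∀ a, u.c (fp a) ∈ (MK F₁).closure (Set.range Z) := by
    intro a
    have h1 : fp a = ∑ j, (fun _ => algebraMap ℚ N (a j)) * fp (Pi.single j 1) := by
      funext k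
      refine Subtype.ext ?_
      have h2 : (∑ j, (fun _ => algebraMap ℚ N (a j)) * fp (Pi.single j 1) : ℕ → N) k =
          ∑ j, algebraMap ℚ N (a j) * fp (Pi.single j 1) k := by
        rw [Finset.sum_apply]
        rfl
      rw [h2, hfp]
      push_cast
      refine sum_congr rfl fun j _ => ?_
      rw [hfp, hsing]
      congr 1
    rw [h1, map_sum]
    refine Finset.sum_induction _ (fun x => x ∈ (MK F₁).closure (Set.range Z))
      (fun x y hx hy => Pool.Agent.TH813.Rel.cl_add hx hy) ?_ fun j _ => ?_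
    · exact Pool.Agent.TH813.Rel.cl_of_base _ (0 : F₁)
    · rw [map_mul, u.const]
      refine Pool.Agent.TH813.Rel.cl_mul ?_ (Pool.Agent.TH813.Rel.subset_cl _ ⟨Sum.inl j, rfl⟩)
      exact Pool.Agent.TH813.Rel.cl_of_base _ (algebraMap ℚ F₁ (a j))
  have hcle : ∀ a, u.c (fe a) ∈ (MK F₁).closure (Set.range Z) := by
    intro a
    obtain ⟨D, x, y, hD, hxy⟩ := pow_rel a
    have h1 : (fe a) ^ D * ∏ j, (fe (Pi.single j 1)) ^ (y j) =
        ∏ j, (fe (Pi.single j 1)) ^ (x j) := by
      funext k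
      refine Subtype.ext ?_
      have h2 := hxy (p k)
      have h3 : ∀ z : Fin n → ℕ, ((∏ j, (fe (Pi.single j 1)) ^ (z j) : ℕ → N) k : ℂ) =
          ∏ j, Complex.exp (p k j) ^ (z j) := by
        intro z
        rw [Finset.prod_apply]
        push_cast
        refine prod_congr rfl fun j _ => ?_
        rw [Pi.pow_apply]
        push_cast
        rw [hfe, hsing]
      rw [Pi.mul_apply, Pi.pow_apply]
      push_cast
      rw [h3, h3, hfe]
      exact h2
    have h4 := congrArg u.c h1
    rw [map_mul, map_pow, map_prod, map_prod] at h4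
    have h5 : ∀ z : Fin n → ℕ, (∏ j, u.c ((fe (Pi.single j 1)) ^ (z j))) ∈
        (MK F₁).closure (Set.range Z) := by
      intro z
      refine Finset.prod_induction _ (fun x => x ∈ (MK F₁).closure (Set.range Z))
        (fun x y hx hy => Pool.Agent.TH813.Rel.cl_mul hx hy) ?_ fun j _ => ?_
      · exact Pool.Agent.TH813.Rel.cl_of_base _ (1 : F₁)
      · rw [map_pow]
        exact Pool.Agent.TH813.Rel.mem_cl.2 ((Pool.Agent.TH813.Rel.mem_cl.1
          (Pool.Agent.TH813.Rel.subset_cl (Set.range Z) (⟨Sum.inr j, rfl⟩ :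
            u.c (fe (Pi.single j 1)) ∈ Set.range Z))).pow (z j))
    have h6 : (∏ j, u.c ((fe (Pi.single j 1)) ^ (y j))) ≠ 0 := by
      rw [← map_prod]
      intro h
      obtain ⟨k, hk⟩ := ((u.zero_iff _).1 h).exists
      have h7 := congrArg Subtype.val hk
      rw [Finset.prod_apply] at h7
      push_cast at h7
      refine (Finset.prod_ne_zero_iff.2 fun j _ => ?_) h7
      rw [Pi.pow_apply]
      push_cast
      exact pow_ne_zero _ (Complex.exp_ne_zero _)
    have h7 : (u.c (fe a)) ^ D = (∏ j, u.c ((fe (Pi.single j 1)) ^ (x j))) *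
        (∏ j, u.c ((fe (Pi.single j 1)) ^ (y j)))⁻¹ := by
      rw [← h4, mul_inv_cancel_right₀ h6]
    refine Pool.Agent.TH813.Rel.mem_cl.2 (IsAlgebraic.of_pow hD ?_)
    rw [h7]
    exact Pool.Agent.TH813.Rel.mem_cl.1 (Pool.Agent.TH813.Rel.cl_mul (h5 x)
      (Pool.Agent.TH813.Rel.cl_inv (h5 y)))
  -- the combinations fail
  let a : Fin e → Fin n → ℚ := fun i => (bG i : Fin n → ℚ)
  have hfail : ∀ᶠ k in (hyperfilter ℕ : Filter ℕ),
      (MK F').eRk (Set.range (zy a (p k))) < e := by
    by_contra hcon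
    rw [← Ultrafilter.eventually_not] at hcon
    have h1 : ∀ᶠ k in (hyperfilter ℕ : Filter ℕ), ∃ f : Fin e → Fin n ⊕ Fin e,
        AlgebraicIndependent F' (fun i => zy a (p k) (f i)) := by
      filter_upwards [hcon] with k hk
      obtain ⟨f, -, hf⟩ := exists_of_le _ (not_lt.1 hk)
      exact ⟨f, hf⟩
    have h2 : ∃ f : Fin e → Fin n ⊕ Fin e, ∀ᶠ k in (hyperfilter ℕ : Filter ℕ),
        AlgebraicIndependent F' (fun i => zy a (p k) (f i)) := by
      by_contra hno
      push Not at hno
      have h3 : ∀ᶠ k in (hyperfilter ℕ : Filter ℕ), ∀ f : Fin e → Fin n ⊕ Fin e,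
          ¬ AlgebraicIndependent F' (fun i => zy a (p k) (f i)) := by
        rw [eventually_all]
        intro f
        exact hno f
      obtain ⟨k, ⟨f, hf⟩, hk⟩ := (h1.and h3).exists
      exact hk f hf
    obtain ⟨f, hf⟩ := h2
    let sq : Fin n ⊕ Fin e → ℕ → N := Sum.elim (fun j => fp (Pi.single j 1)) (fun i => fe (a i))
    have hsq : ∀ κ k, (sq κ k : ℂ) = zy a (p k) κ := by
      rintro (i | i) k
      · exact (hfp _ _).trans (hsing _ _)
      · exact hfe _ _
    have h3 : AlgebraicIndependent (u.ult F') (fun i => u.c (sq (f i))) := by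
      refine indep_ult u (fun i => sq (f i)) ?_
      filter_upwards [hf] with k hk
      simp only [hsq]
      exact hk
    have h4 : AlgebraicIndependent F₁ (fun i => u.c (sq (f i))) := algInd_cl hF₁F' h3
    have h5 : AlgebraicIndependent F₁ (Sum.elim (fun i => u.c (sq (f i)))
        (fun i : Fin m => u.c (fe (bC i)))) := by
      refine algInd_sum hF₁mb (fun i => ?_) h4 hW
      generalize f i = κ
      rcases κ with i | i
      · exact hfpmb _
      · exact hfemb _ (bG i).2
    obtain ⟨T, hT, hTi⟩ := exists_ind Z _ h5 (by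
      rintro (i | i)
      · rw [Sum.elim_inl]
        generalize f i = κ
        rcases κ with i | i
        · exact Pool.Agent.TH813.Rel.mem_cl.1 (hclp _)
        · exact Pool.Agent.TH813.Rel.mem_cl.1 (hcle _)
      · exact Pool.Agent.TH813.Rel.mem_cl.1 (hcle _))
    rw [Fintype.card_sum, Fintype.card_fin, Fintype.card_fin, hem] at hT
    let ψ : Fin n ≃ T := (T.equivFinOfCardEq hT).symm
    let f' : Fin n → Fin n ⊕ Fin n := fun i => (ψ i : Fin n ⊕ Fin n)
    have hf' : Function.Injective f' := Subtype.val_injective.comp ψ.injective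
    have h6 : AlgebraicIndependent F₁ (fun i => Z (f' i)) := hTi.comp ψ ψ.injective
    -- the relations
    let fZ : Fin n ⊕ Fin n → ℕ → N := Sum.elim (fun j => fp (Pi.single j 1))
      (fun j => fe (Pi.single j 1))
    have hfZ : ∀ κ k, (fZ κ k : ℂ) = zz (p k) κ := by
      rintro (i | i) k
      · exact (hfp _ _).trans (hsing _ _)
      · exact (hfe _ _).trans (congrArg Complex.exp (hsing _ _))
    have hZ : ∀ κ, Z κ = u.c (fZ κ) := by
      rintro (i | i) <;> rfl
    let CC : (Fin n →₀ ℕ) → ℕ → N := fun μ k =>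
      ∑ l, (⟨A k f' μ l, hKN (hAK k f' μ l)⟩ : N) * ⟨s l, hsN l⟩
    have hCCc : ∀ μ k, (CC μ k : ℂ) = ∑ l, A k f' μ l * s l := fun μ k => by simp [CC]
    refine dep_of_rel u (F := F₁) (fun i => fZ (f' i)) E CC (fun μ => ?_) (fun k => ?_)
      (fun k => ?_) ?_
    · have h1 : CC μ = ∑ l, (fun k => (⟨A k f' μ l, hKN (hAK k f' μ l)⟩ : N)) *
          (fun _ => ⟨s l, hsN l⟩) := by
        funext k
        rw [Finset.sum_apply]
        rfl
      rw [h1, map_sum]
      refine sum_mem fun l _ => ?_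
      rw [map_mul, u.const]
      exact mul_mem (subset_cl _ (Or.inl ⟨_, fun k => hAK k f' μ l, rfl⟩))
        (subset_cl _ (Or.inr ⟨l, rfl⟩))
    · obtain ⟨μ, hμ, hμ0⟩ := hA0 k f' hf'
      refine ⟨μ, hμ, fun h => hμ0 ?_⟩
      rw [← hCCc, h]
      rfl
    · refine Subtype.ext ?_
      push_cast
      simp only [hCCc, hfZ]
      exact hrel k f' hf'
    · simp only [← hZ]
      exact h6
  -- conclusion
  choose l hl using fun i : Fin e => (bG i).2
  have hl' : ∀ᶠ k in (hyperfilter ℕ : Filter ℕ), ∀ i, ap a (p k) i - l i ∈ lgM K :=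
    eventually_all.2 fun i => hl i
  obtain ⟨k₀, hk₀, hk₀'⟩ := (hl'.and hfail).exists
  refine ⟨e, a, by omega, ?_, k₀, ?_, hk₀'⟩
  · have := bG.linearIndependent
    exact this.map' G.subtype (Submodule.ker_subtype _)
  · filter_upwards [hl', hfail] with k hk hk'
    refine ⟨fun i => ?_, hk'⟩
    have h2 : ap a (p k) i - ap a (p k₀) i =
        (ap a (p k) i - l i) + ((-1 : ℚ) : ℂ) * (ap a (p k₀) i - l i) := by
      push_cast
      ring
    change ap a (p k) i - ap a (p k₀) i ∈ lgM K
    rw [h2]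
    exact lgM_add (hk i) (lgM_smul hKc (hk₀ i) _)

end Pool.Agent.K1H83.BD
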