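import Mathlib
import Pool.Agent.K1H83.BD.Fail2
import Pool.Agent.K1H83.BD.Main

/-!
# Failures of Schanuel's inequality in bounded degree
-/

set_option autoImplicit false

open Filter Finset Module
open scoped PeriodPair

noncomputable section

namespace Pool.Agent.K1H83.BD

open Pool.Agent.TH813.Rel (MK)

/-- `trdeg_F F(q, e^q)` is smaller than the number of the `q`'s -/
def Defect (F : IntermediateField ℚ ℂ) {e : ℕ} (q : Fin e → ℂ) : Prop :=
  Algebra.trdeg F (IntermediateField.adjoin F (Set.range q ∪ Complex.exp '' Set.range q)) <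
    (e : Cardinal)

theorem range_zz {e : ℕ} (q : Fin e → ℂ) :
    Set.range (zz q) = Set.range q ∪ Complex.exp '' Set.range q := by
  unfold zz
  rw [Set.Sum.elim_range, ← Set.range_comp]
  rfl

theorem defect_iff {F : IntermediateField ℚ ℂ} {e : ℕ} (q : Fin e → ℂ) :
    Defect F q ↔ (MK F).eRk (Set.range (zz q)) < e := by
  unfold Defect
  rw [Pool.Agent.TH813.Rel.lt_iff, range_zz]

/-- `trdeg_F F(p, e^(a p))` is smaller than the number of rows of `a` -/
def Thr (F : IntermediateField ℚ ℂ) {e n : ℕ} (a : Fin e → Fin n → ℚ) (p : Fin n → ℂ) : Prop :=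
  Algebra.trdeg F (IntermediateField.adjoin F (Set.range p ∪ Complex.exp '' Set.range (ap a p))) <
    (e : Cardinal)

theorem range_zy {e n : ℕ} (a : Fin e → Fin n → ℚ) (p : Fin n → ℂ) :
    Set.range (zy a p) = Set.range p ∪ Complex.exp '' Set.range (ap a p) := by
  unfold zy
  rw [Set.Sum.elim_range, ← Set.range_comp]
  rfl

theorem thr_iff {F : IntermediateField ℚ ℂ} {e n : ℕ} (a : Fin e → Fin n → ℚ) (p : Fin n → ℂ) :
    Thr F a p ↔ (MK F).eRk (Set.range (zy a p)) < e := by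
  unfold Thr
  rw [Pool.Agent.TH813.Rel.lt_iff, range_zy]

theorem thr_of {F F' : IntermediateField ℚ ℂ} (hF : F' ≤ cl (F : Set ℂ)) {e n : ℕ}
    {a : Fin e → Fin n → ℚ} {p : Fin n → ℂ}
    (h : (MK F').eRk (Set.range (zy a p)) < e) : Thr F a p := by
  classical
  rw [thr_iff]
  by_contra hcon
  exact absurd (rk_mono hF _ (not_lt.1 hcon)) (not_le.2 h)

/-- the combinations fail -/
theorem Thr.defect {F : IntermediateField ℚ ℂ} {e n : ℕ} {a : Fin e → Fin n → ℚ} {p : Fin n → ℂ}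
    (h : Thr F a p) : Defect F (ap a p) := by
  rw [defect_iff]
  rw [thr_iff] at h
  refine lt_of_le_of_lt (Pool.Agent.TH813.Rel.rk_le_of_subset_cl ?_) h
  rintro _ ⟨i | i, rfl⟩
  · change ∑ j, (a i j : ℂ) * p j ∈ _
    refine Finset.sum_induction _ (fun x => x ∈ (MK F).closure (Set.range (zy a p)))
      (fun x y hx hy => Pool.Agent.TH813.Rel.cl_add hx hy) ?_ fun j _ => ?_
    · exact Pool.Agent.TH813.Rel.cl_of_base _ (0 : F)
    · refine Pool.Agent.TH813.Rel.cl_mul ?_ (Pool.Agent.TH813.Rel.subset_cl _ ⟨Sum.inl j, rfl⟩)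
      have := Pool.Agent.TH813.Rel.cl_of_base (Set.range (zy a p)) (algebraMap ℚ F (a i j))
      have h2 : (algebraMap F ℂ) (algebraMap ℚ F (a i j)) = (a i j : ℂ) := by
        rw [← IsScalarTower.algebraMap_apply, eq_ratCast]
      rwa [h2] at this
  · exact Pool.Agent.TH813.Rel.subset_cl _ ⟨Sum.inr i, rfl⟩

/-- combinations of independent numbers are independent -/
theorem ap_indep {e n : ℕ} {a : Fin e → Fin n → ℚ} (ha : LinearIndependent ℚ a) {p : Fin n → ℂ}
    (hp : LinearIndependent ℚ p) : LinearIndependent ℚ (ap a p) := by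
  rw [Fintype.linearIndependent_iff] at hp ⊢
  intro c hc
  have h1 : ∀ j, ∑ i, c i * a i j = 0 := by
    refine hp (fun j => ∑ i, c i * a i j) ?_
    rw [← hc]
    unfold ap
    have e1 : ∀ j, (∑ i, c i * a i j) • p j = ∑ i, (c i : ℂ) * ((a i j : ℂ) * p j) := by
      intro j
      rw [Rat.smul_def]
      push_cast
      rw [Finset.sum_mul]
      exact sum_congr rfl fun i _ => by ring
    rw [sum_congr rfl fun j _ => e1 j, Finset.sum_comm]
    refine sum_congr rfl fun i _ => ?_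
    rw [Rat.smul_def, Finset.mul_sum]
  refine Fintype.linearIndependent_iff.1 ha c ?_
  funext j
  rw [Finset.sum_apply]
  exact h1 j

/-- **Finitely many failures of bounded degree modulo logarithms.** -/
theorem main4 (K : IntermediateField ℚ ℂ) (V : Submodule ℚ ℂ) [FiniteDimensional ℚ V]
    (W : Submodule K ℂ) [FiniteDimensional K W] (δ n : ℕ) :
    ∃ Φ : Finset (Σ e : Fin (n + 1), (Fin e → Fin n → ℚ) × (Fin e → ℂ)),
      (∀ φ ∈ Φ, LinearIndependent ℚ φ.2.1 ∧ (∀ i, φ.2.2 i ∈ V) ∧ LinearIndependent ℚ φ.2.2 ∧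
        Defect (IntermediateField.adjoin ℚ ((K : Set ℂ) ∪ (W : Set ℂ))) φ.2.2) ∧
      ∀ p : Fin n → ℂ, (∀ i, p i ∈ V) → LinearIndependent ℚ p →
        (∀ f : Fin n → Fin n ⊕ Fin n, Function.Injective f →
          Rel (W : Set ℂ) δ (fun i => zz p (f i))) →
        ∃ φ ∈ Φ, (∀ i, LgM K (ap φ.2.1 p i - φ.2.2 i)) ∧
          Thr (IntermediateField.adjoin ℚ ((K : Set ℂ) ∪ (W : Set ℂ))) φ.2.1 p := by
  classical
  set KW : IntermediateField ℚ ℂ := IntermediateField.adjoin ℚ ((K : Set ℂ) ∪ (W : Set ℂ)) with hKW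
  -- bases
  let r := finrank ℚ V
  let bV := finBasis ℚ V
  let b : Fin r → ℂ := fun j => (bV j : ℂ)
  have hbV : ∀ Q : Fin r → ℚ, cb b Q ∈ V := fun Q => by
    refine sum_mem fun j _ => ?_
    rw [← Rat.smul_def]
    exact V.smul_mem _ (bV j).2
  have hVb : ∀ x ∈ V, ∃ Q : Fin r → ℚ, cb b Q = x := fun x hx => by
    refine ⟨fun j => bV.repr ⟨x, hx⟩ j, ?_⟩
    have h4 := congrArg (fun t : V => (t : ℂ)) (bV.sum_repr ⟨x, hx⟩)
    simp only [Submodule.coe_sum, Submodule.coe_smul] at h4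
    refine Eq.trans (sum_congr rfl fun j _ => ?_) h4
    rw [Rat.smul_def]
  let g := finrank K W
  let bW := finBasis K W
  let s : Fin g → ℂ := fun l => (bW l : ℂ)
  have hWs : ∀ x ∈ W, ∃ a : Fin g → ℂ, (∀ l, a l ∈ K) ∧ ∑ l, a l * s l = x := fun x hx => by
    refine ⟨fun l => (bW.repr ⟨x, hx⟩ l : K), fun l => (bW.repr ⟨x, hx⟩ l).2, ?_⟩
    have h4 := congrArg (fun t : W => (t : ℂ)) (bW.sum_repr ⟨x, hx⟩)
    simp only [Submodule.coe_sum, Submodule.coe_smul] at h4
    refine Eq.trans (sum_congr rfl fun j _ => ?_) h4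
    rfl
  -- the conditions
  let 𝒞 := Σ e : Fin (n + 1), (Fin e → Fin n → ℚ) × (Fin e → Fin r → ℚ)
  have hC : Countable 𝒞 := inferInstance
  let vv : 𝒞 → Σ e : Fin (n + 1), (Fin e → Fin n → ℚ) × (Fin e → ℂ) := fun C =>
    ⟨C.1, C.2.1, fun i => cb b (C.2.2 i)⟩
  let Ok : 𝒞 → Prop := fun C => LinearIndependent ℚ C.2.1 ∧
    LinearIndependent ℚ (fun i => cb b (C.2.2 i)) ∧ Defect KW (fun i => cb b (C.2.2 i))
  let Good : 𝒞 → (Fin n → ℂ) → Prop := fun C p =>
    (∀ i, LgM K (ap C.2.1 p i - cb b (C.2.2 i))) ∧ Thr KW C.2.1 p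
  suffices hmain : ∃ F : Finset 𝒞, (∀ C ∈ F, Ok C) ∧
      ∀ p : Fin n → ℂ, (∀ i, p i ∈ V) → LinearIndependent ℚ p →
        (∀ f : Fin n → Fin n ⊕ Fin n, Function.Injective f →
          Rel (W : Set ℂ) δ (fun i => zz p (f i))) →
        ∃ C ∈ F, Good C p by
    obtain ⟨F, hF, hFm⟩ := hmain
    refine ⟨F.image vv, ?_, ?_⟩
    · intro φ hφ
      obtain ⟨C, hC, rfl⟩ := Finset.mem_image.1 hφ
      exact ⟨(hF C hC).1, fun i => hbV _, (hF C hC).2.1, (hF C hC).2.2⟩
    · intro p hp hpi hrel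
      obtain ⟨C, hC, hCg⟩ := hFm p hp hpi hrel
      exact ⟨vv C, Finset.mem_image_of_mem _ hC, hCg⟩
  by_contra hno
  push Not at hno
  obtain ⟨enc⟩ : Nonempty (Encodable 𝒞) := ⟨Encodable.ofCountable 𝒞⟩
  let FF : ℕ → Finset 𝒞 := fun k =>
    (((Finset.range (k + 1)).image fun i => (Encodable.decode i : Option 𝒞)).eraseNone).filter Ok
  have hFF : ∀ k, ∀ C ∈ FF k, Ok C := fun k C hC => (Finset.mem_filter.1 hC).2
  choose P hP hPi hrel hgood using fun k => hno (FF k) (hFF k)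
  have hmem : ∀ C : 𝒞, Ok C → ∀ k, Encodable.encode C ≤ k → C ∈ FF k := by
    intro C hC k hk
    rw [Finset.mem_filter]
    refine ⟨?_, hC⟩
    rw [Finset.mem_eraseNone, Finset.mem_image]
    exact ⟨Encodable.encode C, by rw [Finset.mem_range]; omega, Encodable.encodek C⟩
  choose Q hQ using fun k i => hVb _ (hP k i)
  choose PP hPP0 hPPd hPPW hPPe using hrel
  let A : ℕ → (Fin n → Fin n ⊕ Fin n) → (Fin n →₀ ℕ) → Fin g → ℂ := fun k f μ l =>
    if hf : Function.Injective f then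
      (if μ ∈ expo (Fin n) δ then Classical.choose (hWs _ (hPPW k f hf μ)) l else 0) else 0
  have hAK : ∀ k f μ l, A k f μ l ∈ K := by
    intro k f μ l
    simp only [A]
    split_ifs with hf hμ
    · exact (Classical.choose_spec (hWs _ (hPPW k f hf μ))).1 l
    · exact zero_mem _
    · exact zero_mem _
  have hAs : ∀ k f (hf : Function.Injective f) μ, μ ∈ expo (Fin n) δ →
      ∑ l, A k f μ l * s l = (PP k f hf).coeff μ := by
    intro k f hf μ hμ
    simp only [A, dif_pos hf, if_pos hμ]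
    exact (Classical.choose_spec (hWs _ (hPPW k f hf μ))).2
  -- the countable field
  let S₀ : Set ℂ := ⋃ k : ℕ, ⋃ f : Fin n → Fin n ⊕ Fin n,
    ⋃ μ ∈ (expo (Fin n) δ : Finset (Fin n →₀ ℕ)), Set.range (A k f μ)
  have hS₀c : S₀.Countable := by
    refine Set.countable_iUnion fun k => Set.countable_iUnion fun f => ?_
    refine (Finset.countable_toSet _).biUnion fun μ _ => Set.countable_range _
  have hS₀K : ∀ x ∈ S₀, x ∈ K := by
    intro x hx
    rw [Set.mem_iUnion] at hx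
    obtain ⟨k, hx⟩ := hx
    rw [Set.mem_iUnion] at hx
    obtain ⟨f, hx⟩ := hx
    rw [Set.mem_iUnion₂] at hx
    obtain ⟨μ, -, l, rfl⟩ := hx
    exact hAK k f μ l
  have hS₀a : ∀ x ∈ S₀, IsAlgebraic K x := fun x hx =>
    isAlgebraic_algebraMap (⟨x, hS₀K x hx⟩ : K)
  set K' := cl S₀ with hK'
  have hAK' : ∀ k f μ l, A k f μ l ∈ K' := by
    intro k f μ l
    by_cases hμ : μ ∈ expo (Fin n) δ
    · refine subset_cl _ ?_
      rw [Set.mem_iUnion]
      refine ⟨k, ?_⟩
      rw [Set.mem_iUnion]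
      refine ⟨f, ?_⟩
      rw [Set.mem_iUnion₂]
      exact ⟨μ, hμ, l, rfl⟩
    · have : A k f μ l = 0 := by
        simp only [A, if_neg hμ]
        split_ifs <;> rfl
      rw [this]
      exact zero_mem _
  have hQP : ∀ k, (fun j => cb b (Q k j)) = P k := fun k => funext fun j => hQ k j
  obtain ⟨e, a, hen, ha, k₀, hk, hk₀⟩ := fail_seq (cl_closed S₀) (cl_countable hS₀c) b Q s
    (expo (Fin n) δ) A hAK'
    (by
      intro k f hf
      obtain ⟨μ, hμ⟩ := MvPolynomial.ne_zero_iff.1 (hPP0 k f hf)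
      have hμE : μ ∈ expo (Fin n) δ := mem_expo (hPPd k f hf) (MvPolynomial.mem_support_iff.2 hμ)
      refine ⟨μ, hμE, ?_⟩
      rw [hAs k f hf μ hμE]
      exact hμ)
    (by
      intro k f hf
      have h4 := hPPe k f hf
      rw [MvPolynomial.eval_eq'] at h4
      rw [hQP k]
      refine Eq.trans ?_ h4
      rw [sum_congr rfl fun μ hμ => by rw [hAs k f hf μ hμ]]
      refine (Finset.sum_subset (fun μ hμ => mem_expo (hPPd k f hf) hμ) fun μ _ hμ => ?_).symm
      rw [MvPolynomial.notMem_support_iff.1 hμ, zero_mul])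
  have hF' : cl ((cl S₀ : Set ℂ) ∪ Set.range s) ≤ cl (KW : Set ℂ) := by
    refine cl_le (cl_closed _) ?_
    rintro x (hx | ⟨l, rfl⟩)
    · exact (cl_le (cl_closed _) (fun y hy => subset_cl _ (IntermediateField.subset_adjoin ℚ _
        (Or.inl (hS₀K y hy)))) : cl S₀ ≤ cl (KW : Set ℂ)) hx
    · exact subset_cl _ (IntermediateField.subset_adjoin ℚ _ (Or.inr (bW l).2))
  have hcb : ∀ i, cb b (qa (a i) (Q k₀)) = ap a (P k₀) i := fun i => by
    rw [cb_qa, ← hQP]
    rfl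
  have hcbf : (fun i => cb b (qa (a i) (Q k₀))) = ap a (P k₀) := funext hcb
  let C₀ : 𝒞 := ⟨⟨e, by omega⟩, a, fun i => qa (a i) (Q k₀)⟩
  have hOk : Ok C₀ := by
    refine ⟨ha, ?_, ?_⟩
    · change LinearIndependent ℚ (fun i => cb b (qa (a i) (Q k₀)))
      rw [hcbf]
      exact ap_indep ha (hPi k₀)
    · change Defect KW (fun i => cb b (qa (a i) (Q k₀)))
      rw [hcbf, ← hQP]
      exact (thr_of hF' hk₀).defect
  have h4 : ∀ᶠ k in (hyperfilter ℕ : Filter ℕ), Encodable.encode C₀ ≤ k :=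
    Filter.Tendsto.eventually (f := id) (Filter.tendsto_id.mono_left
      (by rw [← Nat.cofinite_eq_atTop]; exact Filter.hyperfilter_le_cofinite) :
      Filter.Tendsto id (hyperfilter ℕ : Filter ℕ) Filter.atTop)
      (Filter.eventually_ge_atTop _)
  obtain ⟨k, ⟨hk1, hk2⟩, hk3⟩ := (hk.and h4).exists
  refine hgood k C₀ (hmem C₀ hOk k hk3) ⟨?_, ?_⟩
  · intro i
    have h5 := hk1 i
    change LgM K (ap a (P k) i - cb b (qa (a i) (Q k₀)))
    rw [hcb]
    rw [hQP, hQP] at h5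
    exact alg_of_cl hS₀a h5
  · change Thr KW a (P k)
    rw [← hQP]
    exact thr_of hF' hk2

end Pool.Agent.K1H83.BD
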