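import Mathlib
import Pool.Agent.K1H83.BD.Main4

/-!
# Failures and their degrees
-/

set_option autoImplicit false

open Filter Finset Module
open scoped PeriodPair

noncomputable section

namespace Pool.Agent.K1H83.BD

open Pool.Agent.TH813.Rel (MK)

/-- a tuple with a defect has relations of some degree -/
theorem defect_iff_rel (F : IntermediateField ℚ ℂ) {n : ℕ} (p : Fin n → ℂ) :
    Defect F p ↔ ∃ δ : ℕ, ∀ f : Fin n → Fin n ⊕ Fin n, Function.Injective f →
      Rel (F : Set ℂ) δ (fun i => zz p (f i)) := by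
  classical
  rw [defect_iff]
  constructor
  · intro h
    have h1 : ∀ f : Fin n → Fin n ⊕ Fin n, ∃ P : MvPolynomial (Fin n) ℂ, Function.Injective f →
        P ≠ 0 ∧ (∀ μ, P.coeff μ ∈ (F : Set ℂ)) ∧
          MvPolynomial.eval (fun i => zz p (f i)) P = 0 := by
      intro f
      by_cases hf : Function.Injective f
      · have h2 : ¬ AlgebraicIndependent F (fun i => zz p (f i)) := by
          intro hi
          refine absurd h (not_lt.2 (Matroid.le_eRk_iff.2
            ⟨Set.range fun i => zz p (f i), ?_, ?_, ?_⟩))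
          · rintro _ ⟨i, rfl⟩
            exact ⟨_, rfl⟩
          · rw [AlgebraicIndependent.matroid_indep_iff]
            exact hi.coe_range
          · rw [← Set.image_univ, hi.injective.encard_image, Set.encard_univ,
              ENat.card_eq_coe_fintype_card, Fintype.card_fin]
        rw [algebraicIndependent_iff] at h2
        push Not at h2
        obtain ⟨P, hP, hP0⟩ := h2
        refine ⟨P.map (algebraMap F ℂ), fun _ => ⟨?_, fun μ => ?_, ?_⟩⟩
        · intro h3
          exact hP0 ((MvPolynomial.map_injective _ (algebraMap F ℂ).injective) (by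
            rw [h3, map_zero]))
        · rw [MvPolynomial.coeff_map]
          exact (P.coeff μ).2
        · rw [MvPolynomial.eval_map]
          exact hP
      · exact ⟨0, fun h => absurd h hf⟩
    choose P hP using h1
    refine ⟨∑ f, (P f).totalDegree, fun f hf => ⟨P f, (hP f hf).1, ?_, (hP f hf).2.1,
      (hP f hf).2.2⟩⟩
    exact Finset.single_le_sum (f := fun f => (P f).totalDegree) (fun _ _ => Nat.zero_le _)
      (mem_univ f)
  · rintro ⟨δ, h⟩
    by_contra hcon
    obtain ⟨g, hg, hi⟩ := exists_of_le _ (not_lt.1 hcon)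
    obtain ⟨P, hP, -, hPF, hP0⟩ := h g hg
    have h1 : P ∈ Set.range (MvPolynomial.map (σ := Fin n) (algebraMap F ℂ)) := by
      rw [MvPolynomial.mem_range_map_iff_coeffs_subset]
      intro x hx
      obtain ⟨μ, -, rfl⟩ := MvPolynomial.mem_coeffs_iff.1 hx
      exact ⟨⟨_, hPF μ⟩, rfl⟩
    obtain ⟨R, rfl⟩ := h1
    rw [MvPolynomial.eval_map] at hP0
    have h2 := (algebraicIndependent_iff.1 hi) R hP0
    rw [h2, map_zero] at hP
    exact hP rfl

/-- powers, for tuples with any index set -/
theorem pow_mem {F : IntermediateField ℚ ℂ} {ι : Type} [Fintype ι] (a : ι → ℚ) (w : ι → ℂ)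
    {S : Set ℂ} (hS : ∀ i, Complex.exp (w i) ∈ (MK F).closure S) :
    Complex.exp (∑ i, (a i : ℂ) * w i) ∈ (MK F).closure S := by
  classical
  let ε := Fintype.equivFin ι
  obtain ⟨D, x, y, hD, hxy⟩ := pow_rel (fun j => a (ε.symm j))
  have h1 := hxy (fun j => w (ε.symm j))
  have h2 : ∑ j, ((a (ε.symm j) : ℚ) : ℂ) * w (ε.symm j) = ∑ i, (a i : ℂ) * w i :=
    Equiv.sum_comp ε.symm (fun i => (a i : ℂ) * w i)
  rw [h2] at h1
  have h5 : ∀ z : Fin (Fintype.card ι) → ℕ, (∏ j, Complex.exp (w (ε.symm j)) ^ (z j)) ∈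
      (MK F).closure S := by
    intro z
    refine Finset.prod_induction _ (fun x => x ∈ (MK F).closure S)
      (fun x y hx hy => Pool.Agent.TH813.Rel.cl_mul hx hy) ?_ fun j _ => ?_
    · exact Pool.Agent.TH813.Rel.cl_of_base _ (1 : F)
    · exact Pool.Agent.TH813.Rel.mem_cl.2 ((Pool.Agent.TH813.Rel.mem_cl.1 (hS _)).pow (z j))
  have h6 : (∏ j, Complex.exp (w (ε.symm j)) ^ (y j)) ≠ 0 :=
    Finset.prod_ne_zero_iff.2 fun j _ => pow_ne_zero _ (Complex.exp_ne_zero _)
  have h7 : Complex.exp (∑ i, (a i : ℂ) * w i) ^ D =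
      (∏ j, Complex.exp (w (ε.symm j)) ^ (x j)) * (∏ j, Complex.exp (w (ε.symm j)) ^ (y j))⁻¹ := by
    rw [← h1, mul_inv_cancel_right₀ h6]
  refine Pool.Agent.TH813.Rel.mem_cl.2 (IsAlgebraic.of_pow hD ?_)
  rw [h7]
  exact Pool.Agent.TH813.Rel.mem_cl.1 (Pool.Agent.TH813.Rel.cl_mul (h5 x)
    (Pool.Agent.TH813.Rel.cl_inv (h5 y)))

/-- a tuple which fails through a matrix fails -/
theorem Thr.fails {F : IntermediateField ℚ ℂ} {e n : ℕ} {a : Fin e → Fin n → ℚ}
    (ha : LinearIndependent ℚ a) {p : Fin n → ℂ} (h : Thr F a p) : Defect F p := by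
  classical
  rw [defect_iff]
  rw [thr_iff] at h
  obtain ⟨C, hC⟩ := Submodule.exists_isCompl (Submodule.span ℚ (Set.range a))
  set m := finrank ℚ C with hm
  let c := finBasis ℚ C
  have he : finrank ℚ (Submodule.span ℚ (Set.range a)) = e := by
    rw [finrank_span_eq_card ha, Fintype.card_fin]
  have hem : e + m = n := by
    have h1 := Submodule.finrank_add_eq_of_isCompl hC
    rwa [finrank_fintype_fun_eq_card, Fintype.card_fin, he] at h1
  -- the rows of the identity matrix
  have hrow : ∀ j : Fin n, ∃ (x : Fin e → ℚ) (y : Fin m → ℚ),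
      (Pi.single j 1 : Fin n → ℚ) = ∑ i, x i • a i + ∑ i, y i • (c i : Fin n → ℚ) := by
    intro j
    have h1 : (Pi.single j 1 : Fin n → ℚ) ∈ Submodule.span ℚ (Set.range a) ⊔ C := by
      rw [hC.sup_eq_top]
      exact Submodule.mem_top
    obtain ⟨v, hv, w, hw, hvw⟩ := Submodule.mem_sup.1 h1
    obtain ⟨x, hx⟩ := (Submodule.mem_span_range_iff_exists_fun ℚ).1 hv
    refine ⟨x, fun i => c.repr ⟨w, hw⟩ i, ?_⟩
    rw [← hvw, ← hx]
    congr 1
    have h2 := congrArg (fun t : C => (t : Fin n → ℚ)) (c.sum_repr ⟨w, hw⟩)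
    simp only [Submodule.coe_sum, Submodule.coe_smul] at h2
    exact h2.symm
  let T : Set ℂ := Set.range fun i => Complex.exp (∑ l, ((c i : Fin n → ℚ) l : ℂ) * p l)
  have h2 : Set.range (zz p) ⊆ (MK F).closure (Set.range (zy a p) ∪ T) := by
    rintro _ ⟨j | j, rfl⟩
    · exact Pool.Agent.TH813.Rel.subset_cl _ (Or.inl ⟨Sum.inl j, rfl⟩)
    · obtain ⟨x, y, hxy⟩ := hrow j
      have h3 : p j = ∑ κ : Fin e ⊕ Fin m, ((Sum.elim x y κ : ℚ) : ℂ) *
          Sum.elim (ap a p) (fun i => ∑ l, ((c i : Fin n → ℚ) l : ℂ) * p l) κ := by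
        rw [Fintype.sum_sum_type]
        simp only [Sum.elim_inl, Sum.elim_inr]
        have h4 : p j = ∑ l, (((Pi.single j 1 : Fin n → ℚ) l : ℚ) : ℂ) * p l := by
          rw [Finset.sum_eq_single j]
          · rw [Pi.single_eq_same]
            simp
          · intro i _ hi
            rw [Pi.single_eq_of_ne hi]
            simp
          · simp
        rw [h4, hxy]
        unfold ap
        simp only [Pi.add_apply, Finset.sum_apply, Pi.smul_apply, smul_eq_mul, Rat.cast_add,
          Rat.cast_sum, Rat.cast_mul, add_mul, Finset.sum_mul, sum_add_distrib, Finset.mul_sum]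
        rw [Finset.sum_comm (s := (univ : Finset (Fin n))), Finset.sum_comm (s := (univ : Finset (Fin n)))]
        congr 1
        · exact sum_congr rfl fun i _ => sum_congr rfl fun l _ => by ring
        · exact sum_congr rfl fun i _ => sum_congr rfl fun l _ => by ring
      change Complex.exp (p j) ∈ _
      rw [h3]
      refine pow_mem _ _ ?_
      rintro (i | i)
      · exact Pool.Agent.TH813.Rel.subset_cl _ (Or.inl ⟨Sum.inr i, rfl⟩)
      · exact Pool.Agent.TH813.Rel.subset_cl _ (Or.inr ⟨i, rfl⟩)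
  have h3 := Pool.Agent.TH813.Rel.rk_le_of_subset_cl h2
  have h4 := (MK F).eRk_union_le_eRk_add_encard (Set.range (zy a p)) T
  have h5 : T.encard ≤ m := by
    refine (Set.encard_le_encard (t := T) subset_rfl).trans ?_
    have h6 := Set.encard_image_le (fun i => Complex.exp (∑ l, ((c i : Fin n → ℚ) l : ℂ) * p l))
      (Set.univ : Set (Fin m))
    rw [Set.image_univ, Set.encard_univ, ENat.card_eq_coe_fintype_card, Fintype.card_fin] at h6
    exact h6
  have h6 : (MK F).eRk (Set.range (zy a p)) + 1 ≤ e := by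
    exact Order.add_one_le_of_lt h
  have h7 : (MK F).eRk (Set.range (zz p)) + 1 ≤ (n : ℕ∞) := by
    calc (MK F).eRk (Set.range (zz p)) + 1 ≤ ((MK F).eRk (Set.range (zy a p)) + T.encard) + 1 := by
          gcongr
          exact h3.trans h4
      _ ≤ ((MK F).eRk (Set.range (zy a p)) + m) + 1 := by gcongr
      _ = ((MK F).eRk (Set.range (zy a p)) + 1) + m := by ring
      _ ≤ e + m := by gcongr
      _ = n := by rw [← hem]; push_cast; rfl
  refine lt_of_lt_of_le ?_ h7
  refine ENat.lt_add_one_iff ?_ |>.2 le_rfl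
  intro htop
  rw [htop] at h7
  exact absurd h7 (by simp)

end Pool.Agent.K1H83.BD
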