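import Mathlib
import Pool.Agent.K1H83.BD.Fail2

/-!
# The counting argument
-/

set_option autoImplicit false

open Filter Finset Module

noncomputable section

namespace Pool.Agent.K1H83.BD

open Pool.Agent.TH813.Rel (MK)

variable {N : IntermediateField ℚ ℂ}

/-- the counting argument -/
theorem count (u : Up N) {F' F₁ M : IntermediateField ℚ ℂ} (hFM : F₁ ≤ M)
    (hFF : F₁ ≤ cl (u.ult F' : Set ℂ)) {I J Z : Type} [Fintype I] [DecidableEq I] [Fintype J]
    [DecidableEq J] [Fintype Z] [DecidableEq Z] (y : I → ℕ → N) (x : J → ℕ → N) (z : Z → ℕ → N)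
    (hy : ∀ i, u.c (y i) ∈ M) (hx : AlgebraicIndependent M (fun j => u.c (x j)))
    (hyz : ∀ i, u.c (y i) ∈ (MK F₁).closure (Set.range fun i => u.c (z i)))
    (hxz : ∀ j, u.c (x j) ∈ (MK F₁).closure (Set.range fun i => u.c (z i)))
    {d D : ℕ} (hdD : d + Fintype.card J = D)
    (hrel : ∀ f : Fin D → Z, Function.Injective f →
      ¬ AlgebraicIndependent F₁ (fun i => u.c (z (f i)))) :
    ∀ᶠ k in (hyperfilter ℕ : Filter ℕ), (MK F').eRk (Set.range fun i => (y i k : ℂ)) < d := by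
  classical
  by_contra hcon
  rw [← Ultrafilter.eventually_not] at hcon
  have h1 : ∀ᶠ k in (hyperfilter ℕ : Filter ℕ), ∃ f : Fin d → I,
      AlgebraicIndependent F' (fun i => (y (f i) k : ℂ)) := by
    filter_upwards [hcon] with k hk
    obtain ⟨f, -, hf⟩ := exists_of_le _ (not_lt.1 hk)
    exact ⟨f, hf⟩
  have h2 : ∃ f : Fin d → I, ∀ᶠ k in (hyperfilter ℕ : Filter ℕ),
      AlgebraicIndependent F' (fun i => (y (f i) k : ℂ)) := by
    by_contra hno
    push Not at hno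
    have h3 : ∀ᶠ k in (hyperfilter ℕ : Filter ℕ), ∀ f : Fin d → I,
        ¬ AlgebraicIndependent F' (fun i => (y (f i) k : ℂ)) := by
      rw [eventually_all]
      intro f
      exact hno f
    obtain ⟨k, ⟨f, hf⟩, hk⟩ := (h1.and h3).exists
    exact hk f hf
  obtain ⟨f, hf⟩ := h2
  have h3 : AlgebraicIndependent (u.ult F') (fun i => u.c (y (f i))) :=
    indep_ult u (fun i => y (f i)) hf
  have h4 : AlgebraicIndependent F₁ (fun i => u.c (y (f i))) := algInd_cl hFF h3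
  have h5 : AlgebraicIndependent F₁ (Sum.elim (fun i => u.c (y (f i)))
      (fun j => u.c (x j))) := algInd_sum hFM (fun i => hy _) h4 hx
  obtain ⟨T, hT, hTi⟩ := exists_ind (fun i => u.c (z i)) _ h5 (by
    rintro (i | i)
    · rw [Sum.elim_inl]
      exact Pool.Agent.TH813.Rel.mem_cl.1 (hyz _)
    · exact Pool.Agent.TH813.Rel.mem_cl.1 (hxz _))
  rw [Fintype.card_sum, Fintype.card_fin, hdD] at hT
  let ψ : Fin D ≃ T := (T.equivFinOfCardEq hT).symm
  exact hrel (fun i => (ψ i : Z)) (Subtype.val_injective.comp ψ.injective)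
    (hTi.comp ψ ψ.injective)

/-- relations with coefficients in a space of finite dimension -/
theorem dep_of_W {K : IntermediateField ℚ ℂ} (hKN : K ≤ N) (u : Up N) {g : ℕ} {s : Fin g → ℂ}
    (hsN : ∀ l, s l ∈ N) {J : Type} [Fintype J] [DecidableEq J] (z : J → ℕ → N)
    (E : Finset (J →₀ ℕ)) (A : ℕ → (J →₀ ℕ) → Fin g → ℂ) (hAK : ∀ k μ l, A k μ l ∈ K)
    (hA0 : ∀ k, ∃ μ ∈ E, ∑ l, A k μ l * s l ≠ 0)
    (hrel : ∀ k, ∑ μ ∈ E, (∑ l, A k μ l * s l) * ∏ κ, (z κ k : ℂ) ^ (μ κ) = 0) :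
    ¬ AlgebraicIndependent (cl ((u.ult K : Set ℂ) ∪ Set.range s)) (fun κ => u.c (z κ)) := by
  classical
  let CC : (J →₀ ℕ) → ℕ → N := fun μ k =>
    ∑ l, (⟨A k μ l, hKN (hAK k μ l)⟩ : N) * ⟨s l, hsN l⟩
  have hCCc : ∀ μ k, (CC μ k : ℂ) = ∑ l, A k μ l * s l := fun μ k => by simp [CC]
  refine dep_of_rel u z E CC (fun μ => ?_) (fun k => ?_) (fun k => ?_)
  · have h1 : CC μ = ∑ l, (fun k => (⟨A k μ l, hKN (hAK k μ l)⟩ : N)) *
        (fun _ => ⟨s l, hsN l⟩) := by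
      funext k
      rw [Finset.sum_apply]
      rfl
    rw [h1, map_sum]
    refine sum_mem fun l _ => ?_
    rw [map_mul, u.const]
    exact mul_mem (subset_cl _ (Or.inl ⟨_, fun k => hAK k μ l, rfl⟩))
      (subset_cl _ (Or.inr ⟨l, rfl⟩))
  · obtain ⟨μ, hμ, hμ0⟩ := hA0 k
    refine ⟨μ, hμ, fun h => hμ0 ?_⟩
    rw [← hCCc, h]
    rfl
  · refine Subtype.ext ?_
    push_cast
    simp only [hCCc]
    exact hrel k

end Pool.Agent.K1H83.BD
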