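import Mathlib
import Pool.Agent.K1H83.BD.Cls3
import Pool.Agent.K1H83.BD.Fail2

/-!
# Elliptic logarithms and the middle field
-/

set_option autoImplicit false

open Filter Finset Module
open scoped PeriodPair

noncomputable section

namespace Pool.Agent.K1H83.BD

open H667R3 Pool.Agent.W245.EB
open Pool.Agent.W252
open Pool.Agent.TH813.Core Pool.Agent.TH813.Ell Pool.Agent.TH813.Core2 Pool.Agent.TH813.G
open Pool.Agent.TH813.Rel (MK)

/-- the closed field generated by a field and a set is contained in the matroid closure -/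
theorem closure_of_cl {F : IntermediateField ℚ ℂ} {S : Set ℂ} {x : ℂ}
    (hx : x ∈ cl ((F : Set ℂ) ∪ S)) : x ∈ (MK F).closure S := by
  let E : IntermediateField ℚ ℂ :=
    { carrier := (MK F).closure S
      mul_mem' := Pool.Agent.TH813.Rel.cl_mul
      add_mem' := Pool.Agent.TH813.Rel.cl_add
      algebraMap_mem' := fun q => Pool.Agent.TH813.Rel.cl_of_base S (algebraMap ℚ F q)
      inv_mem' := fun _ => Pool.Agent.TH813.Rel.cl_inv }
  have hE : Clo E := by
    intro z hz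
    have h1 : z ∈ (MK F).closure ((MK F).closure S) := by
      rw [Pool.Agent.TH813.Rel.mem_cl]
      let φ : E →+* Algebra.adjoin F ((MK F).closure S) :=
        { toFun := fun r => ⟨r, Algebra.subset_adjoin r.2⟩
          map_one' := rfl
          map_mul' := fun a b => rfl
          map_zero' := rfl
          map_add' := fun a b => rfl }
      have hφ : Function.Injective φ := fun a b hab => Subtype.ext
        (congrArg (fun x : Algebra.adjoin F ((MK F).closure S) => (x : ℂ)) hab)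
      obtain ⟨p, hp, hp0⟩ := hz
      refine ⟨p.map φ, (Polynomial.map_ne_zero_iff hφ).2 hp, ?_⟩
      rw [Polynomial.aeval_def, Polynomial.eval₂_map]
      exact hp0
    rw [(MK F).closure_closure] at h1
    exact h1
  have h2 : cl ((F : Set ℂ) ∪ S) ≤ E := by
    refine cl_le hE ?_
    rintro y (hy | hy)
    · exact Pool.Agent.TH813.Rel.cl_of_base S (⟨y, hy⟩ : F)
    · exact Pool.Agent.TH813.Rel.subset_cl S hy
  exact h2 hx

theorem kL_fin (L : PeriodPair) : FiniteDimensional ℚ (kL L) := by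
  let W : Submodule ℚ ℂ := Submodule.span ℚ {L.ω₁, L.ω₂}
  have hWf : FiniteDimensional ℚ W := FiniteDimensional.span_of_finite ℚ (Set.toFinite _)
  have hW : ∀ c : kL L, (c : ℂ) * L.ω₁ ∈ W := by
    intro c
    obtain ⟨n, hn, h⟩ := c.2
    obtain ⟨a, b, hab⟩ := PeriodPair.mem_lattice.1 (h _ L.ω₁_mem_lattice)
    have hn0 : (n : ℂ) ≠ 0 := by exact_mod_cast hn.ne'
    have h1 : (c : ℂ) * L.ω₁ = ((a : ℚ) / n) • L.ω₁ + ((b : ℚ) / n) • L.ω₂ := by
      rw [Rat.smul_def, Rat.smul_def]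
      push_cast
      field_simp
      linear_combination -hab
    rw [h1]
    exact W.add_mem (W.smul_mem _ (Submodule.subset_span (by simp)))
      (W.smul_mem _ (Submodule.subset_span (by simp)))
  let f : kL L →ₗ[ℚ] W :=
    { toFun := fun c => ⟨(c : ℂ) * L.ω₁, hW c⟩
      map_add' := fun a b => Subtype.ext (by
        change ((a + b : kL L) : ℂ) * L.ω₁ = a * L.ω₁ + b * L.ω₁
        push_cast
        ring)
      map_smul' := fun q a => Subtype.ext (by
        change ((q • a : kL L) : ℂ) * L.ω₁ = q • (a * L.ω₁)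
        rw [IntermediateField.coe_smul, smul_mul_assoc]) }
  refine FiniteDimensional.of_injective f fun a b hab => Subtype.ext ?_
  have h1 : (a : ℂ) * L.ω₁ = b * L.ω₁ := congrArg Subtype.val hab
  exact mul_right_cancel₀ (ω₁_ne_zero L) h1

variable {K N : IntermediateField ℚ ℂ} {L : PeriodPair} {r : ℕ} {b : Fin r → ℂ}

/-- the values at the combinations of the basis -/
theorem span_mem (hNc : Clo N) (h2 : L.g₂ ∈ N) (h3 : L.g₃ ∈ N) (hbN : ∀ j, b j ∈ N)
    (hpN : ∀ j, ℘[L] (b j) ∈ N) (hzN : ∀ j, zt L (b j) ∈ N) {z : ℂ}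
    (hz : z ∈ Submodule.span (kL L) (Set.range b)) :
    z ∈ N ∧ (z ∈ L.lattice ∨ (℘[L] z ∈ N ∧ ℘'[L] z ∈ N)) ∧ zt L z ∈ N := by
  obtain ⟨κ, hE⟩ := exists_eig L
  have key : ∀ D : Derivation ℚ ℂ ℂ, (∀ x ∈ N, D x = 0) →
      D z = 0 ∧ om L D z = 0 ∧ xi L κ D z = 0 := by
    intro D hD
    have hk : D κ = 0 := hE.kill D (hD _ h2) (hD _ h3)
    induction hz using Submodule.span_induction with
    | mem x hx =>
      obtain ⟨j, rfl⟩ := hx
      have h1 : om L D (b j) = 0 := om_kill (hD _ (hpN j))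
      refine ⟨hD _ (hbN j), h1, ?_⟩
      rw [xi_eq D hk, h1, mul_zero, add_zero]
      unfold zk
      rw [map_sub, hD _ (hzN j), Derivation.leibniz, hk, hD _ (hbN j), smul_zero, smul_zero,
        add_zero, sub_zero]
    | zero =>
      refine ⟨map_zero D, ?_, xi_zero D⟩
      have := (KE L hNc h2 h3).zero hD
      exact this
    | add x y _ _ hx hy =>
      refine ⟨by rw [map_add, hx.1, hy.1, add_zero], ?_, ?_⟩
      · rw [om_add L D (hD _ h2) (hD _ h3), hx.2.1, hy.2.1, add_zero]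
      · rw [xi_add D (hD _ h2) (hD _ h3), hx.2.2, hy.2.2, add_zero]
    | smul c x _ hx =>
      have e1 : c • x = (c : ℂ) * x := rfl
      rw [e1]
      refine ⟨?_, ?_, ?_⟩
      · rw [Derivation.leibniz, der_kL D c.2, hx.1, smul_zero, smul_zero, add_zero]
      · rw [hE.om_mul D (hD _ h2) (hD _ h3) c c.2, hx.2.1, mul_zero]
      · rw [hE.xi_mul D (hD _ h2) (hD _ h3) c c.2, hx.2.2, mul_zero]
  refine ⟨mem_of_killed hNc fun D hD => (key D hD).1, ?_, mem_of_killed hNc fun D hD => ?_⟩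
  · by_cases hl : z ∈ L.lattice
    · exact Or.inl hl
    · exact Or.inr ⟨mem_of_killed hNc fun D hD =>
          (wp_killed (hD _ h2) (hD _ h3) (key D hD).2.1 hl).1,
        mem_of_killed hNc fun D hD => (wp_killed (hD _ h2) (hD _ h3) (key D hD).2.1 hl).2⟩
  · obtain ⟨h4, h5, h6⟩ := key D hD
    have hk : D κ = 0 := hE.kill D (hD _ h2) (hD _ h3)
    rw [xi_eq D hk, h5, mul_zero, add_zero] at h6
    unfold zk at h6
    rw [map_sub, Derivation.leibniz, hk, h4, smul_zero, smul_zero, add_zero, sub_zero] at h6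
    exact h6

variable {u : Up N}

theorem Cls.of_ult (hKN : K ≤ N) {f : ℕ → ℂ}
    (hf : ∀ᶠ k in (hyperfilter ℕ : Filter ℕ), f k ∈ K) : Cls u (u.mb K) f := by
  classical
  refine ⟨fun k => if h : f k ∈ K then ⟨f k, hKN h⟩ else 0, ?_, subset_cl _ (Or.inl ?_)⟩
  · filter_upwards [hf] with k hk
    rw [dif_pos hk]
  · refine ⟨_, fun k => ?_, rfl⟩
    by_cases h : f k ∈ K
    · rw [dif_pos h]
      exact h
    · rw [dif_neg h]
      exact zero_mem _

theorem Cls.of_N {x : ℂ} (hx : x ∈ N) : Cls u (u.mb K) (fun _ => x) :=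
  Cls.const hx (subset_cl _ (Or.inr hx))

/-- logarithms over `K` -/
theorem InE.of_lg (hKc : Clo K) (h2 : L.g₂ ∈ K) (h3 : L.g₃ ∈ K) (hKN : K ≤ N) {l : ℕ → ℂ}
    (hl : ∀ᶠ k in (hyperfilter ℕ : Filter ℕ), l k ∈ lgE L K) : InE u (u.mb K) L l := by
  by_cases h : ∀ᶠ k in (hyperfilter ℕ : Filter ℕ), l k ∈ L.lattice
  · exact Or.inl h
  · rw [← Ultrafilter.eventually_not] at h
    right
    refine ⟨Cls.of_ult hKN ?_, Cls.of_ult hKN ?_⟩
    · filter_upwards [h, hl] with k h4 h5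
      exact ((lgE_pt hKc h2 h3 h5).resolve_left h4).1
    · filter_upwards [h, hl] with k h4 h5
      exact ((lgE_pt hKc h2 h3 h5).resolve_left h4).2

theorem lgE_lg (hKc : Clo K) (h2 : L.g₂ ∈ K) (h3 : L.g₃ ∈ K) {v : ℂ} (hv : v ∈ lgE L K) :
    v ∈ (KE L hKc h2 h3).lg := by
  intro D hD
  change om L D v = 0
  rcases hv with hx | hx
  · unfold om
    have : ℘[L] v = 0 := L.weierstrassP_coe ⟨v, hx⟩
    rw [this, map_zero, zero_div]
  · exact om_kill (hD _ hx)

/-- the zeta function at logarithms over `K` in a space of finite dimension -/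
theorem Cls.zt_log (hNc : Clo N) (hKc : Clo K) (h2 : L.g₂ ∈ K) (h3 : L.g₃ ∈ K) (hKN : K ≤ N)
    (hbN : ∀ j, b j ∈ N) (hpN : ∀ j, ℘[L] (b j) ∈ N) (hzN : ∀ j, zt L (b j) ∈ N) {l : ℕ → ℂ}
    (hl : ∀ᶠ k in (hyperfilter ℕ : Filter ℕ), l k ∈ lgE L K)
    (hls : ∀ᶠ k in (hyperfilter ℕ : Filter ℕ), l k ∈ Submodule.span (kL L) (Set.range b)) :
    Cls u (u.mb K) (ztS L l) := by
  classical
  have hkf := kL_fin L
  let S : Submodule (kL L) ℂ := Submodule.span (kL L) (Set.range b)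
  have hSf : FiniteDimensional (kL L) S := FiniteDimensional.span_of_finite _ (Set.finite_range b)
  let S' : Submodule ℚ ℂ := S.restrictScalars ℚ
  have hSf' : FiniteDimensional ℚ S' := by
    have : Module.Finite ℚ S := Module.Finite.trans (kL L) S
    exact this
  let G : Submodule ℚ ℂ := Submodule.restrictScalars ℚ (KE L hKc h2 h3).lg
  let B : Submodule ℚ ℂ := S' ⊓ G
  have hBf : FiniteDimensional ℚ B := Submodule.finiteDimensional_of_le (inf_le_left : B ≤ S')
  let β := finBasis ℚ B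
  have hβN : ∀ j, zt L (β j : ℂ) ∈ N := fun j =>
    (span_mem hNc (hKN h2) (hKN h3) hbN hpN hzN (β j).2.1).2.2
  have hlB : ∀ᶠ k in (hyperfilter ℕ : Filter ℕ), l k ∈ B := by
    filter_upwards [hl, hls] with k h4 h5
    exact ⟨h5, lgE_lg hKc h2 h3 h4⟩
  let q : ℕ → Fin (finrank ℚ B) → ℚ := fun k j =>
    if h : l k ∈ B then β.repr ⟨l k, h⟩ j else 0
  have hq : ∀ᶠ k in (hyperfilter ℕ : Filter ℕ), ∑ j, (q k j : ℂ) * (β j : ℂ) = l k := by
    filter_upwards [hlB] with k hk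
    have h4 := congrArg (fun t : B => (t : ℂ)) (β.sum_repr ⟨l k, hk⟩)
    simp only [Submodule.coe_sum, Submodule.coe_smul] at h4
    refine Eq.trans (sum_congr rfl fun j _ => ?_) h4
    simp only [q]
    rw [dif_pos hk, Rat.smul_def]
  have h4 : ∀ᶠ k in (hyperfilter ℕ : Filter ℕ),
      zt L (l k) - ∑ j, (q k j : ℂ) * zt L (β j : ℂ) ∈ K := by
    filter_upwards [hq, hl] with k hk hlk
    refine mem_of_killed hKc fun D hD => ?_
    have h5 : ∀ z, z ∈ (KE L hKc h2 h3).lg → et L D z = D (zt L z) := by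
      intro z hz
      have h6 : om L D z = 0 := hz D hD
      unfold et
      rw [h6, mul_zero, add_zero]
    have h7 := et_linQ (hD _ h2) (hD _ h3) (q k) (fun j => (β j : ℂ))
    rw [hk, h5 _ (lgE_lg hKc h2 h3 hlk)] at h7
    rw [map_sub, h7, map_sum, sub_eq_zero]
    refine sum_congr rfl fun j _ => ?_
    rw [h5 _ (β j).2.2]
    have h8 : (q k j : ℂ) * zt L (β j : ℂ) = (q k j : ℚ) • zt L (β j : ℂ) := by
      rw [Rat.smul_def]
    rw [h8, D.map_smul, Rat.smul_def]
  have h5 : Cls u (u.mb K) (∑ j, (fun k => (q k j : ℂ)) * (fun _ => zt L (β j : ℂ))) :=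
    Cls.sum _ _ fun j _ => (Cls.of_ult hKN (Filter.Eventually.of_forall fun k => by
      have := K.algebraMap_mem (q k j)
      rwa [eq_ratCast] at this)).mul (Cls.of_N (hβN j))
  have h6 : Cls u (u.mb K) (fun k => zt L (l k) - ∑ j, (q k j : ℂ) * zt L (β j : ℂ)) :=
    Cls.of_ult hKN h4
  refine (h6.add h5).congr (Filter.Eventually.of_forall fun k => ?_)
  rw [Pi.add_apply, Finset.sum_apply]
  change zt L (l k) = zt L (l k) - ∑ j, (q k j : ℂ) * zt L (β j : ℂ) +
    ∑ j, (q k j : ℂ) * zt L (β j : ℂ)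
  ring

/-- the vectors `a` such that `∑ a_j p_j` is almost constant modulo logarithms -/
def GT (T : Kd K) {n : ℕ} (p : ℕ → Fin n → ℂ) : Submodule T.k (Fin n → T.k) where
  carrier := {a | ∃ l : ℂ, ∀ᶠ k in (hyperfilter ℕ : Filter ℕ), ∑ j, (a j : ℂ) * p k j - l ∈ T.lg}
  zero_mem' := ⟨0, Filter.Eventually.of_forall fun k => by simp⟩
  add_mem' := by
    rintro a a' ⟨l, hl⟩ ⟨l', hl'⟩
    refine ⟨l + l', ?_⟩
    filter_upwards [hl, hl'] with k h h'
    have h1 : ∑ j, (((a + a') j : T.k) : ℂ) * p k j - (l + l') =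
        (∑ j, (a j : ℂ) * p k j - l) + (∑ j, (a' j : ℂ) * p k j - l') := by
      simp only [Pi.add_apply, IntermediateField.coe_add, add_mul, sum_add_distrib]
      ring
    rw [h1]
    exact add_mem h h'
  smul_mem' := by
    rintro q a ⟨l, hl⟩
    refine ⟨q * l, ?_⟩
    filter_upwards [hl] with k h
    have h1 : ∑ j, (((q • a) j : T.k) : ℂ) * p k j - q * l =
        q • (∑ j, (a j : ℂ) * p k j - l) := by
      have e1 : ∀ z : ℂ, q • z = (q : ℂ) * z := fun z => rfl
      rw [e1, mul_sub, Finset.mul_sum]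
      congr 1
      refine sum_congr rfl fun j _ => ?_
      rw [Pi.smul_apply, smul_eq_mul, IntermediateField.coe_mul]
      ring
    rw [h1]
    exact Submodule.smul_mem _ _ h

/-- combinations which are constant modulo logarithms -/
theorem mid_mem (hNc : Clo N) (hKc : Clo K) (h2 : L.g₂ ∈ K) (h3 : L.g₃ ∈ K) (hKN : K ≤ N)
    (hbN : ∀ j, b j ∈ N) (hpN : ∀ j, ℘[L] (b j) ∈ N) (hzN : ∀ j, zt L (b j) ∈ N)
    {z : ℕ → ℂ} (hz : ∀ k, z k ∈ Submodule.span (kL L) (Set.range b)) {l : ℂ}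
    (hl : ∀ᶠ k in (hyperfilter ℕ : Filter ℕ), z k - l ∈ (KE L hKc h2 h3).lg) :
    InE u (u.mb K) L z ∧ Cls u (u.mb K) (ztS L z) := by
  have B : Bas N (u.mb K) L := ⟨hNc, cl_closed _, hKN h2, hKN h3, subset_cl _ (Or.inr (hKN h2)),
    subset_cl _ (Or.inr (hKN h3))⟩
  obtain ⟨k₁, hk₁⟩ := hl.exists
  have hl' : ∀ᶠ k in (hyperfilter ℕ : Filter ℕ), z k - z k₁ ∈ lgE L K := by
    filter_upwards [hl] with k hk
    have h4 := sub_mem hk hk₁
    rw [sub_sub_sub_cancel_right] at h4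
    exact mem_lgE hKc h2 h3 h4
  obtain ⟨s1, s2, s3⟩ := span_mem hNc (hKN h2) (hKN h3) hbN hpN hzN (hz k₁)
  have i1 : InE u (u.mb K) L (fun _ => z k₁) := InE.const s2 (s2.imp_right fun h =>
    ⟨subset_cl _ (Or.inr h.1), subset_cl _ (Or.inr h.2)⟩)
  have i2 : InE u (u.mb K) L (fun k => z k - z k₁) := InE.of_lg hKc h2 h3 hKN hl'
  have e1 : z = (fun _ => z k₁) + fun k => z k - z k₁ := by
    funext k
    change z k = z k₁ + (z k - z k₁)
    ring
  refine ⟨?_, ?_⟩
  · rw [e1]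
    exact i1.add B.h2N B.h2F i2
  · have c1 : Cls u (u.mb K) (ztS L (fun _ => z k₁)) := Cls.of_N s3
    have c2 : Cls u (u.mb K) (ztS L (fun k => z k - z k₁)) :=
      Cls.zt_log hNc hKc h2 h3 hKN hbN hpN hzN hl'
        (Filter.Eventually.of_forall fun k => sub_mem (hz k) (hz k₁))
    have c3 := ((B.zt_add i1 i2).add c1).add c2
    rw [← e1] at c3
    refine c3.congr (Filter.Eventually.of_forall fun k => ?_)
    rw [Pi.add_apply, Pi.add_apply, Pi.sub_apply, Pi.sub_apply]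
    ring

end Pool.Agent.K1H83.BD
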