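import Mathlib
import Pool.Agent.K1H83.BD.Main

/-!
# Relations over the field generated by the arguments
-/

set_option autoImplicit false

open Filter Finset Module
open scoped PeriodPair

noncomputable section

namespace Pool.Agent.K1H83.BD

open H667R3 Pool.Agent.W245.EB
open Pool.Agent.W252
open Pool.Agent.TH813.Core Pool.Agent.TH813.Ell Pool.Agent.TH813.Core2 Pool.Agent.TH813.G

/-- polynomials of degree at most `k` with coefficients in the `k`-th power of `V` -/
def Bd {K : IntermediateField ℚ ℂ} (V : Submodule K ℂ) {J : Type} (k : ℕ) (f : MvPolynomial J ℂ) : Prop :=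
  f.totalDegree ≤ k ∧ ∀ μ, f.coeff μ ∈ V ^ k

theorem Bd.mul {K : IntermediateField ℚ ℂ} {V : Submodule K ℂ} {J : Type} {k l : ℕ}
    {f g : MvPolynomial J ℂ} (hf : Bd V k f) (hg : Bd V l g) : Bd V (k + l) (f * g) := by
  classical
  refine ⟨(MvPolynomial.totalDegree_mul f g).trans (Nat.add_le_add hf.1 hg.1), fun μ => ?_⟩
  rw [MvPolynomial.coeff_mul, pow_add]
  exact sum_mem fun x _ => Submodule.mul_mem_mul (hf.2 _) (hg.2 _)

theorem Bd.pow {K : IntermediateField ℚ ℂ} {V : Submodule K ℂ} {J : Type}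
    {f : MvPolynomial J ℂ} (hf : Bd V 1 f) (k : ℕ) : Bd V k (f ^ k) := by
  classical
  induction k with
  | zero =>
    rw [pow_zero]
    refine ⟨by rw [MvPolynomial.totalDegree_one], fun μ => ?_⟩
    rw [pow_zero, MvPolynomial.coeff_one]
    split_ifs
    · exact Submodule.one_le.1 le_rfl
    · exact zero_mem _
  | succ k ih =>
    rw [pow_succ]
    exact ih.mul hf

theorem Bd.prod {K : IntermediateField ℚ ℂ} {V : Submodule K ℂ} {I J : Type} (T : Finset I)
    (f : I → MvPolynomial J ℂ) (d : I → ℕ) (h : ∀ i ∈ T, Bd V (d i) (f i)) :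
    Bd V (∑ i ∈ T, d i) (∏ i ∈ T, f i) := by
  classical
  induction T using Finset.induction_on with
  | empty =>
    rw [sum_empty, prod_empty]
    refine ⟨by rw [MvPolynomial.totalDegree_one], fun μ => ?_⟩
    rw [pow_zero, MvPolynomial.coeff_one]
    split_ifs
    · exact Submodule.one_le.1 le_rfl
    · exact zero_mem _
  | insert a T ha ih =>
    rw [sum_insert ha, prod_insert ha]
    exact (h a (mem_insert_self _ _)).mul (ih fun i hi => h i (mem_insert_of_mem hi))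

theorem Bd.mono {K : IntermediateField ℚ ℂ} {V : Submodule K ℂ} (h1 : (1 : ℂ) ∈ V) {J : Type} {k l : ℕ}
    (hkl : k ≤ l) {f : MvPolynomial J ℂ} (hf : Bd V k f) : Bd V l f :=
  ⟨hf.1.trans hkl, fun μ => (pow_le_pow_right₀ (Submodule.one_le.2 h1) hkl : V ^ k ≤ V ^ l) (hf.2 μ)⟩

theorem Bd.sum {K : IntermediateField ℚ ℂ} {V : Submodule K ℂ} {I J : Type} (T : Finset I)
    (f : I → MvPolynomial J ℂ) {k : ℕ} (h : ∀ i ∈ T, Bd V k (f i)) :
    Bd V k (∑ i ∈ T, f i) := by
  refine ⟨?_, fun μ => ?_⟩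
  · refine (MvPolynomial.totalDegree_finsetSum _ _).trans ?_
    exact Finset.sup_le fun i hi => (h i hi).1
  · rw [MvPolynomial.coeff_sum]
    exact sum_mem fun i hi => (h i hi).2 μ

/-- substitution of the constants -/
def ev {I J : Type} (c : I → ℂ) (P : MvPolynomial (I ⊕ J) ℂ) : MvPolynomial J ℂ :=
  MvPolynomial.aeval (Sum.elim (fun i => MvPolynomial.C (c i)) MvPolynomial.X) P

theorem eval_ev {I J : Type} (c : I → ℂ) (P : MvPolynomial (I ⊕ J) ℂ) (y : J → ℂ) :
    MvPolynomial.eval y (ev c P) = MvPolynomial.eval (Sum.elim c y) P := by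
  unfold ev
  have h1 : MvPolynomial.eval y (MvPolynomial.aeval
      (Sum.elim (fun i => MvPolynomial.C (c i)) MvPolynomial.X : I ⊕ J → MvPolynomial J ℂ) P) =
      MvPolynomial.aeval y (MvPolynomial.aeval
      (Sum.elim (fun i => MvPolynomial.C (c i)) MvPolynomial.X : I ⊕ J → MvPolynomial J ℂ) P) := by
    rw [MvPolynomial.aeval_eq_eval]
  rw [h1, ← AlgHom.comp_apply, MvPolynomial.comp_aeval]
  rw [MvPolynomial.aeval_eq_eval]
  have h2 : (fun i : I ⊕ J => MvPolynomial.aeval y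
      ((Sum.elim (fun i => MvPolynomial.C (c i)) MvPolynomial.X : I ⊕ J → MvPolynomial J ℂ) i)) =
      Sum.elim c y := by
    funext i
    rcases i with i | j
    · simp
    · simp
  rw [h2]

theorem bd_ev {K : IntermediateField ℚ ℂ} {V : Submodule K ℂ} (h1 : (1 : ℂ) ∈ V) {I J : Type}
    (c : I → ℂ) (hc : ∀ i, c i ∈ V) (P : MvPolynomial (I ⊕ J) ℂ) {δ : ℕ} (hP : P.totalDegree ≤ δ)
    (hK : ∀ μ, P.coeff μ ∈ K) : Bd V δ (ev c P) := by
  classical
  rw [P.as_sum]
  unfold ev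
  rw [map_sum]
  refine Bd.sum _ _ fun μ hμ => ?_
  rw [MvPolynomial.aeval_monomial]
  have hd : μ.sum (fun _ e => e) ≤ δ := (MvPolynomial.le_totalDegree hμ).trans hP
  have h3 : Bd V (0 + ∑ κ ∈ μ.support, μ κ) (algebraMap ℂ (MvPolynomial J ℂ) (P.coeff μ) *
      μ.prod fun κ k => (Sum.elim (fun i => MvPolynomial.C (c i)) MvPolynomial.X :
        I ⊕ J → MvPolynomial J ℂ) κ ^ k) := by
    refine Bd.mul ?_ ?_
    · refine ⟨le_of_eq (MvPolynomial.totalDegree_C _), fun ν => ?_⟩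
      rw [MvPolynomial.algebraMap_eq, MvPolynomial.coeff_C, pow_zero]
      split_ifs
      · exact Submodule.mem_one.2 ⟨⟨_, hK μ⟩, rfl⟩
      · exact zero_mem _
    · refine Bd.prod _ _ _ fun κ _ => Bd.pow ?_ _
      rcases κ with i | j
      · refine ⟨?_, fun ν => ?_⟩
        · rw [Sum.elim_inl, MvPolynomial.totalDegree_C]
          exact Nat.zero_le _
        · rw [Sum.elim_inl, MvPolynomial.coeff_C, pow_one]
          split_ifs
          · exact hc i
          · exact zero_mem _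
      · refine ⟨?_, fun ν => ?_⟩
        · rw [Sum.elim_inr, MvPolynomial.totalDegree_X]
        · rw [Sum.elim_inr, MvPolynomial.coeff_X, pow_one]
          split_ifs
          · exact h1
          · exact zero_mem _
  refine h3.mono h1 ?_
  rw [zero_add]
  exact hd

/-- **The theorem for relations over the field generated by the arguments and by constants.** -/
theorem main_free (K : IntermediateField ℚ ℂ) {q : ℕ} (Λ : Fin q → PeriodPair)
    (h2 : ∀ c, IsAlgebraic K (Λ c).g₂) (h3 : ∀ c, IsAlgebraic K (Λ c).g₃)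
    (hni : ∀ c c', c ≠ c' → NoHom (Λ c) (Λ c')) (V : Submodule ℚ ℂ) [FiniteDimensional ℚ V]
    {I : Type} [Finite I] (w : I → ℂ) (δ : ℕ) {m n : ℕ} (ty : Fin n → Fin q) :
    ∃ (S : Finset ((Fin m → ℚ) × (Fin m → ℂ)))
      (S' : Fin q → Finset ((Fin n → ℂ) × (Fin n → ℂ))),
      (∀ s ∈ S, s.1 ≠ 0 ∧ ∀ i, s.2 i ∈ V) ∧
      (∀ c, ∀ s ∈ S' c, s.1 ≠ 0 ∧ (∀ j, s.1 j ∈ kL (Λ c)) ∧ (∀ j, ty j ≠ c → s.1 j = 0) ∧
        ∀ j, s.2 j ∈ V) ∧
      ∀ (p : Fin m → ℂ) (v : Fin n → ℂ), (∀ i, p i ∈ V) → (∀ j, v j ∈ V) →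
        (∀ j, v j ∉ (Λ (ty j)).lattice) →
        (∃ s ∈ S, LgM K (∑ i, (s.1 i : ℂ) * (p i - s.2 i))) ∨
        (∃ c, ∃ s ∈ S' c, LgE (Λ c) K (∑ j, s.1 j * (v j - s.2 j))) ∨
        ∀ P : MvPolynomial ((I ⊕ (Fin m ⊕ Fin n)) ⊕ (Fin m ⊕ (Fin n ⊕ Fin n))) ℂ,
          P.totalDegree ≤ δ → (∀ μ, IsAlgebraic K (P.coeff μ)) →
          MvPolynomial.eval (Sum.elim (Sum.elim w (Sum.elim p v)) (vals Λ ty p v)) P = 0 →
          ∀ y, MvPolynomial.eval (Sum.elim (Sum.elim w (Sum.elim p v)) y) P = 0 := by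
  classical
  -- the algebraic closure
  set K' := cl (K : Set ℂ) with hK'
  have hKK' : ∀ x, IsAlgebraic K x → x ∈ K' := fun x hx => cl_closed _ x
    (alg_of_subset _ (fun r => subset_cl _ r.2) (algebraMap K ℂ).injective hx)
  have hK'K : ∀ x, IsAlgebraic K' x → IsAlgebraic K x := fun x hx =>
    alg_of_cl (K := K) (S := (K : Set ℂ)) (fun y hy => isAlgebraic_algebraMap (⟨y, hy⟩ : K))
      (cl_closed _ x hx)
  let V₁ : Submodule K' ℂ := Submodule.span K' ((V : Set ℂ) ∪ ({1} ∪ Set.range w))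
  have h1 : (1 : ℂ) ∈ V₁ := Submodule.subset_span (Or.inr (Or.inl rfl))
  have hfg : V₁.FG := by
    have h4 : V₁ = Submodule.span K' (Set.range (fun j => (finBasis ℚ V j : ℂ)) ∪
        ({1} ∪ Set.range w)) := by
      refine le_antisymm (Submodule.span_le.2 ?_) (Submodule.span_le.2 ?_)
      · rintro x (hx | hx)
        · have h5 := congrArg (fun t : V => (t : ℂ)) ((finBasis ℚ V).sum_repr ⟨x, hx⟩)
          simp only [Submodule.coe_sum, Submodule.coe_smul] at h5
          rw [← h5]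
          refine sum_mem fun j _ => ?_
          rw [Rat.smul_def]
          have h6 : (((finBasis ℚ V).repr ⟨x, hx⟩ j : ℚ) : ℂ) * (finBasis ℚ V j : ℂ) =
              (((finBasis ℚ V).repr ⟨x, hx⟩ j : ℚ) : K') • (finBasis ℚ V j : ℂ) := by
            rw [Algebra.smul_def]
            congr 1
          rw [h6]
          exact Submodule.smul_mem _ _ (Submodule.subset_span (Or.inl ⟨j, rfl⟩))
        · exact Submodule.subset_span (Or.inr hx)
      · rintro x (⟨j, rfl⟩ | hx)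
        · exact Submodule.subset_span (Or.inl (finBasis ℚ V j).2)
        · exact Submodule.subset_span (Or.inr hx)
    rw [h4]
    exact Submodule.fg_span ((Set.finite_range _).union ((Set.finite_singleton _).union
      (Set.finite_range _)))
  have hfd : FiniteDimensional K' (V₁ ^ δ : Submodule K' ℂ) :=
    Module.Finite.iff_fg.2 (hfg.pow δ)
  obtain ⟨S, S', hS, hS', hm⟩ := main K' Λ (fun c => isAlgebraic_algebraMap
      (⟨_, hKK' _ (h2 c)⟩ : K')) (fun c => isAlgebraic_algebraMap (⟨_, hKK' _ (h3 c)⟩ : K'))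
    hni V (V₁ ^ δ) δ ty (m := m)
  refine ⟨S, S', hS, hS', fun p v hp hv hl => ?_⟩
  by_cases hrel : Rel ((V₁ ^ δ : Submodule K' ℂ) : Set ℂ) δ (vals Λ ty p v)
  · rcases hm p v hp hv hl hrel with ⟨s, hs, h⟩ | ⟨c, s, hs, h⟩
    · exact Or.inl ⟨s, hs, hK'K _ h⟩
    · refine Or.inr (Or.inl ⟨c, s, hs, ?_⟩)
      rcases h with h | h
      · exact Or.inl h
      · exact Or.inr (hK'K _ h)
  · refine Or.inr (Or.inr fun P hP hPK h0 y => ?_)
    have hcV : ∀ i, (Sum.elim w (Sum.elim p v) : I ⊕ (Fin m ⊕ Fin n) → ℂ) i ∈ V₁ := by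
      rintro (i | i | i)
      · exact Submodule.subset_span (Or.inr (Or.inr ⟨i, rfl⟩))
      · exact Submodule.subset_span (Or.inl (hp i))
      · exact Submodule.subset_span (Or.inl (hv i))
    have h4 := bd_ev h1 (Sum.elim w (Sum.elim p v)) hcV P hP (fun μ => hKK' _ (hPK μ))
    have h5 : ev (Sum.elim w (Sum.elim p v)) P = 0 := by
      by_contra hne
      refine hrel ⟨_, hne, h4.1, h4.2, ?_⟩
      rw [eval_ev]
      exact h0
    rw [← eval_ev, h5, map_zero]

end Pool.Agent.K1H83.BD
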