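import Mathlib
import Pool.Agent.K1H83.BD.Fail2
import Pool.Agent.K1H83.BD.Free

/-!
# Finitely many types of relations
-/

set_option autoImplicit false

open Filter Finset Module
open scoped PeriodPair

noncomputable section

namespace Pool.Agent.K1H83.BD

/-- restriction of an exponent -/
def rs {I J : Type} (μ : I ⊕ J →₀ ℕ) : J →₀ ℕ :=
  Finsupp.comapDomain Sum.inr μ Sum.inr_injective.injOn

theorem rs_apply {I J : Type} (μ : I ⊕ J →₀ ℕ) (j : J) : rs μ j = μ (Sum.inr j) := rfl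

theorem ev_eq {I J : Type} [Fintype I] [Fintype J] [DecidableEq I] [DecidableEq J] (c : I → ℂ)
    (P : MvPolynomial (I ⊕ J) ℂ) (E : Finset (I ⊕ J →₀ ℕ)) (hE : P.support ⊆ E) :
    ev c P = ∑ μ ∈ E, MvPolynomial.monomial (rs μ) (P.coeff μ * ∏ i, c i ^ μ (Sum.inl i)) := by
  have h1 : ev c P = ∑ μ ∈ P.support,
      MvPolynomial.monomial (rs μ) (P.coeff μ * ∏ i, c i ^ μ (Sum.inl i)) := by
    conv_lhs => rw [P.as_sum]
    unfold ev
    rw [map_sum]
    refine sum_congr rfl fun μ _ => ?_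
    rw [MvPolynomial.aeval_monomial, Finsupp.prod_fintype _ _ (fun _ => pow_zero _),
      Fintype.prod_sum_type, MvPolynomial.monomial_eq, Finsupp.prod_fintype _ _ (fun _ => pow_zero _)]
    simp only [Sum.elim_inl, Sum.elim_inr, rs_apply, MvPolynomial.algebraMap_eq, map_mul, map_prod,
      map_pow]
    ring
  rw [h1]
  refine Finset.sum_subset hE fun μ _ hμ => ?_
  rw [MvPolynomial.notMem_support_iff.1 hμ, zero_mul, map_zero]

/-- no relation over the middle field: transfer to almost all members of the sequence -/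
theorem free_seq {N : IntermediateField ℚ ℂ} (u : Up N) {M : IntermediateField ℚ ℂ} {I J : Type}
    [Fintype I] [Fintype J] [DecidableEq I] [DecidableEq J] (x : I → ℕ → N) (y : J → ℕ → N)
    (hx : ∀ i, u.c (x i) ∈ M) (hy : AlgebraicIndependent M (fun j => u.c (y j))) (δ : ℕ)
    (P : ℕ → MvPolynomial (I ⊕ J) ℂ) (hP : ∀ k, (P k).totalDegree ≤ δ)
    (c : (I ⊕ J →₀ ℕ) → ℕ → N) (hc : ∀ μ k, (c μ k : ℂ) = (P k).coeff μ) (hcM : ∀ μ, u.c (c μ) ∈ M)
    (h0 : ∀ᶠ k in (hyperfilter ℕ : Filter ℕ), MvPolynomial.eval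
      (Sum.elim (fun i => (x i k : ℂ)) (fun j => (y j k : ℂ))) (P k) = 0) :
    ∀ᶠ k in (hyperfilter ℕ : Filter ℕ), ev (fun i => (x i k : ℂ)) (P k) = 0 := by
  set E := expo (I ⊕ J) δ with hE
  have hEs : ∀ k, (P k).support ⊆ E := fun k μ hμ => mem_expo (hP k) hμ
  let C : (I ⊕ J →₀ ℕ) → ℕ → N := fun μ => c μ * ∏ i, x i ^ μ (Sum.inl i)
  have hCM : ∀ μ, u.c (C μ) ∈ M := by
    intro μ
    simp only [C, map_mul, map_prod, map_pow]
    exact mul_mem (hcM μ) (prod_mem fun i _ => pow_mem (hx i) _)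
  have hCk : ∀ μ k, (C μ k : ℂ) = (P k).coeff μ * ∏ i, (x i k : ℂ) ^ μ (Sum.inl i) := by
    intro μ k
    simp only [C]
    rw [Pi.mul_apply, Finset.prod_apply]
    push_cast
    rw [hc]
    congr 1
  let R : MvPolynomial J M := ∑ μ ∈ E, MvPolynomial.monomial (rs μ) ⟨u.c (C μ), hCM μ⟩
  have hR : MvPolynomial.aeval (fun j => u.c (y j)) R = 0 := by
    have h1 : MvPolynomial.aeval (fun j => u.c (y j)) R =
        u.c (∑ μ ∈ E, C μ * ∏ j, (y j) ^ (μ (Sum.inr j))) := by
      rw [map_sum, map_sum]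
      refine sum_congr rfl fun μ _ => ?_
      have h6 : u.c (C μ * ∏ j, (y j) ^ (μ (Sum.inr j))) =
          u.c (C μ) * ∏ j, (u.c (y j)) ^ (μ (Sum.inr j)) := by
        rw [map_mul, map_prod]
        simp only [map_pow]
      rw [MvPolynomial.aeval_monomial, h6, Finsupp.prod_fintype _ _ (fun _ => pow_zero _)]
      rfl
    rw [h1, u.zero_iff]
    filter_upwards [h0] with k hk
    refine Subtype.ext ?_
    have h5 : (∑ μ ∈ E, C μ * ∏ j, (y j) ^ (μ (Sum.inr j))) k =
        ∑ μ ∈ E, C μ k * ∏ j, (y j k) ^ (μ (Sum.inr j)) := by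
      rw [Finset.sum_apply]
      refine sum_congr rfl fun μ _ => ?_
      rw [Pi.mul_apply, Finset.prod_apply]
      rfl
    rw [h5]
    push_cast
    rw [← hk, MvPolynomial.eval_eq']
    refine Eq.trans ?_ (Finset.sum_subset (hEs k) fun μ _ hμ => by
      rw [MvPolynomial.notMem_support_iff.1 hμ, zero_mul]).symm
    refine sum_congr rfl fun μ _ => ?_
    rw [hCk, Fintype.prod_sum_type, mul_assoc]
    rfl
  have hR0 : R = 0 := (algebraicIndependent_iff.1 hy) R hR
  have h1 : ∀ ν ∈ E.image rs, ∀ᶠ k in (hyperfilter ℕ : Filter ℕ),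
      (∑ μ ∈ E, if rs μ = ν then C μ k else 0) = 0 := by
    intro ν _
    have h2 : R.coeff ν = 0 := by rw [hR0, MvPolynomial.coeff_zero]
    have h3 : ((R.coeff ν : M) : ℂ) = u.c (fun k => ∑ μ ∈ E, if rs μ = ν then C μ k else 0) := by
      have h4 : (fun k => ∑ μ ∈ E, if rs μ = ν then C μ k else 0) =
          ∑ μ ∈ E, if rs μ = ν then C μ else 0 := by
        funext k
        rw [Finset.sum_apply]
        refine sum_congr rfl fun μ _ => ?_
        split_ifs <;> rfl
      rw [h4, map_sum]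
      simp only [R, MvPolynomial.coeff_sum, MvPolynomial.coeff_monomial]
      push_cast
      refine sum_congr rfl fun μ _ => ?_
      split_ifs
      · rfl
      · rw [map_zero]
        rfl
    rw [h2] at h3
    exact (u.zero_iff _).1 h3.symm
  have h2 := (Filter.eventually_all_finset (E.image rs)).2 h1
  filter_upwards [h2] with k hk
  rw [ev_eq _ _ E (hEs k)]
  ext ν
  rw [MvPolynomial.coeff_sum, MvPolynomial.coeff_zero]
  simp only [MvPolynomial.coeff_monomial]
  by_cases hν : ν ∈ E.image rs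
  · have h4 := congrArg (fun z : N => (z : ℂ)) (hk ν hν)
    push_cast at h4
    refine Eq.trans (sum_congr rfl fun μ _ => ?_) h4
    split_ifs
    · rw [hCk]
    · rfl
  · refine sum_eq_zero fun μ hμ => ?_
    rw [if_neg]
    rintro rfl
    exact hν (Finset.mem_image_of_mem _ hμ)

end Pool.Agent.K1H83.BD
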