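import Mathlib
import Pool.Agent.K1H83.BD.Types

/-!
# Finitely many types of relations, II
-/

set_option autoImplicit false

open Filter Finset Module
open scoped PeriodPair

noncomputable section

namespace Pool.Agent.K1H83.BD

open H667R3 Pool.Agent.W245.EB
open Pool.Agent.W252
open Pool.Agent.TH813.Core Pool.Agent.TH813.Ell Pool.Agent.TH813.Core2 Pool.Agent.TH813.G

/-- coordinate vectors which form a basis modulo a subspace -/
theorem exists_coord {k : Type} [Field k] {n : ℕ} (G : Submodule k (Fin n → k)) :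
    ∃ J : Finset (Fin n), finrank k G + J.card = n ∧
      LinearIndependent k (fun j : J => G.mkQ (Pi.single (j : Fin n) 1)) := by
  classical
  obtain ⟨κ, a, ha, hspan, hind⟩ := exists_linearIndependent' k
    (fun j : Fin n => G.mkQ (Pi.single j 1))
  have hfin : Finite κ := Finite.of_injective a ha
  let _ := Fintype.ofFinite κ
  refine ⟨univ.image a, ?_, ?_⟩
  · rw [Finset.card_image_of_injective _ ha, Finset.card_univ]
    have h1 : Submodule.span k (Set.range ((fun j : Fin n => G.mkQ (Pi.single j 1)) ∘ a)) = ⊤ := by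
      rw [hspan]
      have h2 : Set.range (fun j : Fin n => G.mkQ (Pi.single j 1)) =
          G.mkQ '' Set.range (fun j : Fin n => (Pi.single j 1 : Fin n → k)) := by
        rw [← Set.range_comp]
        rfl
      rw [h2, ← Submodule.map_span]
      have h3 : Submodule.span k (Set.range (fun j : Fin n => (Pi.single j 1 : Fin n → k))) = ⊤ := by
        have := (Pi.basisFun k (Fin n)).span_eq
        convert this using 3
        funext j
        exact (Pi.basisFun_apply k (Fin n) j).symm
      rw [h3, Submodule.map_top, Submodule.range_mkQ]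
    have h2 := finrank_span_eq_card hind
    rw [h1, finrank_top] at h2
    rw [← h2]
    have h3 := Submodule.finrank_quotient_add_finrank G
    rw [finrank_fintype_fun_eq_card, Fintype.card_fin] at h3
    omega
  · have h6 : ∀ j : (univ.image a : Finset (Fin n)), ∃ x : κ, a x = j := fun j => by
      obtain ⟨x, -, hx⟩ := Finset.mem_image.1 j.2
      exact ⟨x, hx⟩
    choose f hf using h6
    have hfi : Function.Injective f := fun i j h => Subtype.ext (by rw [← hf i, ← hf j, h])
    have h7 := hind.comp f hfi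
    have h8 : (fun j : (univ.image a : Finset (Fin n)) => G.mkQ (Pi.single (j : Fin n) (1 : k))) =
        ((fun j : Fin n => G.mkQ (Pi.single j 1)) ∘ a) ∘ f := by
      funext j
      change _ = G.mkQ (Pi.single (a (f j)) 1)
      rw [hf]
    rw [h8]
    exact h7

/-- **The types of relations** of a sequence -/
theorem exp_data {K : IntermediateField ℚ ℂ} (hKc : Clo K) (hKcount : (K : Set ℂ).Countable)
    {r : ℕ} (b : Fin r → ℂ) {n : ℕ} (Q : ℕ → Fin n → Fin r → ℚ) {g : ℕ} (s : Fin g → ℂ) :
    ∃ (e : ℕ) (a : Fin e → Fin n → ℚ) (J : Finset (Fin n)), e + J.card = n ∧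
      LinearIndependent ℚ (Sum.elim a (fun j : J => (Pi.single (j : Fin n) 1 : Fin n → ℚ))) ∧
      (∃ k₀, ∀ᶠ k in (hyperfilter ℕ : Filter ℕ), ∀ i,
        ap a (fun j => cb b (Q k j)) i - ap a (fun j => cb b (Q k₀ j)) i ∈ lgM K) ∧
      ∀ (δ : ℕ) (P : ℕ → MvPolynomial ((Fin g ⊕ (Fin n ⊕ Fin e)) ⊕ J) ℂ),
        (∀ k, (P k).totalDegree ≤ δ) → (∀ k μ, (P k).coeff μ ∈ K) →
        (∀ᶠ k in (hyperfilter ℕ : Filter ℕ), MvPolynomial.eval
          (Sum.elim (Sum.elim s (zy a (fun j => cb b (Q k j))))
            (fun j : J => Complex.exp (cb b (Q k j)))) (P k) = 0) →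
        ∀ᶠ k in (hyperfilter ℕ : Filter ℕ),
          ev (Sum.elim s (zy a (fun j => cb b (Q k j)))) (P k) = 0 := by
  classical
  -- the field `N`
  set X : Set ℂ := (Set.range s ∪ Set.range fun j => Complex.exp (b j)) ∪ Set.range b with hX
  have hXf : X.Finite := ((Set.finite_range _).union (Set.finite_range _)).union
    (Set.finite_range _)
  set N : IntermediateField ℚ ℂ := cl ((K : Set ℂ) ∪ X) with hN
  have hNc : Clo N := cl_closed _
  have hNcount : (N : Set ℂ).Countable := cl_countable (hKcount.union hXf.countable)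
  have hKN : K ≤ N := fun x hx => subset_cl _ (Or.inl hx)
  have hsN : ∀ l, s l ∈ N := fun l => subset_cl _ (Or.inr (Or.inl (Or.inl ⟨l, rfl⟩)))
  have heN : ∀ j, Complex.exp (b j) ∈ N := fun j =>
    subset_cl _ (Or.inr (Or.inl (Or.inr ⟨j, rfl⟩)))
  have hbN : ∀ j, b j ∈ N := fun j => subset_cl _ (Or.inr (Or.inr ⟨j, rfl⟩))
  obtain ⟨u⟩ := exists_up N hNcount (clo_algClosed hNc)
  obtain ⟨ee, t, d, hdK, hdN, hexp⟩ := exists_bd (K := K) hXf
  have hmb : ∀ x ∈ N, x ∈ u.mb K := fun x hx => subset_cl _ (Or.inr hx)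
  have hub : ∀ x ∈ u.ult K, x ∈ u.mb K := fun x hx => subset_cl _ (Or.inl hx)
  have hqb : ∀ f : ℕ → ℚ, u.c (qc N f) ∈ u.ult K := fun f => ⟨_, fun k => K.algebraMap_mem _, rfl⟩
  -- the sequences
  have hcbN : ∀ q : Fin r → ℚ, cb b q ∈ N := fun q => by
    refine sum_mem fun j _ => mul_mem ?_ (hbN j)
    have := N.algebraMap_mem (q j)
    rwa [eq_ratCast] at this
  let p : ℕ → Fin n → ℂ := fun k j => cb b (Q k j)
  let fp : (Fin n → ℚ) → ℕ → N := fun a k => ⟨cb b (qa a (Q k)), hcbN _⟩
  let fe : (Fin n → ℚ) → ℕ → N := fun a k => ⟨Complex.exp (cb b (qa a (Q k))), exp_mem hNc heN _⟩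
  have hfp : ∀ a k, (fp a k : ℂ) = ∑ j, (a j : ℂ) * p k j := fun a k => cb_qa _ _ _
  have hfe : ∀ a k, (fe a k : ℂ) = Complex.exp (∑ j, (a j : ℂ) * p k j) := fun a k =>
    congrArg Complex.exp (cb_qa _ _ _)
  have hsing : ∀ (j : Fin n) k, ∑ i, ((Pi.single j 1 : Fin n → ℚ) i : ℂ) * p k i = p k j := by
    intro j k
    rw [Finset.sum_eq_single j]
    · rw [Pi.single_eq_same]
      simp
    · intro i _ hi
      rw [Pi.single_eq_of_ne hi]
      simp
    · simp
  -- the subspace
  let G := GG hKc p
  obtain ⟨J, hJ, hJi⟩ := exists_coord G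
  set e := finrank ℚ G with he
  let bG := finBasis ℚ G
  set m := J.card with hm
  let ψ : Fin m ≃ J := J.equivFin.symm
  -- the independent part
  have hW : AlgebraicIndependent (u.mb K) (fun j : J => u.c (fe (Pi.single (j : Fin n) 1))) := by
    let fX : Fin m ⊕ (Fin 0 ⊕ Fin 0) → ℕ → N :=
      Sum.elim (fun i => fe (Pi.single (ψ i : Fin n) 1))
        (Sum.elim (fun i => i.elim0) (fun i => i.elim0))
    have hX1 : AlgebraicIndependent (u.mb K) (fun κ => u.c (fX κ)) := by
      by_contra hdep
      rcases main_up hKc hNc hKN u t d hdK hdN hexp (q := 0) (Λ := fun c => c.elim0)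
        (fun c => c.elim0) (fun c => c.elim0) (fun c => c.elim0) b heN (fun c => c.elim0)
        (fun c => c.elim0) (m := m) (n := 0) (fun j => j.elim0)
        (fun k i => qa (Pi.single (ψ i : Fin n) 1) (Q k))
        (fun k j => j.elim0) (fun k j => j.elim0) fX (by
          rintro (i | j | j) k
          · rfl
          · exact j.elim0
          · exact j.elim0) hdep with ⟨a, ha0, k₀, hk₀⟩ | ⟨c, -⟩
      · refine ha0 ?_
        have h1 : LinearIndependent ℚ (fun i : Fin m => G.mkQ (Pi.single (ψ i : Fin n) 1)) :=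
          hJi.comp ψ ψ.injective
        have h2 : G.mkQ (∑ i, a i • (Pi.single (ψ i : Fin n) 1 : Fin n → ℚ)) = 0 := by
          rw [Submodule.mkQ_apply, Submodule.Quotient.mk_eq_zero]
          refine ⟨∑ i, (a i : ℂ) * cb b (qa (Pi.single (ψ i : Fin n) 1) (Q k₀)), ?_⟩
          filter_upwards [hk₀] with k hk
          have h1 : ∑ j, (((∑ i, a i • (Pi.single (ψ i : Fin n) 1 : Fin n → ℚ)) j : ℚ) : ℂ) *
              p k j - ∑ i, (a i : ℂ) * cb b (qa (Pi.single (ψ i : Fin n) 1) (Q k₀)) =
              ∑ i, (a i : ℂ) * (cb b (qa (Pi.single (ψ i : Fin n) 1) (Q k)) -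
              cb b (qa (Pi.single (ψ i : Fin n) 1) (Q k₀))) := by
            simp only [mul_sub, sum_sub_distrib]
            congr 1
            simp only [Finset.sum_apply, Pi.smul_apply, smul_eq_mul, Rat.cast_sum, Rat.cast_mul,
              Finset.sum_mul, cb_qa, Finset.mul_sum]
            rw [Finset.sum_comm]
            exact sum_congr rfl fun i _ => sum_congr rfl fun j _ => by
              change _ = (a i : ℂ) * (((Pi.single (ψ i : Fin n) 1 : Fin n → ℚ) j : ℂ) * p k j)
              ring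
          rw [h1]
          exact hk
        rw [map_sum] at h2
        simp only [map_smul] at h2
        funext i
        exact (Fintype.linearIndependent_iff.1 h1) a h2 i
      · exact c.elim0
    have h1 : AlgebraicIndependent (u.mb K) (fun i : Fin m => u.c (fe (Pi.single (ψ i : Fin n) 1))) :=
      hX1.comp Sum.inl Sum.inl_injective
    have h2 := h1.comp ψ.symm ψ.symm.injective
    have h3 : (fun j : J => u.c (fe (Pi.single (j : Fin n) 1))) =
        (fun i : Fin m => u.c (fe (Pi.single (ψ i : Fin n) 1))) ∘ ψ.symm := by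
      funext j
      change _ = u.c (fe (Pi.single ((ψ (ψ.symm j) : J) : Fin n) 1))
      rw [Equiv.apply_symm_apply]
    rw [h3]
    exact h2
  -- elements of the middle field
  have hfpmb : ∀ a, u.c (fp a) ∈ u.mb K := by
    intro a
    have h1 : fp a = ∑ l, qc N (fun k => qa a (Q k) l) * (fun _ => ⟨b l, hbN l⟩) := by
      funext k
      refine Subtype.ext ?_
      have h2 : (∑ l, qc N (fun k => qa a (Q k) l) * (fun _ => (⟨b l, hbN l⟩ : N)) : ℕ → N) k =
          ∑ l, qc N (fun k => qa a (Q k) l) k * (⟨b l, hbN l⟩ : N) := by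
        rw [Finset.sum_apply]
        rfl
      rw [h2]
      push_cast
      change cb b (qa a (Q k)) = _
      refine sum_congr rfl fun l _ => ?_
      rw [qc_coe]
    rw [h1, map_sum]
    refine sum_mem fun l _ => ?_
    rw [map_mul, u.const]
    exact mul_mem (hub _ (hqb _)) (hmb _ (hbN l))
  have hfemb : ∀ a ∈ G, u.c (fe a) ∈ u.mb K := by
    rintro a ⟨l, hl⟩
    obtain ⟨k₁, hk₁⟩ := hl.exists
    have h1 : ∀ᶠ k in (hyperfilter ℕ : Filter ℕ), (fe a k : ℂ) / (fe a k₁ : ℂ) ∈ K := by
      filter_upwards [hl] with k hk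
      rw [hfe, hfe, ← Complex.exp_sub]
      have h2 : ∑ j, (a j : ℂ) * p k j - ∑ j, (a j : ℂ) * p k₁ j =
          (∑ j, (a j : ℂ) * p k j - l) + ((-1 : ℚ) : ℂ) * (∑ j, (a j : ℂ) * p k₁ j - l) := by
        push_cast
        ring
      rw [h2]
      exact lgM_add hk (lgM_smul hKc hk₁ _)
    have h3 : u.c (fun k => fe a k / fe a k₁) ∈ u.ult K := by
      let f' : ℕ → N := fun k => if (fe a k : ℂ) / (fe a k₁ : ℂ) ∈ K then fe a k / fe a k₁ else 0
      refine ⟨f', fun k => ?_, ?_⟩
      · simp only [f']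
        split_ifs with h
        · exact h
        · exact zero_mem _
      · rw [u.eq_iff]
        filter_upwards [h1] with k hk
        simp only [f']
        rw [if_pos hk]
    have h4 : fe a = (fun k => fe a k / fe a k₁) * (fun _ => fe a k₁) := by
      funext k
      rw [Pi.mul_apply]
      refine (div_mul_cancel₀ _ ?_).symm
      intro h
      exact Complex.exp_ne_zero _ (congrArg Subtype.val h)
    rw [h4, map_mul, u.const]
    exact mul_mem (hub _ h3) (hmb _ (fe a k₁).2)
  let a : Fin e → Fin n → ℚ := fun i => (bG i : Fin n → ℚ)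
  refine ⟨e, a, J, hJ, ?_, ?_, ?_⟩
  · exact bG.linearIndependent.sumElim_of_quotient
      (fun j : J => (Pi.single (j : Fin n) 1 : Fin n → ℚ)) hJi
  · choose l hl using fun i : Fin e => (bG i).2
    have hl' : ∀ᶠ k in (hyperfilter ℕ : Filter ℕ), ∀ i, ap a (p k) i - l i ∈ lgM K :=
      eventually_all.2 fun i => hl i
    obtain ⟨k₀, hk₀⟩ := hl'.exists
    refine ⟨k₀, ?_⟩
    filter_upwards [hl'] with k hk
    intro i
    have h2 : ap a (p k) i - ap a (p k₀) i =
        (ap a (p k) i - l i) + ((-1 : ℚ) : ℂ) * (ap a (p k₀) i - l i) := by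
      push_cast
      ring
    change ap a (p k) i - ap a (p k₀) i ∈ lgM K
    rw [h2]
    exact lgM_add (hk i) (lgM_smul hKc (hk₀ i) _)
  · intro δ P hPd hPK h0
    let x : (Fin g ⊕ (Fin n ⊕ Fin e)) → ℕ → N := Sum.elim (fun l _ => ⟨s l, hsN l⟩)
      (Sum.elim (fun j => fp (Pi.single j 1)) (fun i => fe (a i)))
    have hx : ∀ i k, (x i k : ℂ) = Sum.elim s (zy a (p k)) i := by
      rintro (i | i | i) k
      · rfl
      · exact (hfp _ _).trans (hsing _ _)
      · exact hfe _ _
    have hy : ∀ (j : J) k, (fe (Pi.single (j : Fin n) 1) k : ℂ) = Complex.exp (p k j) := fun j k =>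
      (hfe _ _).trans (congrArg Complex.exp (hsing _ _))
    have h4 := free_seq u (M := u.mb K) x (fun j : J => fe (Pi.single (j : Fin n) 1)) (by
        rintro (i | i | i)
        · change u.c (fun _ => (⟨s i, hsN i⟩ : N)) ∈ _
          rw [u.const]
          exact hmb _ (hsN i)
        · exact hfpmb _
        · exact hfemb _ (bG i).2) hW δ P hPd
      (fun μ k => ⟨(P k).coeff μ, hKN (hPK k μ)⟩) (fun μ k => rfl)
      (fun μ => hub _ ⟨_, fun k => hPK k μ, rfl⟩) (by
        filter_upwards [h0] with k hk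
        simp only [hx, hy]
        exact hk)
    filter_upwards [h4] with k hk
    simp only [hx] at hk
    exact hk

end Pool.Agent.K1H83.BD
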