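import Mathlib
import Pool.Agent.K1H83.BD.Mid
import Pool.Agent.K1H83.BD.Types2

/-!
# The independent part, for products of the multiplicative group and elliptic curves
-/

set_option autoImplicit false

open Filter Finset Module
open scoped PeriodPair

noncomputable section

namespace Pool.Agent.K1H83.BD

open H667R3 Pool.Agent.W245.EB
open Pool.Agent.W252
open Pool.Agent.TH813.Core Pool.Agent.TH813.Ell Pool.Agent.TH813.Core2 Pool.Agent.TH813.G

variable {K : IntermediateField ℚ ℂ}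

/-- vectors supported on independent coordinates -/
theorem coord_zero {k : Type} [Field k] {n : ℕ} {G : Submodule k (Fin n → k)} {J : Finset (Fin n)}
    (hJ : LinearIndependent k (fun j : J => G.mkQ (Pi.single (j : Fin n) 1))) (w : J → k)
    (hw : ∑ j : J, w j • (Pi.single (j : Fin n) 1 : Fin n → k) ∈ G) : w = 0 := by
  have h2 : G.mkQ (∑ j : J, w j • (Pi.single (j : Fin n) 1 : Fin n → k)) = 0 := by
    rw [Submodule.mkQ_apply, Submodule.Quotient.mk_eq_zero]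
    exact hw
  rw [map_sum] at h2
  simp only [map_smul] at h2
  funext i
  exact (Fintype.linearIndependent_iff.1 hJ) w h2 i

theorem single_notMem {k : Type} [Field k] {n : ℕ} {G : Submodule k (Fin n → k)} {J : Finset (Fin n)}
    (hJ : LinearIndependent k (fun j : J => G.mkQ (Pi.single (j : Fin n) 1))) (j : J) :
    (Pi.single (j : Fin n) 1 : Fin n → k) ∉ G := by
  intro h
  refine hJ.ne_zero j ?_
  rw [Submodule.mkQ_apply, Submodule.Quotient.mk_eq_zero]
  exact h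

theorem sum_single {k : Type} [Field k] (φ : k →+* ℂ) {n : ℕ} {J : Finset (Fin n)} (w : J → k)
    (p : Fin n → ℂ) :
    ∑ i, φ ((∑ j : J, w j • (Pi.single (j : Fin n) 1 : Fin n → k)) i) * p i =
      ∑ j : J, φ (w j) * p j := by
  classical
  simp only [Finset.sum_apply, Pi.smul_apply, smul_eq_mul, map_sum, Finset.sum_mul]
  rw [Finset.sum_comm]
  refine sum_congr rfl fun j _ => ?_
  rw [Finset.sum_eq_single (j : Fin n)]
  · rw [Pi.single_eq_same, mul_one]
  · intro i _ hi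
    rw [Pi.single_eq_of_ne hi, mul_zero, map_zero, zero_mul]
  · intro h
    exact absurd (mem_univ _) h

/-- the vectors `a` such that `∑ a_j p_j` is almost constant modulo elliptic logarithms -/
def GE (L : PeriodPair) (hK : Clo K) (h2 : L.g₂ ∈ K) (h3 : L.g₃ ∈ K) {n : ℕ} (p : ℕ → Fin n → ℂ) :
    Submodule (kL L) (Fin n → kL L) := GT (KE L hK h2 h3) p

theorem mem_GE {L : PeriodPair} {hK : Clo K} {h2 : L.g₂ ∈ K} {h3 : L.g₃ ∈ K} {n : ℕ}
    {p : ℕ → Fin n → ℂ} {a : Fin n → kL L} : a ∈ GE L hK h2 h3 p ↔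
      ∃ l : ℂ, ∀ᶠ k in (hyperfilter ℕ : Filter ℕ), ∑ j, (a j : ℂ) * p k j - l ∈ lgE L K := by
  constructor
  · rintro ⟨l, hl⟩
    refine ⟨l, ?_⟩
    filter_upwards [hl] with k hk
    exact mem_lgE hK h2 h3 hk
  · rintro ⟨l, hl⟩
    refine ⟨l, ?_⟩
    filter_upwards [hl] with k hk
    exact lgE_lg hK h2 h3 hk

theorem mem_GG {hK : Clo K} {n : ℕ} {p : ℕ → Fin n → ℂ} {a : Fin n → ℚ} : a ∈ GG hK p ↔
      ∃ l : ℂ, ∀ᶠ k in (hyperfilter ℕ : Filter ℕ), ∑ j, (a j : ℂ) * p k j - l ∈ lgM K := Iff.rfl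

/-- **The independent part** -/
theorem indJ (hKc : Clo K) {N : IntermediateField ℚ ℂ} (hNc : Clo N) (hKN : K ≤ N) (u : Up N)
    {e : ℕ} (t : Fin e → ℂ) (d : Fin e → Derivation ℚ ℂ ℂ) (hdK : ∀ l, ∀ x ∈ K, d l x = 0)
    (hdN : ∀ l, ∀ x ∈ N, d l x ∈ N)
    (hexp : ∀ D : Derivation ℚ ℂ ℂ, (∀ x ∈ K, D x = 0) → ∀ z ∈ N, D z = ∑ l, D (t l) * d l z)
    {q : ℕ} {Λ : Fin q → PeriodPair}
    (h2 : ∀ c, (Λ c).g₂ ∈ K) (h3 : ∀ c, (Λ c).g₃ ∈ K)
    (hni : ∀ c c', c ≠ c' → NoHom (Λ c) (Λ c')) {r : ℕ} (b : Fin r → ℂ)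
    (heN : ∀ j, Complex.exp (b j) ∈ N) (hpN : ∀ c j, ℘[Λ c] (b j) ∈ N)
    (hzN : ∀ c j, zt (Λ c) (b j) ∈ N) {m : ℕ} {nn : Fin q → ℕ}
    (Q1 : ℕ → Fin m → Fin r → ℚ) (Q2 : ℕ → ∀ c, Fin (nn c) → Fin r → ℚ)
    (J₀ : Finset (Fin m)) (J : ∀ c, Finset (Fin (nn c)))
    (hJ₀ : LinearIndependent ℚ (fun j : J₀ =>
      (GG hKc (fun k i => cb b (Q1 k i))).mkQ (Pi.single (j : Fin m) 1)))
    (hJ : ∀ c, LinearIndependent (kL (Λ c)) (fun j : J c =>
      (GE (Λ c) hKc (h2 c) (h3 c) (fun k i => cb b (Q2 k c i))).mkQ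
        (Pi.single (j : Fin (nn c)) 1)))
    (fe : J₀ → ℕ → N) (hfe : ∀ j k, (fe j k : ℂ) = Complex.exp (cb b (Q1 k j)))
    (fx : (Σ c, J c) → ℕ → N) (hfx : ∀ j k, (fx j k : ℂ) = ℘[Λ j.1] (cb b (Q2 k j.1 j.2)))
    (fz : (Σ c, J c) → ℕ → N) (hfz : ∀ j k, (fz j k : ℂ) = zt (Λ j.1) (cb b (Q2 k j.1 j.2))) :
    AlgebraicIndependent (u.mb K) (Sum.elim (fun j => u.c (fe j))
      (Sum.elim (fun j => u.c (fx j)) (fun j => u.c (fz j)))) := by
  classical
  set m' := Fintype.card J₀ with hm'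
  let ψ₀ : Fin m' ≃ J₀ := (Fintype.equivFin J₀).symm
  set n' := Fintype.card (Σ c, J c) with hn'
  let ψ : Fin n' ≃ (Σ c, J c) := (Fintype.equivFin _).symm
  let ty : Fin n' → Fin q := fun i => (ψ i).1
  let good : ℕ → Prop := fun k => ∀ i : Fin n', ℘'[Λ (ty i)] (cb b (Q2 k (ψ i).1 (ψ i).2)) ≠ 0
  have hgood : ∀ᶠ k in (hyperfilter ℕ : Filter ℕ), good k := by
    rw [eventually_all]
    intro i
    by_contra hcon
    rw [← Ultrafilter.eventually_not] at hcon
    refine single_notMem (hJ (ψ i).1) (ψ i).2 (mem_GE.2 ⟨0, ?_⟩)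
    filter_upwards [hcon] with k hk
    rw [not_not] at hk
    have e1 : ∑ j, (((Pi.single ((ψ i).2 : Fin (nn (ψ i).1)) 1 : Fin (nn (ψ i).1) → kL (Λ (ψ i).1)) j :
        kL (Λ (ψ i).1)) : ℂ) * cb b (Q2 k (ψ i).1 j) - 0 = cb b (Q2 k (ψ i).1 (ψ i).2) := by
      rw [sub_zero, Finset.sum_eq_single ((ψ i).2 : Fin (nn (ψ i).1))]
      · rw [Pi.single_eq_same]
        simp
      · intro j _ hj
        rw [Pi.single_eq_of_ne hj]
        simp
      · intro h
        exact absurd (mem_univ _) h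
    rw [e1]
    by_cases hl : cb b (Q2 k (ψ i).1 (ψ i).2) ∈ (Λ (ψ i).1).lattice
    · exact Or.inl hl
    · right
      have h4 := (Λ (ψ i).1).derivWeierstrassP_sq _ hl
      change ℘'[Λ (ψ i).1] (cb b (Q2 k (ψ i).1 (ψ i).2)) = 0 at hk
      rw [hk] at h4
      refine mem_of_killed hKc fun D hD => ?_
      have h6 : om (Λ (ψ i).1) D (cb b (Q2 k (ψ i).1 (ψ i).2)) = 0 := by
        unfold om
        rw [hk, div_zero]
      exact (wp_killed (hD _ (h2 _)) (hD _ (h3 _)) h6 hl).1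
  obtain ⟨k₁, hk₁⟩ := hgood.exists
  let κ : ℕ → ℕ := fun k => if good k then k else k₁
  have hκ : ∀ k, good (κ k) := fun k => by
    simp only [κ]
    split_ifs with h
    · exact h
    · exact hk₁
  have hκe : ∀ᶠ k in (hyperfilter ℕ : Filter ℕ), κ k = k := by
    filter_upwards [hgood] with k hk
    simp only [κ]
    rw [if_pos hk]
  let fX : Fin m' ⊕ (Fin n' ⊕ Fin n') → ℕ → N := Sum.elim (fun i k => fe (ψ₀ i) k)
    (Sum.elim (fun i k => fx (ψ i) (κ k)) (fun i k => fz (ψ i) (κ k)))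
  have hX1 : AlgebraicIndependent (u.mb K) (fun x => u.c (fX x)) := by
    by_contra hdep
    rcases main_up hKc hNc hKN u t d hdK hdN hexp h2 h3 hni b heN hpN hzN ty
      (fun k i => Q1 k (ψ₀ i)) (fun k i => Q2 (κ k) (ψ i).1 (ψ i).2) (fun k i => hκ k i) fX (by
        rintro (i | i | i) k
        · exact hfe _ _
        · exact hfx _ _
        · exact hfz _ _) hdep with ⟨a, ha0, k₀, hk₀⟩ | ⟨c₀, a, hak, hat, ha0, k₀, hk₀⟩
    · refine ha0 ?_
      have h4 := coord_zero hJ₀ (fun j => a (ψ₀.symm j)) (mem_GG.2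
        ⟨∑ i, (a i : ℂ) * cb b (Q1 k₀ (ψ₀ i)), by
        filter_upwards [hk₀] with k hk
        have e1 := sum_single (algebraMap ℚ ℂ) (fun j : J₀ => a (ψ₀.symm j))
          (fun i => cb b (Q1 k i))
        simp only [eq_ratCast] at e1
        rw [e1]
        have e2 : ∑ j : J₀, (a (ψ₀.symm j) : ℂ) * cb b (Q1 k j) =
            ∑ i, (a i : ℂ) * cb b (Q1 k (ψ₀ i)) := by
          rw [← Equiv.sum_comp ψ₀]
          simp
        rw [e2, ← sum_sub_distrib]
        simpa only [mul_sub] using hk⟩)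
      funext i
      have h5 := congrFun h4 (ψ₀ i)
      simpa using h5
    · refine ha0 ?_
      have hsum : ∀ (k : ℕ), ∑ i, a i * cb b (Q2 k (ψ i).1 (ψ i).2) =
          ∑ j : J c₀, a (ψ.symm ⟨c₀, j⟩) * cb b (Q2 k c₀ j) := by
        intro k
        have e1 : ∑ i, a i * cb b (Q2 k (ψ i).1 (ψ i).2) =
            ∑ x : (Σ c, J c), a (ψ.symm x) * cb b (Q2 k x.1 x.2) := by
          rw [← Equiv.sum_comp ψ]
          simp
        rw [e1, Fintype.sum_sigma, Finset.sum_eq_single c₀]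
        · intro c _ hc
          refine sum_eq_zero fun j _ => ?_
          rw [hat _ (by
            change (ψ (ψ.symm ⟨c, j⟩)).1 ≠ c₀
            rw [Equiv.apply_symm_apply]
            exact hc), zero_mul]
        · intro h
          exact absurd (mem_univ _) h
      have h4 := coord_zero (hJ c₀) (fun j => (⟨a (ψ.symm ⟨c₀, j⟩), hak _⟩ : kL (Λ c₀)))
        (mem_GE.2 ⟨∑ i, a i * cb b (Q2 (κ k₀) (ψ i).1 (ψ i).2), by
        filter_upwards [hk₀, hκe] with k hk hkk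
        have e1 := sum_single (algebraMap (kL (Λ c₀)) ℂ)
          (fun j : J c₀ => (⟨a (ψ.symm ⟨c₀, j⟩), hak _⟩ : kL (Λ c₀)))
          (fun i => cb b (Q2 k c₀ i))
        have e3 : ∀ x : kL (Λ c₀), algebraMap (kL (Λ c₀)) ℂ x = x := fun _ => rfl
        simp only [e3] at e1
        rw [e1, ← hsum]
        rw [hkk] at hk
        rw [← sum_sub_distrib]
        simpa only [mul_sub] using hk⟩)
      funext i
      by_cases hi : ty i = c₀
      · subst hi
        have h5 := congrFun h4 (ψ i).2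
        have h6 := congrArg (fun x : kL (Λ (ty i)) => (x : ℂ)) h5
        have h7 : a (ψ.symm ⟨ty i, (ψ i).2⟩) = 0 := h6
        have h8 : (⟨ty i, (ψ i).2⟩ : Σ c, J c) = ψ i := rfl
        rwa [h8, Equiv.symm_apply_apply] at h7
      · exact hat i hi
  have h1 := hX1.comp (Sum.map ψ₀.symm (Sum.map ψ.symm ψ.symm))
    ((ψ₀.symm.sumCongr (ψ.symm.sumCongr ψ.symm)).injective)
  have h4 : Sum.elim (fun j => u.c (fe j)) (Sum.elim (fun j => u.c (fx j)) (fun j => u.c (fz j))) =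
      (fun x => u.c (fX x)) ∘ (Sum.map ψ₀.symm (Sum.map ψ.symm ψ.symm)) := by
    funext x
    rcases x with j | j | j
    · change u.c (fe j) = u.c (fun k => fe (ψ₀ (ψ₀.symm j)) k)
      rw [Equiv.apply_symm_apply]
    · change u.c (fx j) = u.c (fun k => fx (ψ (ψ.symm j)) (κ k))
      rw [Equiv.apply_symm_apply, u.eq_iff]
      filter_upwards [hκe] with k hk
      rw [hk]
    · change u.c (fz j) = u.c (fun k => fz (ψ (ψ.symm j)) (κ k))
      rw [Equiv.apply_symm_apply, u.eq_iff]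
      filter_upwards [hκe] with k hk
      rw [hk]
  rw [h4]
  exact h1

end Pool.Agent.K1H83.BD
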