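import Mathlib
import Pool.Agent.K1H83.BD.IndJ
import Pool.Agent.K1H83.BD.Count

/-!
# Integral bases, and closure properties
-/

set_option autoImplicit false

open Filter Finset Module
open scoped PeriodPair

noncomputable section

namespace Pool.Agent.K1H83.BD

open H667R3 Pool.Agent.W245.EB
open Pool.Agent.W252
open Pool.Agent.TH813.Core Pool.Agent.TH813.Ell Pool.Agent.TH813.Core2 Pool.Agent.TH813.G

theorem int_basisQ {n : ℕ} (G : Submodule ℚ (Fin n → ℚ)) :
    ∃ a : Fin (finrank ℚ G) → Fin n → ℤ, (∀ i, (fun j => (a i j : ℚ)) ∈ G) ∧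
      LinearIndependent ℚ (fun i j => (a i j : ℚ)) := by
  classical
  let bG := finBasis ℚ G
  have h1 : ∀ i, ∃ D : ℕ, 0 < D ∧ ∃ z : Fin n → ℤ, ∀ j, (D : ℚ) * (bG i : Fin n → ℚ) j = z j := by
    intro i
    refine ⟨∏ j, ((bG i : Fin n → ℚ) j).den, Finset.prod_pos fun j _ => Rat.pos _, ?_⟩
    have h2 : ∀ j, ∃ z : ℤ, ((∏ j, ((bG i : Fin n → ℚ) j).den : ℕ) : ℚ) *
        (bG i : Fin n → ℚ) j = z := by
      intro j
      obtain ⟨c, hc⟩ := Finset.dvd_prod_of_mem (fun j => ((bG i : Fin n → ℚ) j).den) (mem_univ j)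
      refine ⟨((bG i : Fin n → ℚ) j).num * c, ?_⟩
      have h3 : (bG i : Fin n → ℚ) j * ((bG i : Fin n → ℚ) j).den = ((bG i : Fin n → ℚ) j).num :=
        Rat.mul_den_eq_num _
      rw [hc]
      push_cast
      rw [← h3]
      ring
    choose z hz using h2
    exact ⟨z, hz⟩
  choose D hD z hz using h1
  have e1 : ∀ i, (fun j => (z i j : ℚ)) = (D i : ℚ) • (bG i : Fin n → ℚ) := fun i => by
    funext j
    rw [Pi.smul_apply, smul_eq_mul, hz]
  refine ⟨z, fun i => ?_, ?_⟩
  · rw [e1]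
    exact G.smul_mem _ (bG i).2
  · have h4 : LinearIndependent ℚ (fun i => (bG i : Fin n → ℚ)) :=
      bG.linearIndependent.map' G.subtype (Submodule.ker_subtype _)
    have h5 := h4.units_smul (fun i => Units.mk0 (D i : ℚ) (by exact_mod_cast (hD i).ne'))
    have h6 : (fun i j => (z i j : ℚ)) =
        (fun i => Units.mk0 (D i : ℚ) (by exact_mod_cast (hD i).ne')) •
          (fun i => (bG i : Fin n → ℚ)) := by
      funext i
      rw [e1 i]
      rfl
    rw [h6]
    exact h5

theorem int_basisK {L : PeriodPair} {n : ℕ} (G : Submodule (kL L) (Fin n → kL L)) :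
    ∃ a : Fin (finrank (kL L) G) → Fin n → kL L,
      (∀ i j, ∀ w ∈ L.lattice, (a i j : ℂ) * w ∈ L.lattice) ∧ (∀ i, a i ∈ G) ∧
      LinearIndependent (kL L) a := by
  classical
  let bG := finBasis (kL L) G
  have h1 : ∀ i, ∃ D : ℕ, 0 < D ∧ ∀ j, ∀ w ∈ L.lattice,
      (D * ((bG i : Fin n → kL L) j : ℂ)) * w ∈ L.lattice := by
    intro i
    choose d hd hdw using fun j => ((bG i : Fin n → kL L) j).2
    refine ⟨∏ j, d j, Finset.prod_pos fun j _ => hd j, fun j w hw => ?_⟩
    obtain ⟨c, hc⟩ := Finset.dvd_prod_of_mem d (mem_univ j)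
    rw [hc]
    have h2 := hdw j w hw
    have h3 : ((d j * c : ℕ) : ℂ) * ((bG i : Fin n → kL L) j : ℂ) * w =
        (c : ℤ) • ((d j : ℂ) * ((bG i : Fin n → kL L) j : ℂ) * w) := by
      rw [zsmul_eq_mul]
      push_cast
      ring
    rw [h3]
    exact L.lattice.smul_mem _ h2
  choose D hD hDw using h1
  have hD0 : ∀ i, (D i : kL L) ≠ 0 := fun i => by exact_mod_cast (hD i).ne'
  refine ⟨fun i => (D i : kL L) • (bG i : Fin n → kL L), fun i j w hw => ?_,
    fun i => G.smul_mem _ (bG i).2, ?_⟩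
  · have h3 : (((D i : kL L) • (bG i : Fin n → kL L)) j : ℂ) =
        D i * ((bG i : Fin n → kL L) j : ℂ) := by
      rw [Pi.smul_apply, smul_eq_mul]
      push_cast
      rfl
    rw [h3]
    exact hDw i j w hw
  · have h4 : LinearIndependent (kL L) (fun i => (bG i : Fin n → kL L)) :=
      bG.linearIndependent.map' G.subtype (Submodule.ker_subtype _)
    exact h4.units_smul (fun i => Units.mk0 (D i : kL L) (hD0 i))

variable {K N : IntermediateField ℚ ℂ} {u : Up N} {F : IntermediateField ℚ ℂ} {L : PeriodPair}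

theorem InE.cls {z : ℕ → ℂ} (h : InE u F L z) : Cls u F (fun k => ℘[L] (z k)) := by
  rcases h with h | h
  · refine (Cls.zero (u := u) (F := F)).congr ?_
    filter_upwards [h] with k hk
    exact L.weierstrassP_coe ⟨z k, hk⟩
  · exact h.1

theorem Bas.of_cls (B : Bas N F L) {z : ℕ → ℂ} (h : Cls u F (fun k => ℘[L] (z k))) :
    InE u F L z := by
  by_cases hl : ∀ᶠ k in (hyperfilter ℕ : Filter ℕ), z k ∈ L.lattice
  · exact Or.inl hl
  right
  rw [← Ultrafilter.eventually_not] at hl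
  refine ⟨h, Cls.of_pow B.hN B.hF (n := 2) two_pos ?_⟩
  have hg2 : Cls u F (fun _ => L.g₂) := Cls.const B.h2N B.h2F
  have hg3 : Cls u F (fun _ => L.g₃) := Cls.const B.h3N B.h3F
  have h9 := (((Cls.ofNat 4).mul (h.pow 3)).sub (hg2.mul h)).sub hg3
  refine h9.congr ?_
  filter_upwards [hl] with k hk
  exact L.derivWeierstrassP_sq _ hk

theorem Cls.zpow {f : ℕ → ℂ} (h : Cls u F f) (n : ℤ) : Cls u F (f ^ n) := by
  rcases n with n | n
  · rw [Int.ofNat_eq_natCast, zpow_natCast]
    exact h.pow n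
  · rw [zpow_negSucc]
    exact (h.pow _).inv

theorem Cls.exp_comb {ι : Type*} (s : Finset ι) (a : ι → ℤ) (z : ι → ℕ → ℂ)
    (h : ∀ i ∈ s, Cls u F (fun k => Complex.exp (z i k))) :
    Cls u F (fun k => Complex.exp (∑ i ∈ s, (a i : ℂ) * z i k)) := by
  classical
  induction s using Finset.induction_on with
  | empty =>
    refine (Cls.const (u := u) (F := F) (one_mem N) (one_mem F)).congr
      (Filter.Eventually.of_forall fun k => ?_)
    rw [Finset.sum_empty, Complex.exp_zero]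
  | insert i s hi ih =>
    refine (((h i (Finset.mem_insert_self _ _)).zpow (a i)).mul
      (ih fun j hj => h j (Finset.mem_insert_of_mem hj))).congr
      (Filter.Eventually.of_forall fun k => ?_)
    rw [Finset.sum_insert hi, Complex.exp_add, Complex.exp_int_mul]
    rfl

/-- exponentials of combinations which are constant modulo logarithms -/
theorem Cls.exp_mid (hKN : K ≤ N) {z : ℕ → ℂ} (hz : ∀ k, Complex.exp (z k) ∈ N) {l : ℂ}
    (hl : ∀ᶠ k in (hyperfilter ℕ : Filter ℕ), z k - l ∈ lgM K) :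
    Cls u (u.mb K) (fun k => Complex.exp (z k)) := by
  obtain ⟨k₁, hk₁⟩ := hl.exists
  have h1 : Cls u (u.mb K) (fun k => Complex.exp (z k - l)) := Cls.of_ult hKN hl
  have h2 : Cls u (u.mb K) (fun _ => Complex.exp (z k₁ - l)) := Cls.of_N (hKN hk₁)
  have h3 : Cls u (u.mb K) (fun _ => Complex.exp (z k₁)) := Cls.of_N (hz k₁)
  refine ((h1.mul h3).div h2).congr (Filter.Eventually.of_forall fun k => ?_)
  change Complex.exp (z k) = Complex.exp (z k - l) * Complex.exp (z k₁) / Complex.exp (z k₁ - l)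
  rw [← Complex.exp_add, ← Complex.exp_sub]
  congr 1
  ring

/-- rational combinations of the basis -/
theorem Cls.cb (hKN : K ≤ N) {r : ℕ} {b : Fin r → ℂ} (hbN : ∀ j, b j ∈ N) (Q : ℕ → Fin r → ℚ) :
    Cls u (u.mb K) (fun k => cb b (Q k)) := by
  have h5 : Cls u (u.mb K) (∑ j, (fun k => (Q k j : ℂ)) * (fun _ => b j)) :=
    Cls.sum _ _ fun j _ => (Cls.of_ult hKN (Filter.Eventually.of_forall fun k => by
      have := K.algebraMap_mem (Q k j)
      rwa [eq_ratCast] at this)).mul (Cls.of_N (hbN j))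
  refine h5.congr (Filter.Eventually.of_forall fun k => ?_)
  rw [Finset.sum_apply]
  rfl

end Pool.Agent.K1H83.BD
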