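import Mathlib
import Pool.Agent.K1H83.BD.IntB

/-!
# Failures in bounded degree, for products of the multiplicative group and elliptic curves
-/

set_option autoImplicit false

open Filter Finset Module
open scoped PeriodPair

noncomputable section

namespace Pool.Agent.K1H83.BD

open H667R3 Pool.Agent.W245.EB
open Pool.Agent.W252
open Pool.Agent.TH813.Core Pool.Agent.TH813.Ell Pool.Agent.TH813.Core2 Pool.Agent.TH813.G
open Pool.Agent.TH813.Rel (MK)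

/-- the indices of the coordinates of the Lie algebra of the product -/
abbrev Ci {q : ℕ} (m : ℕ) (nn : Fin q → ℕ) : Type := Fin m ⊕ (Σ c, Fin (nn c))

/-- the coordinates of a point of the Lie algebra and of its image -/
def zG {q : ℕ} (Λ : Fin q → PeriodPair) {m : ℕ} {nn : Fin q → ℕ} (x : Fin m → ℂ)
    (p : ∀ c, Fin (nn c) → ℂ) : Ci m nn ⊕ Ci m nn → ℂ :=
  Sum.elim (Sum.elim x (fun j => p j.1 j.2))
    (Sum.elim (fun i => Complex.exp (x i)) (fun j => ℘[Λ j.1] (p j.1 j.2)))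

/-- a homomorphism to another product -/
structure Hm {q : ℕ} (Λ : Fin q → PeriodPair) (m : ℕ) (nn : Fin q → ℕ) where
  /-- the dimension of the torus -/
  e₀ : ℕ
  /-- the exponents of the curves -/
  e : Fin q → ℕ
  /-- the matrix of the torus -/
  A₀ : Fin e₀ → Fin m → ℤ
  /-- the matrices of the curves -/
  A : ∀ c, Fin (e c) → Fin (nn c) → kL (Λ c)

namespace Hm

variable {q : ℕ} {Λ : Fin q → PeriodPair} {m : ℕ} {nn : Fin q → ℕ} (φ : Hm Λ m nn)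

/-- the dimension of the image -/
def dim : ℕ := φ.e₀ + ∑ c, φ.e c

/-- the map on the Lie algebras -/
def f₀ (x : Fin m → ℂ) : Fin φ.e₀ → ℂ := fun i => ∑ j, (φ.A₀ i j : ℂ) * x j

/-- the map on the Lie algebras -/
def f (p : ∀ c, Fin (nn c) → ℂ) : ∀ c, Fin (φ.e c) → ℂ := fun c i =>
  ∑ j, (φ.A c i j : ℂ) * p c j

/-- the homomorphism is defined by endomorphisms, and surjective -/
def Good : Prop := LinearIndependent ℚ (fun i j => (φ.A₀ i j : ℚ)) ∧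
  (∀ c, LinearIndependent (kL (Λ c)) (φ.A c)) ∧
  ∀ c i j, ∀ w ∈ (Λ c).lattice, (φ.A c i j : ℂ) * w ∈ (Λ c).lattice

/-- the coordinates of the point in the Lie algebra, and of the image in the quotient -/
def zY (x : Fin m → ℂ) (p : ∀ c, Fin (nn c) → ℂ) : Ci m nn ⊕ Ci φ.e₀ φ.e → ℂ :=
  Sum.elim (Sum.elim x (fun j => p j.1 j.2))
    (Sum.elim (fun i => Complex.exp (φ.f₀ x i)) (fun j => ℘[Λ j.1] (φ.f p j.1 j.2)))

end Hm

/-- **Failures in bounded degree**, for sequences -/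
theorem fail_seqG {K : IntermediateField ℚ ℂ} (hKc : Clo K) (hKcount : (K : Set ℂ).Countable)
    {q : ℕ} {Λ : Fin q → PeriodPair} (h2 : ∀ c, (Λ c).g₂ ∈ K) (h3 : ∀ c, (Λ c).g₃ ∈ K)
    (hni : ∀ c c', c ≠ c' → NoHom (Λ c) (Λ c')) {r : ℕ} (b : Fin r → ℂ) {m : ℕ} {nn : Fin q → ℕ}
    (Q1 : ℕ → Fin m → Fin r → ℚ) (Q2 : ℕ → ∀ c, Fin (nn c) → Fin r → ℚ) {g : ℕ} (s : Fin g → ℂ)
    (E : Finset (Fin (m + ∑ c, nn c) →₀ ℕ))
    (A : ℕ → (Fin (m + ∑ c, nn c) → Ci m nn ⊕ Ci m nn) → (Fin (m + ∑ c, nn c) →₀ ℕ) →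
      Fin g → ℂ)
    (hAK : ∀ k f μ l, A k f μ l ∈ K)
    (hA0 : ∀ k f, Function.Injective f → ∃ μ ∈ E, ∑ l, A k f μ l * s l ≠ 0)
    (hrel : ∀ k f, Function.Injective f → ∑ μ ∈ E, (∑ l, A k f μ l * s l) *
      ∏ i, (zG Λ (fun j => cb b (Q1 k j)) (fun c j => cb b (Q2 k c j)) (f i)) ^ (μ i) = 0) :
    ∃ φ : Hm Λ m nn, φ.Good ∧ ∃ k₀, (∀ᶠ k in (hyperfilter ℕ : Filter ℕ),
        (∀ i, φ.f₀ (fun j => cb b (Q1 k j)) i - φ.f₀ (fun j => cb b (Q1 k₀ j)) i ∈ lgM K) ∧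
        (∀ c i, φ.f (fun c j => cb b (Q2 k c j)) c i - φ.f (fun c j => cb b (Q2 k₀ c j)) c i ∈
          lgE (Λ c) K) ∧
        (MK (cl ((K : Set ℂ) ∪ Set.range s))).eRk (Set.range
          (φ.zY (fun j => cb b (Q1 k j)) (fun c j => cb b (Q2 k c j)))) < φ.dim) ∧
        (MK (cl ((K : Set ℂ) ∪ Set.range s))).eRk (Set.range
          (φ.zY (fun j => cb b (Q1 k₀ j)) (fun c j => cb b (Q2 k₀ c j)))) < φ.dim := by
  classical
  -- the field `N`
  set X : Set ℂ := ((Set.range s ∪ Set.range fun j => Complex.exp (b j)) ∪ Set.range b) ∪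
    ((Set.range fun x : Fin q × Fin r => ℘[Λ x.1] (b x.2)) ∪
      Set.range fun x : Fin q × Fin r => zt (Λ x.1) (b x.2)) with hX
  have hXf : X.Finite := (((Set.finite_range _).union (Set.finite_range _)).union
    (Set.finite_range _)).union ((Set.finite_range _).union (Set.finite_range _))
  set N : IntermediateField ℚ ℂ := cl ((K : Set ℂ) ∪ X) with hN
  have hNc : Clo N := cl_closed _
  have hNcount : (N : Set ℂ).Countable := cl_countable (hKcount.union hXf.countable)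
  have hKN : K ≤ N := fun x hx => subset_cl _ (Or.inl hx)
  have hsN : ∀ l, s l ∈ N := fun l => subset_cl _ (Or.inr (Or.inl (Or.inl (Or.inl ⟨l, rfl⟩))))
  have heN : ∀ j, Complex.exp (b j) ∈ N := fun j =>
    subset_cl _ (Or.inr (Or.inl (Or.inl (Or.inr ⟨j, rfl⟩))))
  have hbN : ∀ j, b j ∈ N := fun j => subset_cl _ (Or.inr (Or.inl (Or.inr ⟨j, rfl⟩)))
  have hpN : ∀ c j, ℘[Λ c] (b j) ∈ N := fun c j =>
    subset_cl _ (Or.inr (Or.inr (Or.inl ⟨(c, j), rfl⟩)))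
  have hzN : ∀ c j, zt (Λ c) (b j) ∈ N := fun c j =>
    subset_cl _ (Or.inr (Or.inr (Or.inr ⟨(c, j), rfl⟩)))
  have h2N : ∀ c, (Λ c).g₂ ∈ N := fun c => hKN (h2 c)
  have h3N : ∀ c, (Λ c).g₃ ∈ N := fun c => hKN (h3 c)
  obtain ⟨u⟩ := exists_up N hNcount (clo_algClosed hNc)
  obtain ⟨ee, t, d, hdK, hdN, hexp⟩ := exists_bd (K := K) hXf
  have hmb : ∀ x ∈ N, x ∈ u.mb K := fun x hx => subset_cl _ (Or.inr hx)
  have hub : ∀ x ∈ u.ult K, x ∈ u.mb K := fun x hx => subset_cl _ (Or.inl hx)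
  -- the fields
  set F' : IntermediateField ℚ ℂ := cl ((K : Set ℂ) ∪ Set.range s) with hF'
  set F₁ : IntermediateField ℚ ℂ := cl ((u.ult K : Set ℂ) ∪ Set.range s) with hF₁
  have hF₁c : Clo F₁ := cl_closed _
  have hF₁mb : F₁ ≤ u.mb K := by
    refine cl_le (cl_closed _) ?_
    rintro x (hx | ⟨l, rfl⟩)
    · exact hub x hx
    · exact hmb _ (hsN l)
  have hF'N : F' ≤ N := by
    refine cl_le hNc ?_
    rintro x (hx | ⟨l, rfl⟩)
    · exact hKN hx
    · exact hsN l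
  have hF₁F' : F₁ ≤ cl (u.ult F' : Set ℂ) := by
    refine cl_le (cl_closed _) ?_
    rintro x (⟨f, hf, rfl⟩ | ⟨l, rfl⟩)
    · exact subset_cl _ ⟨f, fun k => subset_cl _ (Or.inl (hf k)), rfl⟩
    · exact subset_cl _ (u.le_ult hF'N (subset_cl _ (Or.inr ⟨l, rfl⟩)))
  -- the sequences
  let x : ℕ → Fin m → ℂ := fun k j => cb b (Q1 k j)
  let p : ℕ → ∀ c, Fin (nn c) → ℂ := fun k c j => cb b (Q2 k c j)
  have hcbN : ∀ q : Fin r → ℚ, cb b q ∈ N := fun q => by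
    refine sum_mem fun j _ => mul_mem ?_ (hbN j)
    have := N.algebraMap_mem (q j)
    rwa [eq_ratCast] at this
  have hspan : ∀ c (q : Fin r → ℚ), cb b q ∈ Submodule.span (kL (Λ c)) (Set.range b) := by
    intro c q
    refine sum_mem fun j _ => ?_
    have h5 : (q j : ℂ) * b j = (algebraMap ℚ (kL (Λ c)) (q j)) • b j := by
      rw [Algebra.smul_def]
      rfl
    rw [h5]
    exact Submodule.smul_mem _ _ (Submodule.subset_span ⟨j, rfl⟩)
  have hspan' : ∀ c (a : Fin (nn c) → kL (Λ c)) k, ∑ j, (a j : ℂ) * p k c j ∈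
      Submodule.span (kL (Λ c)) (Set.range b) := by
    intro c a k
    refine sum_mem fun j _ => ?_
    have h5 : (a j : ℂ) * p k c j = a j • p k c j := rfl
    rw [h5]
    exact Submodule.smul_mem _ _ (hspan c _)
  have hwpN : ∀ c, ∀ z ∈ Submodule.span (kL (Λ c)) (Set.range b), ℘[Λ c] z ∈ N := by
    intro c z hz
    rcases (span_mem hNc (h2N c) (h3N c) hbN (hpN c) (hzN c) hz).2.1 with h | h
    · have : ℘[Λ c] z = 0 := (Λ c).weierstrassP_coe ⟨z, h⟩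
      rw [this]
      exact zero_mem _
    · exact h.1
  have hztN : ∀ c, ∀ z ∈ Submodule.span (kL (Λ c)) (Set.range b), zt (Λ c) z ∈ N := fun c z hz =>
    (span_mem hNc (h2N c) (h3N c) hbN (hpN c) (hzN c) hz).2.2
  have hexN : ∀ (a : Fin m → ℤ) k, Complex.exp (∑ j, (a j : ℂ) * x k j) ∈ N := by
    intro a k
    have h4 : ∑ j, (a j : ℂ) * x k j = cb b (qa (fun j => (a j : ℚ)) (Q1 k)) := by
      rw [cb_qa]
      push_cast
      rfl
    rw [h4]
    exact exp_mem hNc heN _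
  have hexN1 : ∀ (q : Fin r → ℚ), Complex.exp (cb b q) ∈ N := fun q => exp_mem hNc heN q
  -- the subspaces
  choose J hJ hJi using fun c => exists_coord
    (GE (Λ c) hKc (h2 c) (h3 c) (fun k i => cb b (Q2 k c i)))
  obtain ⟨J₀, hJ₀, hJ₀i⟩ := exists_coord (GG hKc (fun k i => cb b (Q1 k i)))
  obtain ⟨A₀, hA₀G, hA₀i⟩ := int_basisQ (GG hKc (fun k i => cb b (Q1 k i)))
  choose Ae hAem hAeG hAei using fun c => int_basisK
    (GE (Λ c) hKc (h2 c) (h3 c) (fun k i => cb b (Q2 k c i)))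
  let φ : Hm Λ m nn := ⟨_, _, A₀, Ae⟩
  have hgood : φ.Good := ⟨hA₀i, hAei, hAem⟩
  -- the independent part
  let fe : J₀ → ℕ → N := fun j k => ⟨Complex.exp (cb b (Q1 k j)), hexN1 _⟩
  let fx : (Σ c, J c) → ℕ → N := fun j k =>
    ⟨℘[Λ j.1] (cb b (Q2 k j.1 j.2)), hwpN _ _ (hspan _ _)⟩
  let fz : (Σ c, J c) → ℕ → N := fun j k =>
    ⟨zt (Λ j.1) (cb b (Q2 k j.1 j.2)), hztN _ _ (hspan _ _)⟩
  have hind := indJ hKc hNc hKN u t d hdK hdN hexp h2 h3 hni b heN hpN hzN Q1 Q2 J₀ J hJ₀i hJi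
    fe (fun j k => rfl) fx (fun j k => rfl) fz (fun j k => rfl)
  let xs : J₀ ⊕ (Σ c, J c) → ℕ → N := Sum.elim fe fx
  have hxs : AlgebraicIndependent (u.mb K) (fun j => u.c (xs j)) := by
    have h4 := hind.comp (Sum.map id Sum.inl) (by
      intro a a' haa
      rcases a with a | a <;> rcases a' with a' | a' <;> simpa using haa)
    have h5 : (fun j => u.c (xs j)) = Sum.elim (fun j => u.c (fe j))
      (Sum.elim (fun j => u.c (fx j)) (fun j => u.c (fz j))) ∘ (Sum.map id Sum.inl) := by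
      funext j
      rcases j with j | j <;> rfl
    rw [h5]
    exact h4
  -- the coordinates
  let zs : Ci m nn ⊕ Ci m nn → ℕ → N := Sum.elim
    (Sum.elim (fun j k => ⟨x k j, hcbN _⟩) (fun j k => ⟨p k j.1 j.2, hcbN _⟩))
    (Sum.elim (fun j k => ⟨Complex.exp (x k j), hexN1 _⟩)
      (fun j k => ⟨℘[Λ j.1] (p k j.1 j.2), hwpN _ _ (hspan _ _)⟩))
  have hzs : ∀ i k, (zs i k : ℂ) = zG Λ (x k) (p k) i := by
    rintro ((i | i) | (i | i)) k <;> rfl
  let ys : Ci m nn ⊕ Ci φ.e₀ φ.e → ℕ → N := Sum.elim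
    (Sum.elim (fun j k => ⟨x k j, hcbN _⟩) (fun j k => ⟨p k j.1 j.2, hcbN _⟩))
    (Sum.elim (fun i k => ⟨Complex.exp (φ.f₀ (x k) i), hexN _ _⟩)
      (fun j k => ⟨℘[Λ j.1] (φ.f (p k) j.1 j.2), hwpN _ _ (hspan' _ _ _)⟩))
  have hys : ∀ i k, (ys i k : ℂ) = φ.zY (x k) (p k) i := by
    rintro ((i | i) | (i | i)) k <;> rfl
  have hall : ∀ {f : ℕ → ℂ} {g : ℕ → N}, (∀ k, (g k : ℂ) = f k) →
      ∀ᶠ k in (hyperfilter ℕ : Filter ℕ), (g k : ℂ) = f k := fun h => Filter.Eventually.of_forall h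
  -- the middle field
  have hyM : ∀ i, u.c (ys i) ∈ u.mb K := by
    rintro ((i | i) | (i | i))
    · exact (Cls.cb hKN hbN (fun k => Q1 k i)).mem (hall fun k => rfl)
    · exact (Cls.cb hKN hbN (fun k => Q2 k i.1 i.2)).mem (hall fun k => rfl)
    · obtain ⟨l, hl⟩ := mem_GG.1 (hA₀G i)
      refine (Cls.exp_mid (u := u) hKN (z := fun k => φ.f₀ (x k) i) (fun k => hexN _ _) (l := l)
        ?_).mem (hall fun k => rfl)
      filter_upwards [hl] with k hk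
      have h5 : φ.f₀ (x k) i = ∑ j, (((A₀ i j : ℤ) : ℚ) : ℂ) * cb b (Q1 k j) := by
        change ∑ j, ((A₀ i j : ℤ) : ℂ) * cb b (Q1 k j) = _
        push_cast
        rfl
      rw [h5]
      exact hk
    · obtain ⟨l, hl⟩ := mem_GE.1 (hAeG i.1 i.2)
      refine (mid_mem (u := u) hNc hKc (h2 i.1) (h3 i.1) hKN hbN (hpN _) (hzN _)
        (z := fun k => φ.f (p k) i.1 i.2) (fun k => hspan' _ _ _) (l := l) ?_).1.cls.mem
        (hall fun k => rfl)
      filter_upwards [hl] with k hk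
      exact lgE_lg hKc (h2 _) (h3 _) hk
  -- the closure
  set Z : Set ℂ := Set.range fun i => u.c (zs i) with hZ
  set FZ : IntermediateField ℚ ℂ := cl ((F₁ : Set ℂ) ∪ Z) with hFZ
  have hzFZ : ∀ i, u.c (zs i) ∈ FZ := fun i => subset_cl _ (Or.inr ⟨i, rfl⟩)
  have hgF₁ : ∀ z ∈ K, z ∈ FZ := fun z hz => subset_cl _ (Or.inl (subset_cl _
    (Or.inl (u.le_ult hKN hz))))
  have hBas : ∀ c, Bas N FZ (Λ c) := fun c => ⟨hNc, cl_closed _, h2N c, h3N c, hgF₁ _ (h2 c),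
    hgF₁ _ (h3 c)⟩
  have hyz : ∀ i, u.c (ys i) ∈ (MK F₁).closure Z := by
    intro i
    refine closure_of_cl ?_
    rcases i with (i | i) | (i | i)
    · exact hzFZ (Sum.inl (Sum.inl i))
    · exact hzFZ (Sum.inl (Sum.inr i))
    · refine (Cls.exp_comb (u := u) (F := FZ) univ (A₀ i) (fun j k => x k j) fun j _ => ?_).mem
        (hall fun k => rfl)
      exact ⟨zs (Sum.inr (Sum.inl j)), hall fun k => rfl, hzFZ _⟩
    · refine ((hBas i.1).comb (u := u) univ (fun j => (Ae i.1 i.2 j : ℂ))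
        (fun j _ => hAem i.1 i.2 j) (fun j k => p k i.1 j) fun j _ => ?_).cls.mem
        (hall fun k => rfl)
      exact (hBas i.1).of_cls ⟨zs (Sum.inr (Sum.inr ⟨i.1, j⟩)), hall fun k => rfl, hzFZ _⟩
  have hxz : ∀ i, u.c (xs i) ∈ (MK F₁).closure Z := by
    rintro (i | i)
    · exact closure_of_cl (hzFZ (Sum.inr (Sum.inl i)))
    · exact closure_of_cl (hzFZ (Sum.inr (Sum.inr ⟨i.1, i.2⟩)))
  have hcard : φ.dim + Fintype.card (J₀ ⊕ (Σ c, J c)) = m + ∑ c, nn c := by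
    rw [Fintype.card_sum, Fintype.card_sigma]
    simp only [Fintype.card_coe]
    have e1 : φ.dim = finrank ℚ (GG hKc (fun k i => cb b (Q1 k i))) +
      ∑ c, finrank (kL (Λ c)) (GE (Λ c) hKc (h2 c) (h3 c) (fun k i => cb b (Q2 k c i))) := rfl
    have e2 : ∑ c, nn c = ∑ c, (finrank (kL (Λ c))
      (GE (Λ c) hKc (h2 c) (h3 c) (fun k i => cb b (Q2 k c i))) + (J c).card) :=
      sum_congr rfl fun c _ => (hJ c).symm
    rw [e1, e2, sum_add_distrib]
    omega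
  have hcount := count u hF₁mb hF₁F' ys xs zs hyM hxs hyz hxz hcard (fun f hf =>
    dep_of_W hKN u hsN (fun i => zs (f i)) E (fun k => A k f) (fun k μ l => hAK k f μ l)
      (fun k => hA0 k f hf) (fun k => by
        simp only [hzs]
        exact hrel k f hf))
  simp only [hys] at hcount
  -- conclusion
  choose l hl using fun i => mem_GG.1 (hA₀G i)
  choose l' hl' using fun (c : Fin q) i => mem_GE.1 (hAeG c i)
  have e0 : ∀ k i, φ.f₀ (x k) i = ∑ j, (((A₀ i j : ℤ) : ℚ) : ℂ) * cb b (Q1 k j) := by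
    intro k i
    change ∑ j, ((A₀ i j : ℤ) : ℂ) * cb b (Q1 k j) = _
    push_cast
    rfl
  have hlog : ∀ᶠ k in (hyperfilter ℕ : Filter ℕ), (∀ i, φ.f₀ (x k) i - l i ∈ lgM K) ∧
      ∀ c i, φ.f (p k) c i - l' c i ∈ lgE (Λ c) K := by
    have a1 : ∀ᶠ k in (hyperfilter ℕ : Filter ℕ), ∀ i, φ.f₀ (x k) i - l i ∈ lgM K :=
      eventually_all.2 fun i => by
        filter_upwards [hl i] with k hk
        rw [e0]
        exact hk
    have a2 : ∀ᶠ k in (hyperfilter ℕ : Filter ℕ), ∀ c i, φ.f (p k) c i - l' c i ∈ lgE (Λ c) K :=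
      eventually_all.2 fun c => eventually_all.2 fun i => hl' c i
    exact a1.and a2
  obtain ⟨k₀, ⟨hk₀, hk₀'⟩, hk₀''⟩ := (hlog.and hcount).exists
  refine ⟨φ, hgood, k₀, ?_, hk₀''⟩
  filter_upwards [hlog, hcount] with k hk hk'
  refine ⟨fun i => ?_, fun c i => ?_, hk'⟩
  · have h5 : φ.f₀ (x k) i - φ.f₀ (x k₀) i =
        (φ.f₀ (x k) i - l i) + ((-1 : ℚ) : ℂ) * (φ.f₀ (x k₀) i - l i) := by
      push_cast
      ring
    change φ.f₀ (x k) i - φ.f₀ (x k₀) i ∈ lgM K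
    rw [h5]
    exact lgM_add (hk.1 i) (lgM_smul hKc (hk₀ i) _)
  · have h5 := sub_mem (lgE_lg hKc (h2 c) (h3 c) (hk.2 c i)) (lgE_lg hKc (h2 c) (h3 c) (hk₀' c i))
    rw [sub_sub_sub_cancel_right] at h5
    exact mem_lgE hKc (h2 c) (h3 c) h5

end Pool.Agent.K1H83.BD
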