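import Mathlib
import Pool.Agent.K1H83.BD.FailG
import Pool.Agent.K1H83.BD.Main4

/-!
# Failures in bounded degree, for products of the multiplicative group and elliptic curves, II
-/

set_option autoImplicit false

open Filter Finset Module
open scoped PeriodPair

noncomputable section

namespace Pool.Agent.K1H83.BD

open H667R3 Pool.Agent.W245.EB
open Pool.Agent.W252
open Pool.Agent.TH813.Core Pool.Agent.TH813.Ell Pool.Agent.TH813.Core2 Pool.Agent.TH813.G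
open Pool.Agent.TH813.Rel (MK)

instance hm_countable {q : ℕ} {Λ : Fin q → PeriodPair} {m : ℕ} {nn : Fin q → ℕ} :
    Countable (Hm Λ m nn) := by
  have hkc : ∀ c, Countable (kL (Λ c)) := fun c => by
    have h4 : (kL (Λ c) : Set ℂ) ⊆ cl (∅ : Set ℂ) := fun x hx =>
      mem_of_killed (cl_closed _) fun D _ => der_kL D hx
    exact ((cl_countable Set.countable_empty).mono h4).to_subtype
  let S := Σ e₀ : ℕ, Σ e : Fin q → ℕ, (Fin e₀ → Fin m → ℤ) ×
    (∀ c, Fin (e c) → Fin (nn c) → kL (Λ c))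
  have : Countable S := inferInstance
  let f : Hm Λ m nn → S := fun φ => ⟨φ.e₀, φ.e, φ.A₀, φ.A⟩
  refine Function.Injective.countable (f := f) fun φ ψ h => ?_
  obtain ⟨a, b, c, d⟩ := φ
  obtain ⟨a', b', c', d'⟩ := ψ
  simp only [f] at h
  cases h
  rfl

/-- `trdeg F(x, p, exp(φ(x, p)))` is smaller than the dimension of the image of `φ` -/
def ThrG (F : IntermediateField ℚ ℂ) {q : ℕ} {Λ : Fin q → PeriodPair} {m : ℕ} {nn : Fin q → ℕ}
    (φ : Hm Λ m nn) (x : Fin m → ℂ) (p : ∀ c, Fin (nn c) → ℂ) : Prop :=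
  Algebra.trdeg F (IntermediateField.adjoin F (Set.range (φ.zY x p))) < (φ.dim : Cardinal)

/-- no nontrivial combination is a logarithm -/
def IndG (K : IntermediateField ℚ ℂ) {q : ℕ} (Λ : Fin q → PeriodPair) {m : ℕ} {nn : Fin q → ℕ}
    (x : Fin m → ℂ) (p : ∀ c, Fin (nn c) → ℂ) : Prop :=
  (∀ a : Fin m → ℤ, a ≠ 0 → ¬ LgM K (∑ j, (a j : ℂ) * x j)) ∧
    ∀ c, ∀ a : Fin (nn c) → kL (Λ c), a ≠ 0 → ¬ LgE (Λ c) K (∑ j, (a j : ℂ) * p c j)

theorem thrG_of {F F' : IntermediateField ℚ ℂ} (hF : F' ≤ cl (F : Set ℂ)) {q : ℕ}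
    {Λ : Fin q → PeriodPair} {m : ℕ} {nn : Fin q → ℕ}
    {φ : Hm Λ m nn} {x : Fin m → ℂ} {p : ∀ c, Fin (nn c) → ℂ}
    (h : (MK F').eRk (Set.range (φ.zY x p)) < φ.dim) : ThrG F φ x p := by
  classical
  unfold ThrG
  rw [Pool.Agent.TH813.Rel.lt_iff]
  by_contra hcon
  exact absurd (rk_mono hF _ (not_lt.1 hcon)) (not_le.2 h)

/-- **Finitely many failures of bounded degree modulo logarithms.** -/
theorem main6 (K : IntermediateField ℚ ℂ) {q : ℕ} (Λ : Fin q → PeriodPair)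
    (h2 : ∀ c, IsAlgebraic K (Λ c).g₂) (h3 : ∀ c, IsAlgebraic K (Λ c).g₃)
    (hni : ∀ c c', c ≠ c' → NoHom (Λ c) (Λ c')) (V : Submodule ℚ ℂ) [FiniteDimensional ℚ V]
    (W : Submodule K ℂ) [FiniteDimensional K W] (δ m : ℕ) (nn : Fin q → ℕ) :
    ∃ Φ : Set (Hm Λ m nn × (Fin m → ℂ) × (∀ c, Fin (nn c) → ℂ)), Φ.Finite ∧
      (∀ φ ∈ Φ, φ.1.Good ∧ (∀ i, φ.2.1 i ∈ V) ∧ (∀ c j, φ.2.2 c j ∈ V) ∧
        IndG K Λ φ.2.1 φ.2.2 ∧
        ThrG (IntermediateField.adjoin ℚ ((K : Set ℂ) ∪ (W : Set ℂ))) φ.1 φ.2.1 φ.2.2) ∧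
      ∀ (x : Fin m → ℂ) (p : ∀ c, Fin (nn c) → ℂ), (∀ i, x i ∈ V) → (∀ c j, p c j ∈ V) →
        IndG K Λ x p →
        (∀ f : Fin (m + ∑ c, nn c) → Ci m nn ⊕ Ci m nn, Function.Injective f →
          Rel (W : Set ℂ) δ (fun i => zG Λ x p (f i))) →
        ∃ φ ∈ Φ, ThrG (IntermediateField.adjoin ℚ ((K : Set ℂ) ∪ (W : Set ℂ))) φ.1 x p ∧
          (∀ i, LgM K (φ.1.f₀ x i - φ.1.f₀ φ.2.1 i)) ∧
          ∀ c i, LgE (Λ c) K (φ.1.f p c i - φ.1.f φ.2.2 c i) := by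
  classical
  set KW : IntermediateField ℚ ℂ := IntermediateField.adjoin ℚ ((K : Set ℂ) ∪ (W : Set ℂ)) with hKW
  -- bases
  let r := finrank ℚ V
  let bV := finBasis ℚ V
  let b : Fin r → ℂ := fun j => (bV j : ℂ)
  have hbV : ∀ Q : Fin r → ℚ, cb b Q ∈ V := fun Q => by
    refine sum_mem fun j _ => ?_
    rw [← Rat.smul_def]
    exact V.smul_mem _ (bV j).2
  have hVb : ∀ x ∈ V, ∃ Q : Fin r → ℚ, cb b Q = x := fun x hx => by
    refine ⟨fun j => bV.repr ⟨x, hx⟩ j, ?_⟩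
    have h4 := congrArg (fun t : V => (t : ℂ)) (bV.sum_repr ⟨x, hx⟩)
    simp only [Submodule.coe_sum, Submodule.coe_smul] at h4
    refine Eq.trans (sum_congr rfl fun j _ => ?_) h4
    rw [Rat.smul_def]
  let g := finrank K W
  let bW := finBasis K W
  let s : Fin g → ℂ := fun l => (bW l : ℂ)
  have hWs : ∀ x ∈ W, ∃ a : Fin g → ℂ, (∀ l, a l ∈ K) ∧ ∑ l, a l * s l = x := fun x hx => by
    refine ⟨fun l => (bW.repr ⟨x, hx⟩ l : K), fun l => (bW.repr ⟨x, hx⟩ l).2, ?_⟩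
    have h4 := congrArg (fun t : W => (t : ℂ)) (bW.sum_repr ⟨x, hx⟩)
    simp only [Submodule.coe_sum, Submodule.coe_smul] at h4
    refine Eq.trans (sum_congr rfl fun j _ => ?_) h4
    rfl
  -- the conditions
  set D := m + ∑ c, nn c with hD
  let 𝒞 := Hm Λ m nn × (Fin m → Fin r → ℚ) × (∀ c, Fin (nn c) → Fin r → ℚ)
  have hC : Countable 𝒞 := inferInstance
  let x₁ : 𝒞 → Fin m → ℂ := fun C j => cb b (C.2.1 j)
  let p₁ : 𝒞 → ∀ c, Fin (nn c) → ℂ := fun C c j => cb b (C.2.2 c j)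
  let vv : 𝒞 → Hm Λ m nn × (Fin m → ℂ) × (∀ c, Fin (nn c) → ℂ) := fun C => ⟨C.1, x₁ C, p₁ C⟩
  let Ok : 𝒞 → Prop := fun C => C.1.Good ∧ IndG K Λ (x₁ C) (p₁ C) ∧ ThrG KW C.1 (x₁ C) (p₁ C)
  let Good : 𝒞 → (Fin m → ℂ) → (∀ c, Fin (nn c) → ℂ) → Prop := fun C x p =>
    ThrG KW C.1 x p ∧ (∀ i, LgM K (C.1.f₀ x i - C.1.f₀ (x₁ C) i)) ∧
      ∀ c i, LgE (Λ c) K (C.1.f p c i - C.1.f (p₁ C) c i)
  suffices hmain : ∃ F : Finset 𝒞, (∀ C ∈ F, Ok C) ∧
      ∀ (x : Fin m → ℂ) (p : ∀ c, Fin (nn c) → ℂ), (∀ i, x i ∈ V) → (∀ c j, p c j ∈ V) →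
        IndG K Λ x p →
        (∀ f : Fin D → Ci m nn ⊕ Ci m nn, Function.Injective f →
          Rel (W : Set ℂ) δ (fun i => zG Λ x p (f i))) →
        ∃ C ∈ F, Good C x p by
    obtain ⟨F, hF, hFm⟩ := hmain
    refine ⟨vv '' (F : Set 𝒞), F.finite_toSet.image vv, ?_, ?_⟩
    · rintro _ ⟨C, hC, rfl⟩
      exact ⟨(hF C hC).1, fun i => hbV _, fun c j => hbV _, (hF C hC).2.1, (hF C hC).2.2⟩
    · intro x p hx hp hi hrel
      obtain ⟨C, hC, hCg⟩ := hFm x p hx hp hi hrel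
      exact ⟨vv C, ⟨C, hC, rfl⟩, hCg⟩
  by_contra hno
  push Not at hno
  obtain ⟨enc⟩ : Nonempty (Encodable 𝒞) := ⟨Encodable.ofCountable 𝒞⟩
  let FF : ℕ → Finset 𝒞 := fun k =>
    (((Finset.range (k + 1)).image fun i => (Encodable.decode i : Option 𝒞)).eraseNone).filter Ok
  have hFF : ∀ k, ∀ C ∈ FF k, Ok C := fun k C hC => (Finset.mem_filter.1 hC).2
  choose X P hX hP hPi hrel hgood using fun k => hno (FF k) (hFF k)
  have hmem : ∀ C : 𝒞, Ok C → ∀ k, Encodable.encode C ≤ k → C ∈ FF k := by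
    intro C hC k hk
    rw [Finset.mem_filter]
    refine ⟨?_, hC⟩
    rw [Finset.mem_eraseNone, Finset.mem_image]
    exact ⟨Encodable.encode C, by rw [Finset.mem_range]; omega, Encodable.encodek C⟩
  choose Q1 hQ1 using fun k i => hVb _ (hX k i)
  choose Q2 hQ2 using fun k c j => hVb _ (hP k c j)
  choose PP hPP0 hPPd hPPW hPPe using hrel
  let A : ℕ → (Fin D → Ci m nn ⊕ Ci m nn) → (Fin D →₀ ℕ) → Fin g → ℂ := fun k f μ l =>
    if hf : Function.Injective f then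
      (if μ ∈ expo (Fin D) δ then Classical.choose (hWs _ (hPPW k f hf μ)) l else 0) else 0
  have hAK : ∀ k f μ l, A k f μ l ∈ K := by
    intro k f μ l
    simp only [A]
    split_ifs with hf hμ
    · exact (Classical.choose_spec (hWs _ (hPPW k f hf μ))).1 l
    · exact zero_mem _
    · exact zero_mem _
  have hAs : ∀ k f (hf : Function.Injective f) μ, μ ∈ expo (Fin D) δ →
      ∑ l, A k f μ l * s l = (PP k f hf).coeff μ := by
    intro k f hf μ hμ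
    simp only [A, dif_pos hf, if_pos hμ]
    exact (Classical.choose_spec (hWs _ (hPPW k f hf μ))).2
  -- the countable field
  let S₀ : Set ℂ := (Set.range fun c => (Λ c).g₂) ∪ ((Set.range fun c => (Λ c).g₃) ∪
    ⋃ k : ℕ, ⋃ f : Fin D → Ci m nn ⊕ Ci m nn,
    ⋃ μ ∈ (expo (Fin D) δ : Finset (Fin D →₀ ℕ)), Set.range (A k f μ))
  have hS₀c : S₀.Countable := by
    refine (Set.countable_range _).union ((Set.countable_range _).union ?_)
    refine Set.countable_iUnion fun k => Set.countable_iUnion fun f => ?_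
    refine (Finset.countable_toSet _).biUnion fun μ _ => Set.countable_range _
  have hS₀a : ∀ x ∈ S₀, IsAlgebraic K x := by
    rintro x (⟨c, rfl⟩ | ⟨c, rfl⟩ | hx)
    · exact h2 c
    · exact h3 c
    · rw [Set.mem_iUnion] at hx
      obtain ⟨k, hx⟩ := hx
      rw [Set.mem_iUnion] at hx
      obtain ⟨f, hx⟩ := hx
      rw [Set.mem_iUnion₂] at hx
      obtain ⟨μ, -, l, rfl⟩ := hx
      exact isAlgebraic_algebraMap (⟨_, hAK k f μ l⟩ : K)
  set K' := cl S₀ with hK'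
  have hAK' : ∀ k f μ l, A k f μ l ∈ K' := by
    intro k f μ l
    by_cases hμ : μ ∈ expo (Fin D) δ
    · refine subset_cl _ (Or.inr (Or.inr ?_))
      rw [Set.mem_iUnion]
      refine ⟨k, ?_⟩
      rw [Set.mem_iUnion]
      refine ⟨f, ?_⟩
      rw [Set.mem_iUnion₂]
      exact ⟨μ, hμ, l, rfl⟩
    · have : A k f μ l = 0 := by
        simp only [A, if_neg hμ]
        split_ifs <;> rfl
      rw [this]
      exact zero_mem _
  have hQX : ∀ k, (fun j => cb b (Q1 k j)) = X k := fun k => funext fun j => hQ1 k j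
  have hQP : ∀ k, (fun c j => cb b (Q2 k c j)) = P k := fun k =>
    funext fun c => funext fun j => hQ2 k c j
  obtain ⟨φ, hφ, k₀, hk, hk₀⟩ := fail_seqG (cl_closed S₀) (cl_countable hS₀c)
    (fun c => subset_cl _ (Or.inl ⟨c, rfl⟩)) (fun c => subset_cl _ (Or.inr (Or.inl ⟨c, rfl⟩)))
    hni b Q1 Q2 s (expo (Fin D) δ) A hAK'
    (by
      intro k f hf
      obtain ⟨μ, hμ⟩ := MvPolynomial.ne_zero_iff.1 (hPP0 k f hf)
      have hμE : μ ∈ expo (Fin D) δ := mem_expo (hPPd k f hf) (MvPolynomial.mem_support_iff.2 hμ)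
      refine ⟨μ, hμE, ?_⟩
      rw [hAs k f hf μ hμE]
      exact hμ)
    (by
      intro k f hf
      have h4 := hPPe k f hf
      rw [MvPolynomial.eval_eq'] at h4
      rw [hQX k, hQP k]
      refine Eq.trans ?_ h4
      rw [sum_congr rfl fun μ hμ => by rw [hAs k f hf μ hμ]]
      refine (Finset.sum_subset (fun μ hμ => mem_expo (hPPd k f hf) hμ) fun μ _ hμ => ?_).symm
      rw [MvPolynomial.notMem_support_iff.1 hμ, zero_mul])
  have hF' : cl ((cl S₀ : Set ℂ) ∪ Set.range s) ≤ cl (KW : Set ℂ) := by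
    refine cl_le (cl_closed _) ?_
    rintro x (hx | ⟨l, rfl⟩)
    · refine (cl_le (cl_closed _) (fun y hy => ?_) : cl S₀ ≤ cl (KW : Set ℂ)) hx
      have h4 := hS₀a y hy
      exact cl_closed _ y (alg_of_subset _ (fun r => subset_cl _
        (IntermediateField.subset_adjoin ℚ _ (Or.inl r.2))) (algebraMap K ℂ).injective h4)
    · exact subset_cl _ (IntermediateField.subset_adjoin ℚ _ (Or.inr (bW l).2))
  let C₀ : 𝒞 := ⟨φ, Q1 k₀, Q2 k₀⟩
  have hx₁ : x₁ C₀ = X k₀ := hQX k₀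
  have hp₁ : p₁ C₀ = P k₀ := hQP k₀
  have hOk : Ok C₀ := by
    refine ⟨hφ, ?_, ?_⟩
    · rw [hx₁, hp₁]
      exact hPi k₀
    · rw [hx₁, hp₁]
      rw [hQX, hQP] at hk₀
      exact thrG_of hF' hk₀
  have h4 : ∀ᶠ k in (hyperfilter ℕ : Filter ℕ), Encodable.encode C₀ ≤ k :=
    Filter.Tendsto.eventually (f := id) (Filter.tendsto_id.mono_left
      (by rw [← Nat.cofinite_eq_atTop]; exact Filter.hyperfilter_le_cofinite) :
      Filter.Tendsto id (hyperfilter ℕ : Filter ℕ) Filter.atTop)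
      (Filter.eventually_ge_atTop _)
  obtain ⟨k, ⟨hk1, hk2, hk3⟩, hk4⟩ := (hk.and h4).exists
  refine hgood k C₀ (hmem C₀ hOk k hk4) ⟨?_, ?_, ?_⟩
  · rw [hQX, hQP] at hk3
    exact thrG_of hF' hk3
  · intro i
    have h5 := hk1 i
    change LgM K (φ.f₀ (X k) i - φ.f₀ (x₁ C₀) i)
    rw [hx₁]
    rw [hQX, hQX] at h5
    exact alg_of_cl hS₀a h5
  · intro c i
    have h5 := hk2 c i
    change LgE (Λ c) K (φ.f (P k) c i - φ.f (p₁ C₀) c i)
    rw [hp₁]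
    rw [hQP, hQP] at h5
    rcases h5 with h5 | h5
    · exact Or.inl h5
    · exact Or.inr (alg_of_cl hS₀a h5)

end Pool.Agent.K1H83.BD
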