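import Mathlib
import Pool.Agent.K1H83.BD.Conv

/-!
# Minimal failures
-/

set_option autoImplicit false

open Filter Finset Module
open scoped PeriodPair

noncomputable section

namespace Pool.Agent.K1H83.BD

theorem lg_comb {K : IntermediateField ℚ ℂ} {ι : Type} [Fintype ι] (q : ι → ℚ) (w : ι → ℂ)
    (h : ∀ i, LgM K (w i)) : LgM K (∑ i, (q i : ℂ) * w i) := by
  classical
  have hK : ∀ i, w i ∈ lgM (cl (K : Set ℂ)) := fun i => cl_closed _ _
    (alg_of_subset _ (fun r => subset_cl _ r.2) (algebraMap K ℂ).injective (h i))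
  have h1 : ∑ i, (q i : ℂ) * w i ∈ lgM (cl (K : Set ℂ)) := by
    refine Finset.sum_induction _ (fun x => x ∈ lgM (cl (K : Set ℂ))) (fun x y => lgM_add) ?_
      fun i _ => lgM_smul (cl_closed _) (hK i) _
    change Complex.exp 0 ∈ cl (K : Set ℂ)
    rw [Complex.exp_zero]
    exact one_mem _
  exact alg_of_cl (K := K) (S := (K : Set ℂ)) (fun y hy => isAlgebraic_algebraMap (⟨y, hy⟩ : K)) h1

/-- a class from a square matrix -/
theorem class_of_sq {K : IntermediateField ℚ ℂ} (V : Submodule ℚ ℂ) {e n : ℕ} (hen : e = n)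
    (A : Fin e → Fin n → ℚ) (hA : LinearIndependent ℚ A) (v : Fin e → ℂ) (hv : ∀ i, v i ∈ V) :
    ∃ t : Fin n → ℂ, (∀ j, t j ∈ V) ∧ ∀ p : Fin n → ℂ, (∀ i, LgM K (ap A p i - v i)) →
      ∀ j, LgM K (p j - t j) := by
  classical
  have hspan : Submodule.span ℚ (Set.range A) = ⊤ := by
    refine Submodule.eq_top_of_finrank_eq ?_
    rw [finrank_span_eq_card hA, Fintype.card_fin, finrank_fintype_fun_eq_card, Fintype.card_fin]
    exact hen
  have hrow : ∀ j : Fin n, ∃ x : Fin e → ℚ, ∑ i, x i • A i = Pi.single j 1 := fun j => by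
    have h1 : (Pi.single j 1 : Fin n → ℚ) ∈ Submodule.span ℚ (Set.range A) := by
      rw [hspan]
      exact Submodule.mem_top
    exact (Submodule.mem_span_range_iff_exists_fun ℚ).1 h1
  choose x hx using hrow
  refine ⟨fun j => ∑ i, (x j i : ℂ) * v i, fun j => ?_, fun p hp j => ?_⟩
  · refine sum_mem fun i _ => ?_
    rw [← Rat.smul_def]
    exact V.smul_mem _ (hv i)
  · have h1 : p j - ∑ i, (x j i : ℂ) * v i = ∑ i, (x j i : ℂ) * (ap A p i - v i) := by
      have h4 : p j = ∑ l, (((Pi.single j 1 : Fin n → ℚ) l : ℚ) : ℂ) * p l := by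
        rw [Finset.sum_eq_single j]
        · rw [Pi.single_eq_same]
          simp
        · intro i _ hi
          rw [Pi.single_eq_of_ne hi]
          simp
        · simp
      simp only [mul_sub, sum_sub_distrib]
      congr 1
      rw [h4, ← hx]
      unfold ap
      simp only [Finset.sum_apply, Pi.smul_apply, smul_eq_mul, Rat.cast_sum, Rat.cast_mul,
        Finset.sum_mul, Finset.mul_sum]
      rw [Finset.sum_comm]
      exact sum_congr rfl fun i _ => sum_congr rfl fun l _ => by ring
    rw [h1]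
    exact lg_comb _ _ hp

end Pool.Agent.K1H83.BD
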