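import Mathlib
import Pool.Agent.K1H83.BD.Main6
import Pool.Agent.K1H83.BD.Minim

/-!
# Minimal failures, for products of the multiplicative group and elliptic curves
-/

set_option autoImplicit false

open Filter Finset Module
open scoped PeriodPair

noncomputable section

namespace Pool.Agent.K1H83.BD

open H667R3 Pool.Agent.W245.EB
open Pool.Agent.W252
open Pool.Agent.TH813.Core Pool.Agent.TH813.Ell Pool.Agent.TH813.Core2 Pool.Agent.TH813.G
open Pool.Agent.TH813.Rel (MK)

theorem lgE_comb {K : IntermediateField ℚ ℂ} {L : PeriodPair} (h2 : IsAlgebraic K L.g₂)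
    (h3 : IsAlgebraic K L.g₃) {ι : Type} [Fintype ι] (c : ι → kL L) (w : ι → ℂ)
    (h : ∀ i, LgE L K (w i)) : LgE L K (∑ i, (c i : ℂ) * w i) := by
  have hKK' : ∀ x, IsAlgebraic K x → x ∈ cl (K : Set ℂ) := fun x hx => cl_closed _ x
    (alg_of_subset _ (fun r => subset_cl _ r.2) (algebraMap K ℂ).injective hx)
  have h1 : ∑ i, (c i : ℂ) * w i ∈ (KE L (cl_closed (K : Set ℂ)) (hKK' _ h2) (hKK' _ h3)).lg := by
    refine sum_mem fun i _ => ?_
    have h4 : (c i : ℂ) * w i = c i • w i := rfl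
    rw [h4]
    refine Submodule.smul_mem _ _ (lgE_lg _ _ _ ?_)
    rcases h i with h5 | h5
    · exact Or.inl h5
    · exact Or.inr (hKK' _ h5)
  rcases mem_lgE (cl_closed _) (hKK' _ h2) (hKK' _ h3) h1 with h4 | h4
  · exact Or.inl h4
  · exact Or.inr (alg_of_cl (K := K) (S := (K : Set ℂ))
      (fun y hy => isAlgebraic_algebraMap (⟨y, hy⟩ : K)) h4)

variable {q : ℕ} {Λ : Fin q → PeriodPair} {m : ℕ} {nn : Fin q → ℕ}

/-- the image of a failure -/
theorem ThrG.defect {F : IntermediateField ℚ ℂ} {φ : Hm Λ m nn} {x : Fin m → ℂ}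
    {p : ∀ c, Fin (nn c) → ℂ} (h : ThrG F φ x p) :
    Algebra.trdeg F (IntermediateField.adjoin F (Set.range (zG Λ (φ.f₀ x) (φ.f p)))) <
      (φ.dim : Cardinal) := by
  classical
  unfold ThrG at h
  rw [Pool.Agent.TH813.Rel.lt_iff] at h ⊢
  refine lt_of_le_of_lt (Pool.Agent.TH813.Rel.rk_le_of_subset_cl ?_) h
  rintro _ ⟨(i | i) | (i | i), rfl⟩
  · change ∑ j, (φ.A₀ i j : ℂ) * x j ∈ _
    refine Finset.sum_induction _ (fun z => z ∈ (MK F).closure (Set.range (φ.zY x p)))
      (fun z y hz hy => Pool.Agent.TH813.Rel.cl_add hz hy) ?_ fun j _ => ?_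
    · exact Pool.Agent.TH813.Rel.cl_of_base _ (0 : F)
    · refine Pool.Agent.TH813.Rel.cl_mul ?_
        (Pool.Agent.TH813.Rel.subset_cl _ ⟨Sum.inl (Sum.inl j), rfl⟩)
      have := Pool.Agent.TH813.Rel.cl_of_base (Set.range (φ.zY x p)) ((φ.A₀ i j : ℤ) : F)
      rwa [map_intCast] at this
  · change ∑ j, (φ.A i.1 i.2 j : ℂ) * p i.1 j ∈ _
    refine Finset.sum_induction _ (fun z => z ∈ (MK F).closure (Set.range (φ.zY x p)))
      (fun z y hz hy => Pool.Agent.TH813.Rel.cl_add hz hy) ?_ fun j _ => ?_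
    · exact Pool.Agent.TH813.Rel.cl_of_base _ (0 : F)
    · refine Pool.Agent.TH813.Rel.cl_mul ?_
        (Pool.Agent.TH813.Rel.subset_cl _ ⟨Sum.inl (Sum.inr ⟨i.1, j⟩), rfl⟩)
      have h4 : (φ.A i.1 i.2 j : ℂ) ∈ cl ((F : Set ℂ) ∪ Set.range (φ.zY x p)) :=
        mem_of_killed (cl_closed _) fun D _ => der_kL D (φ.A i.1 i.2 j).2
      exact closure_of_cl h4
  · exact Pool.Agent.TH813.Rel.subset_cl _ ⟨Sum.inr (Sum.inl i), rfl⟩
  · exact Pool.Agent.TH813.Rel.subset_cl _ ⟨Sum.inr (Sum.inr i), rfl⟩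

/-- combinations of independent tuples are independent -/
theorem IndG.map {K : IntermediateField ℚ ℂ} {φ : Hm Λ m nn} (hφ : φ.Good) {x : Fin m → ℂ}
    {p : ∀ c, Fin (nn c) → ℂ} (h : IndG K Λ x p) : IndG K Λ (φ.f₀ x) (φ.f p) := by
  classical
  refine ⟨fun a ha => ?_, fun c a ha => ?_⟩
  · have h1 : ∑ i, (a i : ℂ) * φ.f₀ x i = ∑ j, ((∑ i, a i * φ.A₀ i j : ℤ) : ℂ) * x j := by
      unfold Hm.f₀
      simp only [Finset.mul_sum]
      rw [Finset.sum_comm]
      refine sum_congr rfl fun j _ => ?_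
      push_cast
      rw [Finset.sum_mul]
      exact sum_congr rfl fun i _ => by ring
    rw [h1]
    refine h.1 _ fun h4 => ha ?_
    have h5 := (Fintype.linearIndependent_iff.1 hφ.1) (fun i => (a i : ℚ)) (by
      funext j
      have h6 := congrFun h4 j
      have h7 := congrArg (fun z : ℤ => (z : ℚ)) h6
      push_cast at h7
      rw [Finset.sum_apply]
      exact h7)
    funext i
    have := h5 i
    exact_mod_cast this
  · have h1 : ∑ i, (a i : ℂ) * φ.f p c i =
        ∑ j, ((∑ i, a i * φ.A c i j : kL (Λ c)) : ℂ) * p c j := by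
      unfold Hm.f
      simp only [Finset.mul_sum]
      rw [Finset.sum_comm]
      refine sum_congr rfl fun j _ => ?_
      push_cast
      rw [Finset.sum_mul]
      exact sum_congr rfl fun i _ => by ring
    rw [h1]
    refine h.2 c _ fun h4 => ha ?_
    have h5 := (Fintype.linearIndependent_iff.1 (hφ.2.1 c)) a (by
      funext j
      have h6 := congrFun h4 j
      rw [Finset.sum_apply]
      exact h6)
    funext i
    exact h5 i

theorem span_rows {k : Type} [Field k] {e n : ℕ} (hen : e = n) (a : Fin e → Fin n → k)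
    (ha : LinearIndependent k a) (j : Fin n) : ∃ y : Fin e → k, ∑ i, y i • a i = Pi.single j 1 := by
  classical
  have h1 : Submodule.span k (Set.range a) = ⊤ :=
    ha.span_eq_top_of_card_eq_finrank' (by rw [finrank_fintype_fun_eq_card]; simp [hen])
  have h4 : (Pi.single j 1 : Fin n → k) ∈ Submodule.span k (Set.range a) := by
    rw [h1]
    trivial
  exact (Submodule.mem_span_range_iff_exists_fun k).1 h4

theorem dims {φ : Hm Λ m nn} (hφ : φ.Good) : φ.e₀ ≤ m ∧ ∀ c, φ.e c ≤ nn c := by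
  refine ⟨?_, fun c => ?_⟩
  · have := hφ.1.fintype_card_le_finrank
    rwa [Fintype.card_fin, finrank_fintype_fun_eq_card, Fintype.card_fin] at this
  · have := (hφ.2.1 c).fintype_card_le_finrank
    rwa [Fintype.card_fin, finrank_fintype_fun_eq_card, Fintype.card_fin] at this

theorem dims_le {φ : Hm Λ m nn} (hφ : φ.Good) : φ.dim ≤ m + ∑ c, nn c := by
  obtain ⟨h1, h2⟩ := dims hφ
  exact Nat.add_le_add h1 (Finset.sum_le_sum fun c _ => h2 c)

theorem dims_eq {φ : Hm Λ m nn} (hφ : φ.Good) (h : φ.dim = m + ∑ c, nn c) :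
    φ.e₀ = m ∧ ∀ c, φ.e c = nn c := by
  obtain ⟨h1, h2⟩ := dims hφ
  have h3 : ∑ c, φ.e c ≤ ∑ c, nn c := Finset.sum_le_sum fun c _ => h2 c
  have h4 : φ.dim = φ.e₀ + ∑ c, φ.e c := rfl
  have h5 : φ.e₀ = m := by omega
  have h6 : ∑ c, φ.e c = ∑ c, nn c := by omega
  exact ⟨h5, fun c => (Finset.sum_eq_sum_iff_of_le fun c _ => h2 c).1 h6 c (mem_univ c)⟩

/-- the case of dimension zero of the kernel -/
theorem logs_of_sq {K : IntermediateField ℚ ℂ} (h2 : ∀ c, IsAlgebraic K (Λ c).g₂)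
    (h3 : ∀ c, IsAlgebraic K (Λ c).g₃) {φ : Hm Λ m nn} (hφ : φ.Good)
    (h : φ.dim = m + ∑ c, nn c) {x s : Fin m → ℂ} {p t : ∀ c, Fin (nn c) → ℂ}
    (hx : ∀ i, LgM K (φ.f₀ x i - φ.f₀ s i)) (hp : ∀ c i, LgE (Λ c) K (φ.f p c i - φ.f t c i)) :
    (∀ i, LgM K (x i - s i)) ∧ ∀ c j, LgE (Λ c) K (p c j - t c j) := by
  classical
  obtain ⟨e1, e2⟩ := dims_eq hφ h
  refine ⟨fun j => ?_, fun c j => ?_⟩
  · obtain ⟨y, hy⟩ := span_rows e1 _ hφ.1 j
    have h4 : ∀ x : Fin m → ℂ, ∑ i, (y i : ℂ) * φ.f₀ x i = x j := by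
      intro x
      unfold Hm.f₀
      simp only [Finset.mul_sum]
      rw [Finset.sum_comm]
      have h5 : ∀ l, ∑ i, (y i : ℂ) * ((φ.A₀ i l : ℂ) * x l) =
          (((Pi.single j 1 : Fin m → ℚ) l : ℚ) : ℂ) * x l := by
        intro l
        rw [← hy, Finset.sum_apply]
        push_cast
        rw [Finset.sum_mul]
        refine sum_congr rfl fun i _ => ?_
        rw [Pi.smul_apply, smul_eq_mul]
        push_cast
        ring
      rw [sum_congr rfl fun l _ => h5 l, Finset.sum_eq_single j]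
      · rw [Pi.single_eq_same]
        simp
      · intro i _ hi
        rw [Pi.single_eq_of_ne hi]
        simp
      · intro h
        exact absurd (mem_univ _) h
    have h5 := lg_comb y _ hx
    simp only [mul_sub, sum_sub_distrib] at h5
    rwa [h4, h4] at h5
  · obtain ⟨y, hy⟩ := span_rows (e2 c) _ (hφ.2.1 c) j
    have h4 : ∀ p : ∀ c, Fin (nn c) → ℂ, ∑ i, (y i : ℂ) * φ.f p c i = p c j := by
      intro p
      unfold Hm.f
      simp only [Finset.mul_sum]
      rw [Finset.sum_comm]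
      have h5 : ∀ l, ∑ i, (y i : ℂ) * ((φ.A c i l : ℂ) * p c l) =
          (((Pi.single j 1 : Fin (nn c) → kL (Λ c)) l : kL (Λ c)) : ℂ) * p c l := by
        intro l
        rw [← hy, Finset.sum_apply]
        push_cast
        rw [Finset.sum_mul]
        refine sum_congr rfl fun i _ => ?_
        rw [Pi.smul_apply, smul_eq_mul]
        push_cast
        ring
      rw [sum_congr rfl fun l _ => h5 l, Finset.sum_eq_single j]
      · rw [Pi.single_eq_same]
        simp
      · intro i _ hi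
        rw [Pi.single_eq_of_ne hi]
        simp
      · intro h
        exact absurd (mem_univ _) h
    have h5 := lgE_comb (h2 c) (h3 c) y _ (hp c)
    simp only [mul_sub, sum_sub_distrib] at h5
    rwa [h4, h4] at h5

end Pool.Agent.K1H83.BD
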