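import Mathlib
import Pool.Agent.K1H83.BD.Minim2
import Pool.Agent.K1H83.BD.Types2

/-!
# Failures and their degrees, for products of the multiplicative group and elliptic curves
-/

set_option autoImplicit false

open Filter Finset Module
open scoped PeriodPair

noncomputable section

namespace Pool.Agent.K1H83.BD

open H667R3 Pool.Agent.W245.EB
open Pool.Agent.W252
open Pool.Agent.TH813.Core Pool.Agent.TH813.Ell Pool.Agent.TH813.Core2 Pool.Agent.TH813.G
open Pool.Agent.TH813.Rel (MK)

/-- a small rank is given by relations of some degree -/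
theorem rk_iff_rel (F : IntermediateField ℚ ℂ) {J : Type} [Fintype J] [DecidableEq J] (Z : J → ℂ)
    (n : ℕ) : (MK F).eRk (Set.range Z) < n ↔ ∃ δ : ℕ, ∀ f : Fin n → J, Function.Injective f →
      Rel (F : Set ℂ) δ (fun i => Z (f i)) := by
  classical
  constructor
  · intro h
    have h1 : ∀ f : Fin n → J, ∃ P : MvPolynomial (Fin n) ℂ, Function.Injective f →
        P ≠ 0 ∧ (∀ μ, P.coeff μ ∈ (F : Set ℂ)) ∧
          MvPolynomial.eval (fun i => Z (f i)) P = 0 := by
      intro f
      by_cases hf : Function.Injective f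
      · have h2 : ¬ AlgebraicIndependent F (fun i => Z (f i)) := by
          intro hi
          refine absurd h (not_lt.2 (Matroid.le_eRk_iff.2
            ⟨Set.range fun i => Z (f i), ?_, ?_, ?_⟩))
          · rintro _ ⟨i, rfl⟩
            exact ⟨_, rfl⟩
          · rw [AlgebraicIndependent.matroid_indep_iff]
            exact hi.coe_range
          · rw [← Set.image_univ, hi.injective.encard_image, Set.encard_univ,
              ENat.card_eq_coe_fintype_card, Fintype.card_fin]
        rw [algebraicIndependent_iff] at h2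
        push Not at h2
        obtain ⟨P, hP, hP0⟩ := h2
        refine ⟨P.map (algebraMap F ℂ), fun _ => ⟨?_, fun μ => ?_, ?_⟩⟩
        · intro h3
          exact hP0 ((MvPolynomial.map_injective _ (algebraMap F ℂ).injective) (by
            rw [h3, map_zero]))
        · rw [MvPolynomial.coeff_map]
          exact (P.coeff μ).2
        · rw [MvPolynomial.eval_map]
          exact hP
      · exact ⟨0, fun h => absurd h hf⟩
    choose P hP using h1
    refine ⟨∑ f, (P f).totalDegree, fun f hf => ⟨P f, (hP f hf).1, ?_, (hP f hf).2.1,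
      (hP f hf).2.2⟩⟩
    exact Finset.single_le_sum (f := fun f => (P f).totalDegree) (fun _ _ => Nat.zero_le _)
      (mem_univ f)
  · rintro ⟨δ, h⟩
    by_contra hcon
    obtain ⟨g, hg, hi⟩ := exists_of_le _ (not_lt.1 hcon)
    obtain ⟨P, hP, -, hPF, hP0⟩ := h g hg
    have h1 : P ∈ Set.range (MvPolynomial.map (σ := Fin n) (algebraMap F ℂ)) := by
      rw [MvPolynomial.mem_range_map_iff_coeffs_subset]
      intro x hx
      obtain ⟨μ, -, rfl⟩ := MvPolynomial.mem_coeffs_iff.1 hx
      exact ⟨⟨_, hPF μ⟩, rfl⟩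
    obtain ⟨R, rfl⟩ := h1
    rw [MvPolynomial.eval_map] at hP0
    have h2 := (algebraicIndependent_iff.1 hi) R hP0
    rw [h2, map_zero] at hP
    exact hP rfl

/-- coordinates which complete the rows of a matrix -/
theorem coord_comb {k : Type} [Field k] {e n : ℕ} (a : Fin e → Fin n → k)
    (ha : LinearIndependent k a) : ∃ J : Finset (Fin n), e + J.card = n ∧ ∀ i, ∃ y : Fin e ⊕ J → k,
      ∑ κ, y κ • (Sum.elim a (fun j : J => (Pi.single (j : Fin n) 1 : Fin n → k)) κ) =
        Pi.single i 1 := by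
  classical
  set G := Submodule.span k (Set.range a) with hG
  obtain ⟨J, hJ, hJi⟩ := exists_coord G
  have he : finrank k G = e := by
    rw [hG, finrank_span_eq_card ha, Fintype.card_fin]
  rw [he] at hJ
  refine ⟨J, hJ, fun i => ?_⟩
  have h1 := (linearIndependent_span ha).sumElim_of_quotient
    (fun j : J => (Pi.single (j : Fin n) 1 : Fin n → k)) hJi
  have h2 : LinearIndependent k (Sum.elim a (fun j : J => (Pi.single (j : Fin n) 1 : Fin n → k))) :=
    h1
  have h3 : Submodule.span k (Set.range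
      (Sum.elim a (fun j : J => (Pi.single (j : Fin n) 1 : Fin n → k)))) = ⊤ :=
    h2.span_eq_top_of_card_eq_finrank' (by
      rw [finrank_fintype_fun_eq_card, Fintype.card_sum, Fintype.card_fin, Fintype.card_fin,
        Fintype.card_coe]
      exact hJ)
  have h4 : (Pi.single i 1 : Fin n → k) ∈ Submodule.span k (Set.range
      (Sum.elim a (fun j : J => (Pi.single (j : Fin n) 1 : Fin n → k)))) := by
    rw [h3]
    trivial
  exact (Submodule.mem_span_range_iff_exists_fun k).1 h4

theorem coord_pt {k : Type} [Field k] (φ : k →+* ℂ) {e n : ℕ} (a : Fin e → Fin n → k)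
    {J : Finset (Fin n)} {i : Fin n} {y : Fin e ⊕ J → k}
    (hy : ∑ κ, y κ • (Sum.elim a (fun j : J => (Pi.single (j : Fin n) 1 : Fin n → k)) κ) =
      Pi.single i 1) (p : Fin n → ℂ) :
    p i = ∑ κ, φ (y κ) * Sum.elim (fun l => ∑ j, φ (a l j) * p j) (fun j : J => p j) κ := by
  classical
  have h4 : p i = ∑ l, φ ((Pi.single i 1 : Fin n → k) l) * p l := by
    rw [Finset.sum_eq_single i]
    · rw [Pi.single_eq_same]
      simp
    · intro j _ hj
      rw [Pi.single_eq_of_ne hj]
      simp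
    · simp
  rw [h4, ← hy]
  simp only [Finset.sum_apply, Pi.smul_apply, smul_eq_mul, map_sum, map_mul, Finset.sum_mul]
  rw [Finset.sum_comm]
  refine sum_congr rfl fun κ _ => ?_
  rcases κ with l | j
  · simp only [Sum.elim_inl, Finset.mul_sum]
    exact sum_congr rfl fun j _ => by ring
  · simp only [Sum.elim_inr]
    rw [Finset.sum_eq_single (j : Fin n)]
    · rw [Pi.single_eq_same]
      simp
    · intro l _ hl
      rw [Pi.single_eq_of_ne hl]
      simp
    · simp

variable {q : ℕ} {Λ : Fin q → PeriodPair} {m : ℕ} {nn : Fin q → ℕ}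

/-- a tuple which fails through a homomorphism fails -/
theorem ThrG.fails {F : IntermediateField ℚ ℂ} (h2 : ∀ c, IsAlgebraic F (Λ c).g₂)
    (h3 : ∀ c, IsAlgebraic F (Λ c).g₃) {φ : Hm Λ m nn} (hφ : φ.Good) {x : Fin m → ℂ}
    {p : ∀ c, Fin (nn c) → ℂ} (h : ThrG F φ x p) :
    Algebra.trdeg F (IntermediateField.adjoin F (Set.range (zG Λ x p))) <
      ((m + ∑ c, nn c : ℕ) : Cardinal) := by
  classical
  unfold ThrG at h
  rw [Pool.Agent.TH813.Rel.lt_iff] at h ⊢
  obtain ⟨J₀, hJ₀, hy₀⟩ := coord_comb _ hφ.1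
  choose J hJ hy using fun c => coord_comb _ (hφ.2.1 c)
  let T : Set ℂ := Set.range (Sum.elim (fun j : J₀ => Complex.exp (x j))
    (fun j : (Σ c, J c) => ℘[Λ j.1] (p j.1 j.2)))
  set E : IntermediateField ℚ ℂ := cl ((F : Set ℂ) ∪ (Set.range (φ.zY x p) ∪ T)) with hE
  have hEc : Clo E := cl_closed _
  have hFE : ∀ z, IsAlgebraic F z → z ∈ E := fun z hz => hEc z
    (alg_of_subset _ (fun r => subset_cl _ (Or.inl r.2)) (algebraMap F ℂ).injective hz)
  have hYE : ∀ i, φ.zY x p i ∈ E := fun i => subset_cl _ (Or.inr (Or.inl ⟨i, rfl⟩))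
  have hTE : ∀ i, (Sum.elim (fun j : J₀ => Complex.exp (x j))
    (fun j : (Σ c, J c) => ℘[Λ j.1] (p j.1 j.2))) i ∈ E := fun i =>
      subset_cl _ (Or.inr (Or.inr ⟨i, rfl⟩))
  have hsub : Set.range (zG Λ x p) ⊆ (MK F).closure (Set.range (φ.zY x p) ∪ T) := by
    rintro _ ⟨i, rfl⟩
    refine closure_of_cl ?_
    change _ ∈ E
    rcases i with (i | i) | (i | i)
    · exact hYE (Sum.inl (Sum.inl i))
    · exact hYE (Sum.inl (Sum.inr i))
    · refine mem_of_killed hEc fun D hD => ?_
      change D (Complex.exp (x i)) = 0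
      obtain ⟨y, hy⟩ := hy₀ i
      have e1 := coord_pt (algebraMap ℚ ℂ) _ hy x
      rw [← dlog_eq_zero, e1]
      have h4 := (KM E).sum hD univ (fun κ => (algebraMap ℚ ℂ) (y κ))
        (fun κ => (⊥ : IntermediateField ℚ ℂ).algebraMap_mem (y κ))
        (Sum.elim (fun l => ∑ j, (algebraMap ℚ ℂ) (φ.A₀ l j : ℚ) * x j) (fun j : J₀ => x j))
      refine h4.trans (sum_eq_zero fun κ _ => ?_)
      refine mul_eq_zero_of_right _ (dlog_eq_zero.2 ?_)
      rcases κ with l | j
      · have h5 : D (φ.zY x p (Sum.inr (Sum.inl l))) = 0 := hD _ (hYE _)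
        simp only [Sum.elim_inl, eq_ratCast, Rat.cast_intCast]
        exact h5
      · exact hD _ (hTE (Sum.inl j))
    · obtain ⟨c, i⟩ := i
      change ℘[Λ c] (p c i) ∈ E
      by_cases hl : p c i ∈ (Λ c).lattice
      · have : ℘[Λ c] (p c i) = 0 := (Λ c).weierstrassP_coe ⟨_, hl⟩
        rw [this]
        exact zero_mem _
      refine mem_of_killed hEc fun D hD => ?_
      have hD2 : D (Λ c).g₂ = 0 := hD _ (hFE _ (h2 c))
      have hD3 : D (Λ c).g₃ = 0 := hD _ (hFE _ (h3 c))
      refine (wp_killed hD2 hD3 ?_ hl).1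
      obtain ⟨y, hy⟩ := hy c i
      have e1 := coord_pt (algebraMap (kL (Λ c)) ℂ) _ hy (p c)
      rw [e1]
      have h4 := (KE (Λ c) hEc (hFE _ (h2 c)) (hFE _ (h3 c))).sum hD univ
        (fun κ => (algebraMap (kL (Λ c)) ℂ) (y κ)) (fun κ => (y κ).2)
        (Sum.elim (fun l => ∑ j, (algebraMap (kL (Λ c)) ℂ) (φ.A c l j) * p c j)
          (fun j : J c => p c j))
      refine h4.trans (sum_eq_zero fun κ _ => ?_)
      refine mul_eq_zero_of_right _ ?_
      rcases κ with l | j
      · exact om_kill (hD _ (hYE (Sum.inr (Sum.inr ⟨c, l⟩))))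
      · exact om_kill (hD _ (hTE (Sum.inr ⟨c, j⟩)))
  have h4 := Pool.Agent.TH813.Rel.rk_le_of_subset_cl hsub
  have h5 := (MK F).eRk_union_le_eRk_add_encard (Set.range (φ.zY x p)) T
  set M := J₀.card + ∑ c, (J c).card with hM
  have hT : T.encard ≤ M := by
    have h6 := Set.encard_image_le (Sum.elim (fun j : J₀ => Complex.exp (x j))
      (fun j : (Σ c, J c) => ℘[Λ j.1] (p j.1 j.2))) Set.univ
    rw [Set.image_univ, Set.encard_univ, ENat.card_eq_coe_fintype_card, Fintype.card_sum,
      Fintype.card_sigma] at h6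
    simp only [Fintype.card_coe] at h6
    exact h6
  have hsum : φ.dim + M = m + ∑ c, nn c := by
    have e2 : ∑ c, nn c = ∑ c, (φ.e c + (J c).card) := sum_congr rfl fun c _ => (hJ c).symm
    have e1 : φ.dim = φ.e₀ + ∑ c, φ.e c := rfl
    rw [e1, e2, sum_add_distrib]
    omega
  have h6 : (MK F).eRk (Set.range (φ.zY x p)) + 1 ≤ φ.dim := Order.add_one_le_of_lt h
  have h7 : (MK F).eRk (Set.range (zG Λ x p)) + 1 ≤ ((m + ∑ c, nn c : ℕ) : ℕ∞) := by
    calc (MK F).eRk (Set.range (zG Λ x p)) + 1 ≤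
          ((MK F).eRk (Set.range (φ.zY x p)) + T.encard) + 1 := by
          gcongr
          exact h4.trans h5
      _ ≤ ((MK F).eRk (Set.range (φ.zY x p)) + M) + 1 := by gcongr
      _ = ((MK F).eRk (Set.range (φ.zY x p)) + 1) + M := by ring
      _ ≤ φ.dim + M := by gcongr
      _ = ((m + ∑ c, nn c : ℕ) : ℕ∞) := by rw [← hsum]; push_cast; rfl
  refine lt_of_lt_of_le ?_ h7
  refine ENat.lt_add_one_iff ?_ |>.2 le_rfl
  intro htop
  rw [htop] at h7
  exact absurd h7 (by simp)

end Pool.Agent.K1H83.BD
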