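import Mathlib
import Pool.Agent.K1H83.BD.IntB

/-!
# Failures in bounded degree, for one elliptic curve, with the zeta function
-/

set_option autoImplicit false

open Filter Finset Module
open scoped PeriodPair

noncomputable section

namespace Pool.Agent.K1H83.BD

open H667R3 Pool.Agent.W245.EB
open Pool.Agent.W252
open Pool.Agent.TH813.Core Pool.Agent.TH813.Ell Pool.Agent.TH813.Core2 Pool.Agent.TH813.G
open Pool.Agent.TH813.Rel (MK)

/-- `ζ` of combinations -/
theorem Bas.zt_comb {N F : IntermediateField ℚ ℂ} {L : PeriodPair} (B : Bas N F L) (u : Up N)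
    {ι : Type*} (s : Finset ι) (a : ι → ℂ) (ha : ∀ i ∈ s, ∀ w ∈ L.lattice, a i * w ∈ L.lattice)
    (z : ι → ℕ → ℂ) (h : ∀ i ∈ s, InE u F L (z i)) (h0 : ∀ i ∈ s, Cls u F (z i))
    (hz : ∀ i ∈ s, Cls u F (ztS L (z i))) :
    Cls u F (ztS L (fun k => ∑ i ∈ s, a i * z i k)) := by
  classical
  induction s using Finset.induction_on with
  | empty =>
    refine (Cls.zero (u := u) (F := F)).congr (Filter.Eventually.of_forall fun k => ?_)
    change zt L (∑ i ∈ (∅ : Finset ι), a i * z i k) = 0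
    rw [Finset.sum_empty, zt_zero]
  | insert i s hi ih =>
    have hi' := Finset.mem_insert_self i s
    have h1 := ih (fun j hj => ha j (Finset.mem_insert_of_mem hj))
      (fun j hj => h j (Finset.mem_insert_of_mem hj))
      (fun j hj => h0 j (Finset.mem_insert_of_mem hj))
      (fun j hj => hz j (Finset.mem_insert_of_mem hj))
    have h2 : Cls u F (ztS L (fun k => a i * z i k)) := by
      by_cases hα : a i = 0
      · refine (Cls.zero (u := u) (F := F)).congr (Filter.Eventually.of_forall fun k => ?_)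
        change zt L (a i * z i k) = 0
        rw [hα, zero_mul, zt_zero]
      · obtain ⟨m, κ, hκ, hm⟩ := B.zt_mul u hα (ha i hi')
        have h3 := hm (z i) (h i hi')
        have hαQ : Cls u F (fun _ => a i) := B.alg (alg_of_mul (ha i hi'))
        have hmQ : Cls u F (fun _ => (m : ℂ)) :=
          Cls.const (natCast_mem N m) (natCast_mem F m)
        refine (h3.add (((hmQ.div hαQ).mul (hz i hi')).add (hκ.mul (h0 i hi')))).congr
          (Filter.Eventually.of_forall fun k => ?_)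
        change zt L (a i * z i k) = zt L (a i * z i k) - (m / a i * zt L (z i k) + κ * z i k) +
          (m / a i * zt L (z i k) + κ * z i k)
        ring
    have h3 := B.zt_add (B.mul (ha i hi') (h i hi'))
      (B.comb s a (fun j hj => ha j (Finset.mem_insert_of_mem hj)) z
        (fun j hj => h j (Finset.mem_insert_of_mem hj)))
    refine ((h3.add h2).add h1).congr (Filter.Eventually.of_forall fun k => ?_)
    change zt L (∑ j ∈ insert i s, a j * z j k) =
      zt L (a i * z i k + ∑ j ∈ s, a j * z j k) - zt L (a i * z i k) -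
        zt L (∑ j ∈ s, a j * z j k) + zt L (a i * z i k) + zt L (∑ j ∈ s, a j * z j k)
    rw [Finset.sum_insert hi]
    ring

/-- the numbers `p`, `℘(p)`, `ζ(p)` -/
def zZ (L : PeriodPair) {n : ℕ} (p : Fin n → ℂ) : Fin n ⊕ (Fin n ⊕ Fin n) → ℂ :=
  Sum.elim p (Sum.elim (fun i => ℘[L] (p i)) (fun i => zt L (p i)))

/-- the numbers `∑ a_ij p_j` -/
def apk {L : PeriodPair} {e n : ℕ} (a : Fin e → Fin n → kL L) (p : Fin n → ℂ) : Fin e → ℂ :=
  fun i => ∑ j, (a i j : ℂ) * p j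

/-- the numbers `p`, `℘(a p)`, `ζ(a p)` -/
def zW {L : PeriodPair} {e n : ℕ} (a : Fin e → Fin n → kL L) (p : Fin n → ℂ) :
    Fin n ⊕ (Fin e ⊕ Fin e) → ℂ :=
  Sum.elim p (Sum.elim (fun i => ℘[L] (apk a p i)) (fun i => zt L (apk a p i)))

/-- **Failures in bounded degree**, for sequences -/
theorem fail_seqZ {K : IntermediateField ℚ ℂ} (hKc : Clo K) (hKcount : (K : Set ℂ).Countable)
    {L : PeriodPair} (h2 : L.g₂ ∈ K) (h3 : L.g₃ ∈ K) {r : ℕ} (b : Fin r → ℂ) {n : ℕ}
    (Q : ℕ → Fin n → Fin r → ℚ) {g : ℕ} (s : Fin g → ℂ) (t : ℕ)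
    (E : Finset (Fin (2 * n - t) →₀ ℕ))
    (A : ℕ → (Fin (2 * n - t) → Fin n ⊕ (Fin n ⊕ Fin n)) → (Fin (2 * n - t) →₀ ℕ) → Fin g → ℂ)
    (hAK : ∀ k f μ l, A k f μ l ∈ K)
    (hA0 : ∀ k f, Function.Injective f → ∃ μ ∈ E, ∑ l, A k f μ l * s l ≠ 0)
    (hrel : ∀ k f, Function.Injective f → ∑ μ ∈ E, (∑ l, A k f μ l * s l) *
      ∏ i, (zZ L (fun j => cb b (Q k j)) (f i)) ^ (μ i) = 0) :
    ∃ (e : ℕ) (a : Fin e → Fin n → kL L), (∀ i j, ∀ w ∈ L.lattice, (a i j : ℂ) * w ∈ L.lattice) ∧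
      LinearIndependent (kL L) a ∧ ∃ k₀, (∀ᶠ k in (hyperfilter ℕ : Filter ℕ),
        (∀ i, apk a (fun j => cb b (Q k j)) i - apk a (fun j => cb b (Q k₀ j)) i ∈ lgE L K) ∧
        (MK (cl ((K : Set ℂ) ∪ Set.range s))).eRk (Set.range
          (zW a (fun j => cb b (Q k j)))) < (2 * e - t : ℕ)) ∧
        (MK (cl ((K : Set ℂ) ∪ Set.range s))).eRk (Set.range
          (zW a (fun j => cb b (Q k₀ j)))) < (2 * e - t : ℕ) := by
  classical
  -- the field `N`
  set X : Set ℂ := ((Set.range s ∪ Set.range fun j => Complex.exp (b j)) ∪ Set.range b) ∪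
    ((Set.range fun x : Fin r => ℘[L] (b x)) ∪ Set.range fun x : Fin r => zt L (b x)) with hX
  have hXf : X.Finite := (((Set.finite_range _).union (Set.finite_range _)).union
    (Set.finite_range _)).union ((Set.finite_range _).union (Set.finite_range _))
  set N : IntermediateField ℚ ℂ := cl ((K : Set ℂ) ∪ X) with hN
  have hNc : Clo N := cl_closed _
  have hNcount : (N : Set ℂ).Countable := cl_countable (hKcount.union hXf.countable)
  have hKN : K ≤ N := fun x hx => subset_cl _ (Or.inl hx)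
  have hsN : ∀ l, s l ∈ N := fun l => subset_cl _ (Or.inr (Or.inl (Or.inl (Or.inl ⟨l, rfl⟩))))
  have heN : ∀ j, Complex.exp (b j) ∈ N := fun j =>
    subset_cl _ (Or.inr (Or.inl (Or.inl (Or.inr ⟨j, rfl⟩))))
  have hbN : ∀ j, b j ∈ N := fun j => subset_cl _ (Or.inr (Or.inl (Or.inr ⟨j, rfl⟩)))
  have hpN : ∀ j, ℘[L] (b j) ∈ N := fun j =>
    subset_cl _ (Or.inr (Or.inr (Or.inl ⟨j, rfl⟩)))
  have hzN : ∀ j, zt L (b j) ∈ N := fun j =>
    subset_cl _ (Or.inr (Or.inr (Or.inr ⟨j, rfl⟩)))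
  have h2N : L.g₂ ∈ N := hKN h2
  have h3N : L.g₃ ∈ N := hKN h3
  obtain ⟨u⟩ := exists_up N hNcount (clo_algClosed hNc)
  obtain ⟨ee, τ, d, hdK, hdN, hexp⟩ := exists_bd (K := K) hXf
  have hmb : ∀ x ∈ N, x ∈ u.mb K := fun x hx => subset_cl _ (Or.inr hx)
  have hub : ∀ x ∈ u.ult K, x ∈ u.mb K := fun x hx => subset_cl _ (Or.inl hx)
  -- the fields
  set F' : IntermediateField ℚ ℂ := cl ((K : Set ℂ) ∪ Set.range s) with hF'
  set F₁ : IntermediateField ℚ ℂ := cl ((u.ult K : Set ℂ) ∪ Set.range s) with hF₁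
  have hF₁c : Clo F₁ := cl_closed _
  have hF₁mb : F₁ ≤ u.mb K := by
    refine cl_le (cl_closed _) ?_
    rintro x (hx | ⟨l, rfl⟩)
    · exact hub x hx
    · exact hmb _ (hsN l)
  have hF'N : F' ≤ N := by
    refine cl_le hNc ?_
    rintro x (hx | ⟨l, rfl⟩)
    · exact hKN hx
    · exact hsN l
  have hF₁F' : F₁ ≤ cl (u.ult F' : Set ℂ) := by
    refine cl_le (cl_closed _) ?_
    rintro x (⟨f, hf, rfl⟩ | ⟨l, rfl⟩)
    · exact subset_cl _ ⟨f, fun k => subset_cl _ (Or.inl (hf k)), rfl⟩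
    · exact subset_cl _ (u.le_ult hF'N (subset_cl _ (Or.inr ⟨l, rfl⟩)))
  -- the sequences
  let p : ℕ → Fin n → ℂ := fun k j => cb b (Q k j)
  have hcbN : ∀ q : Fin r → ℚ, cb b q ∈ N := fun q => by
    refine sum_mem fun j _ => mul_mem ?_ (hbN j)
    have := N.algebraMap_mem (q j)
    rwa [eq_ratCast] at this
  have hspan : ∀ (q : Fin r → ℚ), cb b q ∈ Submodule.span (kL L) (Set.range b) := by
    intro q
    refine sum_mem fun j _ => ?_
    have h5 : (q j : ℂ) * b j = (algebraMap ℚ (kL L) (q j)) • b j := by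
      rw [Algebra.smul_def]
      rfl
    rw [h5]
    exact Submodule.smul_mem _ _ (Submodule.subset_span ⟨j, rfl⟩)
  have hspan' : ∀ (a : Fin n → kL L) k, ∑ j, (a j : ℂ) * p k j ∈
      Submodule.span (kL L) (Set.range b) := by
    intro a k
    refine sum_mem fun j _ => ?_
    have h5 : (a j : ℂ) * p k j = a j • p k j := rfl
    rw [h5]
    exact Submodule.smul_mem _ _ (hspan _)
  have hwpN : ∀ z ∈ Submodule.span (kL L) (Set.range b), ℘[L] z ∈ N := by
    intro z hz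
    rcases (span_mem hNc h2N h3N hbN hpN hzN hz).2.1 with h | h
    · have : ℘[L] z = 0 := L.weierstrassP_coe ⟨z, h⟩
      rw [this]
      exact zero_mem _
    · exact h.1
  have hztN : ∀ z ∈ Submodule.span (kL L) (Set.range b), zt L z ∈ N := fun z hz =>
    (span_mem hNc h2N h3N hbN hpN hzN hz).2.2
  -- the subspaces
  obtain ⟨J, hJ, hJi⟩ := exists_coord (GE L hKc h2 h3 (fun k i => cb b (Q k i)))
  obtain ⟨e, he, Ae, hAem, hAeG, hAei⟩ : ∃ e : ℕ,
      finrank (kL L) (GE L hKc h2 h3 (fun k i => cb b (Q k i))) = e ∧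
      ∃ a : Fin e → Fin n → kL L, (∀ i j, ∀ w ∈ L.lattice, (a i j : ℂ) * w ∈ L.lattice) ∧
        (∀ i, a i ∈ GE L hKc h2 h3 (fun k i => cb b (Q k i))) ∧ LinearIndependent (kL L) a :=
    ⟨_, rfl, int_basisK _⟩
  rw [he] at hJ
  -- the independent part
  let Λ : Fin 1 → PeriodPair := fun _ => L
  let fx : J → ℕ → N := fun j k => ⟨℘[L] (cb b (Q k j)), hwpN _ (hspan _)⟩
  let fz : J → ℕ → N := fun j k => ⟨zt L (cb b (Q k j)), hztN _ (hspan _)⟩
  let J' : ∀ c : Fin 1, Finset (Fin ((fun _ => n : Fin 1 → ℕ) c)) := fun _ => J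
  have hind := indJ hKc hNc hKN u τ d hdK hdN hexp (q := 1) (Λ := Λ) (fun _ => h2) (fun _ => h3)
    (fun c c' hc => absurd (Subsingleton.elim c c') hc) b heN (fun _ => hpN) (fun _ => hzN)
    (m := 0) (nn := fun _ => n) (fun _ j => j.elim0) (fun k _ j => Q k j) ∅ J'
    (linearIndependent_empty_type) (fun _ => hJi)
    (fun j => absurd j.2 (Finset.notMem_empty _)) (fun j => absurd j.2 (Finset.notMem_empty _))
    (fun j => fx j.2) (fun j k => rfl) (fun j => fz j.2) (fun j k => rfl)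
  let xs : J ⊕ J → ℕ → N := Sum.elim fx fz
  have hxs : AlgebraicIndependent (u.mb K) (fun j => u.c (xs j)) := by
    let ι : J ⊕ J → (∅ : Finset (Fin 0)) ⊕ ((Σ c, J' c) ⊕ (Σ c, J' c)) := fun j =>
      Sum.inr (Sum.map (fun j => ⟨0, j⟩) (fun j => ⟨0, j⟩) j)
    have hι : Function.Injective ι := by
      rintro (j | j) (j' | j') hjj
      · simp only [ι, Sum.map_inl, Sum.inr.injEq, Sum.inl.injEq, Sigma.mk.injEq, heq_eq_eq,
          true_and] at hjj
        rw [hjj]
      · simp [ι] at hjj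
      · simp [ι] at hjj
      · simp only [ι, Sum.map_inr, Sum.inr.injEq, Sigma.mk.injEq, heq_eq_eq,
          true_and] at hjj
        rw [hjj]
    have h4 := hind.comp ι hι
    have h5 : (fun j => u.c (xs j)) = Sum.elim
        (fun j : (∅ : Finset (Fin 0)) => u.c ((absurd j.2 (Finset.notMem_empty _) : ℕ → N)))
        (Sum.elim (fun j : (Σ c, J' c) => u.c (fx j.2)) (fun j : (Σ c, J' c) => u.c (fz j.2))) ∘
          ι := by
      funext j
      rcases j with j | j <;> rfl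
    rw [h5]
    exact h4
  -- the coordinates
  let zs : Fin n ⊕ (Fin n ⊕ Fin n) → ℕ → N := Sum.elim (fun j k => ⟨p k j, hcbN _⟩)
    (Sum.elim (fun j k => ⟨℘[L] (p k j), hwpN _ (hspan _)⟩)
      (fun j k => ⟨zt L (p k j), hztN _ (hspan _)⟩))
  have hzs : ∀ i k, (zs i k : ℂ) = zZ L (p k) i := by
    rintro (i | (i | i)) k <;> rfl
  let ys : Fin n ⊕ (Fin e ⊕ Fin e) → ℕ → N := Sum.elim (fun j k => ⟨p k j, hcbN _⟩)
    (Sum.elim (fun i k => ⟨℘[L] (apk Ae (p k) i), hwpN _ (hspan' _ _)⟩)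
      (fun i k => ⟨zt L (apk Ae (p k) i), hztN _ (hspan' _ _)⟩))
  have hys : ∀ i k, (ys i k : ℂ) = zW Ae (p k) i := by
    rintro (i | (i | i)) k <;> rfl
  have hall : ∀ {f : ℕ → ℂ} {g : ℕ → N}, (∀ k, (g k : ℂ) = f k) →
      ∀ᶠ k in (hyperfilter ℕ : Filter ℕ), (g k : ℂ) = f k := fun h => Filter.Eventually.of_forall h
  -- the middle field
  have hmid : ∀ i, InE u (u.mb K) L (fun k => apk Ae (p k) i) ∧
      Cls u (u.mb K) (ztS L (fun k => apk Ae (p k) i)) := by
    intro i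
    obtain ⟨l, hl⟩ := mem_GE.1 (hAeG i)
    refine mid_mem (u := u) hNc hKc h2 h3 hKN hbN hpN hzN
      (z := fun k => apk Ae (p k) i) (fun k => hspan' _ _) (l := l) ?_
    filter_upwards [hl] with k hk
    exact lgE_lg hKc h2 h3 hk
  have hyM : ∀ i, u.c (ys i) ∈ u.mb K := by
    rintro (i | (i | i))
    · exact (Cls.cb hKN hbN (fun k => Q k i)).mem (hall fun k => rfl)
    · exact (hmid i).1.cls.mem (hall fun k => rfl)
    · exact (hmid i).2.mem (hall fun k => rfl)
  -- the closure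
  set Z : Set ℂ := Set.range fun i => u.c (zs i) with hZ
  set FZ : IntermediateField ℚ ℂ := cl ((F₁ : Set ℂ) ∪ Z) with hFZ
  have hzFZ : ∀ i, u.c (zs i) ∈ FZ := fun i => subset_cl _ (Or.inr ⟨i, rfl⟩)
  have hgF₁ : ∀ z ∈ K, z ∈ FZ := fun z hz => subset_cl _ (Or.inl (subset_cl _
    (Or.inl (u.le_ult hKN hz))))
  have hBas : Bas N FZ L := ⟨hNc, cl_closed _, h2N, h3N, hgF₁ _ h2, hgF₁ _ h3⟩
  have hp1 : ∀ j, Cls u FZ (fun k => p k j) := fun j =>
    ⟨zs (Sum.inl j), hall fun k => rfl, hzFZ _⟩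
  have hp2 : ∀ j, InE u FZ L (fun k => p k j) := fun j =>
    hBas.of_cls ⟨zs (Sum.inr (Sum.inl j)), hall fun k => rfl, hzFZ _⟩
  have hp3 : ∀ j, Cls u FZ (ztS L (fun k => p k j)) := fun j =>
    ⟨zs (Sum.inr (Sum.inr j)), hall fun k => rfl, hzFZ _⟩
  have hyz : ∀ i, u.c (ys i) ∈ (MK F₁).closure Z := by
    intro i
    refine closure_of_cl ?_
    rcases i with i | (i | i)
    · exact hzFZ (Sum.inl i)
    · exact (hBas.comb (u := u) univ (fun j => (Ae i j : ℂ)) (fun j _ => hAem i j)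
        (fun j k => p k j) fun j _ => hp2 j).cls.mem (hall fun k => rfl)
    · exact (hBas.zt_comb u univ (fun j => (Ae i j : ℂ)) (fun j _ => hAem i j)
        (fun j k => p k j) (fun j _ => hp2 j) (fun j _ => hp1 j) (fun j _ => hp3 j)).mem
        (hall fun k => rfl)
  have hxz : ∀ i, u.c (xs i) ∈ (MK F₁).closure Z := by
    rintro (i | i)
    · exact closure_of_cl (hzFZ (Sum.inr (Sum.inl i)))
    · exact closure_of_cl (hzFZ (Sum.inr (Sum.inr i)))
  have hrel' : ∀ f : Fin (2 * n - t) → Fin n ⊕ (Fin n ⊕ Fin n), Function.Injective f →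
      ¬ AlgebraicIndependent F₁ (fun i => u.c (zs (f i))) := fun f hf =>
    dep_of_W hKN u hsN (fun i => zs (f i)) E (fun k => A k f) (fun k μ l => hAK k f μ l)
      (fun k => hA0 k f hf) (fun k => by
        simp only [hzs]
        exact hrel k f hf)
  have hJc : Fintype.card (J ⊕ J) = 2 * (n - e) := by
    rw [Fintype.card_sum, Fintype.card_coe]
    omega
  have hen : e ≤ n := by omega
  have hte : t ≤ 2 * e := by
    by_contra hlt
    have h4 : 2 * n - t ≤ Fintype.card (J ⊕ J) := by omega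
    obtain ⟨ι⟩ : Nonempty (Fin (2 * n - t) ↪ J ⊕ J) :=
      Function.Embedding.nonempty_of_card_le (by rw [Fintype.card_fin]; exact h4)
    have h5 := count u hF₁mb hF₁F' (I := Fin 0) (fun i => i.elim0) (fun i => xs (ι i)) zs
      (fun i => i.elim0) (hxs.comp ι ι.injective) (fun i => i.elim0) (fun i => hxz _)
      (d := 0) (D := 2 * n - t) (by rw [Fintype.card_fin, zero_add]) hrel'
    obtain ⟨k, hk⟩ := h5.exists
    exact absurd hk (by simp)
  have hcount := count u hF₁mb hF₁F' ys xs zs hyM hxs hyz hxz (d := 2 * e - t)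
    (D := 2 * n - t) (by rw [hJc]; omega) hrel'
  simp only [hys] at hcount
  -- conclusion
  choose l hl using fun i => mem_GE.1 (hAeG i)
  have hlog : ∀ᶠ k in (hyperfilter ℕ : Filter ℕ), ∀ i, apk Ae (p k) i - l i ∈ lgE L K :=
    eventually_all.2 fun i => hl i
  obtain ⟨k₀, hk₀, hk₀'⟩ := (hlog.and hcount).exists
  refine ⟨e, Ae, hAem, hAei, k₀, ?_, hk₀'⟩
  filter_upwards [hlog, hcount] with k hk hk'
  refine ⟨fun i => ?_, hk'⟩
  have h5 := sub_mem (lgE_lg hKc h2 h3 (hk i)) (lgE_lg hKc h2 h3 (hk₀ i))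
  rw [sub_sub_sub_cancel_right] at h5
  exact mem_lgE hKc h2 h3 h5

end Pool.Agent.K1H83.BD
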