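import Mathlib
import Pool.Agent.K1H83.BD.FailZ
import Pool.Agent.K1H83.BD.Conv2

/-!
# Failures in bounded degree, for one elliptic curve, with the zeta function, II
-/

set_option autoImplicit false

open Filter Finset Module
open scoped PeriodPair

noncomputable section

namespace Pool.Agent.K1H83.BD

open H667R3 Pool.Agent.W245.EB
open Pool.Agent.W252
open Pool.Agent.TH813.Core Pool.Agent.TH813.Ell Pool.Agent.TH813.Core2 Pool.Agent.TH813.G
open Pool.Agent.TH813.Rel (MK)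

variable {L : PeriodPair}

/-- `trdeg F(p, ℘(a p), ζ(a p)) < 2 e - t` -/
def ThrZ (F : IntermediateField ℚ ℂ) (t : ℕ) {e n : ℕ} (a : Fin e → Fin n → kL L) (p : Fin n → ℂ) :
    Prop :=
  Algebra.trdeg F (IntermediateField.adjoin F (Set.range (zW a p))) < ((2 * e - t : ℕ) : Cardinal)

/-- a matrix of endomorphisms with independent rows -/
def GdZ {e n : ℕ} (a : Fin e → Fin n → kL L) : Prop :=
  (∀ i j, ∀ w ∈ L.lattice, (a i j : ℂ) * w ∈ L.lattice) ∧ LinearIndependent (kL L) a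

theorem thrZ_of {F F' : IntermediateField ℚ ℂ} (hF : F' ≤ cl (F : Set ℂ)) {t e n : ℕ}
    {a : Fin e → Fin n → kL L} {p : Fin n → ℂ}
    (h : (MK F').eRk (Set.range (zW a p)) < (2 * e - t : ℕ)) : ThrZ F t a p := by
  classical
  unfold ThrZ
  rw [Pool.Agent.TH813.Rel.lt_iff]
  by_contra hcon
  exact absurd (rk_mono hF _ (not_lt.1 hcon)) (not_le.2 h)

/-- **Finitely many failures of bounded degree modulo logarithms.** -/
theorem main7 (K : IntermediateField ℚ ℂ) (L : PeriodPair) (h2 : IsAlgebraic K L.g₂)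
    (h3 : IsAlgebraic K L.g₃) (V : Submodule ℚ ℂ) [FiniteDimensional ℚ V]
    (W : Submodule K ℂ) [FiniteDimensional K W] (δ n t : ℕ) :
    ∃ Φ : Set (Σ e : ℕ, (Fin e → Fin n → kL L) × (Fin n → ℂ)), Φ.Finite ∧
      (∀ φ ∈ Φ, GdZ φ.2.1 ∧ (∀ i, φ.2.2 i ∈ V) ∧ LinearIndependent (kL L) φ.2.2 ∧
        ThrZ (IntermediateField.adjoin ℚ ((K : Set ℂ) ∪ (W : Set ℂ))) t φ.2.1 φ.2.2) ∧
      ∀ p : Fin n → ℂ, (∀ i, p i ∈ V) → LinearIndependent (kL L) p →
        (∀ f : Fin (2 * n - t) → Fin n ⊕ (Fin n ⊕ Fin n), Function.Injective f →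
          Rel (W : Set ℂ) δ (fun i => zZ L p (f i))) →
        ∃ φ ∈ Φ, ThrZ (IntermediateField.adjoin ℚ ((K : Set ℂ) ∪ (W : Set ℂ))) t φ.2.1 p ∧
          ∀ i, LgE L K (apk φ.2.1 p i - apk φ.2.1 φ.2.2 i) := by
  classical
  set KW : IntermediateField ℚ ℂ := IntermediateField.adjoin ℚ ((K : Set ℂ) ∪ (W : Set ℂ)) with hKW
  -- bases
  let r := finrank ℚ V
  let bV := finBasis ℚ V
  let b : Fin r → ℂ := fun j => (bV j : ℂ)
  have hbV : ∀ Q : Fin r → ℚ, cb b Q ∈ V := fun Q => by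
    refine sum_mem fun j _ => ?_
    rw [← Rat.smul_def]
    exact V.smul_mem _ (bV j).2
  have hVb : ∀ x ∈ V, ∃ Q : Fin r → ℚ, cb b Q = x := fun x hx => by
    refine ⟨fun j => bV.repr ⟨x, hx⟩ j, ?_⟩
    have h4 := congrArg (fun t : V => (t : ℂ)) (bV.sum_repr ⟨x, hx⟩)
    simp only [Submodule.coe_sum, Submodule.coe_smul] at h4
    refine Eq.trans (sum_congr rfl fun j _ => ?_) h4
    rw [Rat.smul_def]
  let g := finrank K W
  let bW := finBasis K W
  let s : Fin g → ℂ := fun l => (bW l : ℂ)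
  have hWs : ∀ x ∈ W, ∃ a : Fin g → ℂ, (∀ l, a l ∈ K) ∧ ∑ l, a l * s l = x := fun x hx => by
    refine ⟨fun l => (bW.repr ⟨x, hx⟩ l : K), fun l => (bW.repr ⟨x, hx⟩ l).2, ?_⟩
    have h4 := congrArg (fun t : W => (t : ℂ)) (bW.sum_repr ⟨x, hx⟩)
    simp only [Submodule.coe_sum, Submodule.coe_smul] at h4
    refine Eq.trans (sum_congr rfl fun j _ => ?_) h4
    rfl
  -- the conditions
  set D := 2 * n - t with hD
  have hkc : Countable (kL L) := by
    have h4 : (kL L : Set ℂ) ⊆ cl (∅ : Set ℂ) := fun x hx =>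
      mem_of_killed (cl_closed _) fun D _ => der_kL D hx
    exact ((cl_countable Set.countable_empty).mono h4).to_subtype
  let 𝒞 := Σ e : ℕ, (Fin e → Fin n → kL L) × (Fin n → Fin r → ℚ)
  have hC : Countable 𝒞 := inferInstance
  let p₁ : 𝒞 → Fin n → ℂ := fun C j => cb b (C.2.2 j)
  let vv : 𝒞 → Σ e : ℕ, (Fin e → Fin n → kL L) × (Fin n → ℂ) := fun C => ⟨C.1, C.2.1, p₁ C⟩
  let Ok : 𝒞 → Prop := fun C => GdZ C.2.1 ∧ LinearIndependent (kL L) (p₁ C) ∧
    ThrZ KW t C.2.1 (p₁ C)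
  let Good : 𝒞 → (Fin n → ℂ) → Prop := fun C p =>
    ThrZ KW t C.2.1 p ∧ ∀ i, LgE L K (apk C.2.1 p i - apk C.2.1 (p₁ C) i)
  suffices hmain : ∃ F : Finset 𝒞, (∀ C ∈ F, Ok C) ∧
      ∀ p : Fin n → ℂ, (∀ i, p i ∈ V) → LinearIndependent (kL L) p →
        (∀ f : Fin D → Fin n ⊕ (Fin n ⊕ Fin n), Function.Injective f →
          Rel (W : Set ℂ) δ (fun i => zZ L p (f i))) →
        ∃ C ∈ F, Good C p by
    obtain ⟨F, hF, hFm⟩ := hmain
    refine ⟨vv '' (F : Set 𝒞), F.finite_toSet.image vv, ?_, ?_⟩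
    · rintro _ ⟨C, hC, rfl⟩
      exact ⟨(hF C hC).1, fun i => hbV _, (hF C hC).2.1, (hF C hC).2.2⟩
    · intro p hp hi hrel
      obtain ⟨C, hC, hCg⟩ := hFm p hp hi hrel
      exact ⟨vv C, ⟨C, hC, rfl⟩, hCg⟩
  by_contra hno
  push Not at hno
  obtain ⟨enc⟩ : Nonempty (Encodable 𝒞) := ⟨Encodable.ofCountable 𝒞⟩
  let FF : ℕ → Finset 𝒞 := fun k =>
    (((Finset.range (k + 1)).image fun i => (Encodable.decode i : Option 𝒞)).eraseNone).filter Ok
  have hFF : ∀ k, ∀ C ∈ FF k, Ok C := fun k C hC => (Finset.mem_filter.1 hC).2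
  choose P hP hPi hrel hgood using fun k => hno (FF k) (hFF k)
  have hmem : ∀ C : 𝒞, Ok C → ∀ k, Encodable.encode C ≤ k → C ∈ FF k := by
    intro C hC k hk
    rw [Finset.mem_filter]
    refine ⟨?_, hC⟩
    rw [Finset.mem_eraseNone, Finset.mem_image]
    exact ⟨Encodable.encode C, by rw [Finset.mem_range]; omega, Encodable.encodek C⟩
  choose Q hQ using fun k j => hVb _ (hP k j)
  choose PP hPP0 hPPd hPPW hPPe using hrel
  let A : ℕ → (Fin D → Fin n ⊕ (Fin n ⊕ Fin n)) → (Fin D →₀ ℕ) → Fin g → ℂ := fun k f μ l =>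
    if hf : Function.Injective f then
      (if μ ∈ expo (Fin D) δ then Classical.choose (hWs _ (hPPW k f hf μ)) l else 0) else 0
  have hAK : ∀ k f μ l, A k f μ l ∈ K := by
    intro k f μ l
    simp only [A]
    split_ifs with hf hμ
    · exact (Classical.choose_spec (hWs _ (hPPW k f hf μ))).1 l
    · exact zero_mem _
    · exact zero_mem _
  have hAs : ∀ k f (hf : Function.Injective f) μ, μ ∈ expo (Fin D) δ →
      ∑ l, A k f μ l * s l = (PP k f hf).coeff μ := by
    intro k f hf μ hμ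
    simp only [A, dif_pos hf, if_pos hμ]
    exact (Classical.choose_spec (hWs _ (hPPW k f hf μ))).2
  -- the countable field
  let S₀ : Set ℂ := {L.g₂} ∪ ({L.g₃} ∪
    ⋃ k : ℕ, ⋃ f : Fin D → Fin n ⊕ (Fin n ⊕ Fin n),
    ⋃ μ ∈ (expo (Fin D) δ : Finset (Fin D →₀ ℕ)), Set.range (A k f μ))
  have hS₀c : S₀.Countable := by
    refine (Set.countable_singleton _).union ((Set.countable_singleton _).union ?_)
    refine Set.countable_iUnion fun k => Set.countable_iUnion fun f => ?_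
    refine (Finset.countable_toSet _).biUnion fun μ _ => Set.countable_range _
  have hS₀a : ∀ x ∈ S₀, IsAlgebraic K x := by
    rintro x (rfl | rfl | hx)
    · exact h2
    · exact h3
    · rw [Set.mem_iUnion] at hx
      obtain ⟨k, hx⟩ := hx
      rw [Set.mem_iUnion] at hx
      obtain ⟨f, hx⟩ := hx
      rw [Set.mem_iUnion₂] at hx
      obtain ⟨μ, -, l, rfl⟩ := hx
      exact isAlgebraic_algebraMap (⟨_, hAK k f μ l⟩ : K)
  set K' := cl S₀ with hK'
  have hAK' : ∀ k f μ l, A k f μ l ∈ K' := by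
    intro k f μ l
    by_cases hμ : μ ∈ expo (Fin D) δ
    · refine subset_cl _ (Or.inr (Or.inr ?_))
      rw [Set.mem_iUnion]
      refine ⟨k, ?_⟩
      rw [Set.mem_iUnion]
      refine ⟨f, ?_⟩
      rw [Set.mem_iUnion₂]
      exact ⟨μ, hμ, l, rfl⟩
    · have : A k f μ l = 0 := by
        simp only [A, if_neg hμ]
        split_ifs <;> rfl
      rw [this]
      exact zero_mem _
  have hQP : ∀ k, (fun j => cb b (Q k j)) = P k := fun k => funext fun j => hQ k j
  obtain ⟨e, a, ha, hai, k₀, hk, hk₀⟩ := fail_seqZ (cl_closed S₀) (cl_countable hS₀c)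
    (L := L) (subset_cl _ (Or.inl rfl)) (subset_cl _ (Or.inr (Or.inl rfl)))
    b Q s t (expo (Fin D) δ) A hAK'
    (by
      intro k f hf
      obtain ⟨μ, hμ⟩ := MvPolynomial.ne_zero_iff.1 (hPP0 k f hf)
      have hμE : μ ∈ expo (Fin D) δ := mem_expo (hPPd k f hf) (MvPolynomial.mem_support_iff.2 hμ)
      refine ⟨μ, hμE, ?_⟩
      rw [hAs k f hf μ hμE]
      exact hμ)
    (by
      intro k f hf
      have h4 := hPPe k f hf
      rw [MvPolynomial.eval_eq'] at h4
      rw [hQP k]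
      refine Eq.trans ?_ h4
      rw [sum_congr rfl fun μ hμ => by rw [hAs k f hf μ hμ]]
      refine (Finset.sum_subset (fun μ hμ => mem_expo (hPPd k f hf) hμ) fun μ _ hμ => ?_).symm
      rw [MvPolynomial.notMem_support_iff.1 hμ, zero_mul])
  have hF' : cl ((cl S₀ : Set ℂ) ∪ Set.range s) ≤ cl (KW : Set ℂ) := by
    refine cl_le (cl_closed _) ?_
    rintro x (hx | ⟨l, rfl⟩)
    · refine (cl_le (cl_closed _) (fun y hy => ?_) : cl S₀ ≤ cl (KW : Set ℂ)) hx
      have h4 := hS₀a y hy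
      exact cl_closed _ y (alg_of_subset _ (fun r => subset_cl _
        (IntermediateField.subset_adjoin ℚ _ (Or.inl r.2))) (algebraMap K ℂ).injective h4)
    · exact subset_cl _ (IntermediateField.subset_adjoin ℚ _ (Or.inr (bW l).2))
  let C₀ : 𝒞 := ⟨e, a, Q k₀⟩
  have hp₁ : p₁ C₀ = P k₀ := hQP k₀
  have hOk : Ok C₀ := by
    refine ⟨⟨ha, hai⟩, ?_, ?_⟩
    · rw [hp₁]
      exact hPi k₀
    · rw [hp₁]
      rw [hQP] at hk₀
      exact thrZ_of hF' hk₀
  have h4 : ∀ᶠ k in (hyperfilter ℕ : Filter ℕ), Encodable.encode C₀ ≤ k :=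
    Filter.Tendsto.eventually (f := id) (Filter.tendsto_id.mono_left
      (by rw [← Nat.cofinite_eq_atTop]; exact Filter.hyperfilter_le_cofinite) :
      Filter.Tendsto id (hyperfilter ℕ : Filter ℕ) Filter.atTop)
      (Filter.eventually_ge_atTop _)
  obtain ⟨k, ⟨hk2, hk3⟩, hk4⟩ := (hk.and h4).exists
  refine hgood k C₀ (hmem C₀ hOk k hk4) ⟨?_, ?_⟩
  · rw [hQP] at hk3
    exact thrZ_of hF' hk3
  · intro i
    have h5 := hk2 i
    change LgE L K (apk a (P k) i - apk a (p₁ C₀) i)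
    rw [hp₁]
    rw [hQP, hQP] at h5
    rcases h5 with h5 | h5
    · exact Or.inl h5
    · exact Or.inr (alg_of_cl hS₀a h5)

/-- combinations of independent numbers are independent -/
theorem apk_indep {e n : ℕ} {a : Fin e → Fin n → kL L} (ha : LinearIndependent (kL L) a)
    {p : Fin n → ℂ} (hp : LinearIndependent (kL L) p) : LinearIndependent (kL L) (apk a p) := by
  rw [Fintype.linearIndependent_iff] at hp ⊢
  intro c hc
  have h1 : ∀ j, ∑ i, c i * a i j = 0 := by
    refine hp (fun j => ∑ i, c i * a i j) ?_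
    rw [← hc]
    unfold apk
    have e1 : ∀ j, (∑ i, c i * a i j) • p j = ∑ i, (c i : ℂ) * ((a i j : ℂ) * p j) := by
      intro j
      have e2 : (∑ i, c i * a i j) • p j = ((∑ i, c i * a i j : kL L) : ℂ) * p j := rfl
      rw [e2]
      push_cast
      rw [Finset.sum_mul]
      exact sum_congr rfl fun i _ => by ring
    rw [sum_congr rfl fun j _ => e1 j, Finset.sum_comm]
    refine sum_congr rfl fun i _ => ?_
    have e3 : c i • (∑ j, (a i j : ℂ) * p j) = (c i : ℂ) * ∑ j, (a i j : ℂ) * p j := rfl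
    rw [e3, Finset.mul_sum]
  refine Fintype.linearIndependent_iff.1 ha c ?_
  funext j
  rw [Finset.sum_apply]
  exact h1 j

/-- the image of a failure -/
theorem ThrZ.defect {F : IntermediateField ℚ ℂ} {t e n : ℕ} {a : Fin e → Fin n → kL L}
    {p : Fin n → ℂ} (h : ThrZ F t a p) :
    Algebra.trdeg F (IntermediateField.adjoin F (Set.range (zZ L (apk a p)))) <
      ((2 * e - t : ℕ) : Cardinal) := by
  classical
  unfold ThrZ at h
  rw [Pool.Agent.TH813.Rel.lt_iff] at h ⊢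
  refine lt_of_le_of_lt (Pool.Agent.TH813.Rel.rk_le_of_subset_cl ?_) h
  rintro _ ⟨i | (i | i), rfl⟩
  · change ∑ j, (a i j : ℂ) * p j ∈ _
    refine Finset.sum_induction _ (fun z => z ∈ (MK F).closure (Set.range (zW a p)))
      (fun z y hz hy => Pool.Agent.TH813.Rel.cl_add hz hy) ?_ fun j _ => ?_
    · exact Pool.Agent.TH813.Rel.cl_of_base _ (0 : F)
    · refine Pool.Agent.TH813.Rel.cl_mul ?_
        (Pool.Agent.TH813.Rel.subset_cl _ ⟨Sum.inl j, rfl⟩)
      have h4 : (a i j : ℂ) ∈ cl ((F : Set ℂ) ∪ Set.range (zW a p)) :=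
        mem_of_killed (cl_closed _) fun D _ => der_kL D (a i j).2
      exact closure_of_cl h4
  · exact Pool.Agent.TH813.Rel.subset_cl _ ⟨Sum.inr (Sum.inl i), rfl⟩
  · exact Pool.Agent.TH813.Rel.subset_cl _ ⟨Sum.inr (Sum.inr i), rfl⟩

/-- a tuple which fails through a matrix fails -/
theorem ThrZ.fails {F : IntermediateField ℚ ℂ} (h2 : IsAlgebraic F L.g₂)
    (h3 : IsAlgebraic F L.g₃) {t e n : ℕ} {a : Fin e → Fin n → kL L}
    (ha : LinearIndependent (kL L) a) {p : Fin n → ℂ} (h : ThrZ F t a p) :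
    Algebra.trdeg F (IntermediateField.adjoin F (Set.range (zZ L p))) <
      ((2 * n - t : ℕ) : Cardinal) := by
  classical
  unfold ThrZ at h
  rw [Pool.Agent.TH813.Rel.lt_iff] at h ⊢
  obtain ⟨J, hJ, hy⟩ := coord_comb _ ha
  let T : Set ℂ := Set.range (Sum.elim (fun j : J => ℘[L] (p j)) (fun j : J => zt L (p j)))
  set E : IntermediateField ℚ ℂ := cl ((F : Set ℂ) ∪ (Set.range (zW a p) ∪ T)) with hE
  have hEc : Clo E := cl_closed _
  have hFE : ∀ z, IsAlgebraic F z → z ∈ E := fun z hz => hEc z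
    (alg_of_subset _ (fun r => subset_cl _ (Or.inl r.2)) (algebraMap F ℂ).injective hz)
  have hYE : ∀ i, zW a p i ∈ E := fun i => subset_cl _ (Or.inr (Or.inl ⟨i, rfl⟩))
  have hTE : ∀ i, (Sum.elim (fun j : J => ℘[L] (p j)) (fun j : J => zt L (p j))) i ∈ E :=
    fun i => subset_cl _ (Or.inr (Or.inr ⟨i, rfl⟩))
  obtain ⟨κ, hEig⟩ := exists_eig L
  -- the points
  have key : ∀ D : Derivation ℚ ℂ ℂ, (∀ x ∈ E, D x = 0) → ∀ i,
      om L D (p i) = 0 ∧ xi L κ D (p i) = 0 := by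
    intro D hD i
    have hD2 : D L.g₂ = 0 := hD _ (hFE _ h2)
    have hD3 : D L.g₃ = 0 := hD _ (hFE _ h3)
    have hk : D κ = 0 := hEig.kill D hD2 hD3
    have hp0 : ∀ j, D (p j) = 0 := fun j => hD _ (hYE (Sum.inl j))
    have hcomb : ∀ c : Fin n → kL L, D (∑ j, (c j : ℂ) * p j) = 0 := by
      intro c
      rw [map_sum]
      refine sum_eq_zero fun j _ => ?_
      rw [Derivation.leibniz, der_kL D (c j).2, hp0, smul_zero, smul_zero, add_zero]
    obtain ⟨y, hy⟩ := hy i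
    have e1 := coord_pt (algebraMap (kL L) ℂ) _ hy p
    set w : Fin e ⊕ J → ℂ := Sum.elim (fun l => ∑ j, (algebraMap (kL L) ℂ) (a l j) * p j)
      (fun j : J => p j) with hw
    have hw1 : ∀ κ', om L D (w κ') = 0 := by
      rintro (l | j)
      · exact om_kill (hD _ (hYE (Sum.inr (Sum.inl l))))
      · exact om_kill (hD _ (hTE (Sum.inl j)))
    have hw2 : ∀ κ', xi L κ D (w κ') = 0 := by
      intro κ'
      rw [xi_eq D hk, hw1, mul_zero, add_zero]
      unfold zk
      rw [map_sub, Derivation.leibniz, hk, smul_zero, add_zero]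
      rcases κ' with l | j
      · have h5 : D (zt L (w (Sum.inl l))) = 0 := hD _ (hYE (Sum.inr (Sum.inr l)))
        have h6 : D (w (Sum.inl l)) = 0 := hcomb (a l)
        rw [h5, h6, smul_zero, sub_zero]
      · have h5 : D (zt L (w (Sum.inr j))) = 0 := hD _ (hTE (Sum.inr j))
        have h6 : D (w (Sum.inr j)) = 0 := hp0 j
        rw [h5, h6, smul_zero, sub_zero]
    constructor
    · rw [e1]
      have h4 := (KE L hEc (hFE _ h2) (hFE _ h3)).sum hD univ
        (fun κ => (algebraMap (kL L) ℂ) (y κ)) (fun κ => (y κ).2) w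
      exact h4.trans (sum_eq_zero fun κ' _ => mul_eq_zero_of_right _ (hw1 κ'))
    · rw [e1, xi_sum D hD2 hD3]
      refine sum_eq_zero fun κ' _ => ?_
      have h4 := hEig.xi_mul D hD2 hD3 (algebraMap (kL L) ℂ (y κ')) (y κ').2 (w κ')
      rw [h4, hw2, mul_zero]
  have hsub : Set.range (zZ L p) ⊆ (MK F).closure (Set.range (zW a p) ∪ T) := by
    rintro _ ⟨i, rfl⟩
    refine closure_of_cl ?_
    change _ ∈ E
    rcases i with i | (i | i)
    · exact hYE (Sum.inl i)
    · change ℘[L] (p i) ∈ E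
      by_cases hl : p i ∈ L.lattice
      · have : ℘[L] (p i) = 0 := L.weierstrassP_coe ⟨_, hl⟩
        rw [this]
        exact zero_mem _
      refine mem_of_killed hEc fun D hD => ?_
      exact (wp_killed (hD _ (hFE _ h2)) (hD _ (hFE _ h3)) (key D hD i).1 hl).1
    · change zt L (p i) ∈ E
      refine mem_of_killed hEc fun D hD => ?_
      obtain ⟨h5, h6⟩ := key D hD i
      have hk : D κ = 0 := hEig.kill D (hD _ (hFE _ h2)) (hD _ (hFE _ h3))
      have h7 : D (p i) = 0 := hD _ (hYE (Sum.inl i))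
      rw [xi_eq D hk, h5, mul_zero, add_zero] at h6
      unfold zk at h6
      rw [map_sub, Derivation.leibniz, hk, h7, smul_zero, smul_zero, add_zero, sub_zero] at h6
      exact h6
  have h4 := Pool.Agent.TH813.Rel.rk_le_of_subset_cl hsub
  have h5 := (MK F).eRk_union_le_eRk_add_encard (Set.range (zW a p)) T
  have hT : T.encard ≤ (2 * J.card : ℕ) := by
    have h6 := Set.encard_image_le (Sum.elim (fun j : J => ℘[L] (p j)) (fun j : J => zt L (p j)))
      Set.univ
    rw [Set.image_univ, Set.encard_univ, ENat.card_eq_coe_fintype_card, Fintype.card_sum,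
      Fintype.card_coe, ← two_mul] at h6
    exact h6
  have h6 : (MK F).eRk (Set.range (zW a p)) + 1 ≤ ((2 * e - t : ℕ) : ℕ∞) :=
    Order.add_one_le_of_lt h
  have hpos : 0 < 2 * e - t := by
    have h7 : (1 : ℕ∞) ≤ ((2 * e - t : ℕ) : ℕ∞) := le_trans (by simp) h6
    exact_mod_cast h7
  have hsum : 2 * e - t + 2 * J.card = 2 * n - t := by omega
  have h7 : (MK F).eRk (Set.range (zZ L p)) + 1 ≤ ((2 * n - t : ℕ) : ℕ∞) := by
    calc (MK F).eRk (Set.range (zZ L p)) + 1 ≤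
          ((MK F).eRk (Set.range (zW a p)) + T.encard) + 1 := by
          gcongr
          exact h4.trans h5
      _ ≤ ((MK F).eRk (Set.range (zW a p)) + ((2 * J.card : ℕ) : ℕ∞)) + 1 := by gcongr
      _ = ((MK F).eRk (Set.range (zW a p)) + 1) + ((2 * J.card : ℕ) : ℕ∞) := by ring
      _ ≤ ((2 * e - t : ℕ) : ℕ∞) + ((2 * J.card : ℕ) : ℕ∞) := by gcongr
      _ = ((2 * n - t : ℕ) : ℕ∞) := by rw [← hsum, Nat.cast_add]
  refine lt_of_lt_of_le ?_ h7
  refine ENat.lt_add_one_iff ?_ |>.2 le_rfl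
  intro htop
  rw [htop, top_add] at h7
  exact absurd h7 (not_le.2 (ENat.natCast_lt_top _))

/-- the square case -/
theorem logs_of_sqZ {K : IntermediateField ℚ ℂ} (h2 : IsAlgebraic K L.g₂)
    (h3 : IsAlgebraic K L.g₃) {e n : ℕ} {a : Fin e → Fin n → kL L}
    (ha : LinearIndependent (kL L) a) (hen : e = n) {p s : Fin n → ℂ}
    (hp : ∀ i, LgE L K (apk a p i - apk a s i)) (j : Fin n) : LgE L K (p j - s j) := by
  classical
  obtain ⟨y, hy⟩ := span_rows hen _ ha j
  have h4 : ∀ p : Fin n → ℂ, ∑ i, (y i : ℂ) * apk a p i = p j := by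
    intro p
    unfold apk
    simp only [Finset.mul_sum]
    rw [Finset.sum_comm]
    have h5 : ∀ l, ∑ i, (y i : ℂ) * ((a i l : ℂ) * p l) =
        (((Pi.single j 1 : Fin n → kL L) l : kL L) : ℂ) * p l := by
      intro l
      rw [← hy, Finset.sum_apply]
      push_cast
      rw [Finset.sum_mul]
      refine sum_congr rfl fun i _ => ?_
      rw [Pi.smul_apply, smul_eq_mul]
      push_cast
      ring
    rw [sum_congr rfl fun l _ => h5 l, Finset.sum_eq_single j]
    · rw [Pi.single_eq_same]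
      simp
    · intro i _ hi
      rw [Pi.single_eq_of_ne hi]
      simp
    · intro h
      exact absurd (mem_univ _) h
  have h5 := lgE_comb h2 h3 y _ hp
  simp only [mul_sub, sum_sub_distrib] at h5
  rwa [h4, h4] at h5

end Pool.Agent.K1H83.BD
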